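import Pool.Agent.Lib.MP_b2bfca_co.K3U.Defs

/-!
# Orthonormal frames of `ℝ^3` and product coordinates

PROOFS.
* `exists_third`: the orthogonal complement of `span {e, m}` has dimension at least `1`
  (finrank 3), take a unit vector in it (or complete to an orthonormal basis).
* `frame_norm`, `frame_expand`: an orthonormal family of three vectors in dimension three is an
  orthonormal basis (`OrthonormalBasis.mk` / `basisOfOrthonormalOfCardEqFinrank`);
  `OrthonormalBasis.sum_repr`, `OrthonormalBasis.sum_sq_norm_inner_right` or direct.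
* `frame_mp`: translation by `-p` is measure preserving, `OrthonormalBasis.measurePreserving_repr`,
  `EuclideanSpace.volume_preserving_symm_measurableEquiv_toLp` (or `volume_preserving_ofLp`),
  and `Fin 3 → ℝ` to `ℝ × ℝ × ℝ` by `MeasurableEquiv.piFinSuccAbove` twice
  (`volume_preserving_piFinSuccAbove`), `volume_preserving_finTwoArrow`.
-/

set_option autoImplicit false

namespace Pool.Agent.Lib.MP_b2bfca_co.K3U

open MeasureTheory

/-- the orthonormal basis of a frame -/
theorem Frame_onb {v : Fin 3 → E3} (h : Orthonormal ℝ v) :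
    ∃ b : OrthonormalBasis (Fin 3) ℝ E3, ∀ i, b i = v i := by
  have hc : Fintype.card (Fin 3) = Module.finrank ℝ E3 := by simp
  refine ⟨OrthonormalBasis.mk h ?_, fun i => by rw [OrthonormalBasis.coe_mk]⟩
  rw [h.linearIndependent.span_eq_top_of_card_eq_finrank' hc]

theorem exists_third (e m : E3) (he : ‖e‖ = 1) (hm : ‖m‖ = 1) (hem : inner ℝ e m = 0) :
    ∃ n : E3, Orthonormal ℝ ![e, m, n] := by
  classical
  have hv : Orthonormal ℝ (Set.domRestrict ({0, 1} : Set (Fin 3)) (![e, m, 0] : Fin 3 → E3)) := by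
    rw [orthonormal_iff_ite]
    rintro ⟨i, hi⟩ ⟨j, hj⟩
    have hme : inner ℝ m e = 0 := by rw [real_inner_comm]; exact hem
    have hee : inner ℝ e e = (1 : ℝ) := by rw [real_inner_self_eq_norm_sq, he]; norm_num
    have hmm : inner ℝ m m = (1 : ℝ) := by rw [real_inner_self_eq_norm_sq, hm]; norm_num
    rcases hi with hi | hi <;> rcases hj with hj | hj <;> subst hi <;> subst hj <;>
      simp [hem, hme, he, hm]
  obtain ⟨b, hb⟩ := hv.exists_orthonormalBasis_extension_of_card_eq (by simp)
  refine ⟨b 2, ?_⟩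
  have h0 : b 0 = e := by rw [hb 0 (by simp)]; rfl
  have h1 : b 1 = m := by rw [hb 1 (by simp)]; rfl
  have h2 : (![e, m, b 2] : Fin 3 → E3) = b := by
    funext i
    fin_cases i
    · exact h0.symm
    · exact h1.symm
    · rfl
  rw [h2]
  exact b.orthonormal

theorem frame_expand (p e m n : E3) (h : Orthonormal ℝ ![e, m, n]) (x : E3) :
    x = p + (inner ℝ (x - p) e) • e + (inner ℝ (x - p) m) • m + (inner ℝ (x - p) n) • n := by
  obtain ⟨b, hb⟩ := Frame_onb h
  have h0 : b 0 = e := hb 0
  have h1 : b 1 = m := hb 1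
  have h2 : b 2 = n := hb 2
  have h3 := b.sum_repr' (x - p)
  rw [Fin.sum_univ_three, h0, h1, h2, real_inner_comm, real_inner_comm _ m, real_inner_comm _ n] at h3
  rw [add_assoc, add_assoc, ← add_assoc ((inner ℝ (x - p) e) • e)]
  rw [h3]
  abel

theorem frame_norm (p e m n : E3) (h : Orthonormal ℝ ![e, m, n]) (x : E3) :
    ‖x - p‖ ^ 2 = inner ℝ (x - p) e ^ 2 + inner ℝ (x - p) m ^ 2 + inner ℝ (x - p) n ^ 2 := by
  obtain ⟨b, hb⟩ := Frame_onb h
  have h0 : b 0 = e := hb 0
  have h1 : b 1 = m := hb 1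
  have h2 : b 2 = n := hb 2
  have h3 := b.sum_sq_norm_inner_right (x - p)
  rw [Fin.sum_univ_three, h0, h1, h2, real_inner_comm, real_inner_comm _ m, real_inner_comm _ n,
    Real.norm_eq_abs, Real.norm_eq_abs, Real.norm_eq_abs, sq_abs, sq_abs, sq_abs] at h3
  exact h3.symm

theorem frame_mp (p e m n : E3) (h : Orthonormal ℝ ![e, m, n]) :
    MeasurePreserving (fun x : E3 =>
      ((inner ℝ (x - p) e, inner ℝ (x - p) m, inner ℝ (x - p) n) : ℝ × ℝ × ℝ))
      volume volume := by
  obtain ⟨b, hb⟩ := Frame_onb h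
  have h0 : b 0 = e := hb 0
  have h1 : b 1 = m := hb 1
  have h2 : b 2 = n := hb 2
  have m1 : MeasurePreserving (fun x : E3 => x - p) volume volume :=
    measurePreserving_sub_right volume p
  have m2 := b.measurePreserving_repr
  have m3 := PiLp.volume_preserving_ofLp (Fin 3)
  have m4 := volume_preserving_piFinSuccAbove (fun _ : Fin 3 => ℝ) 0
  have m5 := (MeasurePreserving.id (volume : Measure ℝ)).prod (volume_preserving_finTwoArrow ℝ)
  have m6 := m5.comp (m4.comp (m3.comp (m2.comp m1)))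
  have m7 : (fun x : E3 =>
      ((inner ℝ (x - p) e, inner ℝ (x - p) m, inner ℝ (x - p) n) : ℝ × ℝ × ℝ)) =
      (Prod.map id (MeasurableEquiv.finTwoArrow (α := ℝ))) ∘
        ((MeasurableEquiv.piFinSuccAbove (fun _ : Fin 3 => ℝ) 0) ∘
          ((WithLp.ofLp) ∘ ((b.repr) ∘ fun x : E3 => x - p))) := by
    funext x
    have e0 : b.repr (x - p) 0 = inner ℝ (x - p) e := by
      rw [b.repr_apply_apply, h0, real_inner_comm]
    have e1 : b.repr (x - p) 1 = inner ℝ (x - p) m := by
      rw [b.repr_apply_apply, h1, real_inner_comm]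
    have e2 : b.repr (x - p) 2 = inner ℝ (x - p) n := by
      rw [b.repr_apply_apply, h2, real_inner_comm]
    rw [← e0, ← e1, ← e2]
    rfl
  rw [m7]
  exact m6

end Pool.Agent.Lib.MP_b2bfca_co.K3U
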