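import Pool.Agent.Lib.MP_b2bfca_co.K3U.GeoA
import Pool.Agent.Lib.MP_b2bfca_co.K3U.Frame

/-!
# Geometry of triples of balls

PROOFS. `sn_sq`: `cs^2 ≤ 1` by Cauchy-Schwarz. `ev_eq`, `norm_mv`, `inner_ev_mv` from the
definition. `pw_diff_plane`: `pw_diff` for the pair `(i, k)` and
`inner (y - c i) (ev i k) = cs * inner (y - c i) (ev i j) + sn * inner (y - c i) (mv)`,
`inner (y - c i) (mv) = inner (y - tp) (mv)` as `tp - c i` is a multiple of `ev i j`.
`collinear_ev`: equality in Cauchy-Schwarz (`‖ev i k - cs • ev i j‖^2 = 1 - cs^2 = 0`).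
-/

set_option autoImplicit false

namespace Pool.Agent.Lib.MP_b2bfca_co.K3U

variable {ι : Type} (c : ι → E3) (w : ι → ℝ)

theorem cs_comm (i j k : ι) : cs c i j k = cs c i k j := by
  unfold cs
  rw [real_inner_comm]

theorem cs_sq_le {i j k : ι} (hj : c i ≠ c j) (hk : c i ≠ c k) : cs c i j k ^ 2 ≤ 1 := by
  have h1 := abs_real_inner_le_norm (ev c i j) (ev c i k)
  rw [norm_ev c hj, norm_ev c hk, one_mul] at h1
  unfold cs
  exact (sq_le_one_iff_abs_le_one _).2 h1

theorem sn_sq {i j k : ι} (hj : c i ≠ c j) (hk : c i ≠ c k) :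
    sn c i j k ^ 2 = 1 - cs c i j k ^ 2 := by
  unfold sn
  exact Real.sq_sqrt (by have := cs_sq_le c hj hk; linarith)

theorem sn_nonneg (i j k : ι) : 0 ≤ sn c i j k := Real.sqrt_nonneg _

/-- the norm of the component of `ev i k` orthogonal to `ev i j` -/
theorem GeoB_norm_sq {i j k : ι} (hj : c i ≠ c j) (hk : c i ≠ c k) :
    ‖ev c i k - cs c i j k • ev c i j‖ ^ 2 = 1 - cs c i j k ^ 2 := by
  rw [@norm_sub_sq_real, norm_smul, norm_ev c hj, norm_ev c hk, real_inner_smul_right,
    real_inner_comm (ev c i j) (ev c i k), Real.norm_eq_abs, mul_one, sq_abs]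
  unfold cs
  ring

theorem norm_mv {i j k : ι} (hj : c i ≠ c j) (hk : c i ≠ c k) (hs : sn c i j k ≠ 0) :
    ‖mv c i j k‖ = 1 := by
  have h0 : 0 < sn c i j k := lt_of_le_of_ne (sn_nonneg c i j k) (Ne.symm hs)
  have h1 : ‖ev c i k - cs c i j k • ev c i j‖ ^ 2 = sn c i j k ^ 2 := by
    rw [GeoB_norm_sq c hj hk, sn_sq c hj hk]
  have h2 : ‖ev c i k - cs c i j k • ev c i j‖ = sn c i j k :=
    (pow_left_inj₀ (norm_nonneg _) h0.le two_ne_zero).1 h1
  unfold mv
  rw [norm_smul, h2, norm_inv, Real.norm_of_nonneg h0.le, inv_mul_cancel₀ hs]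

theorem inner_ev_mv {i j k : ι} (hj : c i ≠ c j) : inner ℝ (ev c i j) (mv c i j k) = 0 := by
  unfold mv
  rw [real_inner_smul_right, inner_sub_right, real_inner_smul_right, real_inner_self_eq_norm_sq,
    norm_ev c hj]
  unfold cs
  ring

theorem ev_eq {i j k : ι} (hs : sn c i j k ≠ 0) :
    ev c i k = cs c i j k • ev c i j + sn c i j k • mv c i j k := by
  unfold mv
  rw [smul_smul, mul_inv_cancel₀ hs, one_smul]
  abel

/-- If the centres are collinear the unit vectors agree up to sign. -/
theorem collinear_ev {i j k : ι} (hj : c i ≠ c j) (hk : c i ≠ c k) (hs : sn c i j k = 0) :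
    ev c i k = ev c i j ∨ ev c i k = - ev c i j := by
  have h1 := sn_sq c (k := k) hj hk
  rw [hs] at h1
  have h2 : cs c i j k ^ 2 = 1 := by linarith
  have h3 := GeoB_norm_sq c (k := k) hj hk
  rw [h2, sub_self] at h3
  have h4 : ‖ev c i k - cs c i j k • ev c i j‖ = 0 := by
    exact pow_eq_zero_iff two_ne_zero |>.1 h3
  have h5 : ev c i k = cs c i j k • ev c i j := sub_eq_zero.1 (norm_eq_zero.1 h4)
  have h6 : cs c i j k * cs c i j k = 1 := by rw [← sq]; exact h2
  rcases mul_self_eq_one_iff.1 h6 with h | h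
  · left
    rw [h5, h, one_smul]
  · right
    rw [h5, h, neg_one_smul]

theorem pw_diff_plane {i j k : ι} (hj : c i ≠ c j) (hk : c i ≠ c k) (hs : sn c i j k ≠ 0)
    {y : E3} (hy : inner ℝ (y - c i) (ev c i j) = de c w i j) :
    pw c w k y - pw c w i y =
      2 * ‖c k - c i‖ * sn c i j k * (dd c w i j k - inner ℝ (y - tp c w i j) (mv c i j k)) := by
  have h1 := pw_diff c w hk y
  have h2 : inner ℝ (y - c i) (ev c i k) =
      cs c i j k * de c w i j + sn c i j k * inner ℝ (y - c i) (mv c i j k) := by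
    rw [ev_eq c hs, inner_add_right, real_inner_smul_right, real_inner_smul_right, hy]
  have h3 : inner ℝ (y - tp c w i j) (mv c i j k) = inner ℝ (y - c i) (mv c i j k) := by
    have h4 : y - tp c w i j = (y - c i) - de c w i j • ev c i j := by
      unfold tp
      abel
    rw [h4, inner_sub_left, real_inner_smul_left, inner_ev_mv c hj, mul_zero, sub_zero]
  have h4 : sn c i j k * dd c w i j k = de c w i k - cs c i j k * de c w i j := by
    unfold dd
    rw [mul_div_cancel₀ _ hs]
  rw [h1, h2, h3]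
  linear_combination (-2 * ‖c k - c i‖) * h4

/-- In the radical plane of `i, j` the difference of the powers of a collinear ball is constant. -/
theorem pw_diff_collinear {i j k : ι} (hj : c i ≠ c j) (hk : c i ≠ c k) (hs : sn c i j k = 0)
    {y y' : E3} (hy : inner ℝ (y - c i) (ev c i j) = de c w i j)
    (hy' : inner ℝ (y' - c i) (ev c i j) = de c w i j) :
    pw c w k y - pw c w i y = pw c w k y' - pw c w i y' := by
  rw [pw_diff c w hk, pw_diff c w hk]
  rcases collinear_ev c hj hk hs with h | h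
  · rw [h, hy, hy']
  · rw [h, inner_neg_right, inner_neg_right, hy, hy']

theorem sign_dd {i j k : ι} (hj : c i ≠ c j) (hk : c i ≠ c k) (hs : sn c i j k ≠ 0) :
    Real.sign (pw c w k (tp c w i j) - pw c w i (tp c w i j)) = Real.sign (dd c w i j k) := by
  have h0 : 0 < sn c i j k := lt_of_le_of_ne (sn_nonneg c i j k) (Ne.symm hs)
  have h1 : 0 < ‖c k - c i‖ := norm_pos_iff.2 (sub_ne_zero.2 (Ne.symm hk))
  have h2 : 0 < 2 * ‖c k - c i‖ * sn c i j k := by positivity
  rw [pw_diff_plane c w hj hk hs (inner_tp c w hj), sub_self, inner_zero_left, sub_zero]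
  rcases lt_trichotomy (dd c w i j k) 0 with h | h | h
  · rw [Real.sign_of_neg h, Real.sign_of_neg (mul_neg_of_pos_of_neg h2 h)]
  · rw [h, mul_zero]
  · rw [Real.sign_of_pos h, Real.sign_of_pos (mul_pos h2 h)]

/-- inner products of an orthonormal triple -/
theorem GeoB_on {e m n : E3} (h : Orthonormal ℝ ![e, m, n]) :
    ‖e‖ = 1 ∧ ‖m‖ = 1 ∧ ‖n‖ = 1 ∧ inner ℝ e m = 0 ∧ inner ℝ e n = 0 ∧ inner ℝ m n = 0 := by
  refine ⟨h.1 0, h.1 1, h.1 2, ?_, ?_, ?_⟩
  · exact h.2 (i := 0) (j := 1) (by decide)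
  · exact h.2 (i := 0) (j := 2) (by decide)
  · exact h.2 (i := 1) (j := 2) (by decide)

/-- the norm of a combination of an orthonormal triple -/
theorem GeoB_norm3 {e m n : E3} (h : Orthonormal ℝ ![e, m, n]) (a b d : ℝ) :
    ‖a • e + b • m + d • n‖ ^ 2 = a ^ 2 + b ^ 2 + d ^ 2 := by
  obtain ⟨h1, h2, h3, h4, h5, h6⟩ := GeoB_on h
  rw [@norm_add_sq_real, @norm_add_sq_real, inner_add_left, real_inner_smul_left,
    real_inner_smul_left, real_inner_smul_left, real_inner_smul_right, real_inner_smul_right,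
    real_inner_smul_right, h4, h5, h6, norm_smul, norm_smul, norm_smul, h1, h2, h3,
    Real.norm_eq_abs, Real.norm_eq_abs, Real.norm_eq_abs, mul_one, mul_one, mul_one, sq_abs,
    sq_abs, sq_abs]
  ring

theorem axis_iff {i j k : ι} (hj : c i ≠ c j) (hk : c i ≠ c k) (hs : sn c i j k ≠ 0) {n : E3}
    (hn : Orthonormal ℝ ![ev c i j, mv c i j k, n]) (y : E3) :
    (pw c w i y = pw c w j y ∧ pw c w i y = pw c w k y) ↔
      ∃ h : ℝ, y = tp c w i j + dd c w i j k • mv c i j k + h • n := by
  obtain ⟨h1, h2, h3, h4, h5, h6⟩ := GeoB_on hn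
  have h0 : 0 < sn c i j k := lt_of_le_of_ne (sn_nonneg c i j k) (Ne.symm hs)
  have h01 : 0 < ‖c k - c i‖ := norm_pos_iff.2 (sub_ne_zero.2 (Ne.symm hk))
  have h02 : 2 * ‖c k - c i‖ * sn c i j k ≠ 0 := by positivity
  constructor
  · rintro ⟨ha, hb⟩
    have hy := (pw_eq_iff c w hj y).1 ha
    have hp := pw_diff_plane c w hj hk hs hy
    rw [← hb, sub_self] at hp
    have hq : dd c w i j k - inner ℝ (y - tp c w i j) (mv c i j k) = 0 := by
      rcases mul_eq_zero.1 hp.symm with h | h
      · exact absurd h h02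
      · exact h
    have hr : inner ℝ (y - tp c w i j) (ev c i j) = 0 := by
      have h7 : y - tp c w i j = (y - c i) - de c w i j • ev c i j := by
        unfold tp
        abel
      rw [h7, inner_sub_left, real_inner_smul_left, real_inner_self_eq_norm_sq, h1, hy]
      ring
    have hexp := frame_expand (tp c w i j) _ _ _ hn y
    refine ⟨inner ℝ (y - tp c w i j) n, ?_⟩
    rw [hr, zero_smul, add_zero] at hexp
    rw [sub_eq_zero.1 hq]
    exact hexp
  · rintro ⟨h, rfl⟩
    have hy : inner ℝ (tp c w i j + dd c w i j k • mv c i j k + h • n - c i) (ev c i j) =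
        de c w i j := by
      have h7 : tp c w i j + dd c w i j k • mv c i j k + h • n - c i =
          de c w i j • ev c i j + dd c w i j k • mv c i j k + h • n := by
        unfold tp
        abel
      rw [h7, inner_add_left, inner_add_left, real_inner_smul_left, real_inner_smul_left,
        real_inner_smul_left, real_inner_self_eq_norm_sq, h1, real_inner_comm, h4,
        real_inner_comm, h5]
      ring
    refine ⟨(pw_eq_iff c w hj _).2 hy, ?_⟩
    have hp := pw_diff_plane c w hj hk hs hy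
    have hq : inner ℝ (tp c w i j + dd c w i j k • mv c i j k + h • n - tp c w i j)
        (mv c i j k) = dd c w i j k := by
      have h7 : tp c w i j + dd c w i j k • mv c i j k + h • n - tp c w i j =
          dd c w i j k • mv c i j k + h • n := by abel
      rw [h7, inner_add_left, real_inner_smul_left, real_inner_smul_left,
        real_inner_self_eq_norm_sq, h2, real_inner_comm, h6]
      ring
    rw [hq, sub_self, mul_zero] at hp
    linarith

theorem dist_axis {i j k : ι} {n : E3}
    (hn : Orthonormal ℝ ![ev c i j, mv c i j k, n]) (h : ℝ) :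
    ‖tp c w i j + dd c w i j k • mv c i j k + h • n - c i‖ ^ 2 =
      de c w i j ^ 2 + dd c w i j k ^ 2 + h ^ 2 ∧
    ‖tp c w i j + dd c w i j k • mv c i j k + h • n - tp c w i j‖ ^ 2 =
      dd c w i j k ^ 2 + h ^ 2 := by
  constructor
  · have h7 : tp c w i j + dd c w i j k • mv c i j k + h • n - c i =
        de c w i j • ev c i j + dd c w i j k • mv c i j k + h • n := by
      unfold tp
      abel
    rw [h7, GeoB_norm3 hn]
  · have h7 : tp c w i j + dd c w i j k • mv c i j k + h • n - tp c w i j =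
        (0 : ℝ) • ev c i j + dd c w i j k • mv c i j k + h • n := by
      rw [zero_smul]
      abel
    rw [h7, GeoB_norm3 hn]
    ring

end Pool.Agent.Lib.MP_b2bfca_co.K3U
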