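import Pool.Agent.Lib.MP_b2bfca_co.K3U.LemQ
import Pool.Agent.Lib.MP_b2bfca_co.K3U.GeoB

/-!
# Pointwise inequality for one facet

PROOF. Let `z = hp i j x`, `t = tp i j`, both in the radical plane `inner (y - c i) (ev i j) = de i j`,
`y_r = t + r (z - t)`. Claim: for `Dist3 i j k`, `x ∈ TT i j k ↔ ∃ r > 1, y_r ∈ SS i j k` if
`dd i j k ≠ 0`. (→) `x = c i + τ((t - c i) + s(y - t))`; `inner (x - c i) (ev i j) = τ de i j`
(as `inner (y - t) (ev i j) = 0`), so `z = t + s (y - t)`, `y = t + (1/s)(z - t)`, `r = 1/s`.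
(←) `s = 1/r`, `y = y_r`, `τ = inner (x - c i) (ev i j) / de i j > 0`.
Apply `lemQ` with `κ = {k // k ≠ i ∧ k ≠ j}`, `a k = pw k t - pw i t`,
`b k = (pw k z - pw i z) - (pw k t - pw i t)`, so `pw k y_r - pw i y_r = a k + b k r`
(`pw_diff_affine`). `y_r ∈ SS i j k` iff all `a m + b m r ≥ 0` (the cases `m = i, j` are trivial:
`pw i = pw j` on the plane) and `a k + b k r = 0`. `Real.sign (a k) = Real.sign (dd i j k)` if
`sn i j k ≠ 0` (`sign_dd`); if `sn i j k = 0` then `dd = 0` and `a k + b k r = a k ≠ 0` by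
`pw_diff_collinear` and `Gen.g1` (at the point `t`), so both terms are `0`. The hypothesis
`hgen` of `lemQ`: a good `r > 1` with both zero gives `y_r ∈ SS i j k ∩ SS i j l` and `x ∈ EX`.
`r = 1` good iff `z ∈ cell i`.
-/

set_option autoImplicit false

namespace Pool.Agent.Lib.MP_b2bfca_co.K3U

variable {ι : Type} [Fintype ι] (c : ι → E3) (w : ι → ℝ)

omit [Fintype ι] in
theorem ray_inner_hp {i j : ι} {x : E3} (hX : 0 < inner ℝ (x - c i) (ev c i j)) :
    inner ℝ (hp c w i j x - c i) (ev c i j) = de c w i j := by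
  unfold hp
  rw [add_sub_cancel_left, inner_smul_left]
  simp only [conj_trivial]
  field_simp

omit [Fintype ι] in
theorem ray_inner_y (hc : Function.Injective c) {i j : ι} (hij : i ≠ j) {x : E3}
    (hX : 0 < inner ℝ (x - c i) (ev c i j)) (r : ℝ) :
    inner ℝ (tp c w i j + r • (hp c w i j x - tp c w i j) - c i) (ev c i j) = de c w i j := by
  have h1 := ray_inner_hp c w hX
  have h2 := inner_tp c w (fun h => hij (hc h) : c i ≠ c j)
  have e : tp c w i j + r • (hp c w i j x - tp c w i j) - c i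
      = (1 - r) • (tp c w i j - c i) + r • (hp c w i j x - c i) := by
    module
  rw [e, inner_add_left, inner_smul_left, inner_smul_left, h1, h2]
  simp only [conj_trivial]
  ring

omit [Fintype ι] in
theorem ray_mem_TT (hc : Function.Injective c) {i j : ι} (hij : i ≠ j) {x : E3}
    (hde : 0 < de c w i j) {τ s : ℝ} (hτ : 0 < τ)
    (hs : 0 < s) {y : E3} (hy : inner ℝ (y - c i) (ev c i j) = de c w i j)
    (hx : x = c i + τ • ((tp c w i j - c i) + s • (y - tp c w i j))) :
    y = tp c w i j + s⁻¹ • (hp c w i j x - tp c w i j) := by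
  have h2 := inner_tp c w (fun h => hij (hc h) : c i ≠ c j)
  have hXe : inner ℝ (x - c i) (ev c i j) = τ * de c w i j := by
    have e : x - c i = τ • ((1 - s) • (tp c w i j - c i) + s • (y - c i)) := by
      rw [hx]; module
    rw [e, inner_smul_left, inner_add_left, inner_smul_left, inner_smul_left, h2, hy]
    simp only [conj_trivial]
    ring
  have hz : hp c w i j x = tp c w i j + s • (y - tp c w i j) := by
    unfold hp
    rw [hXe]
    have h3 : de c w i j / (τ * de c w i j) = τ⁻¹ := by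
      field_simp
    rw [h3]
    have h4 : x - c i = τ • ((tp c w i j - c i) + s • (y - tp c w i j)) := by
      rw [hx]; module
    rw [h4, smul_smul, inv_mul_cancel₀ hτ.ne', one_smul]
    module
  rw [hz]
  have h5 : tp c w i j + s • (y - tp c w i j) - tp c w i j = s • (y - tp c w i j) := by module
  rw [h5, smul_smul, inv_mul_cancel₀ hs.ne', one_smul]
  module

omit [Fintype ι] in
theorem ray_x_eq {i j : ι} {x : E3}
    (hde : 0 < de c w i j) (hX : 0 < inner ℝ (x - c i) (ev c i j)) {r : ℝ} (hr : 1 < r) :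
    x = c i + (inner ℝ (x - c i) (ev c i j) / de c w i j) • ((tp c w i j - c i) +
      r⁻¹ • (tp c w i j + r • (hp c w i j x - tp c w i j) - tp c w i j)) := by
  have hr0 : r ≠ 0 := by positivity
  have h5 : tp c w i j + r • (hp c w i j x - tp c w i j) - tp c w i j
      = r • (hp c w i j x - tp c w i j) := by module
  rw [h5, smul_smul, inv_mul_cancel₀ hr0, one_smul]
  have h6 : tp c w i j - c i + (hp c w i j x - tp c w i j) = hp c w i j x - c i := by module
  rw [h6]
  unfold hp
  have h7 : c i + (de c w i j / inner ℝ (x - c i) (ev c i j)) • (x - c i) - c i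
      = (de c w i j / inner ℝ (x - c i) (ev c i j)) • (x - c i) := by module
  rw [h7, smul_smul]
  have h8 : inner ℝ (x - c i) (ev c i j) / de c w i j *
      (de c w i j / inner ℝ (x - c i) (ev c i j)) = 1 := by
    field_simp
  rw [h8, one_smul]
  module

omit [Fintype ι] in
theorem ray_mem_TT_iff (hc : Function.Injective c) {i j : ι} (hij : i ≠ j) (k : ι) {x : E3}
    (hde : 0 < de c w i j) (hX : 0 < inner ℝ (x - c i) (ev c i j)) :
    x ∈ TT c w i j k ↔
      ∃ r : ℝ, 1 < r ∧ tp c w i j + r • (hp c w i j x - tp c w i j) ∈ SS c w i j k := by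
  constructor
  · rintro ⟨τ, hτ, s, hs, hs1, y, hy, hx⟩
    have hyi : inner ℝ (y - c i) (ev c i j) = de c w i j :=
      (pw_eq_iff c w (fun h => hij (hc h) : c i ≠ c j) y).1 hy.1
    have h := ray_mem_TT c w hc hij hde hτ hs hyi hx
    refine ⟨s⁻¹, (one_lt_inv₀ hs).2 hs1, ?_⟩
    rw [← h]
    exact hy
  · rintro ⟨r, hr, hy⟩
    have hr0 : 0 < r := by linarith
    exact ⟨inner ℝ (x - c i) (ev c i j) / de c w i j, by positivity, r⁻¹, by positivity,
      inv_lt_one_of_one_lt₀ hr, _, hy, ray_x_eq c w hde hX hr⟩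

omit [Fintype ι] in
theorem ray_affine (i j k : ι) (x : E3) (r : ℝ) :
    pw c w k (tp c w i j + r • (hp c w i j x - tp c w i j)) -
      pw c w i (tp c w i j + r • (hp c w i j x - tp c w i j)) =
      (pw c w k (tp c w i j) - pw c w i (tp c w i j)) +
      ((pw c w k (hp c w i j x) - pw c w i (hp c w i j x)) -
        (pw c w k (tp c w i j) - pw c w i (tp c w i j))) * r := by
  rw [pw_diff_affine]
  ring

omit [Fintype ι] in
theorem ray_mem_SS_iff (hc : Function.Injective c) {i j : ι} (hij : i ≠ j) (k : ι) {x : E3}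
    (hX : 0 < inner ℝ (x - c i) (ev c i j)) (r : ℝ) :
    tp c w i j + r • (hp c w i j x - tp c w i j) ∈ SS c w i j k ↔
      (∀ m : {m // m ≠ i ∧ m ≠ j}, 0 ≤ (pw c w m (tp c w i j) - pw c w i (tp c w i j)) +
      ((pw c w m (hp c w i j x) - pw c w i (hp c w i j x)) -
        (pw c w m (tp c w i j) - pw c w i (tp c w i j))) * r) ∧
      (pw c w k (tp c w i j) - pw c w i (tp c w i j)) +
      ((pw c w k (hp c w i j x) - pw c w i (hp c w i j x)) -
        (pw c w k (tp c w i j) - pw c w i (tp c w i j))) * r = 0 := by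
  have hij' : pw c w i (tp c w i j + r • (hp c w i j x - tp c w i j)) =
      pw c w j (tp c w i j + r • (hp c w i j x - tp c w i j)) :=
    (pw_eq_iff c w (fun h => hij (hc h) : c i ≠ c j) _).2 (ray_inner_y c w hc hij hX r)
  rw [← ray_affine c w i j k x r]
  constructor
  · rintro ⟨_, h2, h3⟩
    refine ⟨fun m => ?_, by rw [h2, sub_self]⟩
    rw [← ray_affine c w i j m x r, sub_nonneg]
    exact h3 m
  · rintro ⟨h1, h2⟩
    refine ⟨hij', by linarith, fun m => ?_⟩
    by_cases hmi : m = i
    · rw [hmi]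
    · by_cases hmj : m = j
      · rw [hmj, hij']
      · have := h1 ⟨m, hmi, hmj⟩
        rw [← ray_affine c w i j m x r, sub_nonneg] at this
        exact this

open Classical in
theorem ray_T (hc : Function.Injective c) (hg : Gen c w) {i j : ι} (hij : i ≠ j) {x : E3}
    (hde : 0 < de c w i j) (hX : 0 < inner ℝ (x - c i) (ev c i j))
    (hx : ∀ k l, Dist3 i j k → Dist3 i j l → k ≠ l → x ∉ EX c w i j k l) :
    ∑ k, TI c w i j k x ≤ (if hp c w i j x ∈ cell c w i then (1 : ℝ) else 0) := by
  set a : {m // m ≠ i ∧ m ≠ j} → ℝ := fun m => pw c w m (tp c w i j) - pw c w i (tp c w i j)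
    with ha
  set b : {m // m ≠ i ∧ m ≠ j} → ℝ := fun m =>
    (pw c w m (hp c w i j x) - pw c w i (hp c w i j x)) -
        (pw c w m (tp c w i j) - pw c w i (tp c w i j)) with hb
  have hD : ∀ m : {m // m ≠ i ∧ m ≠ j}, Dist3 i j m := fun m =>
    ⟨hij, fun h => m.2.1 h.symm, fun h => m.2.2 h.symm⟩
  have hgen : ∀ k l, k ≠ l → ∀ r : ℝ, 1 < r → (∀ m, 0 ≤ a m + b m * r) →
      ¬ (a k + b k * r = 0 ∧ a l + b l * r = 0) := by
    rintro k l hkl r hr hall ⟨hk, hl⟩
    have h1 := (ray_mem_SS_iff c w hc hij (k : ι) hX r).2 ⟨hall, hk⟩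
    have h2 := (ray_mem_SS_iff c w hc hij (l : ι) hX r).2 ⟨hall, hl⟩
    refine hx k l (hD k) (hD l) (fun h => hkl (Subtype.ext h)) ?_
    have hr0 : 0 < r := by linarith
    exact ⟨inner ℝ (x - c i) (ev c i j) / de c w i j, by positivity, r⁻¹, by positivity,
      inv_lt_one_of_one_lt₀ hr, _, ⟨h1, h2⟩, ray_x_eq c w hde hX hr⟩
  have key := lemQ a b hgen
  have hR : (if ∀ m, 0 ≤ a m + b m then (1 : ℝ) else 0) =
      (if hp c w i j x ∈ cell c w i then (1 : ℝ) else 0) := by
    have : (∀ m, 0 ≤ a m + b m) ↔ hp c w i j x ∈ cell c w i := by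
      have hij' : pw c w i (hp c w i j x) = pw c w j (hp c w i j x) :=
        (pw_eq_iff c w (fun h => hij (hc h) : c i ≠ c j) _).2 (ray_inner_hp c w hX)
      have hab : ∀ m, a m + b m = pw c w m (hp c w i j x) - pw c w i (hp c w i j x) := by
        intro m; simp only [ha, hb]; ring
      constructor
      · intro h m
        by_cases hmi : m = i
        · rw [hmi]
        · by_cases hmj : m = j
          · rw [hmj, hij']
          · have := h ⟨m, hmi, hmj⟩
            rw [hab] at this
            simpa using this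
      · intro h m
        rw [hab, sub_nonneg]
        exact h m
    simp only [this]
  rw [hR] at key
  refine le_trans (le_of_eq ?_) key
  have hsum : ∑ k, TI c w i j k x = ∑ k : {m // m ≠ i ∧ m ≠ j}, TI c w i j k x := by
    rw [← Finset.sum_filter_of_ne (p := fun m => m ≠ i ∧ m ≠ j)]
    · exact Finset.sum_subtype _ (by simp) _
    · intro m _ hm
      by_contra hcon
      apply hm
      unfold TI
      rw [if_neg]
      rintro ⟨_, h2, h3⟩
      exact hcon ⟨fun h => h2 h.symm, fun h => h3 h.symm⟩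
  rw [hsum]
  refine Finset.sum_congr rfl fun k _ => ?_
  unfold TI
  rw [if_pos (hD k)]
  have hTT : x ∈ TT c w i j k ↔
      ∃ r : ℝ, 1 < r ∧ (∀ m, 0 ≤ a m + b m * r) ∧ a k + b k * r = 0 := by
    rw [ray_mem_TT_iff c w hc hij k hde hX]
    refine exists_congr fun r => and_congr_right fun _ => ?_
    exact ray_mem_SS_iff c w hc hij (k : ι) hX r
  have hci : c i ≠ c j := fun h => hij (hc h)
  have hck : c i ≠ c k := fun h => k.2.1 (hc h).symm
  by_cases hs : sn c i j k = 0
  · have hdd : dd c w i j k = 0 := by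
      unfold dd
      rw [hs, div_zero]
    rw [hdd, Real.sign_zero, zero_mul, if_neg, mul_zero]
    rintro ⟨r, hr, hall, hk⟩
    have h1 := (ray_mem_SS_iff c w hc hij (k : ι) hX r).2 ⟨hall, hk⟩
    exact hg.g1 i j k (hD k) hs _ ⟨h1.1, h1.2.1⟩
  · rw [← sign_dd c w hci hck hs]
    by_cases hxT : x ∈ TT c w i j k
    · rw [Set.indicator_of_mem hxT, if_pos (hTT.1 hxT)]
      rfl
    · rw [Set.indicator_of_notMem hxT, if_neg (fun h => hxT (hTT.2 h))]

omit [Fintype ι] in
/-- If the ray does not meet the plane, `x` is in no cone region. -/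
theorem not_mem_TT (hc : Function.Injective c) {i j k : ι} (hij : i ≠ j) {x : E3}
    (hde : 0 < de c w i j) (hX : inner ℝ (x - c i) (ev c i j) ≤ 0) : x ∉ TT c w i j k := by
  rintro ⟨τ, hτ, s, hs, hs1, y, hy, hx⟩
  have h2 := inner_tp c w (fun h => hij (hc h) : c i ≠ c j)
  have hyi : inner ℝ (y - c i) (ev c i j) = de c w i j :=
    (pw_eq_iff c w (fun h => hij (hc h) : c i ≠ c j) y).1 hy.1
  have hXe : inner ℝ (x - c i) (ev c i j) = τ * de c w i j := by
    have e : x - c i = τ • ((1 - s) • (tp c w i j - c i) + s • (y - c i)) := by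
      rw [hx]; module
    rw [e, inner_smul_left, inner_add_left, inner_smul_left, inner_smul_left, h2, hyi]
    simp only [conj_trivial]
    ring
  rw [hXe] at hX
  have : 0 < τ * de c w i j := by positivity
  linarith

end Pool.Agent.Lib.MP_b2bfca_co.K3U
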