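import Pool.Agent.Lib.MP_b2bfca_co.K3U.NullT
import Pool.Agent.Lib.MP_b2bfca_co.K3U.RayT

/-!
# Pointwise inequality, all facets

PROOF. Exclude the null sets `EX i j k l` and the planes of `null_PL` (finitely many). For such `x`
and each `j ≠ i`: `∑ k, TI i j k x ≤ g j`, `g j = 1` if `0 < inner (x - c i) (ev i j)` and
`hp i j x ∈ cell i`, else `0` (`ray_T`, `not_mem_TT`); for `j = i` all terms are `0` (`Dist3`).
At most one `j` has `g j = 1`: let `j, l` be two, `z = c i + a (x - c i)`, `z' = c i + b (x - c i)`
with `a = de i j / X_j > 0`, `b = de i l / X_l > 0`, both in `cell i`. `z'` in the cell gives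
`inner (z' - c i) (ev i j) ≤ de i j`, i.e. `b X_j ≤ de i j = a X_j`, so `b ≤ a`; symmetric `a ≤ b`.
So `de i j X_l = de i l X_j`, excluded.
-/

set_option autoImplicit false

namespace Pool.Agent.Lib.MP_b2bfca_co.K3U

open MeasureTheory

variable {ι : Type} [Fintype ι] (c : ι → E3) (w : ι → ℝ)

omit [Fintype ι] in
theorem hp_cell_le (hc : Function.Injective c) {i j l : ι} (hij : i ≠ j) {x : E3}
    (hXl : 0 < inner ℝ (x - c i) (ev c i l)) (hz : hp c w i l x ∈ cell c w i) :
    de c w i l * inner ℝ (x - c i) (ev c i j) ≤ de c w i j * inner ℝ (x - c i) (ev c i l) := by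
  have h1 := (pw_le_iff c w (fun h => hij (hc h) : c i ≠ c j) _).1 (hz j)
  unfold hp at h1
  rw [add_sub_cancel_left, inner_smul_left] at h1
  simp only [conj_trivial] at h1
  rw [div_mul_eq_mul_div, div_le_iff₀ hXl] at h1
  exact h1

theorem ae_T (hc : Function.Injective c) (hg : Gen c w) (i : ι)
    (hde : ∀ j, j ≠ i → 0 < de c w i j) :
    ∀ᵐ x ∂(volume : Measure E3), ∑ j, ∑ k, TI c w i j k x ≤ 1 := by
  classical
  have h1 : ∀ᵐ x ∂(volume : Measure E3), ∀ j k l : ι, Dist3 i j k → Dist3 i j l → k ≠ l →
      x ∉ EX c w i j k l := by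
    rw [ae_all_iff]; intro j
    rw [ae_all_iff]; intro k
    rw [ae_all_iff]; intro l
    by_cases hk : Dist3 i j k
    · by_cases hl : Dist3 i j l
      · by_cases hkl : k = l
        · exact Filter.Eventually.of_forall fun x _ _ h => absurd hkl h
        · have := measure_eq_zero_iff_ae_notMem.1 (null_EX c w hg hk hl hkl)
          filter_upwards [this] with x hx _ _ _
          exact hx
      · exact Filter.Eventually.of_forall fun x _ h => absurd h hl
    · exact Filter.Eventually.of_forall fun x h => absurd h hk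
  have h2 : ∀ᵐ x ∂(volume : Measure E3), ∀ j l : ι, Dist3 i j l →
      de c w i j * inner ℝ (x - c i) (ev c i l) ≠ de c w i l * inner ℝ (x - c i) (ev c i j) := by
    rw [ae_all_iff]; intro j
    rw [ae_all_iff]; intro l
    by_cases h3 : Dist3 i j l
    · have := measure_eq_zero_iff_ae_notMem.1
        (null_PL c w hc hg h3 (hde j h3.1.symm) (hde l h3.2.1.symm))
      filter_upwards [this] with x hx _
      exact hx
    · exact Filter.Eventually.of_forall fun x h => absurd h h3
  filter_upwards [h1, h2] with x hx1 hx2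
  set g : ι → ℝ := fun j => if j ≠ i ∧ 0 < inner ℝ (x - c i) (ev c i j) ∧
    hp c w i j x ∈ cell c w i then 1 else 0 with hgdef
  have hle : ∀ j, ∑ k, TI c w i j k x ≤ g j := by
    intro j
    by_cases hji : j = i
    · have h0 : ∑ k, TI c w i j k x = 0 := by
        refine Finset.sum_eq_zero fun k _ => ?_
        unfold TI
        rw [if_neg]
        rintro ⟨h, _⟩
        exact h hji.symm
      rw [h0]
      simp only [hgdef]
      split_ifs <;> norm_num
    · by_cases hX : 0 < inner ℝ (x - c i) (ev c i j)
      · refine (ray_T c w hc hg (Ne.symm hji) (hde j hji) hX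
          (fun k l hk hl hkl => hx1 j k l hk hl hkl)).trans ?_
        simp only [hgdef]
        by_cases hz : hp c w i j x ∈ cell c w i
        · rw [if_pos hz, if_pos ⟨hji, hX, hz⟩]
        · rw [if_neg hz]
          split_ifs <;> norm_num
      · have h0 : ∑ k, TI c w i j k x = 0 := by
          refine Finset.sum_eq_zero fun k _ => ?_
          unfold TI
          split_ifs
          · rw [Set.indicator_of_notMem
              (not_mem_TT c w hc (Ne.symm hji) (hde j hji) (not_lt.1 hX)), mul_zero]
          · rfl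
        rw [h0]
        simp only [hgdef]
        split_ifs <;> norm_num
  refine (Finset.sum_le_sum fun j _ => hle j).trans ?_
  have hone : ∀ j l, g j ≠ 0 → g l ≠ 0 → j = l := by
    intro j l hj hl
    simp only [hgdef, ne_eq, ite_eq_right_iff, one_ne_zero, imp_false, not_not] at hj hl
    by_contra hjl
    have a1 := hp_cell_le c w hc (Ne.symm hj.1) hl.2.1 hl.2.2
    have a2 := hp_cell_le c w hc (Ne.symm hl.1) hj.2.1 hj.2.2
    exact hx2 j l ⟨Ne.symm hj.1, Ne.symm hl.1, hjl⟩ (le_antisymm a2 a1)
  by_cases hex : ∃ j, g j ≠ 0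
  · obtain ⟨j, hj⟩ := hex
    rw [Finset.sum_eq_single j]
    · simp only [hgdef]
      split_ifs <;> norm_num
    · intro l _ hl
      by_contra hcon
      exact hl (hone l j hcon hj)
    · intro h; exact absurd (Finset.mem_univ j) h
  · push Not at hex
    rw [Finset.sum_eq_zero fun j _ => hex j]
    norm_num

end Pool.Agent.Lib.MP_b2bfca_co.K3U
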