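import Pool.Agent.Lib.MP_b2bfca_co.K3U.LocG

/-!
# Angles of a triple of balls
-/

set_option autoImplicit false

namespace Pool.Agent.Lib.MP_b2bfca_co.K3U

variable {ι : Type}

theorem cos_sum {c : Fin 3 → E3} (hc : Function.Injective c) :
    cs c 0 1 2 + cs c 1 2 0 + cs c 2 0 1 ≤ 3 / 2 := by
  have h01 : c 0 ≠ c 1 := fun h => absurd (hc h) (by decide)
  have h12 : c 1 ≠ c 2 := fun h => absurd (hc h) (by decide)
  have h20 : c 2 ≠ c 0 := fun h => absurd (hc h) (by decide)
  have na := norm_ev c h01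
  have nb := norm_ev c h12
  have nd := norm_ev c h20
  unfold cs
  rw [ev_swap c 2 0, ev_swap c 0 1, ev_swap c 1 2, inner_neg_right, inner_neg_right,
    inner_neg_right]
  set a := ev c 0 1
  set b := ev c 1 2
  set d := ev c 2 0
  have h := norm_add_sq_real (a + b) d
  have h' := norm_add_sq_real a b
  have h2 : 0 ≤ ‖a + b + d‖ ^ 2 := by positivity
  rw [h, h', na, nb, nd, inner_add_left] at h2
  have e1 : inner ℝ b a = inner ℝ a b := real_inner_comm _ _
  have e2 : inner ℝ d b = inner ℝ b d := real_inner_comm _ _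
  rw [e1, e2]
  linarith

private theorem half_angle {c : Fin 3 → E3} {r : Fin 3 → ℝ} (hP : Pack c r) {a b d : Fin 3}
    (hab : a ≠ b) (had : a ≠ d) (hs : sn c a b d ≠ 0)
    (ht1 : tang c r a b) (ht2 : tang c r a d) {ρ : ℝ}
    (hd : dd c (fun a => r a ^ 2) a b d = ρ) :
    Real.arctan (ρ / r a) = EuclideanGeometry.angle (c b) (c a) (c d) / 2 := by
  have hra := hP.1 a
  have e1 := (de_ge hP hab).2.mpr ht1
  have e2 := (de_ge hP had).2.mpr ht2
  have hang : EuclideanGeometry.angle (c b) (c a) (c d) = Real.arccos (cs c a b d) := by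
    unfold EuclideanGeometry.angle InnerProductGeometry.angle cs ev
    congr 1
    rw [inner_smul_left, inner_smul_right]
    simp only [vsub_eq_sub, RCLike.conj_to_real]
    field_simp
  rw [hang]
  unfold dd at hd
  rw [e1, e2] at hd
  have hq : ρ / r a = (1 - cs c a b d) / sn c a b d := by
    rw [← hd]
    field_simp
  have hcl := cs_lt_one hs
  have hc1 : cs c a b d < 1 := by nlinarith
  have hc2 : -1 < cs c a b d := by nlinarith
  set θ := Real.arccos (cs c a b d) with hθ
  have hcos : Real.cos θ = cs c a b d := Real.cos_arccos hc2.le hc1.le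
  have hsin : Real.sin θ = sn c a b d := Real.sin_arccos _
  have hθ0 : 0 < θ := Real.arccos_pos.mpr hc1
  have hθ1 : θ < Real.pi := by
    have h1 : θ ≤ Real.pi := Real.arccos_le_pi _
    rcases lt_or_eq_of_le h1 with h | h
    · exact h
    · exfalso
      apply hs
      rw [← hsin, h, Real.sin_pi]
  have hhalf : Real.tan (θ / 2) = (1 - cs c a b d) / sn c a b d := by
    rw [← hcos, ← hsin]
    have hsp : 0 < Real.sin (θ / 2) := Real.sin_pos_of_pos_of_lt_pi (by linarith) (by linarith)
    have hcp : 0 < Real.cos (θ / 2) := Real.cos_pos_of_mem_Ioo ⟨by linarith, by linarith⟩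
    have q1 : Real.sin θ = 2 * Real.sin (θ / 2) * Real.cos (θ / 2) := by
      rw [← Real.sin_two_mul]; congr 1; ring
    have q2 : Real.cos θ = 1 - 2 * Real.sin (θ / 2) ^ 2 := by
      have : Real.cos θ = Real.cos (2 * (θ / 2)) := by congr 1; ring
      rw [this, Real.cos_two_mul, Real.cos_sq']
      ring
    rw [q1, q2, Real.tan_eq_sin_div_cos]
    field_simp
    ring
  rw [hq, ← hhalf, Real.arctan_tan (by linarith) (by linarith)]

theorem tight_angle {c : Fin 3 → E3} {r : Fin 3 → ℝ} (hP : Pack c r) (hs : sn c 0 1 2 ≠ 0)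
    (ht : ∀ a b, a ≠ b → tang c r a b) {ρ : ℝ} (hρ : 0 < ρ)
    (hd : ∀ σ : Equiv.Perm (Fin 3), dd c (fun a => r a ^ 2) (σ 0) (σ 1) (σ 2) = ρ) :
    Real.arctan (ρ / r 0) + Real.arctan (ρ / r 1) + Real.arctan (ρ / r 2) = Real.pi / 2 := by
  have hc := Pack_inj hP
  have h01 : c 0 ≠ c 1 := fun h => absurd (hc h) (by decide)
  have h12 : c 1 ≠ c 2 := fun h => absurd (hc h) (by decide)
  have h20 : c 2 ≠ c 0 := fun h => absurd (hc h) (by decide)
  have hs1 := sn_perm c hc (id : Fin 3 → Fin 3) Function.injective_id hs (finRotate 3)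
  have hs2 := sn_perm c hc (id : Fin 3 → Fin 3) Function.injective_id hs (finRotate 3)⁻¹
  have f0 : (finRotate 3) 0 = 1 := by decide
  have f1 : (finRotate 3) 1 = 2 := by decide
  have f2 : (finRotate 3) 2 = 0 := by decide
  have g0 : (finRotate 3)⁻¹ 0 = 2 := by decide
  have g1 : (finRotate 3)⁻¹ 1 = 0 := by decide
  have g2 : (finRotate 3)⁻¹ 2 = 1 := by decide
  have d0 := hd 1
  have d1 := hd (finRotate 3)
  have d2 := hd (finRotate 3)⁻¹
  simp only [Equiv.Perm.coe_one, id_eq] at d0
  simp only [f0, f1, f2, id_eq] at d1 hs1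
  simp only [g0, g1, g2, id_eq] at d2 hs2
  have a0 := half_angle hP (a := 0) (b := 1) (d := 2) (by decide) (by decide) hs
    (ht _ _ (by decide)) (ht _ _ (by decide)) d0
  have a1 := half_angle hP (a := 1) (b := 2) (d := 0) (by decide) (by decide) hs1
    (ht _ _ (by decide)) (ht _ _ (by decide)) d1
  have a2 := half_angle hP (a := 2) (b := 0) (d := 1) (by decide) (by decide) hs2
    (ht _ _ (by decide)) (ht _ _ (by decide)) d2
  rw [a0, a1, a2]
  have hpi := EuclideanGeometry.angle_add_angle_add_angle_eq_pi (p₁ := c 0) (p₂ := c 1) (c 2) h01.symm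
  -- angle (c 0) (c 1) (c 2) + angle (c 1) (c 2) (c 0) + angle (c 2) (c 0) (c 1) = π
  rw [EuclideanGeometry.angle_comm (c 1) (c 0) (c 2), EuclideanGeometry.angle_comm (c 2) (c 1) (c 0),
    EuclideanGeometry.angle_comm (c 0) (c 2) (c 1)]
  linarith

/-- Three mutually tangent balls do not have collinear centres. -/
theorem tight_sn {c : ι → E3} {r : ι → ℝ} (hP : Pack c r) {i j k : ι} (h3 : Dist3 i j k)
    (h1 : tang c r i j) (h2 : tang c r i k) (h3' : tang c r j k) : sn c i j k ≠ 0 := by
  intro hs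
  have hc := Pack_inj hP
  have hij : c i ≠ c j := fun h => h3.1 (hc h)
  have hik : c i ≠ c k := fun h => h3.2.1 (hc h)
  have hri := hP.1 i
  have hrj := hP.1 j
  have hrk := hP.1 k
  have ej := sub_eq_smul_ev c hij
  have ek := sub_eq_smul_ev c hik
  unfold tang at h1 h2 h3'
  rw [dist_comm, dist_eq_norm] at h1 h2 h3'
  rw [h1] at ej
  rw [h2] at ek
  have hn := norm_ev c hij
  have hkj : c k - c j = (c k - c i) - (c j - c i) := by abel
  rw [hkj, ej, ek] at h3'
  rcases collinear_ev c hij hik hs with h | h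
  · rw [h, ← sub_smul, norm_smul, hn, mul_one, Real.norm_eq_abs] at h3'
    rcases abs_cases (r i + r k - (r i + r j)) with h | h <;> linarith
  · rw [h, smul_neg, ← neg_smul, ← sub_smul, norm_smul, hn, mul_one, Real.norm_eq_abs] at h3'
    rcases abs_cases (-(r i + r k) - (r i + r j)) with h | h <;> linarith

end Pool.Agent.Lib.MP_b2bfca_co.K3U
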