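import Pool.Agent.Lib.MP_b2bfca_co.K3U.Defs

/-!
# Constants

PROOFS. `mu`: `2 mu = 4 - 4 √(2/3) < 3/4` as `√(2/3) > 13/16` (`169/256 < 2/3`). `0 < mu` as `2/3 < 1`.
`√(2/3) = √6/3`, so `π mu - 3 nu = 2π - 2π√6/3 - 2π + 2√6 th = 2√6 (th - π/3)` and
`4π - 6 nu = 4√6 th`. `th > π/3` since `cos (π/3) = 1/2 > 1/3`.
`th < π/2 ` as `cos (π/2) = 0 < 1/3`. `nu > 0`: `√6 th < π` — this needs numerics:
`th < 1.2311`, `√6 < 2.4496`, product `< 3.0158 < π`.
`th` bounds: `cos` is decreasing on `[0, π]`; e.g. `cos 1.23 > 1/3 > cos 1.2311` by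
`Real.cos_bound` / Taylor; or `th = π/2 - arcsin (1/3)` and bounds for `arcsin (1/3)` by `sin`
bounds: `sin 0.3398 < 1/3 < sin 0.3399` with `Real.sin_gt_sub_cube`-type Taylor bounds
(`Real.sin_bound`) or the alternating series.
-/

set_option autoImplicit false

namespace Pool.Agent.Lib.MP_b2bfca_co.K3U

theorem Num_sqrt : Real.sqrt (2 / 3) = Real.sqrt 6 / 3 := by
  rw [show (2 : ℝ) / 3 = 6 / 3 ^ 2 by norm_num, Real.sqrt_div (by norm_num),
    Real.sqrt_sq (by norm_num)]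

theorem Num_s6 : 2.4 < Real.sqrt 6 ∧ Real.sqrt 6 < 2.45 := by
  constructor
  · rw [Real.lt_sqrt (by norm_num)]; norm_num
  · rw [Real.sqrt_lt' (by norm_num)]; norm_num

theorem Num_th : th ≤ Real.pi / 2 - 1 / 3 := by
  have h1 : (1 : ℝ) / 3 ≤ Real.arcsin (1 / 3) := by
    rw [Real.le_arcsin_iff_sin_le' ⟨by linarith [Real.pi_gt_three], by linarith [Real.pi_gt_three]⟩]
    exact Real.sin_le (by norm_num)
  have h2 : th = Real.pi / 2 - Real.arcsin (1 / 3) := rfl
  linarith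

theorem mu_pos : 0 < mu := by
  have h := Num_s6.2
  unfold mu
  rw [Num_sqrt]
  norm_num at h ⊢
  linarith

theorem two_mu_lt : 2 * mu < 3 / 4 := by
  have h : 13 / 16 < Real.sqrt (2 / 3) := by
    rw [Real.lt_sqrt (by norm_num)]; norm_num
  unfold mu
  linarith

theorem th_gt : Real.pi / 3 < th := by
  have h : Real.pi / 3 = Real.arccos (1 / 2) := by
    rw [← Real.cos_pi_div_three]
    exact (Real.arccos_cos (by linarith [Real.pi_pos]) (by linarith [Real.pi_pos])).symm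
  unfold th
  rw [h]
  exact Real.arccos_lt_arccos (by norm_num) (by norm_num) (by norm_num)

theorem nu_pos : 0 < nu := by
  have h1 := Num_s6.2
  have h2 := Num_th
  have h3 := Real.pi_lt_d2
  have h4 := Real.pi_gt_d2
  unfold nu
  have h5 : 0 < th := by have := th_gt; linarith [Real.pi_pos]
  have h6 : th < 1.25 := by norm_num at h3 ⊢; linarith
  have h7 : Real.sqrt 6 * th < Real.pi := by
    norm_num at h1 h4 h6
    nlinarith
  linarith

theorem const_a : Real.pi * mu - 3 * nu = 2 * Real.sqrt 6 * (th - Real.pi / 3) := by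
  unfold mu nu
  rw [Num_sqrt]
  ring

theorem const_b : 4 * Real.pi - 6 * nu = 4 * Real.sqrt 6 * th := by
  unfold nu
  ring

theorem const_c : 4 * (Real.pi * mu - 3 * nu) ≤ 4 * Real.pi - 6 * nu := by
  rw [const_a, const_b]
  have h1 := Num_th
  have h2 := Num_s6.1
  have h3 : 0 < Real.sqrt 6 := Real.sqrt_pos.2 (by norm_num)
  have h4 := Real.pi_gt_three
  nlinarith

end Pool.Agent.Lib.MP_b2bfca_co.K3U
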