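import Pool.Agent.Lib.MP_b2bfca_co.K3U.LocV
import Pool.Agent.Lib.MP_b2bfca_co.K3U.LocH
import Pool.Agent.Lib.MP_b2bfca_co.K3U.Num

/-!
# Local inequality for triples that are not mutually tangent

PROOF. `ρ` from `tri_rho`, `x = h^2`. For each `a : Fin 3` the two permutations with `σ 0 = a`
give, by `vertex_ineq` with `δ = de a b`, `δ' = de a c`, `g = cs a b c` (note `cs a c b = cs a b c`,
`sn = √(1-cs^2)`, `dd a b c = (de a c - g de a b)/sn`, `de^2+dd^2+h^2 = r^2+ρ^2+h^2`):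
`(ρ^2+h^2)/ρ * (fa + fa) ≥ (1 - cs)/2`. Sum over `a` (`Fin 3`, six permutations) and `cos_sum`:
`(ρ^2+h^2)/ρ * ∑ fa ≥ 3/4`. The tangent terms: `fb ρ h = ρ/(ρ^2+h^2)`, at most four of the six
ordered pairs are tangent (tangency is symmetric and some pair is not tangent), so they add up to at
most `(mu/2) * 4 * ρ/(ρ^2+h^2) ≤ (3/4) ρ/(ρ^2+h^2)` (`two_mu_lt`, `mu_pos`).
-/

set_option autoImplicit false

namespace Pool.Agent.Lib.MP_b2bfca_co.K3U

/-- the sum over the six permutations -/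
theorem LocNT_sum (f : Fin 3 → Fin 3 → Fin 3 → ℝ) :
    ∑ σ : Equiv.Perm (Fin 3), f (σ 0) (σ 1) (σ 2) =
      f 0 1 2 + f 0 2 1 + f 1 0 2 + f 1 2 0 + f 2 0 1 + f 2 1 0 := by
  have h : (Finset.univ : Finset (Equiv.Perm (Fin 3))) =
      {1, Equiv.swap 1 2, Equiv.swap 0 1, Equiv.swap 0 1 * Equiv.swap 1 2,
        Equiv.swap 1 2 * Equiv.swap 0 1, Equiv.swap 0 2} := by decide
  rw [h, Finset.sum_insert (by decide), Finset.sum_insert (by decide),
    Finset.sum_insert (by decide), Finset.sum_insert (by decide), Finset.sum_insert (by decide),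
    Finset.sum_singleton]
  have e2 : (Equiv.swap (1 : Fin 3) 2) 0 = 0 ∧ (Equiv.swap (1 : Fin 3) 2) 1 = 2 ∧
    (Equiv.swap (1 : Fin 3) 2) 2 = 1 := by decide
  have e3 : (Equiv.swap (0 : Fin 3) 1) 0 = 1 ∧ (Equiv.swap (0 : Fin 3) 1) 1 = 0 ∧
    (Equiv.swap (0 : Fin 3) 1) 2 = 2 := by decide
  have e4 : (Equiv.swap 0 1 * Equiv.swap 1 2 : Equiv.Perm (Fin 3)) 0 = 1 ∧
    (Equiv.swap 0 1 * Equiv.swap 1 2 : Equiv.Perm (Fin 3)) 1 = 2 ∧
    (Equiv.swap 0 1 * Equiv.swap 1 2 : Equiv.Perm (Fin 3)) 2 = 0 := by decide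
  have e5 : (Equiv.swap 1 2 * Equiv.swap 0 1 : Equiv.Perm (Fin 3)) 0 = 2 ∧
    (Equiv.swap 1 2 * Equiv.swap 0 1 : Equiv.Perm (Fin 3)) 1 = 0 ∧
    (Equiv.swap 1 2 * Equiv.swap 0 1 : Equiv.Perm (Fin 3)) 2 = 1 := by decide
  have e6 : (Equiv.swap (0 : Fin 3) 2) 0 = 2 ∧ (Equiv.swap (0 : Fin 3) 2) 1 = 1 ∧
    (Equiv.swap (0 : Fin 3) 2) 2 = 0 := by decide
  rw [e2.1, e2.2.1, e2.2.2, e3.1, e3.2.1, e3.2.2, e4.1, e4.2.1, e4.2.2, e5.1, e5.2.1, e5.2.2,
    e6.1, e6.2.1, e6.2.2]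
  simp only [Equiv.Perm.coe_one, id_eq]
  ring

/-- one vertex -/
theorem LocNT_vertex {c : Fin 3 → E3} {r : Fin 3 → ℝ} (hP : Pack c r) {ρ : ℝ} (hρ : 0 < ρ)
    (a b k : Fin 3) (hab : a ≠ b) (hak : a ≠ k) (hs : sn c a b k ≠ 0)
    (h1 : de c (fun a => r a ^ 2) a b ^ 2 + dd c (fun a => r a ^ 2) a b k ^ 2 = r a ^ 2 + ρ ^ 2)
    (h2 : de c (fun a => r a ^ 2) a k ^ 2 + dd c (fun a => r a ^ 2) a k b ^ 2 = r a ^ 2 + ρ ^ 2)
    (h : ℝ) :
    (1 - cs c a b k) / 2 ≤ (ρ ^ 2 + h ^ 2) / ρ *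
      (fa (de c (fun a => r a ^ 2) a b) (dd c (fun a => r a ^ 2) a b k) h +
        fa (de c (fun a => r a ^ 2) a k) (dd c (fun a => r a ^ 2) a k b) h) := by
  have hd1 := (de_ge hP hab).1
  have hd2 := (de_ge hP hak).1
  have hg := cs_lt_one hs
  have hcs : cs c a k b = cs c a b k := cs_comm c a k b
  have hsn : sn c a k b = sn c a b k := by unfold sn; rw [hcs]
  have key := vertex_ineq (x := h ^ 2) (hP.1 a) hρ hg hd1 hd2 (sq_nonneg h) h1
  unfold fa
  rw [h1, h2]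
  have e1 : dd c (fun a => r a ^ 2) a b k = (de c (fun a => r a ^ 2) a k -
      cs c a b k * de c (fun a => r a ^ 2) a b) / Real.sqrt (1 - cs c a b k ^ 2) := rfl
  have e2 : dd c (fun a => r a ^ 2) a k b = (de c (fun a => r a ^ 2) a b -
      cs c a b k * de c (fun a => r a ^ 2) a k) / Real.sqrt (1 - cs c a b k ^ 2) := by
    unfold dd
    rw [hcs, hsn]
    rfl
  rw [e1, e2]
  exact key

theorem loc_NT {c : Fin 3 → E3} {r : Fin 3 → ℝ} (hP : Pack c r) (hs : sn c 0 1 2 ≠ 0)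
    (hnt : ¬ ∀ a b, a ≠ b → tang c r a b) (h : ℝ) :
    0 ≤ Phi c (fun a => r a ^ 2) (tang c r) h := by
  classical
  have hc := Pack_inj hP
  obtain ⟨ρ, hρ, hall⟩ := tri_rho hP hs
  have hsσ : ∀ σ : Equiv.Perm (Fin 3), sn c (σ 0) (σ 1) (σ 2) ≠ 0 :=
    fun σ => sn_perm c hc id Function.injective_id hs σ
  set W : Fin 3 → ℝ := fun a => r a ^ 2 with hW
  -- the six permutations as triples
  have hex : ∀ a b k : Fin 3, a ≠ b → a ≠ k → b ≠ k →
      ∃ σ : Equiv.Perm (Fin 3), σ 0 = a ∧ σ 1 = b ∧ σ 2 = k := by decide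
  have hA : ∀ a b k : Fin 3, a ≠ b → a ≠ k → b ≠ k →
      sn c a b k ≠ 0 ∧ de c W a b ^ 2 + dd c W a b k ^ 2 = r a ^ 2 + ρ ^ 2 ∧
      (tang c r a b → dd c W a b k = ρ) := by
    intro a b k h1 h2 h3
    obtain ⟨σ, rfl, rfl, rfl⟩ := hex a b k h1 h2 h3
    exact ⟨hsσ σ, (hall σ).1, (hall σ).2.2⟩
  have hV : ∀ a b k : Fin 3, a ≠ b → a ≠ k → b ≠ k → (1 - cs c a b k) / 2 ≤
      (ρ ^ 2 + h ^ 2) / ρ * (fa (de c W a b) (dd c W a b k) h + fa (de c W a k) (dd c W a k b) h) := by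
    intro a b k h1 h2 h3
    exact LocNT_vertex hP hρ a b k h1 h2 (hA a b k h1 h2 h3).1 (hA a b k h1 h2 h3).2.1
      (hA a k b h2 h1 h3.symm).2.1 h
  set t : Fin 3 → Fin 3 → ℝ := fun a b => if tang c r a b then 1 else 0 with ht
  set K : ℝ := ρ / (ρ ^ 2 + h ^ 2) with hK
  have hK0 : 0 < K := by positivity
  have htan : ∀ a b k : Fin 3, a ≠ b → a ≠ k → b ≠ k →
      (if tang c r a b then fb (dd c W a b k) h else 0) = t a b * K := by
    intro a b k h1 h2 h3
    by_cases hT : tang c r a b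
    · rw [if_pos hT, (hA a b k h1 h2 h3).2.2 hT]
      simp only [ht, if_pos hT, one_mul, fb, hK]
    · rw [if_neg hT]
      simp only [ht, if_neg hT, zero_mul]
  have hsym : ∀ a b, t a b = t b a := by
    intro a b
    have : tang c r a b ↔ tang c r b a := by
      unfold tang
      rw [dist_comm, add_comm]
    simp only [ht, this]
  have hle : ∀ a b, t a b ≤ 1 := by
    intro a b
    simp only [ht]
    split_ifs <;> norm_num
  have hle2 : t 0 1 + t 0 2 + t 1 2 ≤ 2 := by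
    push Not at hnt
    obtain ⟨a, b, hab, hnab⟩ := hnt
    have h0 : t a b = 0 := by simp only [ht, if_neg hnab]
    have h01 := hle 0 1
    have h02 := hle 0 2
    have h12 := hle 1 2
    have s01 := hsym 0 1
    have s02 := hsym 0 2
    have s12 := hsym 1 2
    fin_cases a <;> fin_cases b <;>
      first
        | exact absurd rfl hab
        | (simp only [Fin.zero_eta, Fin.mk_one, Fin.reduceFinMk] at h0; linarith)
  have hPhi : Phi c W (tang c r) h =
      ∑ σ : Equiv.Perm (Fin 3), (fun a b k => fa (de c W a b) (dd c W a b k) h -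
        (mu / 2) * (if tang c r a b then fb (dd c W a b k) h else 0)) (σ 0) (σ 1) (σ 2) := rfl
  have hsum := LocNT_sum (fun a b k => fa (de c W a b) (dd c W a b k) h -
        (mu / 2) * (if tang c r a b then fb (dd c W a b k) h else 0))
  rw [hPhi, hsum]
  rw [htan 0 1 2 (by decide) (by decide) (by decide), htan 0 2 1 (by decide) (by decide) (by decide),
    htan 1 0 2 (by decide) (by decide) (by decide), htan 1 2 0 (by decide) (by decide) (by decide),
    htan 2 0 1 (by decide) (by decide) (by decide), htan 2 1 0 (by decide) (by decide) (by decide)]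
  have v0 := hV 0 1 2 (by decide) (by decide) (by decide)
  have v1 := hV 1 2 0 (by decide) (by decide) (by decide)
  have v2 := hV 2 0 1 (by decide) (by decide) (by decide)
  have hcos := cos_sum hc
  rw [hsym 1 0, hsym 2 0, hsym 2 1]
  set f012 := fa (de c W 0 1) (dd c W 0 1 2) h
  set f021 := fa (de c W 0 2) (dd c W 0 2 1) h
  set f102 := fa (de c W 1 0) (dd c W 1 0 2) h
  set f120 := fa (de c W 1 2) (dd c W 1 2 0) h
  set f201 := fa (de c W 2 0) (dd c W 2 0 1) h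
  set f210 := fa (de c W 2 1) (dd c W 2 1 0) h
  have hKinv : (ρ ^ 2 + h ^ 2) / ρ = 1 / K := by
    rw [hK]; field_simp
  rw [hKinv] at v0 v1 v2
  have hS : 3 / 4 * K ≤ f012 + f021 + f102 + f120 + f201 + f210 := by
    have e1 : 3 / 4 ≤ 1 / K * (f012 + f021 + f102 + f120 + f201 + f210) := by
      have : 1 / K * (f012 + f021 + f102 + f120 + f201 + f210) =
          1 / K * (f012 + f021) + 1 / K * (f120 + f102) + 1 / K * (f201 + f210) := by ring
      rw [this]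
      linarith
    have e2 : 1 / K * (f012 + f021 + f102 + f120 + f201 + f210) * K =
        f012 + f021 + f102 + f120 + f201 + f210 := by field_simp
    rw [← e2]
    exact mul_le_mul_of_nonneg_right e1 hK0.le
  have hmu := mu_pos
  have hmu2 := two_mu_lt
  have hT2 : mu / 2 * (2 * (t 0 1 + t 0 2 + t 1 2) * K) ≤ mu / 2 * (4 * K) := by
    apply mul_le_mul_of_nonneg_left _ (by linarith)
    apply mul_le_mul_of_nonneg_right _ hK0.le
    linarith
  have hfin : mu / 2 * (4 * K) ≤ 3 / 4 * K := by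
    have : mu / 2 * (4 * K) = (2 * mu) * K := by ring
    rw [this]
    exact mul_le_mul_of_nonneg_right hmu2.le hK0.le
  have : f012 - mu / 2 * (t 0 1 * K) + (f021 - mu / 2 * (t 0 2 * K)) +
      (f102 - mu / 2 * (t 0 1 * K)) + (f120 - mu / 2 * (t 1 2 * K)) +
      (f201 - mu / 2 * (t 0 2 * K)) + (f210 - mu / 2 * (t 1 2 * K)) =
      (f012 + f021 + f102 + f120 + f201 + f210) - mu / 2 * (2 * (t 0 1 + t 0 2 + t 1 2) * K) := by
    ring
  rw [this]
  linarith

end Pool.Agent.Lib.MP_b2bfca_co.K3U
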