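import Pool.Agent.Lib.MP_b2bfca_co.K3U.LocS
import Pool.Agent.Lib.MP_b2bfca_co.K3U.LocH

/-!
# Local inequality for mutually tangent triples

PROOF of `loc_T`. `tri_rho`, `de = r` (`de_ge`), so `Phi = ∑_a 2 fa (r a) ρ h - 3 mu fb ρ h`
(six permutations), `tight_angle`, `tight_int`.
-/

set_option autoImplicit false

namespace Pool.Agent.Lib.MP_b2bfca_co.K3U

open MeasureTheory

theorem locT_card (a : Fin 3) :
    (Finset.univ.filter fun σ : Equiv.Perm (Fin 3) => σ 0 = a).card = 2 := by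
  revert a
  decide

theorem locT_sum (g : Fin 3 → ℝ) :
    ∑ σ : Equiv.Perm (Fin 3), g (σ 0) = 2 * (g 0 + g 1 + g 2) := by
  have h := Finset.sum_fiberwise (Finset.univ : Finset (Equiv.Perm (Fin 3)))
    (fun σ : Equiv.Perm (Fin 3) => σ 0) (fun σ => g (σ 0))
  rw [← h]
  have h2 : ∀ a : Fin 3,
      ∑ σ ∈ Finset.univ.filter (fun σ : Equiv.Perm (Fin 3) => σ 0 = a), g (σ 0) = 2 * g a := by
    intro a
    rw [Finset.sum_congr rfl (g := fun _ => g a)
      (fun σ hσ => by rw [(Finset.mem_filter.mp hσ).2]), Finset.sum_const, locT_card a]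
    simp
  rw [Finset.sum_congr rfl (fun a _ => h2 a), Fin.sum_univ_three]
  ring

theorem loc_T {c : Fin 3 → E3} {r : Fin 3 → ℝ} (hP : Pack c r) (hs : sn c 0 1 2 ≠ 0)
    (ht : ∀ a b, a ≠ b → tang c r a b) {J : Set ℝ} (hJ : MeasurableSet J) :
    -3 * nu ≤ ∫ h in J, Phi c (fun a => r a ^ 2) (tang c r) h := by
  obtain ⟨ρ, hρ, hall⟩ := tri_rho hP hs
  have hne : ∀ σ : Equiv.Perm (Fin 3), σ 0 ≠ σ 1 := by
    intro σ h
    exact absurd (σ.injective h) (by decide)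
  have hd : ∀ σ : Equiv.Perm (Fin 3), dd c (fun a => r a ^ 2) (σ 0) (σ 1) (σ 2) = ρ :=
    fun σ => (hall σ).2.2 (ht _ _ (hne σ))
  have hde : ∀ σ : Equiv.Perm (Fin 3), de c (fun a => r a ^ 2) (σ 0) (σ 1) = r (σ 0) :=
    fun σ => (de_ge hP (hne σ)).2.mpr (ht _ _ (hne σ))
  have hang := tight_angle hP hs ht hρ hd
  have hint := tight_int hρ (hP.1 0) (hP.1 1) (hP.1 2) hang hJ
  have hPhi : ∀ h : ℝ, Phi c (fun a => r a ^ 2) (tang c r) h =
      2 * fa (r 0) ρ h + 2 * fa (r 1) ρ h + 2 * fa (r 2) ρ h - 3 * mu * fb ρ h := by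
    intro h
    unfold Phi
    rw [Finset.sum_congr rfl (g := fun σ : Equiv.Perm (Fin 3) =>
      fa (r (σ 0)) ρ h - (mu / 2) * fb ρ h)
      (fun σ _ => by rw [hd σ, hde σ, if_pos (ht _ _ (hne σ))])]
    rw [locT_sum (fun a => fa (r a) ρ h - (mu / 2) * fb ρ h)]
    ring
  simp only [hPhi]
  exact hint

end Pool.Agent.Lib.MP_b2bfca_co.K3U
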