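import Pool.Agent.Lib.MP_b2bfca_co.K3U.VolT

/-!
# Volume of a wedge of the unit ball

PROOF. Tonelli, `Z = (Y/d) h` for fixed `X, Y > 0` (Jacobian `Y/d`): the volume is
`∫_{h∈J} ∫_X ∫_{Y>0} (Y/d) 1[X^2 + Y^2 (1 + h^2/d^2) < 1]`. For fixed `h`, with
`z^2 = d^2+h^2`, `Y = (d/z) Y'`: the inner integral over `Y` is `(d/z^2) (1-X^2)/2` for `|X| < 1`,
and `∫_{-1}^1 (1-X^2)/2 dX = 2/3`. Total `(2/3) ∫_J d/z^2`. Both sides finite.
-/

set_option autoImplicit false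

namespace Pool.Agent.Lib.MP_b2bfca_co.K3U

open MeasureTheory

/-- The region. -/
def VolW_S (d : ℝ) (J : Set ℝ) : Set (ℝ × ℝ × ℝ) :=
  {p : ℝ × ℝ × ℝ | 0 < p.2.1 ∧ d * p.2.2 / p.2.1 ∈ J ∧
      p.1 ^ 2 + p.2.1 ^ 2 + p.2.2 ^ 2 < 1}

theorem VolW_meas (d : ℝ) {J : Set ℝ} (hJ : MeasurableSet J) :
    MeasurableSet (VolW_S d J) := by
  unfold VolW_S
  have e : {p : ℝ × ℝ × ℝ | 0 < p.2.1 ∧ d * p.2.2 / p.2.1 ∈ J ∧
      p.1 ^ 2 + p.2.1 ^ 2 + p.2.2 ^ 2 < 1} =
      {p : ℝ × ℝ × ℝ | 0 < p.2.1} ∩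
      ((fun p : ℝ × ℝ × ℝ => d * p.2.2 / p.2.1) ⁻¹' J ∩
      {p : ℝ × ℝ × ℝ | p.1 ^ 2 + p.2.1 ^ 2 + p.2.2 ^ 2 < 1}) := by
    ext p; simp only [Set.mem_ofPred_eq, Set.mem_inter_iff, Set.mem_preimage]
  rw [e]
  have m1 : Measurable (fun p : ℝ × ℝ × ℝ => p.2.1) := by fun_prop
  have m2 : Measurable (fun p : ℝ × ℝ × ℝ => d * p.2.2 / p.2.1) := by fun_prop
  have m3 : Measurable (fun p : ℝ × ℝ × ℝ => p.1 ^ 2 + p.2.1 ^ 2 + p.2.2 ^ 2) := by fun_prop
  refine (measurableSet_lt measurable_const m1).inter ?_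
  exact (m2 hJ).inter (measurableSet_lt m3 measurable_const)

/-- The region in the coordinates `(X, Y, h)`. -/
def VolW_R (d : ℝ) (J : Set ℝ) : Set (ℝ × ℝ × ℝ) :=
  {p : ℝ × ℝ × ℝ | 0 < p.2.1 ∧ p.2.2 ∈ J ∧
    p.1 ^ 2 * d ^ 2 + p.2.1 ^ 2 * (d ^ 2 + p.2.2 ^ 2) < d ^ 2}

theorem VolW_measR (d : ℝ) {J : Set ℝ} (hJ : MeasurableSet J) :
    MeasurableSet (VolW_R d J) := by
  unfold VolW_R
  have e : {p : ℝ × ℝ × ℝ | 0 < p.2.1 ∧ p.2.2 ∈ J ∧
    p.1 ^ 2 * d ^ 2 + p.2.1 ^ 2 * (d ^ 2 + p.2.2 ^ 2) < d ^ 2} =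
      {p : ℝ × ℝ × ℝ | 0 < p.2.1} ∩
      ((fun p : ℝ × ℝ × ℝ => p.2.2) ⁻¹' J ∩
      {p : ℝ × ℝ × ℝ | p.1 ^ 2 * d ^ 2 + p.2.1 ^ 2 * (d ^ 2 + p.2.2 ^ 2) < d ^ 2}) := by
    ext p; simp only [Set.mem_ofPred_eq, Set.mem_inter_iff, Set.mem_preimage]
  rw [e]
  have m1 : Measurable (fun p : ℝ × ℝ × ℝ => p.2.1) := by fun_prop
  have m2 : Measurable (fun p : ℝ × ℝ × ℝ => p.2.2) := by fun_prop
  have m3 : Measurable (fun p : ℝ × ℝ × ℝ =>
    p.1 ^ 2 * d ^ 2 + p.2.1 ^ 2 * (d ^ 2 + p.2.2 ^ 2)) := by fun_prop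
  refine (measurableSet_lt measurable_const m1).inter ?_
  exact (m2 hJ).inter (measurableSet_lt m3 measurable_const)

/-- The integrand in the coordinates `(X, Y, h)`. -/
noncomputable def VolW_G (d : ℝ) (J : Set ℝ) (p : ℝ × ℝ × ℝ) : ENNReal :=
  (VolW_R d J).indicator (fun p => ENNReal.ofReal (p.2.1 / d)) p

theorem VolW_measG (d : ℝ) {J : Set ℝ} (hJ : MeasurableSet J) :
    Measurable (VolW_G d J) := by
  unfold VolW_G
  refine Measurable.indicator ?_ (VolW_measR d hJ)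
  exact ENNReal.measurable_ofReal.comp (by fun_prop)

/-- Membership after substitution. -/
theorem VolW_sub {d : ℝ} (hd : 0 < d) (J : Set ℝ) {X Y h : ℝ} (hY : 0 < Y) :
    (X, Y, (Y / d) * h) ∈ VolW_S d J ↔ (X, Y, h) ∈ VolW_R d J := by
  unfold VolW_S VolW_R
  simp only [Set.mem_ofPred_eq]
  have e2 : d * (Y / d * h) / Y = h := by field_simp
  rw [e2]
  have e3 : X ^ 2 + Y ^ 2 + (Y / d * h) ^ 2 < 1 ↔
      X ^ 2 * d ^ 2 + Y ^ 2 * (d ^ 2 + h ^ 2) < d ^ 2 := by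
    have : X ^ 2 + Y ^ 2 + (Y / d * h) ^ 2 =
        (X ^ 2 * d ^ 2 + Y ^ 2 * (d ^ 2 + h ^ 2)) / d ^ 2 := by
      field_simp
      ring
    rw [this, div_lt_one (by positivity)]
  rw [e3]

/-- The substitution for fixed `X`. -/
theorem VolW_inner {d : ℝ} (hd : 0 < d) (J : Set ℝ) (X : ℝ) :
    ∫⁻ Y, ∫⁻ Z, (VolW_S d J).indicator 1 (X, Y, Z) = ∫⁻ Y, ∫⁻ h, VolW_G d J (X, Y, h) := by
  refine lintegral_congr fun Y => ?_
  rcases le_or_gt Y 0 with hY | hY
  · have h1 : ∀ Z, (VolW_S d J).indicator (1 : ℝ × ℝ × ℝ → ENNReal) (X, Y, Z) = 0 := by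
      intro Z
      refine Set.indicator_of_notMem ?_ _
      rintro ⟨h, -⟩
      exact absurd h (not_lt.2 hY)
    have h2 : ∀ h, VolW_G d J (X, Y, h) = 0 := by
      intro Z
      refine Set.indicator_of_notMem ?_ _
      rintro ⟨h, -⟩
      exact absurd h (not_lt.2 hY)
    simp [h1, h2]
  · have hb : Y / d ≠ 0 := by positivity
    rw [VolT_scale hb, ← lintegral_const_mul' _ _ ENNReal.ofReal_ne_top]
    refine lintegral_congr fun h => ?_
    unfold VolW_G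
    by_cases hm : (X, Y, h) ∈ VolW_R d J
    · rw [Set.indicator_of_mem hm, Set.indicator_of_mem ((VolW_sub hd J hY).2 hm)]
      simp only [Pi.one_apply, mul_one]
      rw [abs_of_pos (show 0 < Y / d by positivity)]
    · rw [Set.indicator_of_notMem hm,
        Set.indicator_of_notMem (fun h' => hm ((VolW_sub hd J hY).1 h'))]
      simp

/-- Exchange of the order of integration. -/
theorem VolW_swap (d : ℝ) {J : Set ℝ} (hJ : MeasurableSet J) :
    ∫⁻ X, ∫⁻ Y, ∫⁻ h, VolW_G d J (X, Y, h) = ∫⁻ h, ∫⁻ X, ∫⁻ Y, VolW_G d J (X, Y, h) := by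
  have hG := VolW_measG d hJ
  have s1 : ∀ X, ∫⁻ Y, ∫⁻ h, VolW_G d J (X, Y, h) = ∫⁻ h, ∫⁻ Y, VolW_G d J (X, Y, h) := by
    intro X
    refine lintegral_lintegral_swap ?_
    refine Measurable.aemeasurable ?_
    exact hG.comp (by fun_prop : Measurable (fun p : ℝ × ℝ => ((X, p.1, p.2) : ℝ × ℝ × ℝ)))
  simp_rw [s1]
  rw [lintegral_lintegral_swap]
  refine Measurable.aemeasurable ?_
  have : Measurable (fun q : (ℝ × ℝ) × ℝ => VolW_G d J (q.1.1, q.2, q.1.2)) :=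
    hG.comp (by fun_prop : Measurable (fun q : (ℝ × ℝ) × ℝ => ((q.1.1, q.2, q.1.2) : ℝ × ℝ × ℝ)))
  exact this.lintegral_prod_right'

/-- The integral over `Y`. -/
theorem VolW_intY {d : ℝ} (hd : 0 < d) {J : Set ℝ} {X h : ℝ} (hX : X ∈ Set.Ioo (-1 : ℝ) 1)
    (hh : h ∈ J) :
    ∫⁻ Y, VolW_G d J (X, Y, h) =
      ENNReal.ofReal ((1 - X ^ 2) * (d / (2 * (d ^ 2 + h ^ 2)))) := by
  have hX2 : 0 < 1 - X ^ 2 := by nlinarith [hX.1, hX.2]
  set q : ℝ := Real.sqrt (d ^ 2 + h ^ 2) with hq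
  have hq0 : 0 < d ^ 2 + h ^ 2 := by positivity
  have hqp : 0 < q := Real.sqrt_pos.2 hq0
  have hq2 : q ^ 2 = d ^ 2 + h ^ 2 := Real.sq_sqrt hq0.le
  set t : ℝ := Real.sqrt (1 - X ^ 2) with ht
  have htp : 0 < t := Real.sqrt_pos.2 hX2
  have ht2 : t ^ 2 = 1 - X ^ 2 := Real.sq_sqrt hX2.le
  have e1 : ∀ Y, VolW_G d J (X, Y, h) =
      (Set.Ioo 0 (t * d / q)).indicator (fun Y => ENNReal.ofReal (Y / d)) Y := by
    intro Y
    unfold VolW_G
    by_cases hY : Y ∈ Set.Ioo 0 (t * d / q)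
    · have hm : (X, Y, h) ∈ VolW_R d J := by
        refine ⟨hY.1, hh, ?_⟩
        simp only
        rw [← hq2]
        have h2 : Y * q < t * d := by
          have := hY.2
          rwa [lt_div_iff₀ hqp] at this
        have h3 : 0 ≤ Y * q := by
          have := hY.1
          positivity
        have h4 : (Y * q) ^ 2 < (t * d) ^ 2 := pow_lt_pow_left₀ h2 h3 two_ne_zero
        have h5 : (t * d) ^ 2 = (1 - X ^ 2) * d ^ 2 := by rw [mul_pow, ht2]
        nlinarith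
      rw [Set.indicator_of_mem hY, Set.indicator_of_mem hm]
    · have hm : (X, Y, h) ∉ VolW_R d J := by
        rintro ⟨h0, -, h4⟩
        apply hY
        refine ⟨h0, ?_⟩
        simp only at h4 h0
        rw [← hq2] at h4
        rw [lt_div_iff₀ hqp]
        have h5 : (t * d) ^ 2 = (1 - X ^ 2) * d ^ 2 := by rw [mul_pow, ht2]
        have : (Y * q) ^ 2 < (t * d) ^ 2 := by nlinarith
        exact lt_of_pow_lt_pow_left₀ 2 (by positivity) this
      rw [Set.indicator_of_notMem hY, Set.indicator_of_notMem hm]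
  simp_rw [e1]
  rw [lintegral_indicator measurableSet_Ioo]
  rw [← ofReal_integral_eq_lintegral_ofReal]
  · congr 1
    rw [← integral_Ioc_eq_integral_Ioo, ← intervalIntegral.integral_of_le (by positivity)]
    have e2 : ∀ Y : ℝ, Y / d = d⁻¹ * Y ^ 1 := by
      intro Y; rw [pow_one]; ring
    simp_rw [e2]
    rw [intervalIntegral.integral_const_mul, integral_pow, ← ht2, ← hq2]
    have e3 : (t * d / q) ^ (1 + 1) = t ^ 2 * d ^ 2 / q ^ 2 := by
      rw [div_pow, mul_pow]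
    rw [e3]
    field_simp
    norm_num
  · refine (Continuous.integrableOn_Icc ?_).mono_set Set.Ioo_subset_Icc_self
    fun_prop
  · refine (ae_restrict_iff' measurableSet_Ioo).2 (Filter.Eventually.of_forall fun s hs => ?_)
    simp only [Pi.zero_apply]
    have := hs.1
    positivity

/-- The integral over `X`. -/
theorem VolW_intX {d : ℝ} (hd : 0 < d) (h : ℝ) :
    ∫⁻ X in Set.Ioo (-1 : ℝ) 1,
      ENNReal.ofReal ((1 - X ^ 2) * (d / (2 * (d ^ 2 + h ^ 2)))) =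
      ENNReal.ofReal (2 / 3 * (d / (d ^ 2 + h ^ 2))) := by
  have hz : 0 < d ^ 2 + h ^ 2 := by positivity
  rw [← ofReal_integral_eq_lintegral_ofReal]
  · congr 1
    rw [← integral_Ioc_eq_integral_Ioo, ← intervalIntegral.integral_of_le (by norm_num)]
    rw [intervalIntegral.integral_mul_const, intervalIntegral.integral_sub
      (by simp) (Continuous.intervalIntegrable (by fun_prop) _ _), integral_pow]
    simp only [intervalIntegral.integral_const, smul_eq_mul]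
    field_simp
    norm_num
  · refine (Continuous.integrableOn_Icc ?_).mono_set Set.Ioo_subset_Icc_self
    fun_prop
  · refine (ae_restrict_iff' measurableSet_Ioo).2 (Filter.Eventually.of_forall fun s hs => ?_)
    simp only [Pi.zero_apply]
    have h1 : 0 ≤ 1 - s ^ 2 := by nlinarith [hs.1, hs.2]
    positivity

theorem vol_W {d : ℝ} (hd : 0 < d) {J : Set ℝ} (hJ : MeasurableSet J) :
    (volume {p : ℝ × ℝ × ℝ | 0 < p.2.1 ∧ d * p.2.2 / p.2.1 ∈ J ∧
      p.1 ^ 2 + p.2.1 ^ 2 + p.2.2 ^ 2 < 1}).toReal =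
      (2 / 3) * ∫ h in J, d / (d ^ 2 + h ^ 2) := by
  have hS := VolW_meas d hJ
  have hvol : volume (VolW_S d J) = ∫⁻ h in J, ENNReal.ofReal
      (2 / 3 * (d / (d ^ 2 + h ^ 2))) := by
    rw [← lintegral_indicator_one hS, Measure.volume_eq_prod, lintegral_prod _
      ((measurable_one.indicator hS).aemeasurable)]
    have h1 : ∀ X, ∫⁻ p : ℝ × ℝ, (VolW_S d J).indicator 1 (X, p) =
        ∫⁻ s, ∫⁻ h, VolW_G d J (X, s, h) := by
      intro X
      rw [← VolW_inner hd J X, Measure.volume_eq_prod, lintegral_prod]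
      refine Measurable.aemeasurable ?_
      exact (measurable_one.indicator hS).comp
        (by fun_prop : Measurable (fun p : ℝ × ℝ => ((X, p) : ℝ × ℝ × ℝ)))
    simp_rw [h1]
    rw [VolW_swap d hJ, ← lintegral_indicator hJ]
    refine lintegral_congr fun h => ?_
    by_cases hh : h ∈ J
    · rw [Set.indicator_of_mem hh, ← VolW_intX hd h, ← lintegral_indicator measurableSet_Ioo]
      refine lintegral_congr fun X => ?_
      by_cases hX : X ∈ Set.Ioo (-1 : ℝ) 1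
      · rw [Set.indicator_of_mem hX, VolW_intY hd hX hh]
      · rw [Set.indicator_of_notMem hX]
        have h2 : ∀ Y, VolW_G d J (X, Y, h) = 0 := by
          intro Y
          refine Set.indicator_of_notMem ?_ _
          rintro ⟨h0, -, h1⟩
          apply hX
          simp only at h0 h1
          have h3 : 0 < Y ^ 2 * (d ^ 2 + h ^ 2) := by positivity
          have h4 : X ^ 2 * d ^ 2 < 1 * d ^ 2 := by linarith
          have h5 : X ^ 2 < 1 := lt_of_mul_lt_mul_right h4 (by positivity)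
          rw [Set.mem_Ioo, ← abs_lt]
          exact (sq_lt_one_iff_abs_lt_one X).1 h5
        simp [h2]
    · rw [Set.indicator_of_notMem hh]
      have h2 : ∀ X Y, VolW_G d J (X, Y, h) = 0 := by
        intro X Y
        refine Set.indicator_of_notMem ?_ _
        rintro ⟨-, h3, -⟩
        exact hh h3
      simp [h2]
  change (volume (VolW_S d J)).toReal = _
  rw [hvol, ← integral_const_mul, integral_eq_lintegral_of_nonneg_ae]
  · refine Filter.Eventually.of_forall fun h => ?_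
    simp only [Pi.zero_apply]
    positivity
  · refine Measurable.aestronglyMeasurable ?_
    fun_prop

end Pool.Agent.Lib.MP_b2bfca_co.K3U
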