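import Pool.Agent.Lib.MP_b2bfca_co.K3U.Haus
import Pool.Agent.Lib.MP_b2bfca_co.K3U.Frame
import Pool.Agent.Lib.MP_b2bfca_co.K3U.VolW
import Pool.Agent.Lib.MP_b2bfca_co.K3U.GeoB

/-!
# `BB` is `3/2` times the volume of the wedge region

PROOF. As in `VolTT`, with the frame `(ev i j, mv i j k, n)` at `p = tp i j`: the point
`tp + a e + s (y - tp)`, `y = tp + d m + h n ∈ SS`, has coordinates `(a, s d, s h)`; conversely
`s = Y/d`, `h = d Z/Y`. So `WW` is the preimage of `{Y > 0, d Z/Y ∈ J}`. `BB = ∫_J d/(d^2+h^2)` by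
`integral_line` and `dist_axis`. Then `vol_W`.
-/

set_option autoImplicit false

namespace Pool.Agent.Lib.MP_b2bfca_co.K3U

open MeasureTheory

variable {ι : Type} (c : ι → E3) (w : ι → ℝ)

private theorem VolWW_continuous_pw (i : ι) : Continuous (pw c w i) := by
  unfold pw
  fun_prop

private theorem VolWW_isClosed_SS (i j k : ι) : IsClosed (SS c w i j k) := by
  have h1 := isClosed_eq (VolWW_continuous_pw c w i) (VolWW_continuous_pw c w j)
  have h2 := isClosed_eq (VolWW_continuous_pw c w i) (VolWW_continuous_pw c w k)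
  have h3 : IsClosed (cell c w i) := by
    unfold cell
    rw [Set.ofPred_forall]
    exact isClosed_iInter fun l =>
      isClosed_le (VolWW_continuous_pw c w i) (VolWW_continuous_pw c w l)
  exact h1.inter (h2.inter h3)

private theorem VolWW_frame {e m n : E3} (h : Orthonormal ℝ ![e, m, n]) (a b t : ℝ) :
    inner ℝ (a • e + b • m + t • n) e = a ∧ inner ℝ (a • e + b • m + t • n) m = b ∧
      inner ℝ (a • e + b • m + t • n) n = t := by
  have he : ‖e‖ = 1 := h.1 0
  have hm : ‖m‖ = 1 := h.1 1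
  have hn : ‖n‖ = 1 := h.1 2
  have hem : inner ℝ e m = 0 := h.2 (show (0 : Fin 3) ≠ 1 by decide)
  have hen : inner ℝ e n = 0 := h.2 (show (0 : Fin 3) ≠ 2 by decide)
  have hme : inner ℝ m e = 0 := h.2 (show (1 : Fin 3) ≠ 0 by decide)
  have hmn : inner ℝ m n = 0 := h.2 (show (1 : Fin 3) ≠ 2 by decide)
  have hne : inner ℝ n e = 0 := h.2 (show (2 : Fin 3) ≠ 0 by decide)
  have hnm : inner ℝ n m = 0 := h.2 (show (2 : Fin 3) ≠ 1 by decide)
  simp only [inner_add_left, real_inner_smul_left, real_inner_self_eq_norm_sq, he, hm, hn, hem,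
    hen, hme, hmn, hne, hnm]
  refine ⟨by ring, by ring, by ring⟩

private theorem VolWW_mem (hc : Function.Injective c) {i j k : ι} (h3 : Dist3 i j k)
    (hs : sn c i j k ≠ 0) (hd : 0 < dd c w i j k) {n : E3}
    (hn : Orthonormal ℝ ![ev c i j, mv c i j k, n]) (x : E3) :
    x ∈ WW c w i j k ↔ 0 < inner ℝ (x - tp c w i j) (mv c i j k) ∧
      tp c w i j + dd c w i j k • mv c i j k + (dd c w i j k * inner ℝ (x - tp c w i j) n /
        inner ℝ (x - tp c w i j) (mv c i j k)) • n ∈ SS c w i j k := by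
  have hj : c i ≠ c j := fun h => h3.1 (hc h)
  have hk : c i ≠ c k := fun h => h3.2.1 (hc h)
  constructor
  · rintro ⟨a, s, hs0, y, hy, rfl⟩
    obtain ⟨h, rfl⟩ := (axis_iff c w hj hk hs hn y).1 ⟨hy.1, hy.2.1⟩
    have h1 : tp c w i j + a • ev c i j + s • (tp c w i j + dd c w i j k • mv c i j k +
        h • n - tp c w i j) - tp c w i j = a • ev c i j +
        (s * dd c w i j k) • mv c i j k + (s * h) • n := by
      module
    obtain ⟨h2, h4, h5⟩ := VolWW_frame hn a (s * dd c w i j k) (s * h)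
    rw [h1, h4, h5]
    have h7 : dd c w i j k * (s * h) / (s * dd c w i j k) = h := by
      field_simp
    rw [h7]
    exact ⟨mul_pos hs0 hd, hy⟩
  · rintro ⟨h1, h5⟩
    have hx := frame_expand (tp c w i j) _ _ _ hn x
    set X := inner ℝ (x - tp c w i j) (ev c i j) with hX
    set Y := inner ℝ (x - tp c w i j) (mv c i j k) with hY
    set Z := inner ℝ (x - tp c w i j) n with hZ
    refine ⟨X, Y / dd c w i j k, div_pos h1 hd, _, h5, ?_⟩
    rw [hx]
    have h7 : tp c w i j + dd c w i j k • mv c i j k + (dd c w i j k * Z / Y) • n -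
        tp c w i j = dd c w i j k • mv c i j k + (dd c w i j k * Z / Y) • n := by
      module
    have h8 : Y / dd c w i j k * dd c w i j k = Y := div_mul_cancel₀ _ hd.ne'
    have h9 : Y / dd c w i j k * (dd c w i j k * Z / Y) = Z := by
      field_simp
    rw [h7, smul_add, smul_smul, smul_smul, h8, h9, add_assoc, add_assoc]

private theorem VolWW_measurable (d : ℝ) {J : Set ℝ} (hJ : MeasurableSet J) :
    MeasurableSet {p : ℝ × ℝ × ℝ | 0 < p.2.1 ∧ d * p.2.2 / p.2.1 ∈ J} := by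
  have h2 : Measurable fun p : ℝ × ℝ × ℝ => d * p.2.2 / p.2.1 := by fun_prop
  have h1 : Measurable fun p : ℝ × ℝ × ℝ => p.2.1 := by fun_prop
  exact (measurableSet_lt measurable_const h1).inter (h2 hJ)

private theorem VolWW_J {i j k : ι} (n : E3) : MeasurableSet
    {h : ℝ | tp c w i j + dd c w i j k • mv c i j k + h • n ∈ SS c w i j k} := by
  have h1 : Continuous fun h : ℝ => tp c w i j + dd c w i j k • mv c i j k + h • n := by
    fun_prop
  exact ((VolWW_isClosed_SS c w i j k).preimage h1).measurableSet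

theorem measurableSet_WW (hc : Function.Injective c) {i j k : ι} (h3 : Dist3 i j k)
    (hs : sn c i j k ≠ 0) (hd : 0 < dd c w i j k) :
    MeasurableSet (WW c w i j k) := by
  have hj : c i ≠ c j := fun h => h3.1 (hc h)
  have hk : c i ≠ c k := fun h => h3.2.1 (hc h)
  obtain ⟨n, hn⟩ := exists_third (ev c i j) (mv c i j k) (norm_ev c hj) (norm_mv c hj hk hs)
    (inner_ev_mv c hj)
  have h1 := (frame_mp (tp c w i j) _ _ _ hn).measurable
    (VolWW_measurable (dd c w i j k) (VolWW_J c w (i := i) (j := j) (k := k) n))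
  have h2 : WW c w i j k = (fun x : E3 => ((inner ℝ (x - tp c w i j) (ev c i j),
      inner ℝ (x - tp c w i j) (mv c i j k), inner ℝ (x - tp c w i j) n) : ℝ × ℝ × ℝ)) ⁻¹'
      {p : ℝ × ℝ × ℝ | 0 < p.2.1 ∧ dd c w i j k * p.2.2 / p.2.1 ∈
          {h : ℝ | tp c w i j + dd c w i j k • mv c i j k + h • n ∈ SS c w i j k}} :=
    Set.ext fun x => VolWW_mem c w hc h3 hs hd hn x
  rw [h2]
  exact h1

theorem BB_eq (hc : Function.Injective c) {i j k : ι} (h3 : Dist3 i j k)
    (hs : sn c i j k ≠ 0) (hd : 0 < dd c w i j k) :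
    BB c w i j k = (3 / 2) * (volume (WW c w i j k ∩ Metric.ball (tp c w i j) 1)).toReal := by
  rw [BB, if_pos h3]
  have hj : c i ≠ c j := fun h => h3.1 (hc h)
  have hk : c i ≠ c k := fun h => h3.2.1 (hc h)
  obtain ⟨n, hn⟩ := exists_third (ev c i j) (mv c i j k) (norm_ev c hj) (norm_mv c hj hk hs)
    (inner_ev_mv c hj)
  have hn1 : ‖n‖ = 1 := hn.1 2
  rw [integral_line (tp c w i j + dd c w i j k • mv c i j k) n hn1 (SS c w i j k)
    (fun y hy => (axis_iff c w hj hk hs hn y).1 ⟨hy.1, hy.2.1⟩)]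
  have hJ := VolWW_J c w (i := i) (j := j) (k := k) n
  have hmp := frame_mp (tp c w i j) _ _ _ hn
  have h1 : WW c w i j k ∩ Metric.ball (tp c w i j) 1 =
      (fun x : E3 => ((inner ℝ (x - tp c w i j) (ev c i j),
        inner ℝ (x - tp c w i j) (mv c i j k), inner ℝ (x - tp c w i j) n) : ℝ × ℝ × ℝ)) ⁻¹'
      {p : ℝ × ℝ × ℝ | 0 < p.2.1 ∧ dd c w i j k * p.2.2 / p.2.1 ∈
          {h : ℝ | tp c w i j + dd c w i j k • mv c i j k + h • n ∈ SS c w i j k} ∧
        p.1 ^ 2 + p.2.1 ^ 2 + p.2.2 ^ 2 < 1} := by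
    ext x
    have h2 := VolWW_mem c w hc h3 hs hd hn x
    have h4 : x ∈ Metric.ball (tp c w i j) 1 ↔ inner ℝ (x - tp c w i j) (ev c i j) ^ 2 +
        inner ℝ (x - tp c w i j) (mv c i j k) ^ 2 + inner ℝ (x - tp c w i j) n ^ 2 < 1 := by
      rw [← frame_norm (tp c w i j) _ _ _ hn x, Metric.mem_ball, dist_eq_norm, sq_lt_one_iff₀
        (norm_nonneg _)]
    rw [Set.mem_inter_iff, h2, h4]
    simp only [Set.mem_preimage, Set.mem_ofPred_eq]
    tauto
  have hme : MeasurableSet {p : ℝ × ℝ × ℝ | 0 < p.2.1 ∧ dd c w i j k * p.2.2 / p.2.1 ∈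
          {h : ℝ | tp c w i j + dd c w i j k • mv c i j k + h • n ∈ SS c w i j k} ∧
        p.1 ^ 2 + p.2.1 ^ 2 + p.2.2 ^ 2 < 1} := by
    have h5 := VolWW_measurable (dd c w i j k) hJ
    have h6 : MeasurableSet {p : ℝ × ℝ × ℝ | p.1 ^ 2 + p.2.1 ^ 2 + p.2.2 ^ 2 < 1} :=
      measurableSet_lt (by fun_prop) measurable_const
    convert h5.inter h6 using 1
    ext p
    simp only [Set.mem_inter_iff, Set.mem_ofPred_eq]
    tauto
  rw [h1, hmp.measure_preimage hme.nullMeasurableSet, vol_W hd hJ, ← mul_assoc,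
    show (3 / 2 : ℝ) * (2 / 3) = 1 by norm_num, one_mul]
  refine setIntegral_congr_fun hJ fun h _ => ?_
  simp only [(dist_axis c w hn h).2]

end Pool.Agent.Lib.MP_b2bfca_co.K3U
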