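import Pool.Agent.Lib.MP_b2bfca_co.K3U.RayW
import Pool.Agent.Lib.MP_b2bfca_co.K3U.VolWW

/-!
# The angle sum at a tangent point

PROOF. For `k` with `Dist3 i j k` and `sn ≠ 0`: `dd i j k > 0` (`sign_dd` and `hpos`). The line
`t + ℝ e` is a null set. By `cover_W` the ball `ball (tp i j) 1` is, up to a null set, covered by the sets
`WW i j k` with `Dist3 i j k` and `sn ≠ 0`. So
`4π/3 = volume (ball) ≤ ∑_k volume (WW ∩ ball) = ∑_k (2/3) BB i j k` over these `k` (`BB_eq`;
all volumes finite). The other `k` have `BB = 0` (not `Dist3`, or `sn = 0` so `dd = 0`).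
-/

set_option autoImplicit false

namespace Pool.Agent.Lib.MP_b2bfca_co.K3U

open MeasureTheory

variable {ι : Type} [Fintype ι] (c : ι → E3) (w : ι → ℝ)

omit [Fintype ι] in
theorem SumB_null (t e : E3) :
    volume {x : E3 | x - t ∈ Submodule.span ℝ {e}} = 0 := by
  have h1 : {x : E3 | x - t ∈ Submodule.span ℝ {e}} =
      (fun x : E3 => x + (-t)) ⁻¹' (Submodule.span ℝ {e} : Set E3) := by
    ext x
    simp [sub_eq_add_neg]
  rw [h1, measure_preimage_add_right]
  refine Measure.addHaar_submodule _ _ fun h => ?_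
  have h2 : Module.finrank ℝ (Submodule.span ℝ ({e} : Set E3)) ≤ 1 := by
    have h3 := finrank_span_le_card (R := ℝ) ({e} : Set E3)
    simpa using h3
  rw [h, finrank_top, finrank_euclideanSpace_fin] at h2
  omega

omit [Fintype ι] in
theorem SumB_dd (hc : Function.Injective c) {i j k : ι}
    (hpos : ∀ k, k ≠ i → k ≠ j → pw c w i (tp c w i j) < pw c w k (tp c w i j))
    (h3 : Dist3 i j k) (hs : sn c i j k ≠ 0) : 0 < dd c w i j k := by
  have h1 := sign_dd c w (fun h => h3.1 (hc h)) (fun h => h3.2.1 (hc h)) hs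
  rw [Real.sign_of_pos (sub_pos.2 (hpos k (Ne.symm h3.2.1) (Ne.symm h3.2.2)))] at h1
  rcases lt_trichotomy (dd c w i j k) 0 with h | h | h
  · rw [Real.sign_of_neg h] at h1
    norm_num at h1
  · rw [h, Real.sign_zero] at h1
    norm_num at h1
  · exact h

theorem le_sum_BB (hc : Function.Injective c) {i j : ι} (hij : i ≠ j)
    (hpos : ∀ k, k ≠ i → k ≠ j → pw c w i (tp c w i j) < pw c w k (tp c w i j))
    (hb : Bornology.IsBounded (cell c w i)) :
    2 * Real.pi ≤ ∑ k, BB c w i j k := by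
  classical
  set t : E3 := tp c w i j with ht
  set K : Finset ι := Finset.univ.filter (fun k => Dist3 i j k ∧ sn c i j k ≠ 0) with hK
  have hsum : ∑ k, BB c w i j k = ∑ k ∈ K, BB c w i j k := by
    refine (Finset.sum_subset (Finset.subset_univ K) fun k _ hk => ?_).symm
    by_cases h3 : Dist3 i j k
    · have hs : sn c i j k = 0 := by
        by_contra h
        exact hk (Finset.mem_filter.2 ⟨Finset.mem_univ _, h3, h⟩)
      have hd : dd c w i j k = 0 := by simp [dd, hs]
      rw [BB, if_pos h3]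
      simp [hd]
    · rw [BB, if_neg h3]
  have hBB : ∀ k ∈ K, BB c w i j k =
      (3 / 2) * (volume (WW c w i j k ∩ Metric.ball t 1)).toReal := by
    intro k hk
    obtain ⟨_, h3, hs⟩ := Finset.mem_filter.1 hk
    exact BB_eq c w hc h3 hs (SumB_dd c w hc hpos h3 hs)
  have hcov : Metric.ball t 1 ⊆ {x : E3 | x - t ∈ Submodule.span ℝ {ev c i j}} ∪
      ⋃ k ∈ K, WW c w i j k ∩ Metric.ball t 1 := by
    intro x hx
    by_cases h : x - t ∈ Submodule.span ℝ {ev c i j}
    · exact Or.inl h
    · obtain ⟨k, h3, hs, hk⟩ := cover_W c w hc hij hpos hb h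
      refine Or.inr (Set.mem_biUnion (x := k) ?_ ⟨hk, hx⟩)
      exact Finset.mem_coe.2 (Finset.mem_filter.2 ⟨Finset.mem_univ _, h3, hs⟩)
  have hle : volume (Metric.ball t 1) ≤ ∑ k ∈ K, volume (WW c w i j k ∩ Metric.ball t 1) := by
    calc volume (Metric.ball t 1)
        ≤ volume ({x : E3 | x - t ∈ Submodule.span ℝ {ev c i j}} ∪
          ⋃ k ∈ K, WW c w i j k ∩ Metric.ball t 1) := measure_mono hcov
      _ ≤ volume {x : E3 | x - t ∈ Submodule.span ℝ {ev c i j}} +
          volume (⋃ k ∈ K, WW c w i j k ∩ Metric.ball t 1) := measure_union_le _ _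
      _ = volume (⋃ k ∈ K, WW c w i j k ∩ Metric.ball t 1) := by rw [SumB_null, zero_add]
      _ ≤ _ := measure_biUnion_finset_le _ _
  have hfin : ∀ k ∈ K, volume (WW c w i j k ∩ Metric.ball t 1) ≠ ⊤ := fun k _ =>
    (lt_of_le_of_lt (measure_mono Set.inter_subset_right) measure_ball_lt_top).ne
  have hle2 : (volume (Metric.ball t 1)).toReal ≤
      ∑ k ∈ K, (volume (WW c w i j k ∩ Metric.ball t 1)).toReal := by
    rw [← ENNReal.toReal_sum hfin]
    exact ENNReal.toReal_mono (ENNReal.sum_ne_top.2 hfin) hle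
  have hball : (volume (Metric.ball t 1)).toReal = 4 * Real.pi / 3 := by
    rw [EuclideanSpace.volume_ball_fin_three]
    rw [ENNReal.ofReal_one, one_pow, one_mul, ENNReal.toReal_ofReal (by positivity)]
    ring
  rw [hsum, Finset.sum_congr rfl hBB, ← Finset.mul_sum]
  linarith

end Pool.Agent.Lib.MP_b2bfca_co.K3U
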