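import Mathlib

/-!
# Sums over ordered triples

PROOF. For each of the six permutations `σ` the sum `∑ i, ∑ j, ∑ k, f (v (σ 0)) (v (σ 1)) (v (σ 2))`,
`v = ![i, j, k]`, is `∑ i, ∑ j, ∑ k, f i j k` by `Finset.sum_comm` (or: sum over
`v : Fin 3 → ι` and reindex by `Equiv.arrowCongr σ`; `∑ v : Fin 3 → ι` is
`∑ i, ∑ j, ∑ k` by `Fin.consEquiv`). `Equiv.Perm (Fin 3)` has six elements.
-/

set_option autoImplicit false

namespace Pool.Agent.Lib.MP_b2bfca_co.K3U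

theorem sym_cons {ι : Type} [Fintype ι] (n : ℕ) (g : (Fin (n + 1) → ι) → ℝ) :
    ∑ v : Fin (n + 1) → ι, g v = ∑ i : ι, ∑ w : Fin n → ι, g (Fin.cons i w) := by
  rw [← Fintype.sum_prod_type']
  exact (Fintype.sum_equiv (Fin.consEquiv (fun _ : Fin (n + 1) => ι)) _ _ (fun p => rfl)).symm

theorem sym_three {ι : Type} [Fintype ι] (g : (Fin 3 → ι) → ℝ) :
    ∑ v : Fin 3 → ι, g v = ∑ i, ∑ j, ∑ k, g ![i, j, k] := by
  rw [sym_cons 2]
  refine Finset.sum_congr rfl fun i _ => ?_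
  rw [sym_cons 1]
  refine Finset.sum_congr rfl fun j _ => ?_
  rw [sym_cons 0]
  refine Finset.sum_congr rfl fun k _ => ?_
  rw [Fintype.sum_unique]
  rfl

theorem sum_perm {ι : Type} [Fintype ι] (f : ι → ι → ι → ℝ) :
    6 * ∑ i, ∑ j, ∑ k, f i j k = ∑ i, ∑ j, ∑ k, ∑ σ : Equiv.Perm (Fin 3),
      f ((![i, j, k] : Fin 3 → ι) (σ 0)) ((![i, j, k] : Fin 3 → ι) (σ 1))
        ((![i, j, k] : Fin 3 → ι) (σ 2)) := by
  rw [← sym_three (fun v => ∑ σ : Equiv.Perm (Fin 3), f (v (σ 0)) (v (σ 1)) (v (σ 2)))]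
  have hsw : ∑ v : Fin 3 → ι, ∑ σ : Equiv.Perm (Fin 3), f (v (σ 0)) (v (σ 1)) (v (σ 2)) =
      ∑ σ : Equiv.Perm (Fin 3), ∑ v : Fin 3 → ι, f (v (σ 0)) (v (σ 1)) (v (σ 2)) :=
    Finset.sum_comm
  rw [hsw]
  have h1 : ∀ σ : Equiv.Perm (Fin 3), ∑ v : Fin 3 → ι, f (v (σ 0)) (v (σ 1)) (v (σ 2)) =
      ∑ i, ∑ j, ∑ k, f i j k := by
    intro σ
    have h2 : ∑ v : Fin 3 → ι, f (v (σ 0)) (v (σ 1)) (v (σ 2)) =
        ∑ v : Fin 3 → ι, f (v 0) (v 1) (v 2) := by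
      apply Fintype.sum_equiv (Equiv.arrowCongr σ.symm (Equiv.refl ι))
      intro v
      rfl
    rw [h2, sym_three]
    rfl
  rw [Finset.sum_congr rfl (fun σ _ => h1 σ), Finset.sum_const, Finset.card_univ,
    Fintype.card_perm, Fintype.card_fin, nsmul_eq_mul]
  norm_num [Nat.factorial]

end Pool.Agent.Lib.MP_b2bfca_co.K3U
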