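import Pool.Agent.Lib.MP_b2bfca_co.K3U.GeoB
import Pool.Agent.Lib.MP_b2bfca_co.K3U.Frame

/-!
# Geometry of triples of balls: symmetry

PROOFS. `sn_perm`: `sn i j k * ‖c j - c i‖ * ‖c k - c i‖` is the square root of the Gram
determinant `‖c j - c i‖^2 ‖c k - c i‖^2 - inner (c j - c i) (c k - c i)^2`, a symmetric expression.
`qq_perm`: `q = tp + dd • mv` is an affine combination of the three centres and has equal powers
(`axis_iff` with `h = 0`, `exists_third`); two such points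
differ by a vector of the plane orthogonal to `c j - c i` and `c k - c i`, hence are equal.
-/

set_option autoImplicit false

namespace Pool.Agent.Lib.MP_b2bfca_co.K3U

variable {ι : Type} (c : ι → E3) (w : ι → ℝ)

theorem GeoC_cases (σ : Equiv.Perm (Fin 3)) :
    (σ 0 = 0 ∧ σ 1 = 1 ∧ σ 2 = 2) ∨ (σ 0 = 0 ∧ σ 1 = 2 ∧ σ 2 = 1) ∨
    (σ 0 = 1 ∧ σ 1 = 0 ∧ σ 2 = 2) ∨ (σ 0 = 1 ∧ σ 1 = 2 ∧ σ 2 = 0) ∨
    (σ 0 = 2 ∧ σ 1 = 0 ∧ σ 2 = 1) ∨ (σ 0 = 2 ∧ σ 1 = 1 ∧ σ 2 = 0) := by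
  revert σ
  decide

/-- the Gram determinant -/
private noncomputable def GeoCg (i j k : ι) : ℝ :=
  ‖c j - c i‖ ^ 2 * ‖c k - c i‖ ^ 2 - (inner ℝ (c j - c i) (c k - c i)) ^ 2

private theorem GeoCg_12 (i j k : ι) : GeoCg c i j k = GeoCg c i k j := by
  unfold GeoCg
  rw [real_inner_comm]
  ring

private theorem GeoCg_01 (i j k : ι) : GeoCg c i j k = GeoCg c j i k := by
  unfold GeoCg
  have h1 : c i - c j = -(c j - c i) := by abel
  have h2 : c k - c j = (c k - c i) - (c j - c i) := by abel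
  rw [h1, h2]
  generalize c j - c i = a
  generalize c k - c i = b
  rw [norm_neg, inner_neg_left, inner_sub_right, norm_sub_sq_real, real_inner_self_eq_norm_sq,
    real_inner_comm b a]
  ring

private theorem GeoC_sn {i j k : ι} (hj : c i ≠ c j) (hk : c i ≠ c k) :
    sn c i j k ≠ 0 ↔ GeoCg c i j k ≠ 0 := by
  have h1 := sn_sq c hj hk
  have hj0 : ‖c j - c i‖ ≠ 0 := norm_ne_zero_iff.2 (sub_ne_zero.2 hj.symm)
  have hk0 : ‖c k - c i‖ ≠ 0 := norm_ne_zero_iff.2 (sub_ne_zero.2 hk.symm)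
  have h2 : inner ℝ (c j - c i) (c k - c i) = ‖c j - c i‖ * ‖c k - c i‖ * cs c i j k := by
    conv_lhs => rw [sub_eq_smul_ev c hj, sub_eq_smul_ev c hk]
    rw [real_inner_smul_left, real_inner_smul_right]
    unfold cs
    ring
  have h3 : GeoCg c i j k = ‖c j - c i‖ ^ 2 * ‖c k - c i‖ ^ 2 * sn c i j k ^ 2 := by
    unfold GeoCg
    rw [h2, h1]
    ring
  rw [h3]
  constructor
  · intro h
    positivity
  · intro h h0
    apply h
    rw [h0]
    ring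

theorem sn_perm (hc : Function.Injective c) (v : Fin 3 → ι) (hv : Function.Injective v)
    (hs : sn c (v 0) (v 1) (v 2) ≠ 0) (σ : Equiv.Perm (Fin 3)) :
    sn c (v (σ 0)) (v (σ 1)) (v (σ 2)) ≠ 0 := by
  have hne : ∀ a b : Fin 3, a ≠ b → c (v a) ≠ c (v b) := fun a b hab h => hab (hv (hc h))
  have hg : GeoCg c (v 0) (v 1) (v 2) ≠ 0 := (GeoC_sn c (hne 0 1 (by decide)) (hne 0 2 (by decide))).1 hs
  have hσ : ∀ a b : Fin 3, a ≠ b → σ a ≠ σ b := fun a b hab h => hab (σ.injective h)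
  rw [GeoC_sn c (hne _ _ (hσ 0 1 (by decide))) (hne _ _ (hσ 0 2 (by decide)))]
  rcases GeoC_cases σ with ⟨h0, h1, h2⟩ | ⟨h0, h1, h2⟩ | ⟨h0, h1, h2⟩ | ⟨h0, h1, h2⟩ |
    ⟨h0, h1, h2⟩ | ⟨h0, h1, h2⟩ <;> rw [h0, h1, h2]
  · exact hg
  · rw [GeoCg_12]; exact hg
  · rw [GeoCg_01]; exact hg
  · rw [GeoCg_12, GeoCg_01]; exact hg
  · rw [GeoCg_01, GeoCg_12]; exact hg
  · rw [GeoCg_01, GeoCg_12, GeoCg_01]; exact hg

/-- the property characterizing the centre of the radical axis -/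
private def GeoCp (i j k : ι) (y : E3) : Prop :=
  (pw c w i y = pw c w j y ∧ pw c w i y = pw c w k y) ∧
    ∃ α β γ : ℝ, α + β + γ = 1 ∧ y = α • c i + β • c j + γ • c k

private theorem GeoCp_12 {i j k : ι} {y : E3} (h : GeoCp c w i j k y) : GeoCp c w i k j y := by
  obtain ⟨⟨h1, h2⟩, α, β, γ, h3, h4⟩ := h
  exact ⟨⟨h2, h1⟩, α, γ, β, by linarith, by rw [h4]; abel⟩

private theorem GeoCp_01 {i j k : ι} {y : E3} (h : GeoCp c w i j k y) : GeoCp c w j i k y := by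
  obtain ⟨⟨h1, h2⟩, α, β, γ, h3, h4⟩ := h
  exact ⟨⟨h1.symm, h1.symm.trans h2⟩, β, α, γ, by linarith, by rw [h4]; abel⟩

private theorem GeoCp_q {i j k : ι} (hj : c i ≠ c j) (hk : c i ≠ c k) (hs : sn c i j k ≠ 0) :
    GeoCp c w i j k (tp c w i j + dd c w i j k • mv c i j k) := by
  obtain ⟨n, hn⟩ := exists_third (ev c i j) (mv c i j k) (norm_ev c hj) (norm_mv c hj hk hs)
    (inner_ev_mv c hj)
  refine ⟨(axis_iff c w hj hk hs hn _).2 ⟨0, by simp⟩, ?_⟩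
  have hj0 : ‖c j - c i‖ ≠ 0 := norm_ne_zero_iff.2 (sub_ne_zero.2 hj.symm)
  have hk0 : ‖c k - c i‖ ≠ 0 := norm_ne_zero_iff.2 (sub_ne_zero.2 hk.symm)
  set D := dd c w i j k
  set S := sn c i j k
  set g := cs c i j k
  set x := de c w i j
  have e1 : tp c w i j + D • mv c i j k = c i +
      ((x - D * S⁻¹ * g) * ‖c j - c i‖⁻¹) • (c j - c i) + (D * S⁻¹ * ‖c k - c i‖⁻¹) • (c k - c i) := by
    simp only [tp, mv, ev]
    module
  refine ⟨1 - ((x - D * S⁻¹ * g) * ‖c j - c i‖⁻¹) - (D * S⁻¹ * ‖c k - c i‖⁻¹),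
    (x - D * S⁻¹ * g) * ‖c j - c i‖⁻¹, D * S⁻¹ * ‖c k - c i‖⁻¹, by ring, ?_⟩
  rw [e1]
  module

private theorem GeoCp_unique {i j k : ι} (hj : c i ≠ c j) (hk : c i ≠ c k) {y y' : E3}
    (h : GeoCp c w i j k y) (h' : GeoCp c w i j k y') : y = y' := by
  obtain ⟨⟨h1, h2⟩, α, β, γ, h3, h4⟩ := h
  obtain ⟨⟨h1', h2'⟩, α', β', γ', h3', h4'⟩ := h'
  have o1 : inner ℝ (y - y') (c j - c i) = 0 := by
    have e1 := (pw_eq_iff c w hj y).1 h1
    have e2 := (pw_eq_iff c w hj y').1 h1'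
    have e3 : inner ℝ (y - y') (ev c i j) = 0 := by
      have : y - y' = (y - c i) - (y' - c i) := by abel
      rw [this, inner_sub_left, e1, e2, sub_self]
    rw [sub_eq_smul_ev c hj, real_inner_smul_right, e3, mul_zero]
  have o2 : inner ℝ (y - y') (c k - c i) = 0 := by
    have e1 := (pw_eq_iff c w hk y).1 h2
    have e2 := (pw_eq_iff c w hk y').1 h2'
    have e3 : inner ℝ (y - y') (ev c i k) = 0 := by
      have : y - y' = (y - c i) - (y' - c i) := by abel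
      rw [this, inner_sub_left, e1, e2, sub_self]
    rw [sub_eq_smul_ev c hk, real_inner_smul_right, e3, mul_zero]
  have e4 : y - y' = (β - β') • (c j - c i) + (γ - γ') • (c k - c i) := by
    have a1 : α = 1 - β - γ := by linarith
    have a2 : α' = 1 - β' - γ' := by linarith
    rw [h4, h4', a1, a2]
    module
  have e5 : inner ℝ (y - y') (y - y') = (0 : ℝ) := by
    have e6 : inner ℝ (y - y') (y - y') =
        inner ℝ (y - y') ((β - β') • (c j - c i) + (γ - γ') • (c k - c i)) := by rw [← e4]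
    rw [e6, inner_add_right, real_inner_smul_right, real_inner_smul_right, o1, o2]
    ring
  exact sub_eq_zero.1 (inner_self_eq_zero.1 e5)

theorem qq_perm (hc : Function.Injective c) (v : Fin 3 → ι) (hv : Function.Injective v)
    (hs : sn c (v 0) (v 1) (v 2) ≠ 0) (σ : Equiv.Perm (Fin 3)) :
    tp c w (v (σ 0)) (v (σ 1)) +
        dd c w (v (σ 0)) (v (σ 1)) (v (σ 2)) • mv c (v (σ 0)) (v (σ 1)) (v (σ 2)) =
      tp c w (v 0) (v 1) + dd c w (v 0) (v 1) (v 2) • mv c (v 0) (v 1) (v 2) := by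
  have hne : ∀ a b : Fin 3, a ≠ b → c (v a) ≠ c (v b) := fun a b hab h => hab (hv (hc h))
  have hσ : ∀ a b : Fin 3, a ≠ b → σ a ≠ σ b := fun a b hab h => hab (σ.injective h)
  have hp := GeoCp_q c w (hne _ _ (hσ 0 1 (by decide))) (hne _ _ (hσ 0 2 (by decide)))
    (sn_perm c hc v hv hs σ)
  have hp0 := GeoCp_q c w (hne 0 1 (by decide)) (hne 0 2 (by decide)) hs
  refine GeoCp_unique c w (hne 0 1 (by decide)) (hne 0 2 (by decide)) ?_ hp0
  rcases GeoC_cases σ with ⟨h0, h1, h2⟩ | ⟨h0, h1, h2⟩ | ⟨h0, h1, h2⟩ | ⟨h0, h1, h2⟩ |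
    ⟨h0, h1, h2⟩ | ⟨h0, h1, h2⟩ <;> rw [h0, h1, h2] at hp ⊢
  · exact hp
  · exact GeoCp_12 c w hp
  · exact GeoCp_01 c w hp
  · exact GeoCp_01 c w (GeoCp_12 c w hp)
  · exact GeoCp_12 c w (GeoCp_01 c w hp)
  · exact GeoCp_01 c w (GeoCp_12 c w (GeoCp_01 c w hp))

end Pool.Agent.Lib.MP_b2bfca_co.K3U
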