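import Pool.Agent.Lib.MP_b2bfca_co.K3U.Defs

/-!
# Antiderivatives of the densities
-/

set_option autoImplicit false

namespace Pool.Agent.Lib.MP_b2bfca_co.K3U

open MeasureTheory

theorem fa_eq {r ρ : ℝ} (hr : 0 < r) (hρ : ρ ≠ 0) (h : ℝ) :
    fa r ρ h = (1 - r / Real.sqrt (r ^ 2 + ρ ^ 2 + h ^ 2)) * fb ρ h := by
  unfold fa fb
  set u := Real.sqrt (r ^ 2 + ρ ^ 2 + h ^ 2) with hu
  have hρ2 : 0 < ρ ^ 2 := by positivity
  have hpos : 0 < r ^ 2 + ρ ^ 2 + h ^ 2 := by positivity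
  have hu0 : 0 < u := Real.sqrt_pos.mpr hpos
  have hu2 : u ^ 2 = r ^ 2 + ρ ^ 2 + h ^ 2 := Real.sq_sqrt hpos.le
  have h2 : ρ ^ 2 + h ^ 2 = (u - r) * (u + r) := by nlinarith
  have h3 : 0 < u - r := by
    by_contra hc
    push Not at hc
    nlinarith [sq_nonneg h]
  rw [h2]
  field_simp

private theorem integrable_of_bound {f : ℝ → ℝ} {C : ℝ} (hf : Continuous f)
    (hb : ∀ h, |f h| ≤ C * (1 + h ^ 2)⁻¹) : Integrable f volume := by
  refine Integrable.mono' (integrable_inv_one_add_sq.const_mul C) hf.aestronglyMeasurable ?_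
  filter_upwards with h
  exact hb h

private theorem min_bound {a h : ℝ} (ha : 0 < a) :
    min a 1 * (1 + h ^ 2) ≤ a + h ^ 2 := by
  have h1 := min_le_left a 1
  have h2 := min_le_right a 1
  have h3 : 0 < min a 1 := lt_min ha one_pos
  nlinarith [sq_nonneg h]

theorem integrable_fa {δ : ℝ} (hδ : 0 < δ) (d : ℝ) : Integrable (fa δ d) volume := by
  have hpos : ∀ h : ℝ, 0 < δ ^ 2 + d ^ 2 + h ^ 2 := fun h => by positivity
  have hu0 : ∀ h : ℝ, 0 < Real.sqrt (δ ^ 2 + d ^ 2 + h ^ 2) := fun h => Real.sqrt_pos.mpr (hpos h)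
  have hc : Continuous (fa δ d) := by
    unfold fa
    refine Continuous.div continuous_const (by fun_prop) ?_
    intro h
    have := hu0 h
    positivity
  refine integrable_of_bound (C := |d| / min (δ ^ 2) 1) hc ?_
  intro h
  have hm : 0 < min (δ ^ 2) 1 := lt_min (by positivity) one_pos
  have hb := min_bound (a := δ ^ 2) (h := h) (by positivity)
  have hu2 : Real.sqrt (δ ^ 2 + d ^ 2 + h ^ 2) ^ 2 = δ ^ 2 + d ^ 2 + h ^ 2 :=
    Real.sq_sqrt (hpos h).le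
  have hu := hu0 h
  unfold fa
  rw [abs_div, abs_of_pos (by positivity :
    0 < Real.sqrt (δ ^ 2 + d ^ 2 + h ^ 2) * (Real.sqrt (δ ^ 2 + d ^ 2 + h ^ 2) + δ))]
  have h1 : |d| / min (δ ^ 2) 1 * (1 + h ^ 2)⁻¹ = |d| / (min (δ ^ 2) 1 * (1 + h ^ 2)) := by
    field_simp
  rw [h1]
  apply div_le_div_of_nonneg_left (abs_nonneg d) (by positivity)
  nlinarith [sq_nonneg d]

theorem integrable_fb {d : ℝ} (hd : d ≠ 0) : Integrable (fb d) volume := by
  have hd2 : 0 < d ^ 2 := by positivity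
  have hc : Continuous (fb d) := by
    unfold fb
    refine Continuous.div continuous_const (by fun_prop) ?_
    intro h
    positivity
  refine integrable_of_bound (C := |d| / min (d ^ 2) 1) hc ?_
  intro h
  have hm : 0 < min (d ^ 2) 1 := lt_min (by positivity) one_pos
  have hb := min_bound (a := d ^ 2) (h := h) (by positivity)
  unfold fb
  rw [abs_div, abs_of_pos (by positivity : 0 < d ^ 2 + h ^ 2)]
  have h1 : |d| / min (d ^ 2) 1 * (1 + h ^ 2)⁻¹ = |d| / (min (d ^ 2) 1 * (1 + h ^ 2)) := by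
    field_simp
  rw [h1]
  exact div_le_div_of_nonneg_left (abs_nonneg d) (by positivity) hb

private theorem hasDerivAt_fb {ρ : ℝ} (hρ : 0 < ρ) (h : ℝ) :
    HasDerivAt (fun t => Real.arctan (t / ρ)) (fb ρ h) h := by
  have h1 : HasDerivAt (fun t : ℝ => t / ρ) (1 / ρ) h := (hasDerivAt_id h).div_const ρ
  have h2 := h1.arctan
  convert h2 using 1
  unfold fb
  field_simp

private theorem cont_fb {ρ : ℝ} (hρ : 0 < ρ) : Continuous (fb ρ) := by
  unfold fb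
  refine Continuous.div continuous_const (by fun_prop) ?_
  intro h
  positivity

theorem int_fb {ρ : ℝ} (hρ : 0 < ρ) (h : ℝ) :
    ∫ t in (0 : ℝ)..h, fb ρ t = Real.arctan (h / ρ) := by
  rw [intervalIntegral.integral_eq_sub_of_hasDerivAt (f := fun t => Real.arctan (t / ρ))
    (fun t _ => hasDerivAt_fb hρ t) ((cont_fb hρ).intervalIntegrable _ _)]
  simp

theorem int_fa {r ρ : ℝ} (hr : 0 < r) (hρ : 0 < ρ) {h : ℝ} (hh : 0 ≤ h) :
    ∫ t in (0 : ℝ)..h, fa r ρ t = Real.arctan (h / ρ) -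
      Real.arcsin (Real.sin (Real.arctan (h / ρ)) * Real.cos (Real.arctan (ρ / r))) := by
  have hpos : ∀ t : ℝ, 0 < r ^ 2 + ρ ^ 2 + t ^ 2 := fun t => by positivity
  have hu0 : ∀ t : ℝ, 0 < Real.sqrt (r ^ 2 + ρ ^ 2 + t ^ 2) := fun t => Real.sqrt_pos.mpr (hpos t)
  have hu2 : ∀ t : ℝ, Real.sqrt (r ^ 2 + ρ ^ 2 + t ^ 2) ^ 2 = r ^ 2 + ρ ^ 2 + t ^ 2 :=
    fun t => Real.sq_sqrt (hpos t).le
  have hc : Continuous (fa r ρ) := by
    unfold fa
    refine Continuous.div continuous_const (by fun_prop) ?_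
    intro t
    have := hu0 t
    positivity
  have hder : ∀ t : ℝ, HasDerivAt (fun t => Real.arctan (t / ρ) -
      Real.arctan (r * t / (ρ * Real.sqrt (r ^ 2 + ρ ^ 2 + t ^ 2)))) (fa r ρ t) t := by
    intro t
    have hu := hu0 t
    have h1 := hasDerivAt_fb hρ t
    have h2 : HasDerivAt (fun t : ℝ => r ^ 2 + ρ ^ 2 + t ^ 2) (2 * t) t := by
      have := ((hasDerivAt_id t).pow 2).const_add (r ^ 2 + ρ ^ 2)
      simpa using this
    have h3 := (h2.sqrt (hpos t).ne')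
    have h4 : HasDerivAt (fun t : ℝ => ρ * Real.sqrt (r ^ 2 + ρ ^ 2 + t ^ 2))
        (ρ * (2 * t / (2 * Real.sqrt (r ^ 2 + ρ ^ 2 + t ^ 2)))) t := h3.const_mul ρ
    have h5 : HasDerivAt (fun t : ℝ => r * t) (r * 1) t := (hasDerivAt_id t).const_mul r
    have h6 := (h5.div h4 (by positivity)).arctan
    have h7 := h1.sub h6
    refine h7.congr_deriv ?_
    rw [fa_eq hr hρ.ne']
    unfold fb
    have hu2t := hu2 t
    simp only [Pi.div_apply]
    set u := Real.sqrt (r ^ 2 + ρ ^ 2 + t ^ 2) with hu_def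
    have e1 : r * 1 * (ρ * u) - r * t * (ρ * (2 * t / (2 * u))) = r * ρ * (r ^ 2 + ρ ^ 2) / u := by
      field_simp
      nlinarith
    have e2 : 1 + (r * t / (ρ * u)) ^ 2 =
        (r ^ 2 + ρ ^ 2) * (ρ ^ 2 + t ^ 2) / (ρ ^ 2 * u ^ 2) := by
      field_simp
      rw [hu2t]
      ring
    rw [e1, e2]
    field_simp
  rw [intervalIntegral.integral_eq_sub_of_hasDerivAt (fun t _ => hder t)
    (hc.intervalIntegrable _ _)]
  simp only [zero_div, mul_zero, Real.arctan_zero, sub_zero]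
  congr 1
  have hu := hu0 h
  have hu2h := hu2 h
  set u := Real.sqrt (r ^ 2 + ρ ^ 2 + h ^ 2) with hu_def
  set y := r * h / (ρ * u) with hy
  have hy0 : 0 ≤ y := by positivity
  clear_value y u
  rw [← Real.arcsin_sin (x := Real.arctan y) (Real.neg_pi_div_two_lt_arctan y).le
    (Real.arctan_lt_pi_div_two y).le]
  congr 1
  rw [Real.sin_arctan, Real.sin_arctan, Real.cos_arctan]
  have hx : (y / Real.sqrt (1 + y ^ 2)) ^ 2 =
      (h / ρ / Real.sqrt (1 + (h / ρ) ^ 2) * (1 / Real.sqrt (1 + (ρ / r) ^ 2))) ^ 2 := by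
    have q1 : Real.sqrt (1 + y ^ 2) ^ 2 = 1 + y ^ 2 := Real.sq_sqrt (by positivity)
    have q2 : Real.sqrt (1 + (h / ρ) ^ 2) ^ 2 = 1 + (h / ρ) ^ 2 := Real.sq_sqrt (by positivity)
    have q3 : Real.sqrt (1 + (ρ / r) ^ 2) ^ 2 = 1 + (ρ / r) ^ 2 := Real.sq_sqrt (by positivity)
    have e3 : (h / ρ / Real.sqrt (1 + (h / ρ) ^ 2) * (1 / Real.sqrt (1 + (ρ / r) ^ 2))) ^ 2 =
        (h / ρ) ^ 2 / Real.sqrt (1 + (h / ρ) ^ 2) ^ 2 * (1 / Real.sqrt (1 + (ρ / r) ^ 2) ^ 2) := by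
      ring
    rw [e3, div_pow y, q1, q2, q3, hy, div_pow, mul_pow, mul_pow, hu2h]
    field_simp
    ring
  have hn1 : 0 ≤ y / Real.sqrt (1 + y ^ 2) := by positivity
  have hn2 : 0 ≤ h / ρ / Real.sqrt (1 + (h / ρ) ^ 2) * (1 / Real.sqrt (1 + (ρ / r) ^ 2)) := by
    positivity
  exact (pow_left_inj₀ hn1 hn2 two_ne_zero).mp hx

end Pool.Agent.Lib.MP_b2bfca_co.K3U
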