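import Pool.Agent.Lib.MP_b2bfca_co.K3U.PertA
import Pool.Agent.Lib.MP_b2bfca_co.K3U.Num

/-!
# Continuity of the face functional in the weights

PROOF. `integrable_Phi`: finite sum, `integrable_fa`, `integrable_fb`. `pert_Phi`: for every measurable
`J`, `|∫_J Phi_w - ∫_J Phi_w0| ≤ ∫ |Phi_w - Phi_w0| ≤ ∑_σ ∫ |fa - fa0| + (mu/2) ∑_{σ, T} ∫ |fb - fb0|`;
apply `pert_fa`, `pert_fb` with `ε / 12` along the continuous maps `w ↦ (de c w (σ 0) (σ 1), dd c w (σ 0) (σ 1) (σ 2))`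
(`mu ≤ 1` from `two_mu_lt`).
-/

set_option autoImplicit false

namespace Pool.Agent.Lib.MP_b2bfca_co.K3U

open MeasureTheory Filter Topology

open Classical in
theorem pert_int (c : Fin 3 → E3) (w : Fin 3 → ℝ) (T : Fin 3 → Fin 3 → Prop)
    (hde : ∀ σ : Equiv.Perm (Fin 3), 0 < de c w (σ 0) (σ 1))
    (hT : ∀ σ : Equiv.Perm (Fin 3), T (σ 0) (σ 1) → 0 < dd c w (σ 0) (σ 1) (σ 2)) :
    Integrable (Phi c w T) volume := by
  have h : Integrable (fun h => ∑ σ : Equiv.Perm (Fin 3),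
      (fa (de c w (σ 0) (σ 1)) (dd c w (σ 0) (σ 1) (σ 2)) h -
        (mu / 2) * (if T (σ 0) (σ 1) then fb (dd c w (σ 0) (σ 1) (σ 2)) h else 0))) volume := by
    refine integrable_finsetSum _ fun σ _ => ?_
    refine (integrable_fa (hde σ) _).sub (Integrable.const_mul ?_ _)
    by_cases hσ : T (σ 0) (σ 1)
    · simp only [if_pos hσ]
      exact integrable_fb (hT σ hσ).ne'
    · simp only [if_neg hσ]
      exact integrable_zero _ _ _
  exact h

theorem integrable_Phi (c : Fin 3 → E3) (w : Fin 3 → ℝ) (T : Fin 3 → Fin 3 → Prop)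
    (hde : ∀ a b, a ≠ b → 0 < de c w a b)
    (hT : ∀ σ : Equiv.Perm (Fin 3), T (σ 0) (σ 1) → 0 < dd c w (σ 0) (σ 1) (σ 2)) :
    Integrable (Phi c w T) volume :=
  pert_int c w T (fun σ => hde _ _ (σ.injective.ne (by decide))) hT

open Classical in
theorem pert_Phi (c : Fin 3 → E3) (w0 : Fin 3 → ℝ) (T : Fin 3 → Fin 3 → Prop)
    (hde : ∀ a b, a ≠ b → 0 < de c w0 a b)
    (hT : ∀ σ : Equiv.Perm (Fin 3), T (σ 0) (σ 1) → 0 < dd c w0 (σ 0) (σ 1) (σ 2))
    {ε : ℝ} (hε : 0 < ε) :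
    ∀ᶠ w in 𝓝 w0, ∀ J : Set ℝ, MeasurableSet J →
      |(∫ h in J, Phi c w T h) - ∫ h in J, Phi c w0 T h| ≤ ε := by
  have hde0 : ∀ σ : Equiv.Perm (Fin 3), 0 < de c w0 (σ 0) (σ 1) := fun σ =>
    hde _ _ (σ.injective.ne (by decide))
  have hA : ∀ᶠ w in 𝓝 w0, ∀ σ : Equiv.Perm (Fin 3), 0 < de c w (σ 0) (σ 1) ∧
      ∫ h, |fa (de c w (σ 0) (σ 1)) (dd c w (σ 0) (σ 1) (σ 2)) h -
        fa (de c w0 (σ 0) (σ 1)) (dd c w0 (σ 0) (σ 1) (σ 2)) h| ≤ ε / 12 := by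
    refine eventually_all.2 fun σ => ?_
    exact (((continuous_de c (σ 0) (σ 1)).prodMk
      (continuous_dd c (σ 0) (σ 1) (σ 2))).tendsto w0).eventually
      (pert_fa (hde0 σ) (dd c w0 (σ 0) (σ 1) (σ 2)) (by positivity : 0 < ε / 12))
  have hB : ∀ᶠ w in 𝓝 w0, ∀ σ : Equiv.Perm (Fin 3), T (σ 0) (σ 1) →
      0 < dd c w (σ 0) (σ 1) (σ 2) ∧
      ∫ h, |fb (dd c w (σ 0) (σ 1) (σ 2)) h - fb (dd c w0 (σ 0) (σ 1) (σ 2)) h| ≤ ε / 12 := by
    refine eventually_all.2 fun σ => ?_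
    by_cases hσ : T (σ 0) (σ 1)
    · filter_upwards [((continuous_dd c (σ 0) (σ 1) (σ 2)).tendsto w0).eventually
        (pert_fb (hT σ hσ) (by positivity : 0 < ε / 12))] with w hw _
      exact hw
    · exact Eventually.of_forall fun w h => absurd h hσ
  filter_upwards [hA, hB] with w h1 h2
  intro J _
  have hi : Integrable (Phi c w T) volume := pert_int c w T (fun σ => (h1 σ).1)
    (fun σ hσ => (h2 σ hσ).1)
  have hi0 : Integrable (Phi c w0 T) volume := pert_int c w0 T hde0 hT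
  set D : Equiv.Perm (Fin 3) → ℝ → ℝ := fun σ h =>
    |fa (de c w (σ 0) (σ 1)) (dd c w (σ 0) (σ 1) (σ 2)) h -
        fa (de c w0 (σ 0) (σ 1)) (dd c w0 (σ 0) (σ 1) (σ 2)) h| +
      (mu / 2) * (if T (σ 0) (σ 1) then
        |fb (dd c w (σ 0) (σ 1) (σ 2)) h - fb (dd c w0 (σ 0) (σ 1) (σ 2)) h| else 0) with hD
  have hmu : 0 < mu := mu_pos
  have hmu1 : mu / 2 ≤ 1 := by linarith [two_mu_lt]
  have hD1 : ∀ σ : Equiv.Perm (Fin 3), Integrable (fun h : ℝ =>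
      |fa (de c w (σ 0) (σ 1)) (dd c w (σ 0) (σ 1) (σ 2)) h -
        fa (de c w0 (σ 0) (σ 1)) (dd c w0 (σ 0) (σ 1) (σ 2)) h|) volume := fun σ =>
    ((integrable_fa (h1 σ).1 _).sub (integrable_fa (hde0 σ) _)).abs
  have hD2 : ∀ σ : Equiv.Perm (Fin 3), Integrable (fun h : ℝ => (if T (σ 0) (σ 1) then
        |fb (dd c w (σ 0) (σ 1) (σ 2)) h - fb (dd c w0 (σ 0) (σ 1) (σ 2)) h| else 0)) volume := by
    intro σ
    by_cases hσ : T (σ 0) (σ 1)
    · simp only [if_pos hσ]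
      exact ((integrable_fb (h2 σ hσ).1.ne').sub (integrable_fb (hT σ hσ).ne')).abs
    · simp only [if_neg hσ]
      exact integrable_zero _ _ _
  have hDi : ∀ σ : Equiv.Perm (Fin 3), Integrable (D σ) volume := fun σ => (hD1 σ).add ((hD2 σ).const_mul _)
  have hDb : ∀ σ : Equiv.Perm (Fin 3), ∫ h, D σ h ≤ ε / 6 := by
    intro σ
    have e1 : ∫ h, D σ h = (∫ h, |fa (de c w (σ 0) (σ 1)) (dd c w (σ 0) (σ 1) (σ 2)) h -
        fa (de c w0 (σ 0) (σ 1)) (dd c w0 (σ 0) (σ 1) (σ 2)) h|) +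
        (mu / 2) * ∫ h, (if T (σ 0) (σ 1) then
        |fb (dd c w (σ 0) (σ 1) (σ 2)) h - fb (dd c w0 (σ 0) (σ 1) (σ 2)) h| else 0) := by
      rw [← integral_const_mul, ← integral_add (hD1 σ) ((hD2 σ).const_mul _)]
    have e2 : 0 ≤ ∫ h, (if T (σ 0) (σ 1) then
        |fb (dd c w (σ 0) (σ 1) (σ 2)) h - fb (dd c w0 (σ 0) (σ 1) (σ 2)) h| else 0) := by
      refine integral_nonneg fun h => ?_
      change (0 : ℝ) ≤ ite _ _ _
      split_ifs
      · exact abs_nonneg _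
      · exact le_rfl
    have e3 : ∫ h, (if T (σ 0) (σ 1) then
        |fb (dd c w (σ 0) (σ 1) (σ 2)) h - fb (dd c w0 (σ 0) (σ 1) (σ 2)) h| else 0) ≤ ε / 12 := by
      by_cases hσ : T (σ 0) (σ 1)
      · simp only [if_pos hσ]
        exact (h2 σ hσ).2
      · simp only [if_neg hσ, integral_zero]
        positivity
    rw [e1]
    have e4 := (h1 σ).2
    nlinarith [mul_le_mul_of_nonneg_right hmu1 e2]
  have hle : ∀ h, |Phi c w T h - Phi c w0 T h| ≤ ∑ σ, D σ h := by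
    intro h
    unfold Phi
    rw [← Finset.sum_sub_distrib]
    refine (Finset.abs_sum_le_sum_abs _ _).trans (Finset.sum_le_sum fun σ _ => ?_)
    rw [hD]
    by_cases hσ : T (σ 0) (σ 1)
    · simp only [if_pos hσ]
      have e1 : ∀ a b a' b' : ℝ, a - mu / 2 * b - (a' - mu / 2 * b') =
        (a - a') - mu / 2 * (b - b') := fun _ _ _ _ => by ring
      rw [e1]
      refine (abs_sub _ _).trans ?_
      rw [abs_mul, abs_of_pos (by positivity : 0 < mu / 2)]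
    · simp only [if_neg hσ, mul_zero, sub_zero, add_zero]
      exact le_rfl
  calc |(∫ h in J, Phi c w T h) - ∫ h in J, Phi c w0 T h|
      = |∫ h in J, (Phi c w T h - Phi c w0 T h)| := by
        rw [integral_sub hi.integrableOn hi0.integrableOn]
    _ ≤ ∫ h in J, |Phi c w T h - Phi c w0 T h| := abs_integral_le_integral_abs
    _ ≤ ∫ h, |Phi c w T h - Phi c w0 T h| :=
        setIntegral_le_integral (hi.sub hi0).abs (Eventually.of_forall fun h => abs_nonneg _)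
    _ ≤ ∫ h, ∑ σ, D σ h :=
        integral_mono (hi.sub hi0).abs (integrable_finsetSum _ fun σ _ => hDi σ) hle
    _ = ∑ σ, ∫ h, D σ h := integral_finsetSum _ fun σ _ => hDi σ
    _ ≤ ∑ _σ : Equiv.Perm (Fin 3), ε / 6 := Finset.sum_le_sum fun σ _ => hDb σ
    _ = ε := by
        rw [Finset.sum_const, Finset.card_univ, Fintype.card_perm, Fintype.card_fin]
        simp [Nat.factorial]
        ring

end Pool.Agent.Lib.MP_b2bfca_co.K3U
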