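import Pool.Agent.Lib.MP_b2bfca_co.K3U.Haus
import Pool.Agent.Lib.MP_b2bfca_co.K3U.Frame
import Pool.Agent.Lib.MP_b2bfca_co.K3U.GeoC
import Pool.Agent.Lib.MP_b2bfca_co.K3U.LocI
import Pool.Agent.Lib.MP_b2bfca_co.K3U.Pert

/-!
# The six terms of a triple as integrals over one parameter set

PROOF. Let `e, m, n` be a frame for `v 0, v 1, v 2` (`exists_third`), `q = tp + dd • mv`
(`v 0, v 1, v 2`), `J = {h | q + h n ∈ SS (v 0) (v 1) (v 2)}`, closed. For a permutation `σ`: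
`SS (v (σ 0)) (v (σ 1)) (v (σ 2)) = SS (v 0) (v 1) (v 2)` (`SS_perm`), `sn ≠ 0` (`sn_perm`),
`q = tp + dd • mv` for `σ` (`qq_perm`), and `n` is orthogonal to `ev`, `mv` of `σ` (these lie in the
plane spanned by `c (v 1) - c (v 0)`, `c (v 2) - c (v 0)`), so `![ev, mv, n]` is orthonormal for every
`σ`. By `integral_line` and `dist_axis` `AA = ∫_J fa (de) (dd)` and `BB = ∫_J fb (dd)`
(`‖y - c‖ = √(de^2+dd^2+h^2)`). Sum, using integrability (`integrable_fa`,
`integrable_fb`). If `volume J ≠ 0` then `J` has two points.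
-/

set_option autoImplicit false

namespace Pool.Agent.Lib.MP_b2bfca_co.K3U

open MeasureTheory

variable {ι : Type} (c : ι → E3) (w : ι → ℝ)

theorem Trip_SS_iff (v : Fin 3 → ι) (y : E3) : y ∈ SS c w (v 0) (v 1) (v 2) ↔
    (∀ a b, pw c w (v a) y = pw c w (v b) y) ∧ ∀ a l, pw c w (v a) y ≤ pw c w l y := by
  constructor
  · rintro ⟨h1, h2, h3⟩
    have h4 : ∀ a, pw c w (v a) y = pw c w (v 0) y := by
      intro a
      fin_cases a
      · rfl
      · exact h1.symm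
      · exact h2.symm
    refine ⟨fun a b => by rw [h4 a, h4 b], fun a l => ?_⟩
    rw [h4 a]
    exact h3 l
  · rintro ⟨h1, h2⟩
    exact ⟨h1 0 1, h1 0 2, fun l => h2 0 l⟩

theorem SS_perm (v : Fin 3 → ι) (σ : Equiv.Perm (Fin 3)) :
    SS c w (v (σ 0)) (v (σ 1)) (v (σ 2)) = SS c w (v 0) (v 1) (v 2) := by
  ext y
  have h1 := Trip_SS_iff c w (fun a => v (σ a)) y
  have h2 := Trip_SS_iff c w v y
  refine h1.trans (Iff.trans ?_ h2.symm)
  constructor
  · rintro ⟨h3, h4⟩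
    refine ⟨fun a b => ?_, fun a l => ?_⟩
    · have := h3 (σ.symm a) (σ.symm b)
      simpa using this
    · have := h4 (σ.symm a) l
      simpa using this
  · rintro ⟨h3, h4⟩
    exact ⟨fun a b => h3 _ _, fun a l => h4 _ l⟩

theorem Trip_pw_cont (i : ι) : Continuous (pw c w i) := by
  unfold pw
  fun_prop

theorem Trip_SS_closed (i j k : ι) : IsClosed (SS c w i j k) := by
  have h1 : SS c w i j k = {y | pw c w i y = pw c w j y} ∩ ({y | pw c w i y = pw c w k y} ∩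
      ⋂ l, {y | pw c w i y ≤ pw c w l y}) := by
    ext y
    simp [SS, cell]
  rw [h1]
  exact (isClosed_eq (Trip_pw_cont c w i) (Trip_pw_cont c w j)).inter
    ((isClosed_eq (Trip_pw_cont c w i) (Trip_pw_cont c w k)).inter
      (isClosed_iInter fun l => isClosed_le (Trip_pw_cont c w i) (Trip_pw_cont c w l)))

theorem Trip_dist3 {v : Fin 3 → ι} (hv : Function.Injective v) (σ : Equiv.Perm (Fin 3)) :
    Dist3 (v (σ 0)) (v (σ 1)) (v (σ 2)) := by
  refine ⟨fun h => ?_, fun h => ?_, fun h => ?_⟩ <;>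
  · have := σ.injective (hv h)
    revert this
    decide

theorem Trip_orth (hc : Function.Injective c) {v : Fin 3 → ι} (hv : Function.Injective v)
    (hs : sn c (v 0) (v 1) (v 2) ≠ 0) {n : E3}
    (hn : Orthonormal ℝ ![ev c (v 0) (v 1), mv c (v 0) (v 1) (v 2), n])
    (σ : Equiv.Perm (Fin 3)) :
    Orthonormal ℝ ![ev c (v (σ 0)) (v (σ 1)), mv c (v (σ 0)) (v (σ 1)) (v (σ 2)), n] := by
  have hd := Trip_dist3 hv σ
  have hd1 := Trip_dist3 hv 1
  have h01 : c (v 0) ≠ c (v 1) := fun h => hd1.1 (hc h)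
  have h02 : c (v 0) ≠ c (v 2) := fun h => hd1.2.1 (hc h)
  have n1 : ‖n‖ = 1 := hn.1 2
  have n2 : inner ℝ (ev c (v 0) (v 1)) n = 0 := hn.2 (show (0 : Fin 3) ≠ 2 by decide)
  have n3 : inner ℝ (mv c (v 0) (v 1) (v 2)) n = 0 := hn.2 (show (1 : Fin 3) ≠ 2 by decide)
  have n4 : inner ℝ (ev c (v 0) (v 2)) n = 0 := by
    rw [ev_eq c hs, inner_add_left, inner_smul_left, inner_smul_left, n2, n3]
    simp
  have n5 : ∀ a : Fin 3, inner ℝ (c (v a) - c (v 0)) n = 0 := by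
    intro a
    fin_cases a
    · simp
    · change inner ℝ (c (v 1) - c (v 0)) n = 0
      rw [sub_eq_smul_ev c h01, inner_smul_left, n2]
      simp
    · change inner ℝ (c (v 2) - c (v 0)) n = 0
      rw [sub_eq_smul_ev c h02, inner_smul_left, n4]
      simp
  have n6 : ∀ a b : Fin 3, inner ℝ (c (v a) - c (v b)) n = 0 := by
    intro a b
    have : c (v a) - c (v b) = (c (v a) - c (v 0)) - (c (v b) - c (v 0)) := by abel
    rw [this, inner_sub_left, n5, n5, sub_zero]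
  have n7 : ∀ a b : Fin 3, inner ℝ (ev c (v a) (v b)) n = 0 := by
    intro a b
    unfold ev
    rw [inner_smul_left, n6]
    simp
  have n8 : inner ℝ (mv c (v (σ 0)) (v (σ 1)) (v (σ 2))) n = 0 := by
    unfold mv
    rw [inner_smul_left, inner_sub_left, inner_smul_left, n7, n7]
    simp
  have e1 : ‖ev c (v (σ 0)) (v (σ 1))‖ = 1 := norm_ev c fun h => hd.1 (hc h)
  have e2 : ‖mv c (v (σ 0)) (v (σ 1)) (v (σ 2))‖ = 1 :=
    norm_mv c (fun h => hd.1 (hc h)) (fun h => hd.2.1 (hc h)) (sn_perm c hc v hv hs σ)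
  have e3 : inner ℝ (ev c (v (σ 0)) (v (σ 1))) (mv c (v (σ 0)) (v (σ 1)) (v (σ 2))) = 0 :=
    inner_ev_mv c fun h => hd.1 (hc h)
  refine ⟨fun i => ?_, fun i j hij => ?_⟩
  · fin_cases i
    · exact e1
    · exact e2
    · exact n1
  · fin_cases i <;> fin_cases j
    · exact absurd rfl hij
    · exact e3
    · exact n7 _ _
    · change inner ℝ (mv c (v (σ 0)) (v (σ 1)) (v (σ 2))) (ev c (v (σ 0)) (v (σ 1))) = 0
      rw [real_inner_comm]
      exact e3
    · exact absurd rfl hij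
    · exact n8
    · change inner ℝ n (ev c (v (σ 0)) (v (σ 1))) = 0
      rw [real_inner_comm]
      exact n7 _ _
    · change inner ℝ n (mv c (v (σ 0)) (v (σ 1)) (v (σ 2))) = 0
      rw [real_inner_comm]
      exact n8
    · exact absurd rfl hij

open Classical in
theorem triple_sum (hc : Function.Injective c) (v : Fin 3 → ι) (hv : Function.Injective v)
    (hs : sn c (v 0) (v 1) (v 2) ≠ 0)
    (hde : ∀ a b : Fin 3, a ≠ b → 0 < de c w (v a) (v b)) (T : Fin 3 → Fin 3 → Prop)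
    (hT : ∀ σ : Equiv.Perm (Fin 3), T (σ 0) (σ 1) →
      0 < dd c w (v (σ 0)) (v (σ 1)) (v (σ 2))) :
    ∃ J : Set ℝ, MeasurableSet J ∧
      (∑ σ : Equiv.Perm (Fin 3), (AA c w (v (σ 0)) (v (σ 1)) (v (σ 2)) -
        (mu / 2) * (if T (σ 0) (σ 1) then BB c w (v (σ 0)) (v (σ 1)) (v (σ 2)) else 0))) =
        (∫ h in J, Phi (fun a => c (v a)) (fun a => w (v a)) T h) ∧
      (volume J ≠ 0 → ∃ y ∈ SS c w (v 0) (v 1) (v 2), ∃ y' ∈ SS c w (v 0) (v 1) (v 2),
        y ≠ y') := by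
  have hd1 := Trip_dist3 hv 1
  have h01 : c (v 0) ≠ c (v 1) := fun h => hd1.1 (hc h)
  have h02 : c (v 0) ≠ c (v 2) := fun h => hd1.2.1 (hc h)
  obtain ⟨n, hn⟩ := exists_third (ev c (v 0) (v 1)) (mv c (v 0) (v 1) (v 2)) (norm_ev c h01)
    (norm_mv c h01 h02 hs) (inner_ev_mv c h01)
  obtain ⟨q, hq⟩ : ∃ q, q = tp c w (v 0) (v 1) +
    dd c w (v 0) (v 1) (v 2) • mv c (v 0) (v 1) (v 2) := ⟨_, rfl⟩
  have n1 : ‖n‖ = 1 := hn.1 2
  have hn0 : n ≠ 0 := fun h => by
    rw [h, norm_zero] at n1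
    exact zero_ne_one n1
  have hline : ∀ y ∈ SS c w (v 0) (v 1) (v 2), ∃ h : ℝ, y = q + h • n := by
    rintro y ⟨h1, h2, -⟩
    obtain ⟨h, hh⟩ := (axis_iff c w h01 h02 hs hn y).1 ⟨h1, h2⟩
    exact ⟨h, by rw [hh, hq]⟩
  have hJc : IsClosed {h : ℝ | q + h • n ∈ SS c w (v 0) (v 1) (v 2)} :=
    (Trip_SS_closed c w _ _ _).preimage (by fun_prop)
  have hqσ : ∀ σ : Equiv.Perm (Fin 3), q = tp c w (v (σ 0)) (v (σ 1)) +
      dd c w (v (σ 0)) (v (σ 1)) (v (σ 2)) • mv c (v (σ 0)) (v (σ 1)) (v (σ 2)) := fun σ => by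
    rw [hq, qq_perm c w hc v hv hs σ]
  have hA : ∀ σ : Equiv.Perm (Fin 3), AA c w (v (σ 0)) (v (σ 1)) (v (σ 2))
      = ∫ h in {h : ℝ | q + h • n ∈ SS c w (v 0) (v 1) (v 2)},
        fa (de c w (v (σ 0)) (v (σ 1))) (dd c w (v (σ 0)) (v (σ 1)) (v (σ 2))) h := by
    intro σ
    unfold AA
    rw [if_pos (Trip_dist3 hv σ), SS_perm c w v σ, integral_line q n n1 _ hline]
    congr 1
    funext h
    obtain ⟨e1, -⟩ := dist_axis c w (Trip_orth c hc hv hs hn σ) h
    rw [← hqσ σ] at e1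
    have e2 : ‖q + h • n - c (v (σ 0))‖ = Real.sqrt (de c w (v (σ 0)) (v (σ 1)) ^ 2 +
        dd c w (v (σ 0)) (v (σ 1)) (v (σ 2)) ^ 2 + h ^ 2) := by
      rw [← e1, Real.sqrt_sq (norm_nonneg _)]
    rw [e2]
    rfl
  have hB : ∀ σ : Equiv.Perm (Fin 3), BB c w (v (σ 0)) (v (σ 1)) (v (σ 2))
      = ∫ h in {h : ℝ | q + h • n ∈ SS c w (v 0) (v 1) (v 2)},
        fb (dd c w (v (σ 0)) (v (σ 1)) (v (σ 2))) h := by
    intro σ
    unfold BB
    rw [if_pos (Trip_dist3 hv σ), SS_perm c w v σ, integral_line q n n1 _ hline]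
    congr 1
    funext h
    obtain ⟨-, e1⟩ := dist_axis c w (Trip_orth c hc hv hs hn σ) h
    rw [← hqσ σ] at e1
    rw [e1]
    rfl
  refine ⟨{h : ℝ | q + h • n ∈ SS c w (v 0) (v 1) (v 2)}, hJc.measurableSet, ?_, ?_⟩
  · have hPhi : ∀ h : ℝ, Phi (fun a => c (v a)) (fun a => w (v a)) T h
        = ∑ σ : Equiv.Perm (Fin 3), (fa (de c w (v (σ 0)) (v (σ 1)))
          (dd c w (v (σ 0)) (v (σ 1)) (v (σ 2))) h - (mu / 2) * (if T (σ 0) (σ 1) then
            fb (dd c w (v (σ 0)) (v (σ 1)) (v (σ 2))) h else 0)) := fun h => rfl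
    have hIa : ∀ σ : Equiv.Perm (Fin 3), Integrable (fun h => fa (de c w (v (σ 0)) (v (σ 1)))
        (dd c w (v (σ 0)) (v (σ 1)) (v (σ 2))) h)
        (volume.restrict {h : ℝ | q + h • n ∈ SS c w (v 0) (v 1) (v 2)}) := fun σ =>
      (integrable_fa (hde _ _ (fun h => by
        have := σ.injective h
        revert this
        decide)) _).integrableOn
    have hIb : ∀ σ : Equiv.Perm (Fin 3), Integrable (fun h => (mu / 2) * (if T (σ 0) (σ 1) then
        fb (dd c w (v (σ 0)) (v (σ 1)) (v (σ 2))) h else 0))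
        (volume.restrict {h : ℝ | q + h • n ∈ SS c w (v 0) (v 1) (v 2)}) := by
      intro σ
      refine Integrable.const_mul ?_ _
      by_cases hσ : T (σ 0) (σ 1)
      · simp only [if_pos hσ]
        exact (integrable_fb (hT σ hσ).ne').integrableOn
      · simp only [if_neg hσ]
        exact integrable_zero _ _ _
    have hIc : ∀ σ : Equiv.Perm (Fin 3), Integrable (fun h => fa (de c w (v (σ 0)) (v (σ 1)))
        (dd c w (v (σ 0)) (v (σ 1)) (v (σ 2))) h - (mu / 2) * (if T (σ 0) (σ 1) then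
        fb (dd c w (v (σ 0)) (v (σ 1)) (v (σ 2))) h else 0))
        (volume.restrict {h : ℝ | q + h • n ∈ SS c w (v 0) (v 1) (v 2)}) := fun σ =>
      (hIa σ).sub (hIb σ)
    simp only [hPhi]
    rw [integral_finset_sum _ fun σ _ => hIc σ]
    refine Finset.sum_congr rfl fun σ _ => ?_
    rw [integral_sub (hIa σ) (hIb σ), integral_const_mul, hA σ]
    congr 2
    by_cases hσ : T (σ 0) (σ 1)
    · simp only [if_pos hσ]
      exact hB σ
    · simp only [if_neg hσ]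
      simp
  · intro hvol
    have h1 : ¬ Set.Subsingleton {h : ℝ | q + h • n ∈ SS c w (v 0) (v 1) (v 2)} := fun hsub =>
      hvol (hsub.measure_zero _)
    rw [Set.not_subsingleton_iff] at h1
    obtain ⟨a, ha, b, hb, hab⟩ := h1
    refine ⟨q + a • n, ha, q + b • n, hb, fun h => hab ?_⟩
    have h2 : a • n = b • n := add_left_cancel h
    exact smul_left_injective ℝ hn0 h2

/-- For collinear centres all terms vanish. -/
theorem terms_zero (hc : Function.Injective c) (v : Fin 3 → ι) (hv : Function.Injective v)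
    (hs : sn c (v 0) (v 1) (v 2) = 0) (σ : Equiv.Perm (Fin 3)) :
    AA c w (v (σ 0)) (v (σ 1)) (v (σ 2)) = 0 ∧ BB c w (v (σ 0)) (v (σ 1)) (v (σ 2)) = 0 := by
  have h1 : sn c (v (σ 0)) (v (σ 1)) (v (σ 2)) = 0 := by
    by_contra hne
    have h2 := sn_perm c hc (fun a => v (σ a)) (fun a b h => σ.injective (hv h)) hne σ.symm
    simp only [Equiv.apply_symm_apply] at h2
    exact h2 hs
  have h2 : dd c w (v (σ 0)) (v (σ 1)) (v (σ 2)) = 0 := by
    unfold dd
    rw [h1, div_zero]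
  constructor
  · unfold AA
    rw [h2]
    simp
  · unfold BB
    rw [h2]
    simp

end Pool.Agent.Lib.MP_b2bfca_co.K3U
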