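import Pool.Agent.Lib.MP_b2bfca_co.K3U.SumA
import Pool.Agent.Lib.MP_b2bfca_co.K3U.SumB
import Pool.Agent.Lib.MP_b2bfca_co.K3U.Trip
import Pool.Agent.Lib.MP_b2bfca_co.K3U.LocNT
import Pool.Agent.Lib.MP_b2bfca_co.K3U.LocT
import Pool.Agent.Lib.MP_b2bfca_co.K3U.Sym

/-!
# Inequality for one generic weight

`TriErr ε w`: for every noncollinear triple the integral of the face functional changes by at most
`ε` when the weights `r^2` are replaced by `w`.

PROOF of `sum_terms_ge`. By `sum_perm` for `f i j k = AA i j k - (mu/2) * (if tang i j then BB i j k else 0)`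
it suffices to bound, for each `(i, j, k)`, the sum over `σ` from below by
`-(3 nu) * (if Tight i j k then 1 else 0) - ε`. If not `Dist3 i j k`: all terms are `0`. If collinear:
`terms_zero`. Otherwise `triple_sum` with `v = ![i,j,k]`, `T a b = tang (v a) (v b)`: the sum is
`∫_J Phi_w ≥ ∫_J Phi_{r^2} - ε` (`err`). If not all three pairs are tangent, `Phi_{r^2} ≥ 0` (`loc_NT` for
`c ∘ v`, `r ∘ v`; `de`, `dd`, `tang` of the composed data are the same by definition). If all
are tangent: if `volume J = 0` the integral is `0`, otherwise the triple is `Tight` and `loc_T` applies.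
(`-3 nu * 1`, and `nu > 0`.)
PROOF of `main_w`. `∑_i ∑_j ∑_k AA ≤ 4π card ι` (`sum_AA_le`), and for each ordered tangent pair
`∑_k BB ≥ 2π` (`le_sum_BB`), so `∑_{i,j,k} (if tang then BB) ≥ 2π DD` (for `i = j`, `BB = 0`).
-/

set_option autoImplicit false

namespace Pool.Agent.Lib.MP_b2bfca_co.K3U

open MeasureTheory

variable {ι : Type} [Fintype ι] {c : ι → E3} {r : ι → ℝ}

/-- The weights `w` are admissible with error `ε`. -/
structure Adm (c : ι → E3) (r w : ι → ℝ) (ε : ℝ) : Prop where
  gen : Gen c w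
  de_pos : ∀ i j, i ≠ j → 0 < de c w i j
  tp_lt : ∀ i j, i ≠ j → tang c r i j → ∀ k, k ≠ i → k ≠ j →
    pw c w i (tp c w i j) < pw c w k (tp c w i j)
  bdd : ∀ i j, i ≠ j → tang c r i j → Bornology.IsBounded (cell c w i)
  err : ∀ v : Fin 3 → ι, Function.Injective v → sn c (v 0) (v 1) (v 2) ≠ 0 → ∀ J : Set ℝ,
    MeasurableSet J →
    |(∫ h in J, Phi (fun a => c (v a)) (fun a => w (v a)) (fun a b => tang c r (v a) (v b)) h) -
      ∫ h in J, Phi (fun a => c (v a)) (fun a => r (v a) ^ 2)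
        (fun a b => tang c r (v a) (v b)) h| ≤ ε

omit [Fintype ι] in
theorem AsmA_dist3 (u : Fin 3 → ι) : Dist3 (u 0) (u 1) (u 2) ↔ Function.Injective u := by
  constructor
  · rintro ⟨h1, h2, h3⟩ a b hab
    fin_cases a <;> fin_cases b <;> simp_all
  · intro h
    exact ⟨h.ne (by decide), h.ne (by decide), h.ne (by decide)⟩

omit [Fintype ι] in
theorem AsmA_dd_pos (hP : Pack c r) {w : ι → ℝ} {ε : ℝ} (hA : Adm c r w ε) {i j k : ι}
    (h3 : Dist3 i j k) (hs : sn c i j k ≠ 0) (ht : tang c r i j) : 0 < dd c w i j k := by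
  have hc := Pack_inj hP
  have h1 := hA.tp_lt i j h3.1 ht k (Ne.symm h3.2.1) (Ne.symm h3.2.2)
  have h2 := sign_dd c w (hc.ne h3.1) (hc.ne h3.2.1) hs
  rw [Real.sign_of_pos (by linarith)] at h2
  rcases lt_trichotomy (dd c w i j k) 0 with h4 | h4 | h4
  · rw [Real.sign_of_neg h4] at h2
    norm_num at h2
  · rw [h4, Real.sign_zero] at h2
    norm_num at h2
  · exact h4

open Classical in
theorem AsmA_one (hP : Pack c r) {w : ι → ℝ} {ε : ℝ} (hε : 0 ≤ ε) (hA : Adm c r w ε)
    (v : Fin 3 → ι) :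
    -(3 * nu) * (if Tight c r w (v 0) (v 1) (v 2) then 1 else 0) - ε ≤
      ∑ σ : Equiv.Perm (Fin 3), (AA c w (v (σ 0)) (v (σ 1)) (v (σ 2)) -
        (mu / 2) * (if tang c r (v (σ 0)) (v (σ 1)) then
          BB c w (v (σ 0)) (v (σ 1)) (v (σ 2)) else 0)) := by
  have hnu := nu_pos
  have hc := Pack_inj hP
  have hlhs : -(3 * nu) * (if Tight c r w (v 0) (v 1) (v 2) then (1 : ℝ) else 0) - ε ≤ 0 := by
    split_ifs <;> nlinarith
  by_cases hv : Function.Injective v
  · by_cases hs : sn c (v 0) (v 1) (v 2) = 0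
    · refine hlhs.trans (Finset.sum_nonneg fun σ _ => ?_)
      obtain ⟨h1, h2⟩ := terms_zero c w hc v hv hs σ
      rw [h1, h2]
      simp
    · obtain ⟨J, hJ, hsum, hvol⟩ := triple_sum c w hc v hv hs
        (fun a b hab => hA.de_pos _ _ (hv.ne hab))
        (fun a b => tang c r (v a) (v b))
        (fun σ hσ => AsmA_dd_pos hP hA ((AsmA_dist3 (fun a => v (σ a))).2 (hv.comp σ.injective))
          (sn_perm c hc v hv hs σ) hσ)
      rw [hsum]
      have herr := hA.err v hv hs J hJ
      rw [abs_le] at herr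
      have hPv : Pack (fun a => c (v a)) (fun a => r (v a)) :=
        ⟨fun a => hP.1 _, fun a b hab => hP.2 _ _ (hv.ne hab)⟩
      have hsv : sn (fun a => c (v a)) 0 1 2 ≠ 0 := hs
      by_cases hall : ∀ a b, a ≠ b → tang (fun a => c (v a)) (fun a => r (v a)) a b
      · by_cases hJ0 : volume J = 0
        · have h1 : ∫ h in J, Phi (fun a => c (v a)) (fun a => r (v a) ^ 2)
              (fun a b => tang c r (v a) (v b)) h = 0 := by
            rw [Measure.restrict_eq_zero.2 hJ0, integral_zero_measure]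
          rw [h1] at herr
          have h2 : -(3 * nu) * (if Tight c r w (v 0) (v 1) (v 2) then (1 : ℝ) else 0) ≤ 0 := by
            split_ifs <;> nlinarith
          linarith [herr.1]
        · have h1 : -3 * nu ≤ ∫ h in J, Phi (fun a => c (v a)) (fun a => r (v a) ^ 2)
              (fun a b => tang c r (v a) (v b)) h := loc_T hPv hsv hall hJ
          have h2 : -(3 * nu) ≤
              -(3 * nu) * (if Tight c r w (v 0) (v 1) (v 2) then (1 : ℝ) else 0) := by
            split_ifs <;> nlinarith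
          have h3 : Tight c r w (v 0) (v 1) (v 2) :=
            ⟨(AsmA_dist3 v).2 hv, hall 0 1 (by decide), hall 0 2 (by decide),
              hall 1 2 (by decide), hvol hJ0⟩
          rw [if_pos h3]
          linarith [herr.1]
      · have h1 : 0 ≤ ∫ h in J, Phi (fun a => c (v a)) (fun a => r (v a) ^ 2)
            (fun a b => tang c r (v a) (v b)) h :=
          integral_nonneg fun h => loc_NT hPv hsv hall h
        have h2 : -(3 * nu) * (if Tight c r w (v 0) (v 1) (v 2) then (1 : ℝ) else 0) ≤ 0 := by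
          split_ifs <;> nlinarith
        linarith [herr.1]
  · refine hlhs.trans (Finset.sum_nonneg fun σ _ => ?_)
    have h1 : ¬ Dist3 (v (σ 0)) (v (σ 1)) (v (σ 2)) := by
      intro h2
      have h3 := (AsmA_dist3 (fun a => v (σ a))).1 h2
      refine hv fun a b hab => ?_
      have h4 := @h3 (σ.symm a) (σ.symm b) (by simpa using hab)
      exact σ.symm.injective h4
    have h2 : AA c w (v (σ 0)) (v (σ 1)) (v (σ 2)) = 0 := by
      unfold AA
      rw [if_neg h1]
    have h3 : BB c w (v (σ 0)) (v (σ 1)) (v (σ 2)) = 0 := by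
      unfold BB
      rw [if_neg h1]
    rw [h2, h3]
    simp

open Classical in
theorem sum_terms_ge (hP : Pack c r) {w : ι → ℝ} {ε : ℝ} (hε : 0 ≤ ε) (hA : Adm c r w ε) :
    -(3 * nu) * (∑ i, (tg c r w i : ℝ)) - ε * (Fintype.card ι : ℝ) ^ 3 ≤
      6 * ∑ i, ∑ j, ∑ k, (AA c w i j k -
        (mu / 2) * (if tang c r i j then BB c w i j k else 0)) := by
  rw [sum_perm (fun i j k => AA c w i j k -
        (mu / 2) * (if tang c r i j then BB c w i j k else 0))]
  have h1 : -(3 * nu) * (∑ i, (tg c r w i : ℝ)) - ε * (Fintype.card ι : ℝ) ^ 3 =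
      ∑ i : ι, ∑ j : ι, ∑ k : ι,
        (-(3 * nu) * (if Tight c r w i j k then 1 else 0) - ε) := by
    have h2 : ∀ i : ι, (tg c r w i : ℝ) =
        ∑ j : ι, ∑ k : ι, (if Tight c r w i j k then (1 : ℝ) else 0) := by
      intro i
      unfold tg
      rw [Finset.card_filter, Nat.cast_sum, Fintype.sum_prod_type]
      refine Finset.sum_congr rfl fun j _ => Finset.sum_congr rfl fun k _ => ?_
      rw [Nat.cast_ite, Nat.cast_one, Nat.cast_zero]
    simp only [h2, Finset.sum_sub_distrib, Finset.sum_const, Finset.card_univ, nsmul_eq_mul,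
      ← Finset.mul_sum]
    ring
  rw [h1]
  refine Finset.sum_le_sum fun i _ => Finset.sum_le_sum fun j _ => Finset.sum_le_sum fun k _ => ?_
  exact AsmA_one hP hε hA ![i, j, k]

theorem main_w (hP : Pack c r) {w : ι → ℝ} {ε : ℝ} (hε : 0 ≤ ε) (hA : Adm c r w ε) :
    Real.pi * mu * (DD c r : ℝ) ≤ 4 * Real.pi * (Fintype.card ι : ℝ) +
      (nu / 2) * (∑ i, (tg c r w i : ℝ)) + ε * (Fintype.card ι : ℝ) ^ 3 := by
  classical
  have hc := Pack_inj hP
  have hmu := mu_pos
  have h0 := sum_terms_ge hP hε hA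
  have h1 : ∑ i, ∑ j, ∑ k, AA c w i j k ≤ (Fintype.card ι : ℝ) * (4 * Real.pi) := by
    calc ∑ i, ∑ j, ∑ k, AA c w i j k ≤ ∑ _i : ι, 4 * Real.pi :=
          Finset.sum_le_sum fun i _ => sum_AA_le c w hc hA.gen i
            (fun j hj => hA.de_pos i j (Ne.symm hj))
      _ = (Fintype.card ι : ℝ) * (4 * Real.pi) := by
          rw [Finset.sum_const, Finset.card_univ, nsmul_eq_mul]
  have h2 : 2 * Real.pi * (DD c r : ℝ) ≤
      ∑ i, ∑ j, ∑ k, (if tang c r i j then BB c w i j k else 0) := by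
    have h3 : (DD c r : ℝ) = ∑ i : ι, ∑ j : ι, (if i ≠ j ∧ tang c r i j then (1 : ℝ) else 0) := by
      unfold DD
      rw [Finset.card_filter, Nat.cast_sum, Fintype.sum_prod_type]
      refine Finset.sum_congr rfl fun i _ => Finset.sum_congr rfl fun j _ => ?_
      rw [Nat.cast_ite, Nat.cast_one, Nat.cast_zero]
    rw [h3, Finset.mul_sum]
    refine Finset.sum_le_sum fun i _ => ?_
    rw [Finset.mul_sum]
    refine Finset.sum_le_sum fun j _ => ?_
    by_cases ht : tang c r i j
    · simp only [ht, if_true, and_true]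
      by_cases hij : i = j
      · rw [if_neg (not_not.2 hij), mul_zero]
        refine Finset.sum_nonneg fun k _ => ?_
        unfold BB
        rw [if_neg (fun h => h.1 hij)]
      · rw [if_pos hij, mul_one]
        exact le_sum_BB c w hc hij (hA.tp_lt i j hij ht) (hA.bdd i j hij ht)
    · simp only [ht, if_false, and_false, mul_zero, Finset.sum_const_zero, le_refl]
  have h3 : ∑ i, ∑ j, ∑ k, (AA c w i j k -
        (mu / 2) * (if tang c r i j then BB c w i j k else 0)) =
      (∑ i, ∑ j, ∑ k, AA c w i j k) -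
        (mu / 2) * ∑ i, ∑ j, ∑ k, (if tang c r i j then BB c w i j k else 0) := by
    simp only [Finset.sum_sub_distrib, Finset.mul_sum]
  rw [h3] at h0
  have h4 := mul_le_mul_of_nonneg_left h2 hmu.le
  have h5 : 0 ≤ ε * (Fintype.card ι : ℝ) ^ 3 := by positivity
  nlinarith

end Pool.Agent.Lib.MP_b2bfca_co.K3U
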