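import Pool.Agent.Lib.MP_b2bfca_co.K3U.LocG

/-!
# Tangent points, degree sum

PROOF of `pw_tp_pos`. `tp = c i + r i e`, `e = ev i j` (`de = r i`), `c j = tp + r j e`, `pw i (tp) = 0`.
Let `x = c k - tp`. From `‖x + r i e‖ = dist (c k) (c i) ≥ r i + r k`: `‖x‖^2 + 2 r i ⟨x,e⟩ ≥ 2 r i r k +
r k^2`, and similarly `‖x‖^2 - 2 r j ⟨x,e⟩ ≥ 2 r j r k + r k^2`. If `‖x‖ ≤ r k` then `⟨x,e⟩ ≥ r k > 0` and
`-⟨x,e⟩ ≥ r k > 0`, contradiction. So `pw k (tp) = ‖x‖^2 - r k^2 > 0`.
PROOF of `sum_dg`: count ordered pairs by the first entry.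
-/

set_option autoImplicit false

namespace Pool.Agent.Lib.MP_b2bfca_co.K3U

variable {ι : Type} {c : ι → E3} {r : ι → ℝ}

theorem pw_tp_pos (hP : Pack c r) {i j k : ι} (hij : i ≠ j) (ht : tang c r i j)
    (hki : k ≠ i) (hkj : k ≠ j) :
    pw c (fun a => r a ^ 2) i (tp c (fun a => r a ^ 2) i j) <
      pw c (fun a => r a ^ 2) k (tp c (fun a => r a ^ 2) i j) := by
  have hcij : c i ≠ c j := fun h => hij (Pack_inj hP h)
  have hri := hP.1 i
  have hrj := hP.1 j
  have hrk := hP.1 k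
  have hde : de c (fun a => r a ^ 2) i j = r i := (de_ge hP hij).2.2 ht
  have he : ‖ev c i j‖ = 1 := norm_ev c hcij
  set e := ev c i j with hedef
  have htp : tp c (fun a => r a ^ 2) i j = c i + r i • e := by
    unfold tp
    rw [hde]
  have hL : ‖c j - c i‖ = r i + r j := by
    rw [← dist_eq_norm, dist_comm]
    exact ht
  have hcj : c j - c i = (r i + r j) • e := by
    rw [← hL]
    exact sub_eq_smul_ev c hcij
  rw [htp]
  set x := c k - (c i + r i • e) with hx
  have hee : inner ℝ e e = (1 : ℝ) := by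
    rw [real_inner_self_eq_norm_sq, he]; norm_num
  have h0 : pw c (fun a => r a ^ 2) i (c i + r i • e) = 0 := by
    unfold pw
    rw [add_sub_cancel_left, norm_smul, he, Real.norm_eq_abs, abs_of_pos hri]
    ring
  have h1 : pw c (fun a => r a ^ 2) k (c i + r i • e) = ‖x‖ ^ 2 - r k ^ 2 := by
    unfold pw
    rw [hx, norm_sub_rev]
  have h2 : c k - c i = x + r i • e := by
    rw [hx]; abel
  have h3 : c k - c j = x - r j • e := by
    have h4 : c j = c i + (r i + r j) • e := by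
      rw [← hcj]; abel
    rw [hx, h4, add_smul]; abel
  have h4 : (r i + r k) ^ 2 ≤ ‖x‖ ^ 2 + 2 * r i * inner ℝ x e + r i ^ 2 := by
    have h5 : r i + r k ≤ ‖x + r i • e‖ := by
      rw [← h2, ← dist_eq_norm, dist_comm]
      exact hP.2 i k (Ne.symm hki)
    have h6 : ‖x + r i • e‖ ^ 2 = ‖x‖ ^ 2 + 2 * r i * inner ℝ x e + r i ^ 2 := by
      rw [norm_add_sq_real, real_inner_smul_right, norm_smul, he, Real.norm_eq_abs,
        abs_of_pos hri]
      ring
    rw [← h6]
    exact pow_le_pow_left₀ (by positivity) h5 2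
  have h5 : (r j + r k) ^ 2 ≤ ‖x‖ ^ 2 - 2 * r j * inner ℝ x e + r j ^ 2 := by
    have h5 : r j + r k ≤ ‖x - r j • e‖ := by
      rw [← h3, ← dist_eq_norm, dist_comm]
      exact hP.2 j k (Ne.symm hkj)
    have h6 : ‖x - r j • e‖ ^ 2 = ‖x‖ ^ 2 - 2 * r j * inner ℝ x e + r j ^ 2 := by
      rw [norm_sub_sq_real, real_inner_smul_right, norm_smul, he, Real.norm_eq_abs,
        abs_of_pos hrj]
      ring
    rw [← h6]
    exact pow_le_pow_left₀ (by positivity) h5 2
  rw [h0, h1]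
  have h6 : 4 * (r i * r j * r k) + (r i + r j) * r k ^ 2 ≤ (r i + r j) * ‖x‖ ^ 2 := by
    have h7 := mul_le_mul_of_nonneg_left h4 hrj.le
    have h8 := mul_le_mul_of_nonneg_left h5 hri.le
    nlinarith
  have h7 : 0 < r i * r j * r k := by positivity
  by_contra hcon
  have h8 : (r i + r j) * ‖x‖ ^ 2 ≤ (r i + r j) * r k ^ 2 :=
    mul_le_mul_of_nonneg_left (by linarith) (by linarith)
  linarith

theorem sum_dg [Fintype ι] : ∑ i, dg c r i = DD c r := by
  classical
  unfold dg DD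
  simp only [Finset.card_filter]
  rw [Fintype.sum_prod_type]
  refine Finset.sum_congr rfl fun i _ => Finset.sum_congr rfl fun j _ => ?_
  exact if_congr (and_congr ne_comm Iff.rfl) rfl rfl

end Pool.Agent.Lib.MP_b2bfca_co.K3U
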