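import Pool.Agent.Lib.MP_b2bfca_co.K3U.GeoB

/-!
# Generic weights are dense

For an affine relation `∑ λ = 0`, `∑ λ a • c a = 0` supported on three or four indices one has
`∑ λ a pw a y = ∑ λ a (‖c a‖^2 - w a)` for all `y`; if the powers are equal at `y` this is `0`. So
generic weights avoid finitely many affine hyperplanes.
-/

set_option autoImplicit false

namespace Pool.Agent.Lib.MP_b2bfca_co.K3U

open Topology

variable {ι : Type} [Fintype ι]

/-- Affine relation supported on four indices. -/
def GenwR (c : ι → E3) (t : ι × ι × ι × ι) (lam : ι → ℝ) : Prop :=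
  lam ≠ 0 ∧ ∑ a, lam a = 0 ∧ ∑ a, lam a • c a = 0 ∧
    ∀ a, a ≠ t.1 → a ≠ t.2.1 → a ≠ t.2.2.1 → a ≠ t.2.2.2 → lam a = 0

theorem genw_sum {c : ι → E3} {t : ι × ι × ι × ι} {lam : ι → ℝ} (h : GenwR c t lam)
    (w : ι → ℝ) (y : E3) :
    ∑ a, lam a * pw c w a y = ∑ a, lam a * ‖c a‖ ^ 2 - ∑ a, lam a * w a := by
  obtain ⟨-, h0, h1, -⟩ := h
  have e1 : ∀ a, lam a * pw c w a y =
      lam a * ‖y‖ ^ 2 - 2 * (lam a * inner ℝ y (c a)) + lam a * ‖c a‖ ^ 2 - lam a * w a := by
    intro a
    unfold pw
    rw [norm_sub_sq_real]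
    ring
  simp_rw [e1]
  rw [Finset.sum_sub_distrib, Finset.sum_add_distrib, Finset.sum_sub_distrib,
    ← Finset.mul_sum, ← Finset.sum_mul, h0]
  have e2 : ∑ a, lam a * inner ℝ y (c a) = 0 := by
    calc ∑ a, lam a * inner ℝ y (c a) = inner ℝ y (∑ a, lam a • c a) := by
          rw [inner_sum]
          exact Finset.sum_congr rfl fun a _ => (real_inner_smul_right _ _ _).symm
      _ = 0 := by rw [h1, inner_zero_right]
  rw [e2]
  ring

theorem genw_bad {c : ι → E3} {i j k l : ι} {lam : ι → ℝ} (h : GenwR c (i, j, k, l) lam)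
    {w : ι → ℝ} {y : E3} (hj : pw c w i y = pw c w j y) (hk : pw c w i y = pw c w k y)
    (hl : pw c w i y = pw c w l y) : ∑ a, lam a * w a = ∑ a, lam a * ‖c a‖ ^ 2 := by
  have e1 : ∑ a, lam a * pw c w a y = 0 := by
    calc ∑ a, lam a * pw c w a y = ∑ a, lam a * pw c w i y := by
          refine Finset.sum_congr rfl fun a _ => ?_
          by_cases h1 : a = i
          · rw [h1]
          · by_cases h2 : a = j
            · rw [h2, hj]
            · by_cases h3 : a = k
              · rw [h3, hk]
              · by_cases h4 : a = l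
                · rw [h4, hl]
                · rw [h.2.2.2 a h1 h2 h3 h4]
                  ring
      _ = 0 := by rw [← Finset.sum_mul, h.2.1, zero_mul]
  have e2 := genw_sum h w y
  linarith

/-- The complement of a hyperplane. -/
theorem genw_open {lam : ι → ℝ} (C : ℝ) : IsOpen {w : ι → ℝ | ∑ a, lam a * w a ≠ C} := by
  have hc : Continuous fun w : ι → ℝ => ∑ a, lam a * w a := by fun_prop
  exact isOpen_compl_singleton.preimage hc

theorem genw_dense {lam : ι → ℝ} (h : lam ≠ 0) (C : ℝ) :
    Dense {w : ι → ℝ | ∑ a, lam a * w a ≠ C} := by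
  classical
  obtain ⟨b, hb⟩ : ∃ b, lam b ≠ 0 := by
    by_contra hc
    push Not at hc
    exact h (funext hc)
  let L : (ι → ℝ) →ₗ[ℝ] ℝ := ∑ a, lam a • LinearMap.proj a
  have hL : ∀ w : ι → ℝ, L w = ∑ a, lam a * w a := by
    intro w
    simp [L]
  have hs : Function.Surjective L := by
    intro x
    refine ⟨Pi.single b (x / lam b), ?_⟩
    rw [hL, Finset.sum_eq_single b]
    · rw [Pi.single_eq_same]
      field_simp
    · intro a _ hab
      rw [Pi.single_eq_of_ne hab, mul_zero]
    · intro hc
      exact absurd (Finset.mem_univ _) hc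
  have ho : IsOpenMap L := LinearMap.isOpenMap_of_finiteDimensional L hs
  have hd := (dense_compl_singleton C).preimage ho
  refine hd.mono ?_
  intro w hw
  change L w ≠ C at hw
  rw [hL] at hw
  exact hw

/-- A relation from collinear centres. -/
theorem genw_three [DecidableEq ι] {c : ι → E3} (hc : Function.Injective c) {i j k : ι}
    (h : Dist3 i j k) (hs : sn c i j k = 0) : ∃ lam, GenwR c (i, j, k, k) lam := by
  obtain ⟨hij, hik, hjk⟩ := h
  have hcij : c i ≠ c j := fun hh => hij (hc hh)
  have hcik : c i ≠ c k := fun hh => hik (hc hh)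
  have hn : ‖c j - c i‖ ≠ 0 := by
    rw [norm_ne_zero_iff, sub_ne_zero]
    exact fun hh => hcij hh.symm
  obtain ⟨t, ht⟩ : ∃ t : ℝ, c k - c i = t • (c j - c i) := by
    have hk := sub_eq_smul_ev c hcik
    rcases collinear_ev c hcij hcik hs with h1 | h1
    · refine ⟨‖c k - c i‖ * ‖c j - c i‖⁻¹, ?_⟩
      rw [mul_smul]
      change c k - c i = ‖c k - c i‖ • ev c i j
      rw [← h1]
      exact hk
    · refine ⟨-(‖c k - c i‖ * ‖c j - c i‖⁻¹), ?_⟩
      rw [neg_smul, mul_smul]
      change c k - c i = -(‖c k - c i‖ • ev c i j)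
      rw [← smul_neg, ← h1]
      exact hk
  refine ⟨Pi.single k 1 + Pi.single i (t - 1) + Pi.single j (-t), ?_, ?_, ?_, ?_⟩
  · intro h0
    have := congrFun h0 k
    simp [Pi.single_eq_of_ne (Ne.symm hik), Pi.single_eq_of_ne (Ne.symm hjk)] at this
  · simp only [Pi.add_apply, Finset.sum_add_distrib, Finset.sum_pi_single', Finset.mem_univ,
      if_true]
    ring
  · have e : ∀ (b : ι) (x : ℝ), ∑ a, (Pi.single b x : ι → ℝ) a • c a = x • c b := by
      intro b x
      rw [Finset.sum_eq_single b]
      · rw [Pi.single_eq_same]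
      · intro a _ hab
        rw [Pi.single_eq_of_ne hab, zero_smul]
      · intro hh
        exact absurd (Finset.mem_univ _) hh
    simp only [Pi.add_apply, add_smul, Finset.sum_add_distrib, e]
    have : c k = c i + t • (c j - c i) := by rw [← ht]; abel
    rw [this, smul_sub, sub_smul, neg_smul, one_smul, one_smul]
    abel
  · intro a h1 h2 h3 _
    simp only at h1 h2 h3
    simp [Pi.single_eq_of_ne h1, Pi.single_eq_of_ne h2, Pi.single_eq_of_ne h3]

/-- A relation from two points with four equal powers. -/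
theorem genw_four [DecidableEq ι] {c : ι → E3} {w : ι → ℝ} {i j k l : ι} (h : Dist3 i j k)
    (hli : l ≠ i) (hlj : l ≠ j) (hlk : l ≠ k) {y y' : E3}
    (hy : pw c w i y = pw c w j y ∧ pw c w i y = pw c w k y ∧ pw c w i y = pw c w l y)
    (hy' : pw c w i y' = pw c w j y' ∧ pw c w i y' = pw c w k y' ∧ pw c w i y' = pw c w l y')
    (hne : y ≠ y') : ∃ lam, GenwR c (i, j, k, l) lam := by
  obtain ⟨hij, hik, hjk⟩ := h
  have horth : ∀ b, pw c w i y = pw c w b y → pw c w i y' = pw c w b y' →
      inner ℝ (y - y') (c b - c i) = 0 := by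
    intro b h1 h2
    unfold pw at h1 h2
    rw [norm_sub_sq_real, norm_sub_sq_real] at h1 h2
    rw [inner_sub_left, inner_sub_right, inner_sub_right]
    linarith
  have hdep : ¬ LinearIndependent ℝ ![c j - c i, c k - c i, c l - c i] := by
    intro hli'
    have hspan := hli'.span_eq_top_of_card_eq_finrank (by simp)
    have hv : y - y' ∈ (Submodule.span ℝ (Set.range ![c j - c i, c k - c i, c l - c i])) := by
      rw [hspan]
      trivial
    have hz : ∀ z ∈ Submodule.span ℝ (Set.range ![c j - c i, c k - c i, c l - c i]),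
        inner ℝ (y - y') z = 0 := by
      intro z hz
      induction hz using Submodule.span_induction with
      | mem z hz =>
        obtain ⟨m, rfl⟩ := hz
        fin_cases m
        · exact horth j hy.1 hy'.1
        · exact horth k hy.2.1 hy'.2.1
        · exact horth l hy.2.2 hy'.2.2
      | zero => exact inner_zero_right _
      | add a b _ _ ha hb => rw [inner_add_right, ha, hb, add_zero]
      | smul a b _ hb => rw [real_inner_smul_right, hb, mul_zero]
    have h0 := hz _ hv
    rw [inner_self_eq_zero, sub_eq_zero] at h0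
    exact hne h0
  rw [Fintype.not_linearIndependent_iff] at hdep
  obtain ⟨g, hg, m, hm⟩ := hdep
  rw [Fin.sum_univ_three] at hg
  simp only [Matrix.cons_val_zero, Matrix.cons_val_one, Matrix.cons_val] at hg
  refine ⟨Pi.single j (g 0) + Pi.single k (g 1) + Pi.single l (g 2) +
    Pi.single i (-(g 0 + g 1 + g 2)), ?_, ?_, ?_, ?_⟩
  · intro h0
    fin_cases m
    · have := congrFun h0 j
      simp [Pi.single_eq_of_ne hjk, Pi.single_eq_of_ne (Ne.symm hlj),
        Pi.single_eq_of_ne (Ne.symm hij)] at this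
      exact hm this
    · have := congrFun h0 k
      simp [Pi.single_eq_of_ne (Ne.symm hjk), Pi.single_eq_of_ne (Ne.symm hlk),
        Pi.single_eq_of_ne (Ne.symm hik)] at this
      exact hm this
    · have := congrFun h0 l
      simp [Pi.single_eq_of_ne hlj, Pi.single_eq_of_ne hlk, Pi.single_eq_of_ne hli] at this
      exact hm this
  · simp only [Pi.add_apply, Finset.sum_add_distrib, Finset.sum_pi_single', Finset.mem_univ,
      if_true]
    ring
  · have e : ∀ (b : ι) (x : ℝ), ∑ a, (Pi.single b x : ι → ℝ) a • c a = x • c b := by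
      intro b x
      rw [Finset.sum_eq_single b]
      · rw [Pi.single_eq_same]
      · intro a _ hab
        rw [Pi.single_eq_of_ne hab, zero_smul]
      · intro hh
        exact absurd (Finset.mem_univ _) hh
    simp only [Pi.add_apply, add_smul, Finset.sum_add_distrib, e]
    rw [← hg, smul_sub, smul_sub, smul_sub, neg_smul, add_smul, add_smul]
    abel
  · intro a h1 h2 h3 h4
    simp only at h1 h2 h3 h4
    simp [Pi.single_eq_of_ne h1, Pi.single_eq_of_ne h2, Pi.single_eq_of_ne h3,
      Pi.single_eq_of_ne h4]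

theorem exists_gen {ι : Type} [Fintype ι] (c : ι → E3) (hc : Function.Injective c)
    (w0 : ι → ℝ) {O : Set (ι → ℝ)} (hO : O ∈ 𝓝 w0) : ∃ w ∈ O, Gen c w := by
  classical
  let B : ι × ι × ι × ι → Set (ι → ℝ) := fun t =>
    if ht : ∃ lam, GenwR c t lam then
      {w | ∑ a, ht.choose a * w a ≠ ∑ a, ht.choose a * ‖c a‖ ^ 2} else Set.univ
  have hBo : ∀ t, IsOpen (B t) := by
    intro t
    by_cases ht : ∃ lam, GenwR c t lam
    · simp only [B, dif_pos ht]
      exact genw_open _
    · simp only [B, dif_neg ht]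
      exact isOpen_univ
  have hBd : ∀ t, Dense (B t) := by
    intro t
    by_cases ht : ∃ lam, GenwR c t lam
    · simp only [B, dif_pos ht]
      exact genw_dense ht.choose_spec.1 _
    · simp only [B, dif_neg ht]
      exact dense_univ
  have hD : Dense (⋂ t, B t) := dense_iInter_of_isOpen hBo hBd
  obtain ⟨w, hw, hwO⟩ := hD.inter_nhds_nonempty hO
  have key : ∀ i j k l : ι, (∃ lam, GenwR c (i, j, k, l) lam) → ∀ y, pw c w i y = pw c w j y →
      pw c w i y = pw c w k y → pw c w i y = pw c w l y → False := by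
    intro i j k l ht y hj hk hl
    have h1 := Set.mem_iInter.1 hw (i, j, k, l)
    simp only [B, dif_pos ht, Set.mem_ofPred_eq] at h1
    exact h1 (genw_bad ht.choose_spec hj hk hl)
  refine ⟨w, hwO, ?_, ?_⟩
  · rintro i j k hd hs y ⟨hj, hk⟩
    exact key i j k k (genw_three hc hd hs) y hj hk hk
  · intro i j k l hd hli hlj hlk y y' hy hy'
    by_contra hne
    exact key i j k l (genw_four hd hli hlj hlk hy hy' hne) y hy.1 hy.2.1 hy.2.2

end Pool.Agent.Lib.MP_b2bfca_co.K3U
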