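import Pool.Agent.Lib.MP_b2bfca_co.K3U.AsmA
import Pool.Agent.Lib.MP_b2bfca_co.K3U.AsmP
import Pool.Agent.Lib.MP_b2bfca_co.K3U.GenW
import Pool.Agent.Lib.MP_b2bfca_co.K3U.Pert

/-!
# Admissible weights exist

PROOF. All conditions of `Adm` except `gen` hold for all `w` in a neighbourhood of
`w0 = fun i => r i ^ 2`: `de c w0 i j ≥ r i > 0` (`de_ge`) and continuity (`continuous_de`); `tp_lt`:
`pw_tp_pos` and continuity of `w ↦ pw c w k (tp c w i j) - pw c w i (tp c w i j)`; `bdd` is the hypothesis
`hb`; `err` is `pert_Phi` for the finitely many `v` (the map `w ↦ w ∘ v` is continuous;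
hypotheses of `pert_Phi`: `de_ge`, and `tri_rho`: `dd = ρ > 0` for tangent pairs; `c ∘ v`, `r ∘ v` is again
a `Pack`). Then `exists_gen` gives a generic `w` in the neighbourhood.
-/

set_option autoImplicit false

namespace Pool.Agent.Lib.MP_b2bfca_co.K3U

open Topology Filter

variable {ι : Type} [Fintype ι] {c : ι → E3} {r : ι → ℝ}

omit [Fintype ι] in
theorem AsmB_cont_tp (c : ι → E3) (i j : ι) : Continuous fun w => tp c w i j := by
  unfold tp
  exact continuous_const.add ((continuous_de c i j).smul continuous_const)

omit [Fintype ι] in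
theorem AsmB_cont_pw (c : ι → E3) (i j k : ι) : Continuous fun w => pw c w k (tp c w i j) := by
  unfold pw
  exact ((((AsmB_cont_tp c i j).sub continuous_const).norm).pow 2).sub (continuous_apply k)

theorem exists_adm (hP : Pack c r)
    (hb : ∀ᶠ w in 𝓝 (fun i => r i ^ 2), ∀ i j, i ≠ j → tang c r i j →
      Bornology.IsBounded (cell c w i)) {ε : ℝ} (hε : 0 < ε) :
    ∃ w, Adm c r w ε := by
  classical
  have hc := Pack_inj hP
  have E1 : ∀ᶠ w in 𝓝 (fun i => r i ^ 2), ∀ i j, i ≠ j → 0 < de c w i j := by
    rw [eventually_all]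
    intro i
    rw [eventually_all]
    intro j
    by_cases hij : i = j
    · exact Eventually.of_forall fun w h => absurd hij h
    · have h1 : 0 < de c (fun a => r a ^ 2) i j := (hP.1 i).trans_le (de_ge hP hij).1
      filter_upwards [(continuous_de c i j).continuousAt.eventually (lt_mem_nhds h1)] with w hw _
      exact hw
  have E2 : ∀ᶠ w in 𝓝 (fun i => r i ^ 2), ∀ i j, i ≠ j → tang c r i j → ∀ k, k ≠ i → k ≠ j →
      pw c w i (tp c w i j) < pw c w k (tp c w i j) := by
    rw [eventually_all]
    intro i
    rw [eventually_all]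
    intro j
    by_cases hij : i = j
    · exact Eventually.of_forall fun w h => absurd hij h
    · by_cases ht : tang c r i j
      · have h1 : ∀ᶠ w in 𝓝 (fun i => r i ^ 2), ∀ k, k ≠ i → k ≠ j →
            pw c w i (tp c w i j) < pw c w k (tp c w i j) := by
          rw [eventually_all]
          intro k
          by_cases hk : k = i ∨ k = j
          · refine Eventually.of_forall fun w h h' => ?_
            rcases hk with hk | hk
            · exact absurd hk h
            · exact absurd hk h'
          · push Not at hk
            have h1 := pw_tp_pos hP hij ht hk.1 hk.2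
            filter_upwards [(AsmB_cont_pw c i j i).continuousAt.eventually_lt
              (AsmB_cont_pw c i j k).continuousAt h1] with w hw _ _
            exact hw
        filter_upwards [h1] with w hw _ _
        exact hw
      · exact Eventually.of_forall fun w _ h => absurd h ht
  have E4 : ∀ᶠ w in 𝓝 (fun i => r i ^ 2), ∀ v : Fin 3 → ι, Function.Injective v →
      sn c (v 0) (v 1) (v 2) ≠ 0 → ∀ J : Set ℝ, MeasurableSet J →
      |(∫ h in J, Phi (fun a => c (v a)) (fun a => w (v a)) (fun a b => tang c r (v a) (v b)) h) -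
        ∫ h in J, Phi (fun a => c (v a)) (fun a => r (v a) ^ 2)
          (fun a b => tang c r (v a) (v b)) h| ≤ ε := by
    rw [eventually_all]
    intro v
    by_cases hv : Function.Injective v
    · by_cases hs : sn c (v 0) (v 1) (v 2) = 0
      · exact Eventually.of_forall fun w _ h => absurd hs h
      · have hPv : Pack (fun a => c (v a)) (fun a => r (v a)) :=
          ⟨fun a => hP.1 _, fun a b hab => hP.2 _ _ (hv.ne hab)⟩
        have hsv : sn (fun a => c (v a)) 0 1 2 ≠ 0 := hs
        obtain ⟨ρ, hρ, hρ2⟩ := tri_rho hPv hsv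
        have h1 := pert_Phi (fun a => c (v a)) (fun a => r (v a) ^ 2)
          (fun a b => tang c r (v a) (v b))
          (fun a b hab => (hPv.1 a).trans_le (de_ge hPv hab).1)
          (fun σ hσ => by
            rw [(hρ2 σ).2.2 hσ]
            exact hρ) hε
        have h2 : Continuous fun (w : ι → ℝ) (a : Fin 3) => w (v a) :=
          continuous_pi fun a => continuous_apply (v a)
        have h3 := h2.continuousAt (x := fun i => r i ^ 2)
        filter_upwards [h3.eventually h1] with w hw _ _
        exact hw
    · exact Eventually.of_forall fun w h => absurd h hv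
  obtain ⟨w, hw, hg⟩ := exists_gen c hc (fun i => r i ^ 2) (E1.and (E2.and (hb.and E4)))
  exact ⟨w, hg, hw.1, hw.2.1, hw.2.2.1, hw.2.2.2⟩

end Pool.Agent.Lib.MP_b2bfca_co.K3U
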