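import Pool.Agent.Lib.MP_b2bfca_co.K3U.PlMain
import Pool.Agent.Lib.MP_b2bfca_co.K3U.LocH

/-!
# Tight triples at a ball are edges of a polyhedron

PROOF. `τ = {j // j ≠ i ∧ tang c r i j}`, `u j = 2 • (c j - c i)`,
`b j = ‖c j‖^2 - w j - ‖c i‖^2 + w i`, so `pw j y - pw i y = b j - inner (u j) y`.
`P` = pairs `(j, k)` with `Tight c r w i j k` (they lie in `τ`). For such a pair: `sn i j k ≠ 0`
(`tight_sn`), so `u j, u k` are independent. Let `y ≠ y'` in `SS i j k`, `z` the midpoint:
`pw i z = pw j z = pw k z` (affine, `pw_diff_affine` with `t = 1/2`), and for another `l`,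
`pw l z - pw i z = ((pw l y - pw i y) + (pw l y' - pw i y'))/2 ≥ 0`, with equality only if
both vanish, contradicting `Gen.g2`. So the witness for `planar_bound` is `z`.
-/

set_option autoImplicit false

namespace Pool.Agent.Lib.MP_b2bfca_co.K3U

theorem Tight_pw_lin {ι : Type} (c : ι → E3) (w : ι → ℝ) (i j : ι) (y : E3) :
    pw c w j y - pw c w i y = (‖c j‖ ^ 2 - w j - ‖c i‖ ^ 2 + w i) -
      inner ℝ ((2 : ℝ) • (c j - c i)) y := by
  unfold pw
  rw [@norm_sub_sq_real, @norm_sub_sq_real, inner_smul_left, inner_sub_left,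
    real_inner_comm y (c j), real_inner_comm y (c i)]
  simp
  ring

theorem Tight_indep {ι : Type} {c : ι → E3} {i j k : ι} (hj : c i ≠ c j) (hk : c i ≠ c k)
    (hs : sn c i j k ≠ 0) :
    LinearIndependent ℝ ![(2 : ℝ) • (c j - c i), (2 : ℝ) • (c k - c i)] := by
  rw [LinearIndependent.pair_iff]
  intro s t hst
  have hlt := cs_lt_one hs
  have e1 := norm_ev c hj
  have e2 := norm_ev c hk
  have n1 : 0 < ‖c j - c i‖ := norm_pos_iff.mpr (sub_ne_zero.mpr (Ne.symm hj))
  have n2 : 0 < ‖c k - c i‖ := norm_pos_iff.mpr (sub_ne_zero.mpr (Ne.symm hk))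
  set e := ev c i j with he
  set f := ev c i k with hf
  set s' := 2 * s * ‖c j - c i‖ with hs'
  set t' := 2 * t * ‖c k - c i‖ with ht'
  have hst' : s' • e + t' • f = 0 := by
    rw [← hst]
    conv_rhs => rw [sub_eq_smul_ev c hj, sub_eq_smul_ev c hk]
    rw [smul_smul, smul_smul, smul_smul, smul_smul, hs', ht', ← he, ← hf]
    congr 2 <;> ring
  have hcs : inner ℝ e f = cs c i j k := rfl
  have hcs' : inner ℝ f e = cs c i j k := by rw [real_inner_comm]; exact hcs
  have h1 : s' + t' * cs c i j k = 0 := by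
    have := congrArg (fun v => inner ℝ e v) hst'
    simp only [inner_add_right, inner_smul_right, inner_zero_right, real_inner_self_eq_norm_sq,
      e1, hcs] at this
    linarith
  have h2 : s' * cs c i j k + t' = 0 := by
    have := congrArg (fun v => inner ℝ f v) hst'
    simp only [inner_add_right, inner_smul_right, inner_zero_right, real_inner_self_eq_norm_sq,
      e2, hcs'] at this
    linarith
  have h3 : t' * (1 - cs c i j k ^ 2) = 0 := by
    linear_combination h2 - cs c i j k * h1
  have h4 : t' = 0 := by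
    rcases mul_eq_zero.mp h3 with h | h
    · exact h
    · exact absurd h (by linarith)
  have h5 : s' = 0 := by rw [h4] at h1; linarith
  constructor
  · rcases mul_eq_zero.mp h5 with h | h
    · linarith
    · exact absurd h n1.ne'
  · rcases mul_eq_zero.mp h4 with h | h
    · linarith
    · exact absurd h n2.ne'

theorem tight_card {ι : Type} [Fintype ι] {c : ι → E3} {r w : ι → ℝ} (hP : Pack c r)
    (hg : Gen c w) (i : ι) (h3 : 3 ≤ dg c r i) : tg c r w i + 12 ≤ 6 * dg c r i := by
  classical
  have hinj := Pack_inj hP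
  have hdg : dg c r i = Fintype.card {j // j ≠ i ∧ tang c r i j} := by
    unfold dg
    rw [Fintype.card_subtype]
  set P : Finset ({j // j ≠ i ∧ tang c r i j} × {j // j ≠ i ∧ tang c r i j}) :=
    Finset.univ.filter (fun p => Tight c r w i p.1 p.2) with hPdef
  have hbound := planar_bound
    (fun j : {j // j ≠ i ∧ tang c r i j} => (2 : ℝ) • (c j - c i))
    (fun j => ‖c j‖ ^ 2 - w j - ‖c i‖ ^ 2 + w i) (by rw [← hdg]; exact h3) P (by
      rintro ⟨⟨j, hj⟩, ⟨k, hk⟩⟩ hp
      simp only [hPdef, Finset.mem_filter, Finset.mem_univ, true_and] at hp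
      obtain ⟨hd3, t1, t2, t3, y, hy, y', hy', hyy⟩ := hp
      have hij : c i ≠ c j := fun h => hd3.1 (hinj h)
      have hik : c i ≠ c k := fun h => hd3.2.1 (hinj h)
      refine ⟨fun h => hd3.2.2 (congrArg Subtype.val h), Tight_indep hij hik
        (tight_sn hP hd3 t1 t2 t3), y + (1 / 2 : ℝ) • (y' - y), ?_, ?_, ?_⟩
      · have h1 := Tight_pw_lin c w i j (y + (1 / 2 : ℝ) • (y' - y))
        rw [pw_diff_affine] at h1
        have h2 := hy.1
        have h3 := hy'.1
        simp only
        rw [← h2, ← h3] at h1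
        linarith
      · have h1 := Tight_pw_lin c w i k (y + (1 / 2 : ℝ) • (y' - y))
        rw [pw_diff_affine] at h1
        have h2 := hy.2.1
        have h3 := hy'.2.1
        simp only
        rw [← h2, ← h3] at h1
        linarith
      · rintro ⟨l, hl⟩ hlj hlk
        have hlj' : l ≠ j := fun h => hlj (Subtype.ext h)
        have hlk' : l ≠ k := fun h => hlk (Subtype.ext h)
        have h1 := Tight_pw_lin c w i l (y + (1 / 2 : ℝ) • (y' - y))
        rw [pw_diff_affine] at h1
        have h2 : pw c w i y ≤ pw c w l y := hy.2.2 l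
        have h3 : pw c w i y' ≤ pw c w l y' := hy'.2.2 l
        have h4 : pw c w i y ≠ pw c w l y ∨ pw c w i y' ≠ pw c w l y' := by
          by_contra hcon
          push Not at hcon
          exact hyy (hg.g2 i j k l hd3 hl.1 hlj' hlk' y y' ⟨hy.1, hy.2.1, hcon.1⟩
            ⟨hy'.1, hy'.2.1, hcon.2⟩)
        simp only
        rcases h4 with h4 | h4
        · have h5 := lt_of_le_of_ne h2 h4
          linarith
        · have h5 := lt_of_le_of_ne h3 h4
          linarith)
  have hcard : tg c r w i ≤ P.card := by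
    have hsub : (Finset.univ.filter fun p : ι × ι => Tight c r w i p.1 p.2) ⊆
        P.image (fun p => ((p.1 : ι), (p.2 : ι))) := by
      rintro ⟨j, k⟩ hp
      simp only [Finset.mem_filter, Finset.mem_univ, true_and] at hp
      rw [Finset.mem_image]
      refine ⟨(⟨j, hp.1.1.symm, hp.2.1⟩, ⟨k, hp.1.2.1.symm, hp.2.2.1⟩), ?_, rfl⟩
      simp only [hPdef, Finset.mem_filter, Finset.mem_univ, true_and]
      exact hp
    have h1 := (Finset.card_le_card hsub).trans Finset.card_image_le
    unfold tg
    convert h1 using 2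
  rw [← hdg] at hbound
  omega

end Pool.Agent.Lib.MP_b2bfca_co.K3U
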