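import Pool.Agent.Lib.MP_b2bfca_co.K3U.AsmB
import Pool.Agent.Lib.MP_b2bfca_co.K3U.Tight

/-!
# Passing to the limit

PROOF. For every `ε > 0` take `w` of `exists_adm` and apply `main_w`; `tg i ≤ 6 dg i - 12` for `i ∈ I0`
(`tight_card`), `tg i = 0` for `i ∉ I0` (no tangent ball), `∑_i dg i = DD` (`sum_dg`), so
`∑ tg ≤ 6 DD - 12 |I0|` and `π mu DD ≤ 4π card ι + (nu/2)(6 DD - 12 |I0|) + ε n^3` for all `ε > 0`
(`nu > 0`). Let `ε → 0`.
-/

set_option autoImplicit false

namespace Pool.Agent.Lib.MP_b2bfca_co.K3U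

open Topology Filter

variable {ι : Type} [Fintype ι] {c : ι → E3} {r : ι → ℝ}

theorem limit_ineq (hP : Pack c r) (I0 : Finset ι)
    (hI : ∀ i ∈ I0, 3 ≤ dg c r i) (hI' : ∀ i ∉ I0, dg c r i = 0)
    (hb : ∀ᶠ w in 𝓝 (fun i => r i ^ 2), ∀ i j, i ≠ j → tang c r i j →
      Bornology.IsBounded (cell c w i)) :
    (Real.pi * mu - 3 * nu) * (DD c r : ℝ) ≤
      4 * Real.pi * (Fintype.card ι : ℝ) - 6 * nu * (I0.card : ℝ) := by
  classical
  have hnu := nu_pos
  refine le_of_forall_pos_le_add fun η hη => ?_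
  have hn : 0 < (Fintype.card ι : ℝ) ^ 3 + 1 := by positivity
  have hε : 0 < η / ((Fintype.card ι : ℝ) ^ 3 + 1) := by positivity
  obtain ⟨w, hA⟩ := exists_adm hP hb hε
  have h1 := main_w hP hε.le hA
  have h2 : ∀ i, (tg c r w i : ℝ) ≤ 6 * (dg c r i : ℝ) - 12 * (if i ∈ I0 then 1 else 0) := by
    intro i
    by_cases hi : i ∈ I0
    · rw [if_pos hi]
      have h3 := tight_card hP hA.gen i (hI i hi)
      have h4 : (tg c r w i : ℝ) + 12 ≤ 6 * (dg c r i : ℝ) := by exact_mod_cast h3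
      linarith
    · rw [if_neg hi]
      have h3 : dg c r i = 0 := hI' i hi
      have h4 : tg c r w i = 0 := by
        unfold tg
        rw [Finset.card_eq_zero, Finset.filter_eq_empty_iff]
        rintro ⟨j, k⟩ _ h5
        have h6 : j ∈ Finset.univ.filter fun j : ι => j ≠ i ∧ tang c r i j :=
          Finset.mem_filter.2 ⟨Finset.mem_univ _, Ne.symm h5.1.1, h5.2.1⟩
        unfold dg at h3
        rw [Finset.card_eq_zero] at h3
        rw [h3] at h6
        exact absurd h6 (Finset.notMem_empty _)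
      rw [h3, h4]
      norm_num
  have h3 : (∑ i, (tg c r w i : ℝ)) ≤ 6 * (DD c r : ℝ) - 12 * (I0.card : ℝ) := by
    calc (∑ i, (tg c r w i : ℝ))
        ≤ ∑ i, (6 * (dg c r i : ℝ) - 12 * (if i ∈ I0 then 1 else 0)) :=
          Finset.sum_le_sum fun i _ => h2 i
      _ = 6 * (DD c r : ℝ) - 12 * (I0.card : ℝ) := by
          rw [Finset.sum_sub_distrib, ← Finset.mul_sum, ← Finset.mul_sum, ← sum_dg,
            Nat.cast_sum, Finset.sum_ite_mem, Finset.univ_inter, Finset.sum_const, nsmul_eq_mul,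
            mul_one]
  have h4 : η / ((Fintype.card ι : ℝ) ^ 3 + 1) * (Fintype.card ι : ℝ) ^ 3 ≤ η := by
    rw [div_mul_eq_mul_div, div_le_iff₀ hn]
    nlinarith
  have h5 := mul_le_mul_of_nonneg_left h3 (half_pos hnu).le
  nlinarith

end Pool.Agent.Lib.MP_b2bfca_co.K3U
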