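import Pool.Agent.Lib.MP_b2bfca_co.K3U.LocG

/-!
# Disjoint copies

PROOF. `M ≥ ‖c i‖ + r i + 1` for all `i`, `K = 4 M`, `ι' = Fin m × ι`, centres
`c i + (a K) e_0`, radii `r i`. Different copies: distance `≥ K - ‖c i‖ - ‖c j‖ > r i + r j`. `Pack`; for each `a`
the map `(i, j) ↦ ((a,i),(a,j))` gives `DD' ≥ m DD`. `card = m n`. So `m α DD ≤ m β n + γ` for all
`m ≥ 1`; divide by `m` and let `m → ∞` (`le_of_forall_pos_le_add`, Archimedean).
-/

set_option autoImplicit false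

namespace Pool.Agent.Lib.MP_b2bfca_co.K3U

theorem Copy_norm_single (t : ℝ) : ‖(EuclideanSpace.single (0 : Fin 3) t : E3)‖ = |t| := by
  rw [PiLp.norm_single, Real.norm_eq_abs]

theorem Copy_dist_same (x y e : E3) : dist (x + e) (y + e) = dist x y := by
  rw [dist_add_right]

theorem Copy_pack {ι : Type} {c : ι → E3} {r : ι → ℝ} (hP : Pack c r) {M : ℝ}
    (hM : ∀ i, ‖c i‖ + r i + 1 ≤ M) (m : ℕ) :
    Pack (fun p : Fin m × ι => c p.2 + EuclideanSpace.single (0 : Fin 3) ((p.1 : ℕ) * (4 * M)))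
      (fun p => r p.2) := by
  refine ⟨fun p => hP.1 p.2, ?_⟩
  rintro ⟨a, i⟩ ⟨b, j⟩ hne
  simp only
  by_cases hab : a = b
  · subst hab
    rw [Copy_dist_same]
    exact hP.2 i j (fun h => hne (by rw [h]))
  · have hi := hM i
    have hj := hM j
    have hri := hP.1 i
    have hrj := hP.1 j
    have hni := norm_nonneg (c i)
    have hnj := norm_nonneg (c j)
    have hMpos : 1 ≤ M := by linarith
    have h1 : (1 : ℝ) ≤ |((a : ℕ) : ℝ) - ((b : ℕ) : ℝ)| := by
      have hne' : ((a : ℕ) : ℤ) - ((b : ℕ) : ℤ) ≠ 0 := by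
        intro h
        apply hab
        apply Fin.ext
        omega
      have := Int.one_le_abs hne'
      have h2 : ((1 : ℤ) : ℝ) ≤ ((|((a : ℕ) : ℤ) - ((b : ℕ) : ℤ)| : ℤ) : ℝ) := by
        exact_mod_cast this
      simpa using h2
    have h2 : 4 * M ≤ ‖(EuclideanSpace.single (0 : Fin 3) (((a : ℕ) : ℝ) * (4 * M)) : E3) -
        EuclideanSpace.single (0 : Fin 3) (((b : ℕ) : ℝ) * (4 * M))‖ := by
      have h3 : (EuclideanSpace.single (0 : Fin 3) (((a : ℕ) : ℝ) * (4 * M)) : E3) -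
        EuclideanSpace.single (0 : Fin 3) (((b : ℕ) : ℝ) * (4 * M)) =
        EuclideanSpace.single (0 : Fin 3) ((((a : ℕ) : ℝ) - ((b : ℕ) : ℝ)) * (4 * M)) := by
        ext k
        by_cases hk : k = 0
        · subst hk; simp; ring
        · simp [hk]
      rw [h3, Copy_norm_single, abs_mul, abs_of_pos (by linarith : (0 : ℝ) < 4 * M)]
      nlinarith
    have h4 : ‖(EuclideanSpace.single (0 : Fin 3) (((a : ℕ) : ℝ) * (4 * M)) : E3) -
        EuclideanSpace.single (0 : Fin 3) (((b : ℕ) : ℝ) * (4 * M))‖ ≤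
        dist (c i + EuclideanSpace.single (0 : Fin 3) (((a : ℕ) : ℝ) * (4 * M)))
          (c j + EuclideanSpace.single (0 : Fin 3) (((b : ℕ) : ℝ) * (4 * M))) + ‖c i‖ + ‖c j‖ := by
      rw [dist_eq_norm]
      have h5 : (EuclideanSpace.single (0 : Fin 3) (((a : ℕ) : ℝ) * (4 * M)) : E3) -
        EuclideanSpace.single (0 : Fin 3) (((b : ℕ) : ℝ) * (4 * M)) =
        ((c i + EuclideanSpace.single (0 : Fin 3) (((a : ℕ) : ℝ) * (4 * M))) -
          (c j + EuclideanSpace.single (0 : Fin 3) (((b : ℕ) : ℝ) * (4 * M)))) - c i + c j := by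
        abel
      calc _ = ‖((c i + EuclideanSpace.single (0 : Fin 3) (((a : ℕ) : ℝ) * (4 * M))) -
          (c j + EuclideanSpace.single (0 : Fin 3) (((b : ℕ) : ℝ) * (4 * M)))) - c i + c j‖ := by
            rw [← h5]
        _ ≤ ‖((c i + EuclideanSpace.single (0 : Fin 3) (((a : ℕ) : ℝ) * (4 * M))) -
          (c j + EuclideanSpace.single (0 : Fin 3) (((b : ℕ) : ℝ) * (4 * M)))) - c i‖ + ‖c j‖ :=
            norm_add_le _ _
        _ ≤ _ := by
            have := norm_sub_le ((c i + EuclideanSpace.single (0 : Fin 3) (((a : ℕ) : ℝ) * (4 * M))) -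
              (c j + EuclideanSpace.single (0 : Fin 3) (((b : ℕ) : ℝ) * (4 * M)))) (c i)
            linarith
    linarith

theorem Copy_DD {ι : Type} [Fintype ι] (c : ι → E3) (r : ι → ℝ) (K : ℝ) (m : ℕ) :
    m * DD c r ≤ DD (fun p : Fin m × ι => c p.2 +
      EuclideanSpace.single (0 : Fin 3) (((p.1 : ℕ) : ℝ) * K)) (fun p => r p.2) := by
  classical
  unfold DD
  have h := Finset.card_le_card_of_injOn
    (s := (Finset.univ : Finset (Fin m)) ×ˢ
      (Finset.univ.filter fun p : ι × ι => p.1 ≠ p.2 ∧ tang c r p.1 p.2))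
    (t := Finset.univ.filter fun p : (Fin m × ι) × (Fin m × ι) => p.1 ≠ p.2 ∧
      tang (fun p : Fin m × ι => c p.2 +
      EuclideanSpace.single (0 : Fin 3) (((p.1 : ℕ) : ℝ) * K)) (fun p => r p.2) p.1 p.2)
    (fun x => ((x.1, x.2.1), (x.1, x.2.2))) (by
      rintro ⟨a, i, j⟩ hx
      simp only [Finset.coe_product, Finset.coe_univ, Finset.coe_filter, Finset.mem_univ,
        true_and, Set.mem_prod, Set.mem_univ, Set.mem_ofPred_eq] at hx
      simp only [Finset.coe_filter, Finset.mem_univ, true_and, Set.mem_ofPred_eq]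
      refine ⟨fun h => hx.1 (congrArg Prod.snd h), ?_⟩
      have := hx.2
      unfold tang at this ⊢
      simp only
      rw [Copy_dist_same]
      exact this) (by
      rintro ⟨a, i, j⟩ _ ⟨b, k, l⟩ _ h
      simp only [Prod.mk.injEq] at h
      obtain ⟨⟨h1, h2⟩, _, h3⟩ := h
      rw [h1, h2, h3])
  rw [Finset.card_product, Finset.card_univ, Fintype.card_fin] at h
  convert h using 2
  congr!

theorem copy_all {α β γ : ℝ} (hα : 0 ≤ α)
    (h : ∀ (ι : Type) [Fintype ι] (c : ι → E3) (r : ι → ℝ), Pack c r →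
      α * (DD c r : ℝ) ≤ β * (Fintype.card ι : ℝ) + γ)
    {ι : Type} [Fintype ι] {c : ι → E3} {r : ι → ℝ} (hP : Pack c r) :
    α * (DD c r : ℝ) ≤ β * (Fintype.card ι : ℝ) := by
  obtain ⟨M, hM⟩ : ∃ M : ℝ, ∀ i, ‖c i‖ + r i + 1 ≤ M := by
    obtain ⟨M, hM⟩ := (Set.finite_range (fun i => ‖c i‖ + r i + 1)).bddAbove
    exact ⟨M, fun i => hM ⟨i, rfl⟩⟩
  have key : ∀ m : ℕ, (m : ℝ) * (α * (DD c r : ℝ) - β * (Fintype.card ι : ℝ)) ≤ γ := by
    intro m
    have h1 := h (Fin m × ι) _ _ (Copy_pack hP hM m)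
    have h2 := Copy_DD c r (4 * M) m
    have h3 : (m : ℝ) * (DD c r : ℝ) ≤ (DD (fun p : Fin m × ι => c p.2 +
      EuclideanSpace.single (0 : Fin 3) (((p.1 : ℕ) : ℝ) * (4 * M))) (fun p => r p.2) : ℝ) := by
      exact_mod_cast h2
    have h4 := mul_le_mul_of_nonneg_left h3 hα
    rw [Fintype.card_prod, Fintype.card_fin] at h1
    push_cast at h1
    linarith
  by_contra hcon
  push Not at hcon
  have hpos : 0 < α * (DD c r : ℝ) - β * (Fintype.card ι : ℝ) := by linarith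
  obtain ⟨m, hm⟩ := exists_nat_gt (γ / (α * (DD c r : ℝ) - β * (Fintype.card ι : ℝ)))
  rw [div_lt_iff₀ hpos] at hm
  exact absurd (key m) (by linarith)

end Pool.Agent.Lib.MP_b2bfca_co.K3U
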