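import Mathlib

/-!
# Upper bound for the average kissing number in dimension three: definitions

Power diagrams of finitely many balls of `ℝ^3` with centres `c i` and weights `w i`
(`w i` is the square of the radius or a small perturbation of it).
-/

set_option autoImplicit false

namespace Pool.Agent.Lib.MP_b2bfca_co.K3U

open MeasureTheory

noncomputable section

/-- Euclidean space of dimension three. -/
abbrev E3 := EuclideanSpace ℝ (Fin 3)

variable {ι : Type}

/-- The power of the point `y` with respect to ball `i`. -/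
def pw (c : ι → E3) (w : ι → ℝ) (i : ι) (y : E3) : ℝ := ‖y - c i‖ ^ 2 - w i

/-- Unit vector from centre `i` to centre `j`. -/
def ev (c : ι → E3) (i j : ι) : E3 := (‖c j - c i‖)⁻¹ • (c j - c i)

/-- Signed distance from centre `i` to the radical plane of `i` and `j`. -/
def de (c : ι → E3) (w : ι → ℝ) (i j : ι) : ℝ :=
  (‖c j - c i‖ ^ 2 + w i - w j) / (2 * ‖c j - c i‖)

/-- Foot point: intersection of the line of centres with the radical plane. -/
def tp (c : ι → E3) (w : ι → ℝ) (i j : ι) : E3 := c i + de c w i j • ev c i j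

/-- Cosine of the angle at `i` of the triangle `i, j, k` of centres. -/
def cs (c : ι → E3) (i j k : ι) : ℝ := inner ℝ (ev c i j) (ev c i k)

/-- Sine of the angle at `i` of the triangle `i, j, k` of centres. -/
def sn (c : ι → E3) (i j k : ι) : ℝ := Real.sqrt (1 - cs c i j k ^ 2)

/-- Unit vector in the plane of `i, j, k` orthogonal to `ev c i j`, on the side of `k`. -/
def mv (c : ι → E3) (i j k : ι) : E3 := (sn c i j k)⁻¹ • (ev c i k - cs c i j k • ev c i j)

/-- Signed distance from `tp c w i j` to the radical axis of `i, j, k`. -/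
def dd (c : ι → E3) (w : ι → ℝ) (i j k : ι) : ℝ :=
  (de c w i k - cs c i j k * de c w i j) / sn c i j k

/-- Pairwise distinct. -/
def Dist3 (i j k : ι) : Prop := i ≠ j ∧ i ≠ k ∧ j ≠ k

/-- The power cell of `i`. -/
def cell (c : ι → E3) (w : ι → ℝ) (i : ι) : Set E3 := {y | ∀ l, pw c w i y ≤ pw c w l y}

/-- The part of the radical axis of `i, j, k` in the power cell of `i`. -/
def SS (c : ι → E3) (w : ι → ℝ) (i j k : ι) : Set E3 :=
  {y | pw c w i y = pw c w j y ∧ pw c w i y = pw c w k y ∧ y ∈ cell c w i}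

open Classical in
/-- Signed solid angle at `c i` of the triangle with vertex `tp c w i j` and side
`SS c w i j k`. -/
def AA (c : ι → E3) (w : ι → ℝ) (i j k : ι) : ℝ :=
  if Dist3 i j k then
    ∫ y in SS c w i j k, dd c w i j k / (‖y - c i‖ * (‖y - c i‖ + de c w i j)) ∂(Measure.hausdorffMeasure 1)
  else 0

open Classical in
/-- Signed angle at `tp c w i j` of the triangle with vertex `tp c w i j` and side
`SS c w i j k`. -/
def BB (c : ι → E3) (w : ι → ℝ) (i j k : ι) : ℝ :=
  if Dist3 i j k then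
    ∫ y in SS c w i j k, dd c w i j k / ‖y - tp c w i j‖ ^ 2 ∂(Measure.hausdorffMeasure 1)
  else 0

/-- Generic weights. -/
structure Gen (c : ι → E3) (w : ι → ℝ) : Prop where
  g1 : ∀ i j k, Dist3 i j k → sn c i j k = 0 → ∀ y,
    ¬ (pw c w i y = pw c w j y ∧ pw c w i y = pw c w k y)
  g2 : ∀ i j k l, Dist3 i j k → l ≠ i → l ≠ j → l ≠ k → ∀ y y' : E3,
    (pw c w i y = pw c w j y ∧ pw c w i y = pw c w k y ∧ pw c w i y = pw c w l y) →
    (pw c w i y' = pw c w j y' ∧ pw c w i y' = pw c w k y' ∧ pw c w i y' = pw c w l y') →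
    y = y'

/-- The cone region at `c i` of the triangle with vertex `tp c w i j` and side
`SS c w i j k`. -/
def TT (c : ι → E3) (w : ι → ℝ) (i j k : ι) : Set E3 :=
  {x | ∃ τ : ℝ, 0 < τ ∧ ∃ s : ℝ, 0 < s ∧ s < 1 ∧ ∃ y ∈ SS c w i j k,
    x = c i + τ • ((tp c w i j - c i) + s • (y - tp c w i j))}

/-- The wedge region around the line of centres spanned by the side `SS c w i j k`. -/
def WW (c : ι → E3) (w : ι → ℝ) (i j k : ι) : Set E3 :=
  {x | ∃ a : ℝ, ∃ s : ℝ, 0 < s ∧ ∃ y ∈ SS c w i j k,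
    x = tp c w i j + a • ev c i j + s • (y - tp c w i j)}

/-- The point where the ray from `c i` through `x` meets the radical plane of `i, j`. -/
def hp (c : ι → E3) (w : ι → ℝ) (i j : ι) (x : E3) : E3 :=
  c i + (de c w i j / inner ℝ (x - c i) (ev c i j)) • (x - c i)

/-- Solid angle density. -/
def fa (δ d h : ℝ) : ℝ :=
  d / (Real.sqrt (δ ^ 2 + d ^ 2 + h ^ 2) * (Real.sqrt (δ ^ 2 + d ^ 2 + h ^ 2) + δ))

/-- Angle density. -/
def fb (d h : ℝ) : ℝ := d / (d ^ 2 + h ^ 2)

/-- `μ = 2 - 2 √(2/3)`. -/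
def mu : ℝ := 2 - 2 * Real.sqrt (2 / 3)

/-- `θ = arccos (1/3)`. -/
def th : ℝ := Real.arccos (1 / 3)

/-- `ν = (2/3) (π - √6 θ)`. -/
def nu : ℝ := (2 / 3) * (Real.pi - Real.sqrt 6 * th)

open Classical in
/-- The face functional of a triple of balls (`T` is the tangency relation). -/
def Phi (c : Fin 3 → E3) (w : Fin 3 → ℝ) (T : Fin 3 → Fin 3 → Prop) (h : ℝ) : ℝ :=
  ∑ σ : Equiv.Perm (Fin 3), (fa (de c w (σ 0) (σ 1)) (dd c w (σ 0) (σ 1) (σ 2)) h -
    (mu / 2) * (if T (σ 0) (σ 1) then fb (dd c w (σ 0) (σ 1) (σ 2)) h else 0))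

/-- Tangency. -/
def tang (c : ι → E3) (r : ι → ℝ) (i j : ι) : Prop := dist (c i) (c j) = r i + r j

/-- Balls with positive radii and disjoint interiors. -/
def Pack (c : ι → E3) (r : ι → ℝ) : Prop :=
  (∀ i, 0 < r i) ∧ ∀ i j, i ≠ j → r i + r j ≤ dist (c i) (c j)

open Classical in
/-- Number of ordered pairs of tangent balls. -/
def DD [Fintype ι] (c : ι → E3) (r : ι → ℝ) : ℕ :=
  (Finset.univ.filter fun p : ι × ι => p.1 ≠ p.2 ∧ tang c r p.1 p.2).card

open Classical in
/-- Number of balls tangent to ball `i`. -/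
def dg [Fintype ι] (c : ι → E3) (r : ι → ℝ) (i : ι) : ℕ :=
  (Finset.univ.filter fun j : ι => j ≠ i ∧ tang c r i j).card

/-- `i, j, k` are mutually tangent and the dual edge has positive length. -/
def Tight (c : ι → E3) (r w : ι → ℝ) (i j k : ι) : Prop :=
  Dist3 i j k ∧ tang c r i j ∧ tang c r i k ∧ tang c r j k ∧
    ∃ y ∈ SS c w i j k, ∃ y' ∈ SS c w i j k, y ≠ y'

open Classical in
/-- Number of ordered pairs `(j, k)` such that `(i, j, k)` is tight. -/
def tg [Fintype ι] (c : ι → E3) (r w : ι → ℝ) (i : ι) : ℕ :=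
  (Finset.univ.filter fun p : ι × ι => Tight c r w i p.1 p.2).card

open Classical in
/-- Signed indicator of the cone region. -/
def TI (c : ι → E3) (w : ι → ℝ) (i j k : ι) (x : E3) : ℝ :=
  if Dist3 i j k then Real.sign (dd c w i j k) * Set.indicator (TT c w i j k) 1 x else 0

/-- Exceptional set: common points of two sides seen from `c i`. -/
def EX (c : ι → E3) (w : ι → ℝ) (i j k l : ι) : Set E3 :=
  {x | ∃ τ : ℝ, 0 < τ ∧ ∃ s : ℝ, 0 < s ∧ s < 1 ∧ ∃ y ∈ SS c w i j k ∩ SS c w i j l,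
    x = c i + τ • ((tp c w i j - c i) + s • (y - tp c w i j))}

end

end Pool.Agent.Lib.MP_b2bfca_co.K3U
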