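import Pool.Agent.Lib.MP_b2bfca_co.K3U.FarB
import Pool.Agent.Lib.MP_b2bfca_co.K3U.AsmC

/-!
# The inequality for packings with all degrees at least three

PROOF. Choose `M` (finite `ι`) and apply `limit_ineq` to `fc c (4 * M)`, `fr r` with `I0` = image of
`Sum.inl`: `hI` by `far_dg`, `hI'` by `far_tang` (a new ball is tangent to nothing), `hb` by `far_tang` and
`far_bdd`. `card (ι ⊕ (Fin 3 × Bool)) = n + 6`: `4π (n + 6) - 6 nu n`.
-/

set_option autoImplicit false

namespace Pool.Agent.Lib.MP_b2bfca_co.K3U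

open Classical in
theorem Far_dg_zero {α : Type} [Fintype α] {c : α → E3} {r : α → ℝ} {i : α}
    (h : ∀ j, j ≠ i → ¬ tang c r i j) : dg c r i = 0 := by
  unfold dg
  rw [Finset.card_eq_zero, Finset.filter_eq_empty_iff]
  rintro y - ⟨hxy, ht⟩
  exact h y hxy ht

theorem far_core {ι : Type} [Fintype ι] {c : ι → E3} {r : ι → ℝ} (hP : Pack c r)
    (hI : ∀ i, 3 ≤ dg c r i) :
    (Real.pi * mu - 3 * nu) * (DD c r : ℝ) ≤
      (4 * Real.pi - 6 * nu) * (Fintype.card ι : ℝ) + 24 * Real.pi := by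
  classical
  set M : ℝ := 1 + ∑ i, (‖c i‖ + r i + 1) with hMdef
  have hnn : ∀ i ∈ (Finset.univ : Finset ι), 0 ≤ ‖c i‖ + r i + 1 := fun i _ => by
    have := norm_nonneg (c i)
    have := hP.1 i
    linarith
  have h1 : 1 ≤ M := by
    have := Finset.sum_nonneg hnn
    rw [hMdef]; linarith
  have hM : ∀ i, ‖c i‖ + r i + 1 ≤ M := fun i => by
    have := Finset.single_le_sum hnn (Finset.mem_univ i)
    rw [hMdef]; linarith
  have key := limit_ineq (far_pack hP h1 hM) (Finset.univ.image (Sum.inl : ι → ι ⊕ (Fin 3 × Bool)))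
    (fun x hx => by
      obtain ⟨i, -, rfl⟩ := Finset.mem_image.1 hx
      rw [far_dg hP h1 hM]
      exact hI i)
    (fun x hx => by
      refine Far_dg_zero fun y hxy ht => ?_
      obtain ⟨i, j, rfl, rfl⟩ := far_tang hP h1 hM x y (Ne.symm hxy) ht
      exact hx (Finset.mem_image.2 ⟨i, Finset.mem_univ _, rfl⟩))
    (by
      filter_upwards [far_bdd hP h1 hM] with w hw x y hxy ht
      obtain ⟨i, j, rfl, rfl⟩ := far_tang hP h1 hM x y hxy ht
      exact hw i)
  rw [far_DD hP h1 hM, Finset.card_image_of_injective _ Sum.inl_injective, Finset.card_univ,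
    Fintype.card_sum, Fintype.card_prod, Fintype.card_fin, Fintype.card_bool] at key
  push_cast at key
  linarith

end Pool.Agent.Lib.MP_b2bfca_co.K3U
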