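import Pool.Agent.Lib.MP_b2bfca_co.K3U.LocG

/-!
# Six far balls: packing and tangencies

PROOF. New-new distances: `≥ √2 R = 4√2 M > 2`; new-old: `≥ R - ‖c i‖ ≥ 3 M + r i + 1 > r i + 1`
(strict, so never tangent). Old-old unchanged.
`far_DD`, `far_dg`: the tangent pairs are the images of the old ones under `Sum.inl`.
-/

set_option autoImplicit false

namespace Pool.Agent.Lib.MP_b2bfca_co.K3U

noncomputable section

variable {ι : Type}

/-- Centres with six far balls added. -/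
def fc (c : ι → E3) (R : ℝ) : ι ⊕ (Fin 3 × Bool) → E3 :=
  Sum.elim c fun p => EuclideanSpace.single p.1 (if p.2 then R else -R)

/-- Radii with six far balls added. -/
def fr (r : ι → ℝ) : ι ⊕ (Fin 3 × Bool) → ℝ := Sum.elim r fun _ => 1

theorem FarA_gap {c : ι → E3} {r : ι → ℝ} {M : ℝ} (h1 : 1 ≤ M)
    (hM : ∀ i, ‖c i‖ + r i + 1 ≤ M) (x y : ι ⊕ (Fin 3 × Bool)) (hxy : x ≠ y) :
    (∃ i j, x = Sum.inl i ∧ y = Sum.inl j) ∨
      fr r x + fr r y < dist (fc c (4 * M) x) (fc c (4 * M) y) := by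
  have hnorm : ∀ p : Fin 3 × Bool,
      ‖(EuclideanSpace.single p.1 (if p.2 then 4 * M else -(4 * M)) : E3)‖ = 4 * M := by
    intro p
    rw [EuclideanSpace.norm_single]
    split_ifs
    · rw [Real.norm_eq_abs, abs_of_pos (by linarith)]
    · rw [Real.norm_eq_abs, abs_neg, abs_of_pos (by linarith)]
  have hmix : ∀ (i : ι) (p : Fin 3 × Bool), r i + 1 <
      dist (c i) (EuclideanSpace.single p.1 (if p.2 then 4 * M else -(4 * M)) : E3) := by
    intro i p
    have h2 := norm_sub_norm_le (EuclideanSpace.single p.1 (if p.2 then 4 * M else -(4 * M)) : E3)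
      (c i)
    rw [hnorm, ← dist_eq_norm, dist_comm] at h2
    have h3 := hM i
    linarith
  rcases x with i | p <;> rcases y with j | q
  · exact Or.inl ⟨i, j, rfl, rfl⟩
  · exact Or.inr (hmix i q)
  · refine Or.inr ?_
    have := hmix j p
    rw [dist_comm, add_comm] at this
    exact this
  · refine Or.inr ?_
    change (1 : ℝ) + 1 < dist (EuclideanSpace.single p.1 (if p.2 then 4 * M else -(4 * M)) : E3)
      (EuclideanSpace.single q.1 (if q.2 then 4 * M else -(4 * M)) : E3)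
    rw [dist_eq_norm]
    have h2 := PiLp.norm_apply_le ((EuclideanSpace.single p.1 (if p.2 then 4 * M else -(4 * M)) : E3) -
      (EuclideanSpace.single q.1 (if q.2 then 4 * M else -(4 * M)) : E3)) p.1
    refine lt_of_lt_of_le ?_ h2
    rw [PiLp.sub_apply, EuclideanSpace.single_apply, EuclideanSpace.single_apply, if_pos rfl,
      Real.norm_eq_abs]
    by_cases hpq : p.1 = q.1
    · have hne : p.2 ≠ q.2 := fun h => hxy (by rw [Prod.ext hpq h])
      rw [if_pos hpq]
      rcases p with ⟨a, _ | _⟩ <;> rcases q with ⟨b, _ | _⟩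
      · exact absurd rfl hne
      · simp only [Bool.false_eq_true, if_false, if_true]
        rw [abs_of_neg (by linarith)]
        linarith
      · simp only [Bool.false_eq_true, if_false, if_true]
        rw [abs_of_pos (by linarith)]
        linarith
      · exact absurd rfl hne
    · rw [if_neg hpq, sub_zero]
      split_ifs
      · rw [abs_of_pos (by linarith)]
        linarith
      · rw [abs_neg, abs_of_pos (by linarith)]
        linarith

theorem far_pack {c : ι → E3} {r : ι → ℝ} (hP : Pack c r) {M : ℝ} (h1 : 1 ≤ M)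
    (hM : ∀ i, ‖c i‖ + r i + 1 ≤ M) : Pack (fc c (4 * M)) (fr r) := by
  constructor
  · rintro (i | p)
    · exact hP.1 i
    · exact one_pos
  · intro x y hxy
    rcases FarA_gap h1 hM x y hxy with ⟨i, j, rfl, rfl⟩ | h
    · exact hP.2 i j fun h => hxy (by rw [h])
    · exact h.le

theorem far_tang {c : ι → E3} {r : ι → ℝ} (hP : Pack c r) {M : ℝ} (h1 : 1 ≤ M)
    (hM : ∀ i, ‖c i‖ + r i + 1 ≤ M) (x y : ι ⊕ (Fin 3 × Bool)) (hxy : x ≠ y)
    (h : tang (fc c (4 * M)) (fr r) x y) : ∃ i j, x = Sum.inl i ∧ y = Sum.inl j := by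
  have _ := hP.1
  rcases FarA_gap h1 hM x y hxy with h2 | h2
  · exact h2
  · exact absurd h h2.ne'

theorem far_DD [Fintype ι] {c : ι → E3} {r : ι → ℝ} (hP : Pack c r) {M : ℝ} (h1 : 1 ≤ M)
    (hM : ∀ i, ‖c i‖ + r i + 1 ≤ M) : DD (fc c (4 * M)) (fr r) = DD c r := by
  classical
  unfold DD
  have hinj : Function.Injective (Prod.map (Sum.inl : ι → ι ⊕ (Fin 3 × Bool))
      (Sum.inl : ι → ι ⊕ (Fin 3 × Bool))) := Sum.inl_injective.prodMap Sum.inl_injective
  rw [← Finset.card_image_of_injective _ hinj]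
  congr 1
  ext ⟨x, y⟩
  simp only [Finset.mem_filter, Finset.mem_univ, true_and, Finset.mem_image, Prod.exists,
    Prod.map_apply, Prod.mk.injEq]
  constructor
  · rintro ⟨hxy, ht⟩
    obtain ⟨i, j, rfl, rfl⟩ := far_tang hP h1 hM x y hxy ht
    exact ⟨i, j, ⟨fun h => hxy (by rw [h]), ht⟩, rfl, rfl⟩
  · rintro ⟨i, j, ⟨hij, ht⟩, rfl, rfl⟩
    exact ⟨fun h => hij (Sum.inl_injective h), ht⟩

theorem far_dg [Fintype ι] {c : ι → E3} {r : ι → ℝ} (hP : Pack c r) {M : ℝ} (h1 : 1 ≤ M)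
    (hM : ∀ i, ‖c i‖ + r i + 1 ≤ M) (i : ι) :
    dg (fc c (4 * M)) (fr r) (Sum.inl i) = dg c r i := by
  classical
  unfold dg
  rw [← Finset.card_image_of_injective _ (Sum.inl_injective (α := ι) (β := Fin 3 × Bool))]
  congr 1
  ext y
  simp only [Finset.mem_filter, Finset.mem_univ, true_and, Finset.mem_image]
  constructor
  · rintro ⟨hxy, ht⟩
    obtain ⟨i', j, h, rfl⟩ := far_tang hP h1 hM (Sum.inl i) y (Ne.symm hxy) ht
    exact ⟨j, ⟨fun h => hxy (by rw [h]), ht⟩, rfl⟩
  · rintro ⟨j, ⟨hij, ht⟩, rfl⟩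
    exact ⟨fun h => hij (Sum.inl_injective h), ht⟩

end

end Pool.Agent.Lib.MP_b2bfca_co.K3U
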