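import Pool.Agent.Lib.MP_b2bfca_co.K3U.FarA

/-!
# Six far balls: the old cells are bounded

PROOF. For every `w` with `|w l - (fr r l)^2| ≤ 1` for all `l` (a neighbourhood). Let `y` be in the cell of
`inl i`, `v = y - c i`, `k` a coordinate with `|v k| ≥ ‖v‖/√3` (`EuclideanSpace.norm_eq`), sign `s` with
`inner v (s e_k) = |v k|`, `f = s R e_k`, `R = 4 M`. `pw (inl i) y ≤ pw (inr (k, s)) y` gives
`2 inner v (f - c i) ≤ ‖f - c i‖^2 + w (inl i) - w (inr (k,s)) ≤ (R + M)^2 + (r i)^2 + 2`. The left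
side is `≥ 2 ‖v‖ (R/√3 - M) ≥ 2 ‖v‖ M` as `4/√3 ≥ 2`. So `‖v‖` is bounded.
-/

set_option autoImplicit false

namespace Pool.Agent.Lib.MP_b2bfca_co.K3U

open Topology Filter

theorem FarB_coord (v : E3) : ∃ k, ‖v‖ / 2 ≤ |v k| := by
  by_contra h
  push Not at h
  have h1 : ∀ k, v k ^ 2 ≤ ‖v‖ ^ 2 / 4 := by
    intro k
    have h2 := h k
    have h3 : |v k| ^ 2 ≤ (‖v‖ / 2) ^ 2 := pow_le_pow_left₀ (abs_nonneg _) h2.le 2
    rw [sq_abs] at h3
    linarith
  have h2 : ‖v‖ ^ 2 = ∑ k, v k ^ 2 := EuclideanSpace.real_norm_sq_eq v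
  rw [Fin.sum_univ_three] at h2
  have h3 := h1 0
  have h4 := h1 1
  have h5 := h1 2
  have h6 : ‖v‖ ^ 2 ≤ 0 := by linarith
  have h7 : ‖v‖ = 0 := by
    have := sq_nonneg ‖v‖
    exact pow_eq_zero_iff (two_ne_zero) |>.1 (le_antisymm h6 this)
  have h8 := h 0
  rw [h7] at h8
  have h9 := abs_nonneg (v 0)
  linarith

theorem far_bdd {ι : Type} [Fintype ι] {c : ι → E3} {r : ι → ℝ} (hP : Pack c r) {M : ℝ}
    (h1 : 1 ≤ M) (hM : ∀ i, ‖c i‖ + r i + 1 ≤ M) :
    ∀ᶠ w in 𝓝 (fun l => fr r l ^ 2), ∀ i : ι,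
      Bornology.IsBounded (cell (fc c (4 * M)) w (Sum.inl i)) := by
  have hev : ∀ᶠ w : (ι ⊕ (Fin 3 × Bool)) → ℝ in 𝓝 (fun l => fr r l ^ 2),
      ∀ l, |w l - fr r l ^ 2| < 1 := by
    rw [Filter.eventually_all]
    intro l
    have hc : Filter.Tendsto (fun w : (ι ⊕ (Fin 3 × Bool)) → ℝ => w l)
        (𝓝 (fun l => fr r l ^ 2)) (𝓝 (fr r l ^ 2)) :=
      (continuous_apply l).tendsto _
    have := hc.eventually (Metric.ball_mem_nhds _ one_pos)
    filter_upwards [this] with w hw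
    rwa [Real.dist_eq] at hw
  filter_upwards [hev] with w hw i
  refine (Metric.isBounded_closedBall (x := c i) (r := 14 * M)).subset fun y hy => ?_
  rw [Metric.mem_closedBall, dist_eq_norm]
  set v := y - c i with hv
  obtain ⟨k, hk⟩ := FarB_coord v
  set s : Bool := decide (0 ≤ v k) with hs
  set f : E3 := EuclideanSpace.single k (if s then 4 * M else -(4 * M)) with hf
  have hcell := hy (Sum.inr (k, s))
  have e1 : pw (fc c (4 * M)) w (Sum.inl i) y = ‖v‖ ^ 2 - w (Sum.inl i) := rfl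
  have e2 : pw (fc c (4 * M)) w (Sum.inr (k, s)) y = ‖y - f‖ ^ 2 - w (Sum.inr (k, s)) := rfl
  rw [e1, e2] at hcell
  have e3 : y - f = v - (f - c i) := by
    rw [hv]; abel
  rw [e3, norm_sub_sq_real v (f - c i)] at hcell
  have hfn : ‖f‖ = 4 * M := by
    rw [hf, EuclideanSpace.norm_single]
    split_ifs
    · rw [Real.norm_eq_abs, abs_of_pos (by linarith)]
    · rw [Real.norm_eq_abs, abs_neg, abs_of_pos (by linarith)]
  have hin : inner ℝ v f = 4 * M * |v k| := by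
    rw [hf, EuclideanSpace.inner_single_right]
    by_cases h0 : 0 ≤ v k
    · have : s = true := by rw [hs]; simpa using h0
      rw [this, abs_of_nonneg h0]
      simp
    · have : s = false := by rw [hs]; simpa using h0
      rw [this, abs_of_neg (not_le.1 h0)]
      simp
  have hrM : r i ≤ M := by
    have := hM i
    have := norm_nonneg (c i)
    linarith
  have hcM : ‖c i‖ ≤ M := by
    have := hM i
    have := hP.1 i
    linarith
  have hr0 := hP.1 i
  have hw1 := hw (Sum.inl i)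
  have hw2 := hw (Sum.inr (k, s))
  have e4 : fr r (Sum.inl i) = r i := rfl
  have e5 : fr r (Sum.inr (k, s)) = 1 := rfl
  rw [e4, abs_lt] at hw1
  rw [e5, abs_lt] at hw2
  have hr2 : r i ^ 2 ≤ M ^ 2 := pow_le_pow_left₀ hr0.le hrM 2
  have hM2 : 1 ≤ M ^ 2 := one_le_pow₀ h1
  have hfc : ‖f - c i‖ ≤ 5 * M := by
    have := norm_sub_le f (c i)
    rw [hfn] at this
    linarith
  have hfc2 : ‖f - c i‖ ^ 2 ≤ (5 * M) ^ 2 := pow_le_pow_left₀ (norm_nonneg _) hfc 2
  have hin2 : inner ℝ v (c i) ≤ ‖v‖ * M :=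
    (real_inner_le_norm v (c i)).trans (mul_le_mul_of_nonneg_left hcM (norm_nonneg _))
  rw [inner_sub_right, hin] at hcell
  have h5 : 2 * M * ‖v‖ ≤ 4 * M * |v k| := by
    have : 4 * M * (‖v‖ / 2) ≤ 4 * M * |v k| := mul_le_mul_of_nonneg_left hk (by linarith)
    linarith
  have h6 : M * (2 * ‖v‖) ≤ M * (28 * M) := by
    nlinarith
  have h7 := le_of_mul_le_mul_left h6 (by linarith : (0 : ℝ) < M)
  linarith

end Pool.Agent.Lib.MP_b2bfca_co.K3U
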