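import Mathlib

/-!
# Numerical value

`kap_lt`: `3 th/(3 th - π) < 6.6987` iff `6.6987 π < 5.6987 * 3 th`, i.e.
`th > 1.23095834`; `th = 1.23095941...`. Use `arcsin (1/3) < 0.3398375` (`sin 0.3398375 > 1/3`, true value
`arcsin (1/3) = 0.33983690...`) and `3.1415926 < π < 3.1415927`.
-/

set_option autoImplicit false

namespace Pool.Agent.Lib.MP_b2bfca_co.K3U

theorem NumK_mono {f f' : ℝ → ℝ} (hd : ∀ x, HasDerivAt f (f' x) x) (h0 : f 0 = 0)
    (hp : ∀ x, 0 ≤ x → 0 ≤ f' x) {x : ℝ} (hx : 0 ≤ x) : 0 ≤ f x := by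
  have hm : MonotoneOn f (Set.Ici 0) := by
    apply monotoneOn_of_deriv_nonneg (convex_Ici _)
      (fun y _ => (hd y).continuousAt.continuousWithinAt)
      (fun y _ => (hd y).differentiableAt.differentiableWithinAt)
    rw [interior_Ici]
    intro y hy
    rw [(hd y).deriv]
    exact hp y (le_of_lt hy)
  rw [← h0]
  exact hm (Set.mem_Ici.2 le_rfl) (Set.mem_Ici.2 hx) hx

theorem NumK_odd (a b c d x : ℝ) : HasDerivAt (fun x => a * x + b * x ^ 3 + c * x ^ 5 + d * x ^ 7)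
    (a + b * (3 * x ^ 2) + c * (5 * x ^ 4) + d * (7 * x ^ 6)) x := by
  have h1 : HasDerivAt (fun x : ℝ => a * x) a x := by
    simpa using (hasDerivAt_id x).const_mul a
  have h3 : HasDerivAt (fun x : ℝ => b * x ^ 3) (b * (3 * x ^ 2)) x := by
    simpa using (hasDerivAt_pow 3 x).const_mul b
  have h5 : HasDerivAt (fun x : ℝ => c * x ^ 5) (c * (5 * x ^ 4)) x := by
    simpa using (hasDerivAt_pow 5 x).const_mul c
  have h7 : HasDerivAt (fun x : ℝ => d * x ^ 7) (d * (7 * x ^ 6)) x := by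
    simpa using (hasDerivAt_pow 7 x).const_mul d
  exact ((h1.add h3).add h5).add h7

theorem NumK_even (a b c d x : ℝ) : HasDerivAt (fun x => a + b * x ^ 2 + c * x ^ 4 + d * x ^ 6)
    (b * (2 * x) + c * (4 * x ^ 3) + d * (6 * x ^ 5)) x := by
  have h1 : HasDerivAt (fun _ : ℝ => a) 0 x := hasDerivAt_const x a
  have h3 : HasDerivAt (fun x : ℝ => b * x ^ 2) (b * (2 * x)) x := by
    simpa using (hasDerivAt_pow 2 x).const_mul b
  have h5 : HasDerivAt (fun x : ℝ => c * x ^ 4) (c * (4 * x ^ 3)) x := by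
    simpa using (hasDerivAt_pow 4 x).const_mul c
  have h7 : HasDerivAt (fun x : ℝ => d * x ^ 6) (d * (6 * x ^ 5)) x := by
    simpa using (hasDerivAt_pow 6 x).const_mul d
  have := ((h1.add h3).add h5).add h7
  rw [zero_add] at this
  exact this

theorem NumK_s3 {x : ℝ} (hx : 0 ≤ x) :
    0 ≤ Real.sin x - (1 * x + (-1 / 6) * x ^ 3 + 0 * x ^ 5 + 0 * x ^ 7) := by
  apply NumK_mono (fun x => (Real.hasDerivAt_sin x).sub (NumK_odd 1 (-1 / 6) 0 0 x)) _ _ hx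
  · simp
  · intro y hy
    have := Real.one_sub_sq_div_two_le_cos (x := y)
    linarith

theorem NumK_s4 {x : ℝ} (hx : 0 ≤ x) :
    0 ≤ (1 + (-1 / 2) * x ^ 2 + (1 / 24) * x ^ 4 + 0 * x ^ 6) - Real.cos x := by
  apply NumK_mono (fun x => (NumK_even 1 (-1 / 2) (1 / 24) 0 x).sub (Real.hasDerivAt_cos x)) _ _ hx
  · simp
  · intro y hy
    have := NumK_s3 hy
    linarith

theorem NumK_s5 {x : ℝ} (hx : 0 ≤ x) :
    0 ≤ (1 * x + (-1 / 6) * x ^ 3 + (1 / 120) * x ^ 5 + 0 * x ^ 7) - Real.sin x := by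
  apply NumK_mono (fun x => (NumK_odd 1 (-1 / 6) (1 / 120) 0 x).sub (Real.hasDerivAt_sin x)) _ _ hx
  · simp
  · intro y hy
    have := NumK_s4 hy
    linarith

theorem NumK_s6 {x : ℝ} (hx : 0 ≤ x) :
    0 ≤ Real.cos x - (1 + (-1 / 2) * x ^ 2 + (1 / 24) * x ^ 4 + (-1 / 720) * x ^ 6) := by
  apply NumK_mono
    (fun x => (Real.hasDerivAt_cos x).sub (NumK_even 1 (-1 / 2) (1 / 24) (-1 / 720) x)) _ _ hx
  · simp
  · intro y hy
    have := NumK_s5 hy
    linarith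

theorem NumK_s7 {x : ℝ} (hx : 0 ≤ x) :
    0 ≤ Real.sin x - (1 * x + (-1 / 6) * x ^ 3 + (1 / 120) * x ^ 5 + (-1 / 5040) * x ^ 7) := by
  apply NumK_mono
    (fun x => (Real.hasDerivAt_sin x).sub (NumK_odd 1 (-1 / 6) (1 / 120) (-1 / 5040) x)) _ _ hx
  · simp
  · intro y hy
    have := NumK_s6 hy
    linarith

theorem NumK_asin : Real.arcsin (1 / 3) < 0.3398375 := by
  have h1 := NumK_s7 (x := 0.3398375) (by norm_num)
  have h2 : (1 : ℝ) / 3 < 1 * 0.3398375 + (-1 / 6) * 0.3398375 ^ 3 + (1 / 120) * 0.3398375 ^ 5 +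
      (-1 / 5040) * 0.3398375 ^ 7 := by norm_num
  rw [Real.arcsin_lt_iff_lt_sin' ⟨by linarith [Real.pi_gt_three], by linarith [Real.pi_gt_three]⟩]
  linarith

theorem kap_lt : 3 * Real.arccos (1 / 3) / (3 * Real.arccos (1 / 3) - Real.pi) < 6.6987 := by
  have h1 := NumK_asin
  have h2 : Real.arccos (1 / 3) = Real.pi / 2 - Real.arcsin (1 / 3) := rfl
  have h3 := Real.pi_gt_d6
  rw [h2]
  have hpos : 0 < 3 * (Real.pi / 2 - Real.arcsin (1 / 3)) - Real.pi := by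
    norm_num at h1 h3 ⊢
    linarith
  rw [div_lt_iff₀ hpos]
  norm_num at h1 h3 ⊢
  linarith

end Pool.Agent.Lib.MP_b2bfca_co.K3U
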