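import Pool.Agent.Lib.MP_b2bfca_co.K3U.GeoC

/-!
# Geometry of a triple of disjoint balls

PROOFS.
* `tri_P0`: with `q` the point of `qq_perm` (`ι = Fin 3`, `v = id`), `P0 = pw c w 0 q`; for all `σ`:
  `de^2 + dd^2 = ‖q - c (σ 0)‖^2 = pw c w (σ 0) q + w (σ 0)` (`dist_axis` with `h = 0`, `exists_third`;
  or directly) and `pw c w a q` does not depend on `a` (`axis_iff`).
* `de_ge`: `de - r i = ((L - r i)^2 - (r j)^2)/(2L) ≥ 0`, `L = dist (c i) (c j) ≥ r i + r j`;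
  zero iff `L = r i + r j`.
* `tri_rho`: `w a = (r a)^2`. If `P0 ≤ 0` then `de^2 + dd^2 ≤ r^2 ≤ de^2` forces `dd = 0`, `de = r` for all
  `σ`; then `0 = dd = (de a c - cs * de a b)/sn = r a (1 - cs)/sn`, so `cs = 1`, `sn = 0`, contradiction.
  `ρ = √P0`. `|dd| ≤ ρ` from `de ≥ r`. If `tang` then `de = r`, `dd^2 = ρ^2`, and
  `dd = (de a c - cs * r a)/sn ≥ r a (1 - cs)/sn > 0`, so `dd = ρ`.
* `cs_lt_one`: `cs^2 < 1` from `sn ≠ 0`.
-/

set_option autoImplicit false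

namespace Pool.Agent.Lib.MP_b2bfca_co.K3U

variable {ι : Type}

theorem cs_lt_one {c : ι → E3} {i j k : ι} (hs : sn c i j k ≠ 0) : cs c i j k ^ 2 < 1 := by
  by_contra h
  push Not at h
  apply hs
  unfold sn
  exact Real.sqrt_eq_zero_of_nonpos (by linarith)

theorem tri_P0 (c : Fin 3 → E3) (w : Fin 3 → ℝ) (hc : Function.Injective c)
    (hs : sn c 0 1 2 ≠ 0) :
    ∃ P0 : ℝ, ∀ σ : Equiv.Perm (Fin 3),
      de c w (σ 0) (σ 1) ^ 2 + dd c w (σ 0) (σ 1) (σ 2) ^ 2 = w (σ 0) + P0 := by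
  set q : E3 := tp c w 0 1 + dd c w 0 1 2 • mv c 0 1 2 with hq
  have hne : ∀ a b : Fin 3, a ≠ b → c a ≠ c b := fun a b hab h => hab (hc h)
  refine ⟨pw c w 0 q, fun σ => ?_⟩
  have hσ : ∀ a b : Fin 3, a ≠ b → σ a ≠ σ b := fun a b hab h => hab (σ.injective h)
  have hsσ := sn_perm c hc id Function.injective_id hs σ
  have hqσ := qq_perm c w hc id Function.injective_id hs σ
  simp only [id_eq] at hsσ hqσ
  rw [← hq] at hqσ
  have h01 := hne _ _ (hσ 0 1 (by decide))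
  have h02 := hne _ _ (hσ 0 2 (by decide))
  obtain ⟨n, hn⟩ := exists_third (ev c (σ 0) (σ 1)) (mv c (σ 0) (σ 1) (σ 2)) (norm_ev c h01)
    (norm_mv c h01 h02 hsσ) (inner_ev_mv c h01)
  have hd := (dist_axis c w hn 0).1
  rw [zero_smul, add_zero, hqσ] at hd
  have hpw := (axis_iff c w h01 h02 hsσ hn q).2 ⟨0, by rw [zero_smul, add_zero, hqσ]⟩
  have e1 : ∀ a b : Fin 3, pw c w a q = pw c w b q := by
    have key : ∀ a : Fin 3, pw c w (σ 0) q = pw c w a q := by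
      intro a
      obtain ⟨b, rfl⟩ := σ.surjective a
      fin_cases b
      · rfl
      · exact hpw.1
      · exact hpw.2
    intro a b
    rw [← key a, ← key b]
  have e2 := e1 0 (σ 0)
  rw [e2]
  unfold pw
  rw [hd]
  ring

theorem Pack_inj {c : ι → E3} {r : ι → ℝ} (hP : Pack c r) : Function.Injective c := by
  intro i j hij
  by_contra hne
  have h1 := hP.2 i j hne
  rw [hij, dist_self] at h1
  have := hP.1 i
  have := hP.1 j
  linarith

theorem de_ge {c : ι → E3} {r : ι → ℝ} (hP : Pack c r) {i j : ι} (hij : i ≠ j) :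
    r i ≤ de c (fun a => r a ^ 2) i j ∧
      (de c (fun a => r a ^ 2) i j = r i ↔ tang c r i j) := by
  have h1 := hP.2 i j hij
  have hi := hP.1 i
  have hj := hP.1 j
  have hL : dist (c i) (c j) = ‖c j - c i‖ := by rw [dist_comm, dist_eq_norm]
  rw [hL] at h1
  have hL0 : 0 < ‖c j - c i‖ := by linarith
  have e1 : de c (fun a => r a ^ 2) i j - r i =
      ((‖c j - c i‖ - r i - r j) * (‖c j - c i‖ - r i + r j)) / (2 * ‖c j - c i‖) := by
    unfold de
    field_simp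
    ring
  constructor
  · have : 0 ≤ ((‖c j - c i‖ - r i - r j) * (‖c j - c i‖ - r i + r j)) / (2 * ‖c j - c i‖) := by
      apply div_nonneg _ (by positivity)
      apply mul_nonneg <;> linarith
    linarith
  · unfold tang
    rw [hL]
    constructor
    · intro h
      rw [h, sub_self, eq_comm, div_eq_zero_iff] at e1
      rcases e1 with e1 | e1
      · rcases mul_eq_zero.1 e1 with e2 | e2 <;> linarith
      · linarith
    · intro h
      have : ‖c j - c i‖ - r i - r j = 0 := by linarith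
      rw [this, zero_mul, zero_div] at e1
      linarith

theorem tri_rho {c : Fin 3 → E3} {r : Fin 3 → ℝ} (hP : Pack c r) (hs : sn c 0 1 2 ≠ 0) :
    ∃ ρ : ℝ, 0 < ρ ∧ ∀ σ : Equiv.Perm (Fin 3),
      de c (fun a => r a ^ 2) (σ 0) (σ 1) ^ 2 +
        dd c (fun a => r a ^ 2) (σ 0) (σ 1) (σ 2) ^ 2 = r (σ 0) ^ 2 + ρ ^ 2 ∧
      |dd c (fun a => r a ^ 2) (σ 0) (σ 1) (σ 2)| ≤ ρ ∧
      (tang c r (σ 0) (σ 1) → dd c (fun a => r a ^ 2) (σ 0) (σ 1) (σ 2) = ρ) := by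
  have hc := Pack_inj hP
  obtain ⟨P0, hP0⟩ := tri_P0 c (fun a => r a ^ 2) hc hs
  have hσne : ∀ (σ : Equiv.Perm (Fin 3)) (a b : Fin 3), a ≠ b → σ a ≠ σ b :=
    fun σ a b hab h => hab (σ.injective h)
  have hsσ : ∀ σ : Equiv.Perm (Fin 3), sn c (σ 0) (σ 1) (σ 2) ≠ 0 :=
    fun σ => sn_perm c hc id Function.injective_id hs σ
  -- positivity of dd for a tangent pair
  have hpos : ∀ σ : Equiv.Perm (Fin 3), tang c r (σ 0) (σ 1) →
      0 < dd c (fun a => r a ^ 2) (σ 0) (σ 1) (σ 2) := by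
    intro σ ht
    have h1 := (de_ge hP (hσne σ 0 1 (by decide))).2.2 ht
    have h2 := (de_ge hP (hσne σ 0 2 (by decide))).1
    have h3 := cs_lt_one (hsσ σ)
    have h4 : 0 < sn c (σ 0) (σ 1) (σ 2) :=
      lt_of_le_of_ne (Real.sqrt_nonneg _) (Ne.symm (hsσ σ))
    have h5 : cs c (σ 0) (σ 1) (σ 2) < 1 := by nlinarith [sq_nonneg (cs c (σ 0) (σ 1) (σ 2) - 1)]
    unfold dd
    apply div_pos _ h4
    rw [h1]
    have := hP.1 (σ 0)
    nlinarith
  have hP0pos : 0 < P0 := by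
    by_contra hcon
    push Not at hcon
    have h1 := hP0 1
    have h2 := (de_ge hP (hσne 1 0 1 (by decide))).1
    have h2' := hP.1 ((1 : Equiv.Perm (Fin 3)) 0)
    have h3 : tang c r ((1 : Equiv.Perm (Fin 3)) 0) ((1 : Equiv.Perm (Fin 3)) 1) := by
      apply (de_ge hP (hσne 1 0 1 (by decide))).2.1
      nlinarith [sq_nonneg (dd c (fun a => r a ^ 2) ((1 : Equiv.Perm (Fin 3)) 0)
        ((1 : Equiv.Perm (Fin 3)) 1) ((1 : Equiv.Perm (Fin 3)) 2))]
    have h4 := hpos 1 h3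
    have h5 := (de_ge hP (hσne 1 0 1 (by decide))).2.2 h3
    rw [h5] at h1
    nlinarith
  refine ⟨Real.sqrt P0, Real.sqrt_pos.2 hP0pos, fun σ => ?_⟩
  have hsq : Real.sqrt P0 ^ 2 = P0 := Real.sq_sqrt hP0pos.le
  have h1 := hP0 σ
  have h2 := (de_ge hP (hσne σ 0 1 (by decide))).1
  have h2' := hP.1 (σ 0)
  have habs : |dd c (fun a => r a ^ 2) (σ 0) (σ 1) (σ 2)| ≤ Real.sqrt P0 := by
    apply Real.abs_le_sqrt
    nlinarith
  refine ⟨?_, habs, ?_⟩
  · rw [hsq]; exact h1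
  · intro ht
    have h3 := (de_ge hP (hσne σ 0 1 (by decide))).2.2 ht
    have h4 := hpos σ ht
    rw [h3] at h1
    have h5 : dd c (fun a => r a ^ 2) (σ 0) (σ 1) (σ 2) ^ 2 = P0 := by linarith
    rw [← h5, Real.sqrt_sq h4.le]

end Pool.Agent.Lib.MP_b2bfca_co.K3U
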