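import Pool.Agent.Lib.MP_b2bfca_co.K3U.Num
import Pool.Agent.Lib.MP_b2bfca_co.K3U.LocG

/-!
# Removing balls of small degree

PROOF of `rem_all`. Induction on `Fintype.card ι`. If all degrees are at least `3`: `hcore`.
Otherwise some `i` has `dg i ≤ 2`; restrict to `{x // x ≠ i}` (card smaller by one; still a
`Pack`): `DD ≤ DD' + 2 dg i ≤ DD' + 4` (ordered tangent pairs with both entries `≠ i`, plus those
with first or second entry `i`). Induction and `const_c`; `0 ≤ π mu - 3 nu` by `const_a`, `th_gt`.
Empty `ι`: `DD = 0` (all degrees are at least `3` vacuously, so `hcore` covers it).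
-/

set_option autoImplicit false

namespace Pool.Agent.Lib.MP_b2bfca_co.K3U

theorem Rem_tang_symm {ι : Type} (c : ι → E3) (r : ι → ℝ) {i j : ι} (h : tang c r i j) :
    tang c r j i := by
  unfold tang at *
  rw [dist_comm, h, add_comm]

theorem DD_remove {ι : Type} [Fintype ι] (c : ι → E3) (r : ι → ℝ) (i : ι) [Fintype {x // x ≠ i}] :
    DD c r ≤ DD (fun x : {x // x ≠ i} => c x) (fun x => r x) + 2 * dg c r i := by
  classical
  unfold DD dg
  set A : Finset ({x // x ≠ i} × {x // x ≠ i}) := Finset.univ.filter
    (fun p => p.1 ≠ p.2 ∧ tang (fun x : {x // x ≠ i} => c x) (fun x => r x) p.1 p.2) with hA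
  set B : Finset ι := Finset.univ.filter (fun j : ι => j ≠ i ∧ tang c r i j) with hB
  have hsub : (Finset.univ.filter fun p : ι × ι => p.1 ≠ p.2 ∧ tang c r p.1 p.2) ⊆
      (A.image (fun p => ((p.1 : ι), (p.2 : ι)))) ∪
        (B.image (fun j => (i, j)) ∪ B.image (fun j => (j, i))) := by
    intro p hp
    obtain ⟨a, b⟩ := p
    simp only [Finset.mem_filter, Finset.mem_univ, true_and] at hp
    obtain ⟨hne, ht⟩ := hp
    simp only [Finset.mem_union, Finset.mem_image]
    by_cases ha : a = i
    · subst ha
      right; left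
      exact ⟨b, by simp only [hB, Finset.mem_filter, Finset.mem_univ, true_and]
                   exact ⟨fun h => hne h.symm, ht⟩, rfl⟩
    · by_cases hb : b = i
      · subst hb
        right; right
        exact ⟨a, by simp only [hB, Finset.mem_filter, Finset.mem_univ, true_and]
                     exact ⟨hne, Rem_tang_symm c r ht⟩, rfl⟩
      · left
        refine ⟨(⟨a, ha⟩, ⟨b, hb⟩), ?_, rfl⟩
        simp only [hA, Finset.mem_filter, Finset.mem_univ, true_and]
        exact ⟨fun h => hne (congrArg Subtype.val h), ht⟩
  have h1 := Finset.card_le_card hsub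
  have h2 := Finset.card_union_le (A.image (fun p => ((p.1 : ι), (p.2 : ι))))
    (B.image (fun j => (i, j)) ∪ B.image (fun j => (j, i)))
  have h3 := Finset.card_union_le (B.image (fun j => (i, j))) (B.image (fun j => (j, i)))
  have h4 := Finset.card_image_le (s := A) (f := fun p => ((p.1 : ι), (p.2 : ι)))
  have h5 := Finset.card_image_le (s := B) (f := fun j => (i, j))
  have h6 := Finset.card_image_le (s := B) (f := fun j => (j, i))
  have key : (Finset.univ.filter fun p : ι × ι => p.1 ≠ p.2 ∧ tang c r p.1 p.2).card
      ≤ A.card + 2 * B.card := by omega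
  convert key using 2
  rw [hA]
  congr!

theorem rem_all
    (hcore : ∀ (ι : Type) [Fintype ι] (c : ι → E3) (r : ι → ℝ), Pack c r →
      (∀ i, 3 ≤ dg c r i) → (Real.pi * mu - 3 * nu) * (DD c r : ℝ) ≤
        (4 * Real.pi - 6 * nu) * (Fintype.card ι : ℝ) + 24 * Real.pi)
    {ι : Type} [Fintype ι] {c : ι → E3} {r : ι → ℝ} (hP : Pack c r) :
    (Real.pi * mu - 3 * nu) * (DD c r : ℝ) ≤
      (4 * Real.pi - 6 * nu) * (Fintype.card ι : ℝ) + 24 * Real.pi := by
  classical
  have h0 : 0 ≤ Real.pi * mu - 3 * nu := by
    rw [const_a]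
    have := th_gt
    have h6 := Real.sqrt_nonneg 6
    exact mul_nonneg (by linarith) (by linarith)
  have main : ∀ n : ℕ, ∀ (ι : Type) [Fintype ι] (c : ι → E3) (r : ι → ℝ), Fintype.card ι = n →
      Pack c r → (Real.pi * mu - 3 * nu) * (DD c r : ℝ) ≤
      (4 * Real.pi - 6 * nu) * (Fintype.card ι : ℝ) + 24 * Real.pi := by
    intro n
    induction n with
    | zero =>
      intro ι _ c r hn hP
      have : IsEmpty ι := Fintype.card_eq_zero_iff.mp hn
      exact hcore ι c r hP (fun i => (this.false i).elim)
    | succ n ih =>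
      intro ι _ c r hn hP
      by_cases hall : ∀ i, 3 ≤ dg c r i
      · exact hcore ι c r hP hall
      · push Not at hall
        obtain ⟨i, hi⟩ := hall
        have hcard : Fintype.card {x // x ≠ i} = n := by
          have := Fintype.card_subtype_compl (fun x => x = i)
          simp only [Fintype.card_unique] at this
          rw [hn] at this
          simpa using this
        have hP' : Pack (fun x : {x // x ≠ i} => c x) (fun x => r x) := by
          refine ⟨fun x => hP.1 x, fun a b hab => hP.2 a b (fun h => hab (Subtype.ext h))⟩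
        have h1 := ih {x // x ≠ i} (fun x => c x) (fun x => r x) hcard hP'
        rw [hcard] at h1
        have h2 := DD_remove c r i
        have h3 : (DD c r : ℝ) ≤
            (DD (fun x : {x // x ≠ i} => c x) (fun x => r x) : ℝ) + 4 := by
          have : DD c r ≤ DD (fun x : {x // x ≠ i} => c x) (fun x => r x) + 4 := by omega
          exact_mod_cast this
        have h4 := mul_le_mul_of_nonneg_left h3 h0
        have h5 := const_c
        rw [hn]
        push_cast
        nlinarith [h4, h5, h1]
  exact main _ ι c r rfl hP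

end Pool.Agent.Lib.MP_b2bfca_co.K3U
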