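import Pool.Agent.Lib.MP_b2bfca_co.Kappa
import Pool.Agent.Lib.MP_b2bfca_co.K3U.Far
import Pool.Agent.Lib.MP_b2bfca_co.K3U.Rem
import Pool.Agent.Lib.MP_b2bfca_co.K3U.Copy
import Pool.Agent.Lib.MP_b2bfca_co.K3U.NumK

/-!
# The upper bound for `kappa 3`

PROOF. `IsPacking c r` is `Pack c r`; `DD c r = 2 * edges c r` (each unordered tangent pair gives two
ordered ones). `all_bound` from `far_core`, `rem_all`, `copy_all`. With `const_a`, `const_b`:
`2√6 (th - π/3) * 2 * edges ≤ 4√6 th * n`, so `edges ≤ n * 3 th/(3 th - π)`. Then `E ≤ n * A` and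
`kappa 3 ≤ A` as in `E_le`, `kappa_le` of `Kappa.lean`.
-/

set_option autoImplicit false

namespace Pool.Agent.Lib.MP_b2bfca_co.K3U

theorem all_bound {ι : Type} [Fintype ι] {c : ι → E3} {r : ι → ℝ} (hP : Pack c r) :
    (Real.pi * mu - 3 * nu) * (DD c r : ℝ) ≤ (4 * Real.pi - 6 * nu) * (Fintype.card ι : ℝ) := by
  have h0 : 0 ≤ Real.pi * mu - 3 * nu := by
    rw [const_a]
    have := th_gt
    have h6 := Real.sqrt_nonneg 6
    exact mul_nonneg (by linarith) (by linarith)
  refine copy_all (γ := 24 * Real.pi) h0 ?_ hP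
  intro ι _ c r hP
  exact rem_all (fun ι _ c r hP hI => far_core hP hI) hP

theorem DD_eq {n : ℕ} (c : Fin n → E3) (r : Fin n → ℝ) : DD c r = 2 * edges c r := by
  classical
  have h1 : (Finset.univ.filter fun p : Fin n × Fin n => p.1 ≠ p.2 ∧ tang c r p.1 p.2) =
      (Finset.univ.filter fun p : Fin n × Fin n => p.1 < p.2 ∧ dist (c p.1) (c p.2) = r p.1 + r p.2) ∪
      (Finset.univ.filter fun p : Fin n × Fin n =>
        p.2 < p.1 ∧ dist (c p.1) (c p.2) = r p.1 + r p.2) := by
    ext p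
    simp only [Finset.mem_filter, Finset.mem_univ, true_and, Finset.mem_union, tang]
    constructor
    · rintro ⟨h, ht⟩
      rcases lt_or_gt_of_ne h with h | h
      · exact Or.inl ⟨h, ht⟩
      · exact Or.inr ⟨h, ht⟩
    · rintro (⟨h, ht⟩ | ⟨h, ht⟩)
      · exact ⟨h.ne, ht⟩
      · exact ⟨h.ne', ht⟩
  have h2 : Disjoint (Finset.univ.filter fun p : Fin n × Fin n =>
        p.1 < p.2 ∧ dist (c p.1) (c p.2) = r p.1 + r p.2)
      (Finset.univ.filter fun p : Fin n × Fin n =>
        p.2 < p.1 ∧ dist (c p.1) (c p.2) = r p.1 + r p.2) := by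
    rw [Finset.disjoint_left]
    intro p hp hq
    have a := (Finset.mem_filter.1 hp).2.1
    have b := (Finset.mem_filter.1 hq).2.1
    exact absurd a (not_lt.2 b.le)
  have h3 : (Finset.univ.filter fun p : Fin n × Fin n =>
        p.2 < p.1 ∧ dist (c p.1) (c p.2) = r p.1 + r p.2).card =
      (Finset.univ.filter fun p : Fin n × Fin n =>
        p.1 < p.2 ∧ dist (c p.1) (c p.2) = r p.1 + r p.2).card := by
    refine Finset.card_bij (fun p _ => (p.2, p.1)) ?_ ?_ ?_
    · intro p hp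
      obtain ⟨a, b⟩ := (Finset.mem_filter.1 hp).2
      refine Finset.mem_filter.2 ⟨Finset.mem_univ _, a, ?_⟩
      simp only
      rw [dist_comm, b, add_comm]
    · intro p _ q _ h
      rw [Prod.ext_iff] at h
      exact Prod.ext h.2 h.1
    · intro p hp
      obtain ⟨a, b⟩ := (Finset.mem_filter.1 hp).2
      refine ⟨(p.2, p.1), Finset.mem_filter.2 ⟨Finset.mem_univ _, a, ?_⟩, rfl⟩
      simp only
      rw [dist_comm, b, add_comm]
  have h4 : DD c r = (Finset.univ.filter fun p : Fin n × Fin n =>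
      p.1 ≠ p.2 ∧ tang c r p.1 p.2).card := by
    unfold DD
    refine congrArg Finset.card ?_
    ext p
    simp only [Finset.mem_filter, Finset.mem_univ, true_and]
  have h5 : edges c r = (Finset.univ.filter fun p : Fin n × Fin n =>
      p.1 < p.2 ∧ dist (c p.1) (c p.2) = r p.1 + r p.2).card := by
    unfold edges
    refine congrArg Finset.card ?_
    ext p
    simp only [Finset.mem_filter, Finset.mem_univ, true_and]
  rw [h4, h5, h1, Finset.card_union_of_disjoint h2, h3]
  ring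

theorem edges_le_kap {n : ℕ} {c : Fin n → E3} {r : Fin n → ℝ} (h : IsPacking c r) :
    (edges c r : ℝ) ≤ n * (3 * Real.arccos (1 / 3) / (3 * Real.arccos (1 / 3) - Real.pi)) := by
  have h1 := all_bound (c := c) (r := r) h
  rw [const_a, const_b, DD_eq, Fintype.card_fin] at h1
  push_cast at h1
  have h2 : Real.pi / 3 < Real.arccos (1 / 3) := th_gt
  have h3 : 0 < 3 * Real.arccos (1 / 3) - Real.pi := by linarith
  have h6 : 0 < Real.sqrt 6 := Real.sqrt_pos.2 (by norm_num)
  have e : th = Real.arccos (1 / 3) := rfl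
  rw [e] at h1
  rw [← mul_div_assoc, le_div_iff₀ h3]
  have h7 : Real.sqrt 6 * ((edges c r : ℝ) * (3 * Real.arccos (1 / 3) - Real.pi)) ≤
      Real.sqrt 6 * ((n : ℝ) * (3 * Real.arccos (1 / 3))) := by
    nlinarith
  exact le_of_mul_le_mul_left h7 h6

theorem kappa3_le :
    kappa 3 ≤ 3 * Real.arccos (1 / 3) / (3 * Real.arccos (1 / 3) - Real.pi) := by
  have h2 : Real.pi / 3 < Real.arccos (1 / 3) := th_gt
  have h3 : 0 < 3 * Real.arccos (1 / 3) - Real.pi := by linarith
  have h0 : 0 ≤ 3 * Real.arccos (1 / 3) / (3 * Real.arccos (1 / 3) - Real.pi) :=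
    div_nonneg (by linarith [Real.pi_pos]) h3.le
  have hE : ∀ n : ℕ, (E n 3 : ℝ) ≤
      n * (3 * Real.arccos (1 / 3) / (3 * Real.arccos (1 / 3) - Real.pi)) := by
    intro n
    unfold E
    rcases Set.eq_empty_or_nonempty {e : ℕ | ∃ (c : Fin n → EuclideanSpace ℝ (Fin 3))
      (r : Fin n → ℝ), IsPacking c r ∧ e = edges c r} with he | he
    · rw [he]
      simp only [csSup_empty, Nat.bot_eq_zero, Nat.cast_zero]
      exact mul_nonneg (Nat.cast_nonneg n) h0
    · obtain ⟨c, r, h, e⟩ := Nat.sSup_mem he (E_bdd n 3)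
      rw [e]
      exact edges_le_kap h
  unfold kappa
  refine ciSup_le fun n => ?_
  rw [div_le_iff₀ (by positivity)]
  have := hE (n + 1)
  push_cast at this
  linarith

end Pool.Agent.Lib.MP_b2bfca_co.K3U
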