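import Pool.Agent.Lib.MP_b2bfca_co.K3U.Defs

/-!
# Geometry of pairs of balls

All proofs are direct computations: expand `‖y - c j‖ ^ 2 = ‖(y - c i) - (c j - c i)‖ ^ 2`.
-/

set_option autoImplicit false

namespace Pool.Agent.Lib.MP_b2bfca_co.K3U

variable {ι : Type} (c : ι → E3) (w : ι → ℝ)

theorem GeoA_norm_pos {i j : ι} (h : c i ≠ c j) : 0 < ‖c j - c i‖ :=
  norm_pos_iff.2 (sub_ne_zero.2 (Ne.symm h))

theorem norm_ev {i j : ι} (h : c i ≠ c j) : ‖ev c i j‖ = 1 := by
  have h0 := GeoA_norm_pos c h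
  rw [ev, norm_smul, norm_inv, norm_norm, inv_mul_cancel₀ h0.ne']

theorem ev_swap (i j : ι) : ev c j i = - ev c i j := by
  rw [ev, ev, norm_sub_rev, ← smul_neg, neg_sub]

theorem sub_eq_smul_ev {i j : ι} (h : c i ≠ c j) : c j - c i = ‖c j - c i‖ • ev c i j := by
  have h0 := GeoA_norm_pos c h
  rw [ev, smul_smul, mul_inv_cancel₀ h0.ne', one_smul]

/-- The master identity. -/
theorem pw_diff {i j : ι} (h : c i ≠ c j) (y : E3) :
    pw c w j y - pw c w i y = 2 * ‖c j - c i‖ * (de c w i j - inner ℝ (y - c i) (ev c i j)) := by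
  have h0 := GeoA_norm_pos c h
  have h1 : y - c j = (y - c i) - (c j - c i) := by abel
  have h2 : ‖y - c j‖ ^ 2 = ‖y - c i‖ ^ 2 - 2 * inner ℝ (y - c i) (c j - c i) +
      ‖c j - c i‖ ^ 2 := by
    rw [h1, norm_sub_sq_real]
  have h3 : inner ℝ (y - c i) (ev c i j) = (‖c j - c i‖)⁻¹ * inner ℝ (y - c i) (c j - c i) := by
    rw [ev, real_inner_smul_right]
  rw [pw, pw, h2, h3, de]
  field_simp
  ring

theorem pw_le_iff {i j : ι} (h : c i ≠ c j) (y : E3) :
    pw c w i y ≤ pw c w j y ↔ inner ℝ (y - c i) (ev c i j) ≤ de c w i j := by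
  have h0 := GeoA_norm_pos c h
  have h1 := pw_diff c w h y
  constructor
  · intro h2
    by_contra h3
    have h4 : de c w i j - inner ℝ (y - c i) (ev c i j) < 0 := by linarith
    have h5 := mul_neg_of_pos_of_neg (mul_pos two_pos h0) h4
    linarith
  · intro h2
    have h4 : 0 ≤ de c w i j - inner ℝ (y - c i) (ev c i j) := by linarith
    have h5 := mul_nonneg (mul_pos two_pos h0).le h4
    linarith

theorem pw_eq_iff {i j : ι} (h : c i ≠ c j) (y : E3) :
    pw c w i y = pw c w j y ↔ inner ℝ (y - c i) (ev c i j) = de c w i j := by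
  have h0 := GeoA_norm_pos c h
  have h1 := pw_diff c w h y
  constructor
  · intro h2
    have h3 : 2 * ‖c j - c i‖ * (de c w i j - inner ℝ (y - c i) (ev c i j)) = 0 := by
      rw [← h1, h2, sub_self]
    rcases mul_eq_zero.1 h3 with h4 | h4
    · exact absurd h4 (mul_pos two_pos h0).ne'
    · linarith
  · intro h2
    rw [h2, sub_self, mul_zero] at h1
    linarith

theorem de_add {i j : ι} (h : c i ≠ c j) : de c w i j + de c w j i = ‖c j - c i‖ := by
  have h0 := GeoA_norm_pos c h
  rw [de, de, norm_sub_rev (c i) (c j)]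
  field_simp
  ring

theorem tp_comm {i j : ι} (h : c i ≠ c j) : tp c w i j = tp c w j i := by
  have h1 := de_add c w h
  have h2 := sub_eq_smul_ev c h
  have h3 : c j = c i + (de c w i j + de c w j i) • ev c i j := by
    rw [h1, ← h2]
    abel
  rw [tp, tp, ev_swap c i j]
  conv_rhs => rw [h3]
  rw [add_smul, smul_neg]
  abel

theorem inner_tp {i j : ι} (h : c i ≠ c j) :
    inner ℝ (tp c w i j - c i) (ev c i j) = de c w i j := by
  rw [tp, add_sub_cancel_left, real_inner_smul_left, real_inner_self_eq_norm_sq,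
    norm_ev c h]
  ring

theorem pw_tp {i j : ι} (h : c i ≠ c j) : pw c w i (tp c w i j) = pw c w j (tp c w i j) :=
  (pw_eq_iff c w h _).2 (inner_tp c w h)

/-- The difference of two powers is an affine function: value on a segment. -/
theorem pw_diff_affine (i j : ι) (y y' : E3) (t : ℝ) :
    pw c w j (y + t • (y' - y)) - pw c w i (y + t • (y' - y)) =
      (1 - t) * (pw c w j y - pw c w i y) + t * (pw c w j y' - pw c w i y') := by
  by_cases h : c i = c j
  · simp only [pw, h]
    ring
  · rw [pw_diff c w h, pw_diff c w h, pw_diff c w h]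
    have h1 : y + t • (y' - y) - c i = (1 - t) • (y - c i) + t • (y' - c i) := by
      simp only [sub_smul, smul_sub, one_smul]
      abel
    rw [h1, inner_add_left, real_inner_smul_left, real_inner_smul_left]
    ring

end Pool.Agent.Lib.MP_b2bfca_co.K3U
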