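import Pool.Agent.Lib.MP_b2bfca_co.K3U.Defs

/-!
# Line integrals for the one-dimensional Hausdorff measure

PROOF. `φ h = p + h • n` is an isometry `ℝ → E3` (dist = |h - h'| * ‖n‖), hence a closed, measurable
embedding (`Isometry.isClosedEmbedding`, `IsClosedEmbedding.measurableEmbedding`).
`Isometry.map_hausdorffMeasure` : `map φ μH[1] = μH[1].restrict (range φ)` and
`MeasureTheory.hausdorffMeasure_real : μH[1] = volume` on `ℝ`.
As `S ⊆ range φ`, `(μH[1].restrict (range φ)).restrict S = μH[1].restrict S`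
(`Measure.restrict_restrict_of_subset`), then `MeasurableEmbedding.setIntegral_map`.
-/

set_option autoImplicit false

namespace Pool.Agent.Lib.MP_b2bfca_co.K3U

open MeasureTheory

theorem integral_line (p n : E3) (hn : ‖n‖ = 1) (S : Set E3)
    (hS : ∀ y ∈ S, ∃ h : ℝ, y = p + h • n) (g : E3 → ℝ) :
    ∫ y in S, g y ∂(Measure.hausdorffMeasure 1 : Measure E3) =
      ∫ h in {h : ℝ | p + h • n ∈ S}, g (p + h • n) := by
  have hiso : Isometry (fun h : ℝ => p + h • n) := by
    refine Isometry.of_dist_eq fun a b => ?_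
    rw [dist_add_left, dist_eq_norm, ← sub_smul, norm_smul, hn, mul_one, Real.dist_eq,
      Real.norm_eq_abs]
  have hemb : MeasurableEmbedding (fun h : ℝ => p + h • n) :=
    hiso.isClosedEmbedding.measurableEmbedding
  have h1 := hiso.map_hausdorffMeasure (d := 1) (Or.inl zero_le_one)
  rw [hausdorffMeasure_real] at h1
  have h2 : S ⊆ Set.range (fun h : ℝ => p + h • n) := by
    intro y hy
    obtain ⟨h, rfl⟩ := hS y hy
    exact ⟨h, rfl⟩
  rw [← Measure.restrict_restrict_of_subset h2, ← h1, hemb.setIntegral_map]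
  rfl

end Pool.Agent.Lib.MP_b2bfca_co.K3U
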