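import Pool.Agent.Lib.MP_b2bfca_co.K3U.Defs

/-!
# A lemma on finitely many affine functions

PROOF. `φ_k(r) = a k + b k r`; `r` is good if all `φ_m(r) ≥ 0`. `K+` = set of `k` with `a k > 0`
and a good `r > 1` with `φ_k(r) = 0`; `K-` the same with `a k < 0`. The sum is `|K+| - |K-|`.
* `|K+| ≤ 1`: for `k ∈ K+`, `b k < 0` and every good `r` is at most the zero of `φ_k`; for
  `k, l ∈ K+` the zeros are both good, hence equal, so `k = l` by `hgen`.
* If all `a m + b m ≥ 0` we are done. Otherwise we show `K+ = ∅` or `K- ≠ ∅`: let `k ∈ K+` with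
  good zero `R > 1`. Some `l` has `φ_l(1) < 0 ≤ φ_l(R)`, so `b l > 0`, its zero `r_l = -a l/b l` lies in
  `(1, R]`, and `a l < 0`. Let `l` be such an index with `r_l` maximal (`Finset.exists_max_image`).
  Then `r_l` is good: `m` with `φ_m(1) < 0` has `r_m ≤ r_l` and `b m > 0`; `m` with
  `φ_m(1) ≥ 0` and `φ_m(R) ≥ 0` is `≥ 0` between. So `l ∈ K-`.
-/

set_option autoImplicit false

namespace Pool.Agent.Lib.MP_b2bfca_co.K3U

open Classical in
theorem lemQ {κ : Type} [Fintype κ] (a b : κ → ℝ)
    (hgen : ∀ k l, k ≠ l → ∀ r : ℝ, 1 < r → (∀ m, 0 ≤ a m + b m * r) →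
      ¬ (a k + b k * r = 0 ∧ a l + b l * r = 0)) :
    (∑ k, Real.sign (a k) *
      (if ∃ r : ℝ, 1 < r ∧ (∀ m, 0 ≤ a m + b m * r) ∧ a k + b k * r = 0 then (1 : ℝ) else 0)) ≤
      (if ∀ m, 0 ≤ a m + b m then (1 : ℝ) else 0) := by
  set Q : κ → Prop := fun k => ∃ r : ℝ, 1 < r ∧ (∀ m, 0 ≤ a m + b m * r) ∧ a k + b k * r = 0
    with hQ
  set P : Finset κ := Finset.univ.filter (fun k => 0 < a k ∧ Q k) with hP
  set N : Finset κ := Finset.univ.filter (fun k => a k < 0 ∧ Q k) with hN
  have hsum : (∑ k, Real.sign (a k) * (if Q k then (1 : ℝ) else 0)) =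
      (P.card : ℝ) - (N.card : ℝ) := by
    have e1 : (P.card : ℝ) = ∑ k, if 0 < a k ∧ Q k then (1 : ℝ) else 0 := by
      rw [hP, Finset.card_filter]
      push_cast
      rfl
    have e2 : (N.card : ℝ) = ∑ k, if a k < 0 ∧ Q k then (1 : ℝ) else 0 := by
      rw [hN, Finset.card_filter]
      push_cast
      rfl
    rw [e1, e2, ← Finset.sum_sub_distrib]
    apply Finset.sum_congr rfl
    intro k _
    by_cases hq : Q k
    · rcases lt_trichotomy (a k) 0 with h | h | h
      · rw [Real.sign_of_neg h]
        simp [hq, h, h.not_gt]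
      · rw [h, Real.sign_zero]
        simp
      · rw [Real.sign_of_pos h]
        simp [hq, h, h.not_gt]
    · simp [hq]
  have hP1 : P.card ≤ 1 := by
    rw [Finset.card_le_one]
    intro k hk l hl
    rw [hP, Finset.mem_filter] at hk hl
    obtain ⟨-, ak, rk, rk1, gk, zk⟩ := hk
    obtain ⟨-, al, rl, rl1, gl, zl⟩ := hl
    have bk : b k < 0 := by
      by_contra hb
      rw [not_lt] at hb
      have : 0 ≤ b k * rk := mul_nonneg hb (by linarith)
      linarith
    have bl : b l < 0 := by
      by_contra hb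
      rw [not_lt] at hb
      have : 0 ≤ b l * rl := mul_nonneg hb (by linarith)
      linarith
    have h1 : rl ≤ rk := by
      have := gl k
      by_contra hc
      rw [not_le] at hc
      nlinarith
    have h2 : rk ≤ rl := by
      have := gk l
      by_contra hc
      rw [not_le] at hc
      nlinarith
    have h3 : rk = rl := le_antisymm h2 h1
    by_contra hne
    apply hgen k l hne rk rk1 gk
    refine ⟨zk, ?_⟩
    rw [h3]
    exact zl
  show (∑ k, Real.sign (a k) * (if Q k then (1 : ℝ) else 0)) ≤ _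
  rw [hsum]
  have hP1' : (P.card : ℝ) ≤ 1 := by exact_mod_cast hP1
  have hN0 : (0 : ℝ) ≤ N.card := Nat.cast_nonneg _
  by_cases hall : ∀ m, 0 ≤ a m + b m
  · rw [if_pos hall]
    linarith
  · rw [if_neg hall]
    push Not at hall
    obtain ⟨m0, hm0⟩ := hall
    by_cases hPe : P = ∅
    · rw [hPe]
      simp
    · obtain ⟨k, hk⟩ := Finset.nonempty_iff_ne_empty.2 hPe
      rw [hP, Finset.mem_filter] at hk
      obtain ⟨-, -, R, hR1, gR, -⟩ := hk
      have hneg : ∀ l, a l + b l < 0 → 0 < b l ∧ 1 < -a l / b l ∧ -a l / b l ≤ R ∧ a l < 0 ∧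
          a l = -(b l * (-a l / b l)) := by
        intro l hl
        have h1 := gR l
        have hb : 0 < b l := by
          by_contra hb
          rw [not_lt] at hb
          nlinarith
        refine ⟨hb, ?_, ?_, by linarith, ?_⟩
        · rw [lt_div_iff₀ hb]
          linarith
        · rw [div_le_iff₀ hb]
          linarith
        · field_simp
      obtain ⟨l, hl, hmax⟩ := Finset.exists_max_image
        (Finset.univ.filter (fun l => a l + b l < 0)) (fun l => -a l / b l)
        ⟨m0, by rw [Finset.mem_filter]; exact ⟨Finset.mem_univ _, hm0⟩⟩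
      rw [Finset.mem_filter] at hl
      obtain ⟨hb, hr1, hrR, hal, hae⟩ := hneg l hl.2
      have hlN : l ∈ N := by
        rw [hN, Finset.mem_filter]
        refine ⟨Finset.mem_univ _, hal, -a l / b l, hr1, ?_, ?_⟩
        · intro m
          by_cases hm : a m + b m < 0
          · obtain ⟨hbm, -, -, -, hame⟩ := hneg m hm
            have h2 := hmax m (by rw [Finset.mem_filter]; exact ⟨Finset.mem_univ _, hm⟩)
            have h3 : 0 ≤ b m * (-a l / b l - -a m / b m) :=
              mul_nonneg hbm.le (by linarith)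
            rw [mul_sub] at h3
            linarith
          · rw [not_lt] at hm
            have h2 := gR m
            by_cases hbm : 0 ≤ b m
            · nlinarith
            · rw [not_le] at hbm
              nlinarith
        · linarith
      have : 1 ≤ N.card := Finset.card_pos.2 ⟨l, hlN⟩
      have h5 : (1 : ℝ) ≤ N.card := by exact_mod_cast this
      linarith

end Pool.Agent.Lib.MP_b2bfca_co.K3U
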