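import Pool.Agent.Lib.MP_b2bfca_co.K3U.Defs

/-!
# Two real-variable inequalities

PROOF of `jensen3`. `f x = arcsin (s cos x)` is concave on `[0, π/2]` for `0 ≤ s < 1`:
`f' = - s sin x / √(1 - s^2 cos^2 x)`, `f'' = - s cos x (1-s^2) / (1 - s^2 cos^2 x)^(3/2) ≤ 0`
(or `f'` is decreasing: `sin^2 x/(1 - s^2 cos^2 x) = sin^2 x/(1 - s^2 + s^2 sin^2 x)` is increasing in
`sin x`). Jensen with weights `1/3` at `x1, x2, x3`, mean `π/6`, `cos (π/6) = √3/2`.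
PROOF of `one_var`. `g β = 2√6 β - 6 arcsin ((√3/2) sin β)` on `[0, π/2)`,
`g' = 2√6 - 3√3 cos β/√(1 - (3/4) sin^2 β)`; `g' ≤ 0` iff
`27 cos^2 β ≥ 24 (1 - (3/4) sin^2 β) = 24 - 18 sin^2 β` iff `3 ≥ 9 sin^2 β` iff `sin β ≤ 1/√3`. So the
minimum is at `β0 = arcsin (1/√3)`, `2 β0 = th` (`cos (2 β0) = 1 - 2/3 = 1/3`),
`(√3/2) (1/√3) = 1/2`, `arcsin (1/2) = π/6`: `g β0 = √6 th - π`. (Use `antitoneOn`/`monotoneOn` by the
sign of the derivative on `[0, β0]` and `[β0, π/2)`.)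
-/

set_option autoImplicit false

namespace Pool.Agent.Lib.MP_b2bfca_co.K3U

theorem LocJ_range {s x : ℝ} (hs0 : 0 ≤ s) (hs1 : s < 1) :
    s * Real.cos x < 1 ∧ -1 < s * Real.cos x := by
  have h1 := Real.cos_le_one x
  have h2 := Real.neg_one_le_cos x
  constructor <;> nlinarith

theorem LocJ_deriv {s x : ℝ} (hs0 : 0 ≤ s) (hs1 : s < 1) :
    HasDerivAt (fun x => Real.arcsin (s * Real.cos x))
      (1 / Real.sqrt (1 - (s * Real.cos x) ^ 2) * (s * (-Real.sin x))) x := by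
  obtain ⟨h1, h2⟩ := LocJ_range (x := x) hs0 hs1
  have h3 := Real.hasDerivAt_arcsin h2.ne' h1.ne
  have h4 : HasDerivAt (fun x => s * Real.cos x) (s * (-Real.sin x)) x :=
    (Real.hasDerivAt_cos x).const_mul s
  exact h3.comp x h4

theorem LocJ_mono {s a b : ℝ} (hs0 : 0 ≤ s) (hs1 : s < 1) (ha : 0 ≤ a) (hab : a ≤ b) :
    a / Real.sqrt (1 - s ^ 2 + s ^ 2 * a ^ 2) ≤ b / Real.sqrt (1 - s ^ 2 + s ^ 2 * b ^ 2) := by
  have hA : 0 < 1 - s ^ 2 := by nlinarith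
  have h1 : 0 < 1 - s ^ 2 + s ^ 2 * a ^ 2 := by positivity
  have h2 : 0 < 1 - s ^ 2 + s ^ 2 * b ^ 2 := by positivity
  have h3 := Real.sqrt_pos.2 h1
  have h4 := Real.sqrt_pos.2 h2
  rw [div_le_div_iff₀ h3 h4]
  have hb : 0 ≤ b := ha.trans hab
  refine (pow_le_pow_iff_left₀ (by positivity) (by positivity) two_ne_zero).1 ?_
  rw [mul_pow, mul_pow, Real.sq_sqrt h1.le, Real.sq_sqrt h2.le]
  have h5 : a ^ 2 ≤ b ^ 2 := pow_le_pow_left₀ ha hab 2
  nlinarith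

theorem LocJ_concave {s : ℝ} (hs0 : 0 ≤ s) (hs1 : s < 1) :
    ConcaveOn ℝ (Set.Icc 0 (Real.pi / 2)) (fun x => Real.arcsin (s * Real.cos x)) := by
  apply AntitoneOn.concaveOn_of_deriv (convex_Icc _ _)
  · exact fun x _ => (LocJ_deriv hs0 hs1).continuousAt.continuousWithinAt
  · exact fun x _ => (LocJ_deriv hs0 hs1).differentiableAt.differentiableWithinAt
  · rw [interior_Icc]
    intro x hx y hy hxy
    rw [(LocJ_deriv hs0 hs1).deriv, (LocJ_deriv hs0 hs1).deriv]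
    have hsx : 0 ≤ Real.sin x := Real.sin_nonneg_of_nonneg_of_le_pi hx.1.le
      (by linarith [hx.2, Real.pi_pos])
    have hss : Real.sin x ≤ Real.sin y :=
      Real.sin_le_sin_of_le_of_le_pi_div_two (by linarith [hx.1, Real.pi_pos]) hy.2.le hxy
    have hm := LocJ_mono hs0 hs1 hsx hss
    have ex : ∀ z : ℝ, 1 / Real.sqrt (1 - (s * Real.cos z) ^ 2) * (s * (-Real.sin z)) =
        -(s * (Real.sin z / Real.sqrt (1 - s ^ 2 + s ^ 2 * Real.sin z ^ 2))) := by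
      intro z
      have : 1 - (s * Real.cos z) ^ 2 = 1 - s ^ 2 + s ^ 2 * Real.sin z ^ 2 := by
        rw [mul_pow, Real.cos_sq']; ring
      rw [this]; ring
    rw [ex, ex]
    have := mul_le_mul_of_nonneg_left hm hs0
    linarith

theorem LocJ_th : th = 2 * Real.arcsin (1 / Real.sqrt 3) := by
  have h3 : 0 < Real.sqrt 3 := Real.sqrt_pos.2 (by norm_num)
  have h31 : 1 ≤ Real.sqrt 3 := by
    rw [show (1 : ℝ) = Real.sqrt 1 by simp]
    exact Real.sqrt_le_sqrt (by norm_num)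
  have ha : 1 / Real.sqrt 3 ≤ 1 := by rw [div_le_one h3]; exact h31
  have ha0 : 0 ≤ 1 / Real.sqrt 3 := by positivity
  have hs : Real.sin (Real.arcsin (1 / Real.sqrt 3)) = 1 / Real.sqrt 3 :=
    Real.sin_arcsin (by linarith) ha
  have h0 : 0 ≤ Real.arcsin (1 / Real.sqrt 3) := Real.arcsin_nonneg.2 ha0
  have h1 : Real.arcsin (1 / Real.sqrt 3) ≤ Real.pi / 2 := Real.arcsin_le_pi_div_two _
  have hc : Real.cos (2 * Real.arcsin (1 / Real.sqrt 3)) = 1 / 3 := by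
    rw [Real.cos_two_mul, Real.cos_sq', hs, div_pow, Real.sq_sqrt (by norm_num)]
    norm_num
  unfold th
  rw [← hc]
  exact Real.arccos_cos (by linarith) (by linarith)

theorem jensen3 {s x1 x2 x3 : ℝ} (hs0 : 0 ≤ s) (hs1 : s < 1) (h1 : 0 ≤ x1) (h2 : 0 ≤ x2)
    (h3 : 0 ≤ x3) (hsum : x1 + x2 + x3 = Real.pi / 2) :
    Real.arcsin (s * Real.cos x1) + Real.arcsin (s * Real.cos x2) +
      Real.arcsin (s * Real.cos x3) ≤ 3 * Real.arcsin (s * (Real.sqrt 3 / 2)) := by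
  have hpi := Real.pi_pos
  have hc := LocJ_concave hs0 hs1
  have m1 : x1 ∈ Set.Icc 0 (Real.pi / 2) := ⟨h1, by linarith⟩
  have m2 : x2 ∈ Set.Icc 0 (Real.pi / 2) := ⟨h2, by linarith⟩
  have m3 : x3 ∈ Set.Icc 0 (Real.pi / 2) := ⟨h3, by linarith⟩
  have m12 : (1 / 2 : ℝ) • x1 + (1 / 2 : ℝ) • x2 ∈ Set.Icc 0 (Real.pi / 2) := by
    simp only [smul_eq_mul]
    constructor <;> linarith
  have k1 := hc.2 m1 m2 (by norm_num : (0 : ℝ) ≤ 1 / 2) (by norm_num : (0 : ℝ) ≤ 1 / 2)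
    (by norm_num)
  have k2 := hc.2 m12 m3 (by norm_num : (0 : ℝ) ≤ 2 / 3) (by norm_num : (0 : ℝ) ≤ 1 / 3)
    (by norm_num)
  simp only [smul_eq_mul] at k1 k2
  have e : 2 / 3 * (1 / 2 * x1 + 1 / 2 * x2) + 1 / 3 * x3 = Real.pi / 6 := by linarith
  rw [e, Real.cos_pi_div_six] at k2
  linarith

theorem LocJ_hd {β : ℝ} : HasDerivAt (fun β => 2 * Real.sqrt 6 * β -
      6 * Real.arcsin (Real.sin β * (Real.sqrt 3 / 2)))
      (2 * Real.sqrt 6 - 6 * (1 / Real.sqrt (1 - (Real.sin β * (Real.sqrt 3 / 2)) ^ 2) *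
        (Real.cos β * (Real.sqrt 3 / 2)))) β := by
  have h3 : Real.sqrt 3 / 2 < 1 := by
    have : Real.sqrt 3 < 2 := by
      rw [show (2 : ℝ) = Real.sqrt 4 by rw [show (4 : ℝ) = 2 ^ 2 by norm_num]; simp]
      exact Real.sqrt_lt_sqrt (by norm_num) (by norm_num)
    linarith
  have h3' : 0 ≤ Real.sqrt 3 / 2 := by positivity
  have hs1 := Real.sin_le_one β
  have hs2 := Real.neg_one_le_sin β
  have a1 : Real.sin β * (Real.sqrt 3 / 2) < 1 := by nlinarith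
  have a2 : -1 < Real.sin β * (Real.sqrt 3 / 2) := by nlinarith
  have k1 := Real.hasDerivAt_arcsin a2.ne' a1.ne
  have k2 : HasDerivAt (fun β => Real.sin β * (Real.sqrt 3 / 2))
      (Real.cos β * (Real.sqrt 3 / 2)) β := (Real.hasDerivAt_sin β).mul_const _
  have k3 := k1.comp β k2
  have k4 : HasDerivAt (fun β : ℝ => 2 * Real.sqrt 6 * β) (2 * Real.sqrt 6) β := by
    simpa using (hasDerivAt_id β).const_mul (2 * Real.sqrt 6)
  exact k4.sub (k3.const_mul 6)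

theorem LocJ_sign {c S : ℝ} (hc : 0 ≤ c) (h : c ^ 2 = 1 - S ^ 2) :
    (S ^ 2 ≤ 1 / 3 → 2 * Real.sqrt 6 - 6 * (1 / Real.sqrt (1 - (S * (Real.sqrt 3 / 2)) ^ 2) *
        (c * (Real.sqrt 3 / 2))) ≤ 0) ∧
    (1 / 3 ≤ S ^ 2 → 0 ≤ 2 * Real.sqrt 6 - 6 * (1 / Real.sqrt (1 - (S * (Real.sqrt 3 / 2)) ^ 2) *
        (c * (Real.sqrt 3 / 2)))) := by
  have hc2 : 0 ≤ c ^ 2 := sq_nonneg c
  have h3 : Real.sqrt 3 ^ 2 = 3 := Real.sq_sqrt (by norm_num)
  have h6 : Real.sqrt 6 ^ 2 = 6 := Real.sq_sqrt (by norm_num)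
  have e1 : 1 - (S * (Real.sqrt 3 / 2)) ^ 2 = 1 - 3 / 4 * S ^ 2 := by
    rw [mul_pow, div_pow, h3]; ring
  have hp : 0 < 1 - 3 / 4 * S ^ 2 := by nlinarith
  rw [e1]
  have hq : 0 < Real.sqrt (1 - 3 / 4 * S ^ 2) := Real.sqrt_pos.2 hp
  have hq2 : Real.sqrt (1 - 3 / 4 * S ^ 2) ^ 2 = 1 - 3 / 4 * S ^ 2 := Real.sq_sqrt hp.le
  have e2 : 6 * (1 / Real.sqrt (1 - 3 / 4 * S ^ 2) * (c * (Real.sqrt 3 / 2))) =
      3 * c * Real.sqrt 3 / Real.sqrt (1 - 3 / 4 * S ^ 2) := by ring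
  rw [e2]
  have h60 : 0 < Real.sqrt 6 := Real.sqrt_pos.2 (by norm_num)
  have h30 : 0 < Real.sqrt 3 := Real.sqrt_pos.2 (by norm_num)
  constructor
  · intro hS
    have : 2 * Real.sqrt 6 ≤ 3 * c * Real.sqrt 3 / Real.sqrt (1 - 3 / 4 * S ^ 2) := by
      rw [le_div_iff₀ hq]
      refine (pow_le_pow_iff_left₀ (by positivity) (by positivity) two_ne_zero).1 ?_
      rw [mul_pow, mul_pow, mul_pow, mul_pow, h3, h6, hq2, h]
      nlinarith
    linarith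
  · intro hS
    have : 3 * c * Real.sqrt 3 / Real.sqrt (1 - 3 / 4 * S ^ 2) ≤ 2 * Real.sqrt 6 := by
      rw [div_le_iff₀ hq]
      refine (pow_le_pow_iff_left₀ (by positivity) (by positivity) two_ne_zero).1 ?_
      rw [mul_pow, mul_pow, mul_pow, mul_pow, h3, h6, hq2, h]
      nlinarith
    linarith

theorem one_var {β : ℝ} (h0 : 0 ≤ β) (h1 : β < Real.pi / 2) :
    Real.sqrt 6 * th - Real.pi ≤
      2 * Real.sqrt 6 * β - 6 * Real.arcsin (Real.sin β * (Real.sqrt 3 / 2)) := by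
  have h3 : 0 < Real.sqrt 3 := Real.sqrt_pos.2 (by norm_num)
  have h3s : Real.sqrt 3 ^ 2 = 3 := Real.sq_sqrt (by norm_num)
  have h31 : 1 ≤ Real.sqrt 3 := by
    rw [show (1 : ℝ) = Real.sqrt 1 by simp]
    exact Real.sqrt_le_sqrt (by norm_num)
  have ha : 1 / Real.sqrt 3 ≤ 1 := by rw [div_le_one h3]; exact h31
  have ha0 : 0 ≤ 1 / Real.sqrt 3 := by positivity
  set β0 := Real.arcsin (1 / Real.sqrt 3) with hβ0
  have hs : Real.sin β0 = 1 / Real.sqrt 3 := Real.sin_arcsin (by linarith) ha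
  have hs2 : Real.sin β0 ^ 2 = 1 / 3 := by rw [hs, div_pow, h3s]; norm_num
  have hb0 : 0 ≤ β0 := Real.arcsin_nonneg.2 ha0
  have hb1 : β0 ≤ Real.pi / 2 := Real.arcsin_le_pi_div_two _
  have hval : Real.sqrt 6 * th - Real.pi = (fun β => 2 * Real.sqrt 6 * β -
      6 * Real.arcsin (Real.sin β * (Real.sqrt 3 / 2))) β0 := by
    have e1 : Real.sin β0 * (Real.sqrt 3 / 2) = 1 / 2 := by
      rw [hs]; field_simp
    have e2 : Real.arcsin (1 / 2) = Real.pi / 6 := by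
      rw [← Real.sin_pi_div_six]
      exact Real.arcsin_sin (by linarith [Real.pi_pos]) (by linarith [Real.pi_pos])
    simp only [e1, e2]
    rw [LocJ_th, ← hβ0]
    ring
  rw [hval]
  have hcont : ∀ t : Set ℝ, ContinuousOn (fun β => 2 * Real.sqrt 6 * β -
      6 * Real.arcsin (Real.sin β * (Real.sqrt 3 / 2))) t := fun t x _ =>
    LocJ_hd.continuousAt.continuousWithinAt
  have hdiff : ∀ t : Set ℝ, DifferentiableOn ℝ (fun β => 2 * Real.sqrt 6 * β -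
      6 * Real.arcsin (Real.sin β * (Real.sqrt 3 / 2))) t := fun t x _ =>
    LocJ_hd.differentiableAt.differentiableWithinAt
  rcases le_total β β0 with hle | hle
  · have hanti : AntitoneOn (fun β => 2 * Real.sqrt 6 * β -
        6 * Real.arcsin (Real.sin β * (Real.sqrt 3 / 2))) (Set.Icc 0 β0) := by
      apply antitoneOn_of_deriv_nonpos (convex_Icc _ _) (hcont _) (hdiff _)
      rw [interior_Icc]
      intro x hx
      rw [LocJ_hd.deriv]
      have hcos : 0 ≤ Real.cos x := Real.cos_nonneg_of_neg_pi_div_two_le_of_le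
        (by linarith [hx.1, Real.pi_pos]) (by linarith [hx.2])
      have hcs : Real.cos x ^ 2 = 1 - Real.sin x ^ 2 := Real.cos_sq' x
      apply (LocJ_sign hcos hcs).1
      rw [← hs2]
      apply pow_le_pow_left₀ (Real.sin_nonneg_of_nonneg_of_le_pi hx.1.le
        (by linarith [hx.2, Real.pi_pos]))
      exact Real.sin_le_sin_of_le_of_le_pi_div_two (by linarith [hx.1, Real.pi_pos]) hb1 hx.2.le
    exact hanti ⟨h0, hle⟩ ⟨hb0, le_rfl⟩ hle
  · have hmono : MonotoneOn (fun β => 2 * Real.sqrt 6 * β -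
        6 * Real.arcsin (Real.sin β * (Real.sqrt 3 / 2))) (Set.Icc β0 β) := by
      apply monotoneOn_of_deriv_nonneg (convex_Icc _ _) (hcont _) (hdiff _)
      rw [interior_Icc]
      intro x hx
      rw [LocJ_hd.deriv]
      have hcos : 0 ≤ Real.cos x := Real.cos_nonneg_of_neg_pi_div_two_le_of_le
        (by linarith [hx.1, Real.pi_pos]) (by linarith [hx.2])
      have hcs : Real.cos x ^ 2 = 1 - Real.sin x ^ 2 := Real.cos_sq' x
      apply (LocJ_sign hcos hcs).2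
      rw [← hs2]
      apply pow_le_pow_left₀ (by rw [hs]; exact ha0)
      exact Real.sin_le_sin_of_le_of_le_pi_div_two (by linarith [Real.pi_pos])
        (by linarith [hx.2]) hx.1.le
    exact hmono ⟨le_rfl, hle⟩ ⟨hle, le_rfl⟩ hle

end Pool.Agent.Lib.MP_b2bfca_co.K3U
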