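import Pool.Agent.Lib.MP_b2bfca_co.K3U.LocJ
import Pool.Agent.Lib.MP_b2bfca_co.K3U.LocI
import Pool.Agent.Lib.MP_b2bfca_co.K3U.Num

/-!
# The integral for mutually tangent balls

PROOF of `tight_int`. Let `F h` be the integrand, `F h = g h * fb ρ h`,
`g h = ∑ 2(1 - r_a/√(r_a^2+ρ^2+h^2)) - 3 mu` (`fa_eq`), even, nondecreasing in `|h|`, limit
`6 - 3 mu > 0` at infinity. Let `h0 ≥ 0` with `F < 0 ↔ |h| < h0` (`h0 = 0` if `g 0 ≥ 0`; otherwise the
zero of the continuous function `g` on `[0, ∞)`, intermediate value theorem). `F` is integrable.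
`∫_J F ≥ ∫_J min(F,0) ≥ ∫ min(F,0) = ∫_{-h0}^{h0} F = 2 ∫_0^{h0} F`. By `int_fa`, `int_fb`, with
`β = arctan (h0/ρ) ∈ [0, π/2)`, `x_a = arctan (ρ/r_a)`: `∫_0^{h0} F = (6 - 3 mu) β -
2 ∑ arcsin (sin β cos x_a) ≥ 2√6 β - 6 arcsin (sin β * √3/2) ≥ √6 th - π = -(3/2) nu`
(`6 - 3 mu = 2√6`, `jensen3` with `s = sin β < 1`, `one_var`).
-/

set_option autoImplicit false

namespace Pool.Agent.Lib.MP_b2bfca_co.K3U

open MeasureTheory

/-- The bracket of the tight functional. -/
private noncomputable def locsG (ρ r1 r2 r3 h : ℝ) : ℝ :=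
  2 * (1 - r1 / Real.sqrt (r1 ^ 2 + ρ ^ 2 + h ^ 2)) +
  2 * (1 - r2 / Real.sqrt (r2 ^ 2 + ρ ^ 2 + h ^ 2)) +
  2 * (1 - r3 / Real.sqrt (r3 ^ 2 + ρ ^ 2 + h ^ 2)) - 3 * mu

private theorem locs_term {r ρ h h' : ℝ} (hr : 0 < r) (hh : h ^ 2 ≤ h' ^ 2) :
    1 - r / Real.sqrt (r ^ 2 + ρ ^ 2 + h ^ 2) ≤ 1 - r / Real.sqrt (r ^ 2 + ρ ^ 2 + h' ^ 2) := by
  have h1 : Real.sqrt (r ^ 2 + ρ ^ 2 + h ^ 2) ≤ Real.sqrt (r ^ 2 + ρ ^ 2 + h' ^ 2) :=
    Real.sqrt_le_sqrt (by linarith)
  have h2 : 0 < Real.sqrt (r ^ 2 + ρ ^ 2 + h ^ 2) := Real.sqrt_pos.2 (by positivity)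
  have h3 : r / Real.sqrt (r ^ 2 + ρ ^ 2 + h' ^ 2) ≤ r / Real.sqrt (r ^ 2 + ρ ^ 2 + h ^ 2) :=
    div_le_div_of_nonneg_left hr.le h2 h1
  linarith

private theorem locs_mono {ρ r1 r2 r3 h h' : ℝ} (h1 : 0 < r1) (h2 : 0 < r2) (h3 : 0 < r3)
    (hh : h ^ 2 ≤ h' ^ 2) : locsG ρ r1 r2 r3 h ≤ locsG ρ r1 r2 r3 h' := by
  unfold locsG
  have e1 := locs_term (ρ := ρ) h1 hh
  have e2 := locs_term (ρ := ρ) h2 hh
  have e3 := locs_term (ρ := ρ) h3 hh
  linarith

private theorem locs_half {r ρ H : ℝ} (hr : 0 < r) (hH : 2 * r ≤ H) :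
    1 / 2 ≤ 1 - r / Real.sqrt (r ^ 2 + ρ ^ 2 + H ^ 2) := by
  have h1 : 2 * r ≤ Real.sqrt (r ^ 2 + ρ ^ 2 + H ^ 2) := by
    apply Real.le_sqrt_of_sq_le
    nlinarith [sq_nonneg ρ, sq_nonneg r]
  have h2 : r / Real.sqrt (r ^ 2 + ρ ^ 2 + H ^ 2) ≤ 1 / 2 := by
    rw [div_le_iff₀ (by linarith)]
    linarith
  linarith

private theorem locs_contTerm (r ρ : ℝ) (hr : 0 < r) :
    Continuous fun h : ℝ => 1 - r / Real.sqrt (r ^ 2 + ρ ^ 2 + h ^ 2) := by
  apply continuous_const.sub
  apply continuous_const.div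
  · fun_prop
  · intro h
    exact (Real.sqrt_pos.2 (by positivity)).ne'

private theorem locs_cont {ρ r1 r2 r3 : ℝ} (h1 : 0 < r1) (h2 : 0 < r2) (h3 : 0 < r3) :
    Continuous (locsG ρ r1 r2 r3) := by
  unfold locsG
  exact ((((locs_contTerm r1 ρ h1).const_mul 2).add ((locs_contTerm r2 ρ h2).const_mul 2)).add
    ((locs_contTerm r3 ρ h3).const_mul 2)).sub continuous_const

theorem tight_int {ρ r1 r2 r3 : ℝ} (hρ : 0 < ρ) (h1 : 0 < r1) (h2 : 0 < r2) (h3 : 0 < r3)
    (hsum : Real.arctan (ρ / r1) + Real.arctan (ρ / r2) + Real.arctan (ρ / r3) = Real.pi / 2)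
    {J : Set ℝ} (hJ : MeasurableSet J) :
    -3 * nu ≤ ∫ h in J, (2 * fa r1 ρ h + 2 * fa r2 ρ h + 2 * fa r3 ρ h - 3 * mu * fb ρ h) := by
  set F : ℝ → ℝ := fun h => 2 * fa r1 ρ h + 2 * fa r2 ρ h + 2 * fa r3 ρ h - 3 * mu * fb ρ h
    with hF
  have hFint : Integrable F volume :=
    ((((integrable_fa h1 ρ).const_mul 2).add ((integrable_fa h2 ρ).const_mul 2)).add
      ((integrable_fa h3 ρ).const_mul 2)).sub ((integrable_fb hρ.ne').const_mul (3 * mu))
  have hfb : ∀ h, 0 < fb ρ h := fun h => by unfold fb; positivity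
  have hFg : ∀ h, F h = locsG ρ r1 r2 r3 h * fb ρ h := by
    intro h
    simp only [hF]
    rw [fa_eq h1 hρ.ne', fa_eq h2 hρ.ne', fa_eq h3 hρ.ne']
    unfold locsG
    ring
  have hnu := nu_pos
  by_cases hg0 : 0 ≤ locsG ρ r1 r2 r3 0
  · -- nonnegative
    have : 0 ≤ ∫ h in J, F h := by
      apply setIntegral_nonneg hJ
      intro h _
      rw [hFg]
      apply mul_nonneg _ (hfb h).le
      exact hg0.trans (locs_mono h1 h2 h3 (by rw [zero_pow two_ne_zero]; positivity))
    linarith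
  · rw [not_le] at hg0
    have hmu := two_mu_lt
    set H : ℝ := 2 * (r1 + r2 + r3) with hH
    have hgH : 0 ≤ locsG ρ r1 r2 r3 H := by
      unfold locsG
      have e1 := locs_half (ρ := ρ) (H := H) h1 (by rw [hH]; linarith)
      have e2 := locs_half (ρ := ρ) (H := H) h2 (by rw [hH]; linarith)
      have e3 := locs_half (ρ := ρ) (H := H) h3 (by rw [hH]; linarith)
      linarith
    have hH0 : 0 ≤ H := by rw [hH]; positivity
    obtain ⟨h0, hh0, hz⟩ := intermediate_value_Icc hH0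
      (locs_cont (ρ := ρ) h1 h2 h3).continuousOn ⟨hg0.le, hgH⟩
    have hin : ∀ h ∈ Set.Icc (-h0) h0, F h ≤ 0 := by
      intro h hh
      rw [hFg]
      apply mul_nonpos_of_nonpos_of_nonneg _ (hfb h).le
      rw [← hz]
      apply locs_mono h1 h2 h3
      rw [sq_le_sq, abs_of_nonneg hh0.1]
      exact abs_le.2 hh
    have hout : ∀ h ∉ Set.Icc (-h0) h0, 0 ≤ F h := by
      intro h hh
      rw [hFg]
      apply mul_nonneg _ (hfb h).le
      rw [← hz]
      apply locs_mono h1 h2 h3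
      rw [sq_le_sq, abs_of_nonneg hh0.1]
      by_contra hc
      rw [not_le] at hc
      exact hh (abs_le.1 hc.le)
    have hmK : MeasurableSet (Set.Icc (-h0) h0) := measurableSet_Icc
    set φ : ℝ → ℝ := (Set.Icc (-h0) h0).indicator F with hφ
    have hφint : Integrable φ volume := hFint.indicator hmK
    have hφF : ∀ h, φ h ≤ F h := by
      intro h
      by_cases hh : h ∈ Set.Icc (-h0) h0
      · rw [hφ, Set.indicator_of_mem hh]
      · rw [hφ, Set.indicator_of_notMem hh]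
        exact hout h hh
    have hφ0 : ∀ h, φ h ≤ 0 := by
      intro h
      by_cases hh : h ∈ Set.Icc (-h0) h0
      · rw [hφ, Set.indicator_of_mem hh]
        exact hin h hh
      · rw [hφ, Set.indicator_of_notMem hh]
    have s1 : ∫ h in J, φ h ≤ ∫ h in J, F h :=
      integral_mono hφint.integrableOn hFint.integrableOn hφF
    have s2 : ∫ h, φ h ≤ ∫ h in J, φ h := by
      have := setIntegral_le_integral (s := J) hφint.neg
        (Filter.Eventually.of_forall fun h => by simp only [Pi.zero_apply, Pi.neg_apply]; linarith [hφ0 h])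
      simp only [Pi.neg_apply, integral_neg] at this
      linarith
    have s3 : ∫ h, φ h = ∫ h in (-h0)..h0, F h := by
      rw [hφ, integral_indicator hmK, integral_Icc_eq_integral_Ioc,
        intervalIntegral.integral_of_le (by linarith [hh0.1])]
    have hII : ∀ a b : ℝ, IntervalIntegrable F volume a b := fun a b =>
      hFint.intervalIntegrable
    have hev : ∀ h, F (-h) = F h := by
      intro h
      simp only [hF, fa, fb, neg_sq]
    have s4 : ∫ h in (-h0)..h0, F h = 2 * ∫ h in (0 : ℝ)..h0, F h := by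
      rw [← intervalIntegral.integral_add_adjacent_intervals (hII (-h0) 0) (hII 0 h0)]
      have : ∫ h in (-h0)..0, F h = ∫ h in (0 : ℝ)..h0, F h := by
        have e := intervalIntegral.integral_comp_neg (a := 0) (b := h0) F
        rw [neg_zero] at e
        rw [← e]
        apply intervalIntegral.integral_congr
        intro h _
        exact hev h
      rw [this]
      ring
    have ia : ∀ {r : ℝ}, 0 < r → IntervalIntegrable (fa r ρ) volume 0 h0 := fun {r} hr =>
      (integrable_fa hr ρ).intervalIntegrable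
    have ib : IntervalIntegrable (fb ρ) volume 0 h0 := (integrable_fb hρ.ne').intervalIntegrable
    set β : ℝ := Real.arctan (h0 / ρ) with hβ
    have s5 : ∫ h in (0 : ℝ)..h0, F h =
        2 * (β - Real.arcsin (Real.sin β * Real.cos (Real.arctan (ρ / r1)))) +
        2 * (β - Real.arcsin (Real.sin β * Real.cos (Real.arctan (ρ / r2)))) +
        2 * (β - Real.arcsin (Real.sin β * Real.cos (Real.arctan (ρ / r3)))) -
        3 * mu * β := by
      simp only [hF]
      rw [intervalIntegral.integral_sub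
          ((((ia h1).const_mul 2).add ((ia h2).const_mul 2)).add ((ia h3).const_mul 2))
          (ib.const_mul (3 * mu)),
        intervalIntegral.integral_add (((ia h1).const_mul 2).add ((ia h2).const_mul 2))
          ((ia h3).const_mul 2),
        intervalIntegral.integral_add ((ia h1).const_mul 2) ((ia h2).const_mul 2),
        intervalIntegral.integral_const_mul, intervalIntegral.integral_const_mul,
        intervalIntegral.integral_const_mul, intervalIntegral.integral_const_mul,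
        int_fa h1 hρ hh0.1, int_fa h2 hρ hh0.1, int_fa h3 hρ hh0.1, int_fb hρ]
    have hβ0 : 0 ≤ β := by
      rw [hβ]
      exact Real.arctan_nonneg.2 (div_nonneg hh0.1 hρ.le)
    have hβ1 : β < Real.pi / 2 := Real.arctan_lt_pi_div_two _
    have hs0 : 0 ≤ Real.sin β := Real.sin_nonneg_of_nonneg_of_le_pi hβ0 (by linarith [Real.pi_pos])
    have hs1 : Real.sin β < 1 := by
      rw [← Real.sin_pi_div_two]
      exact Real.sin_lt_sin_of_lt_of_le_pi_div_two (by linarith [Real.pi_pos]) le_rfl hβ1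
    have j := jensen3 hs0 hs1 (Real.arctan_nonneg.2 (by positivity : (0 : ℝ) ≤ ρ / r1))
      (Real.arctan_nonneg.2 (by positivity : (0 : ℝ) ≤ ρ / r2))
      (Real.arctan_nonneg.2 (by positivity : (0 : ℝ) ≤ ρ / r3)) hsum
    have o := one_var hβ0 hβ1
    have hmu2 : 6 - 3 * mu = 2 * Real.sqrt 6 := by
      have e : Real.sqrt (2 / 3) = Real.sqrt 6 / 3 := by
        rw [show (2 / 3 : ℝ) = 6 / 3 ^ 2 by norm_num, Real.sqrt_div (by norm_num),
          Real.sqrt_sq (by norm_num)]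
      unfold mu
      rw [e]
      ring
    have hfinal : Real.sqrt 6 * th - Real.pi ≤ ∫ h in (0 : ℝ)..h0, F h := by
      rw [s5]
      have e : 2 * Real.sqrt 6 * β = 6 * β - 3 * mu * β := by
        rw [← hmu2]
        ring
      linarith
    have hnu2 : -3 * nu = 2 * (Real.sqrt 6 * th - Real.pi) := by
      unfold nu
      ring
    rw [hnu2]
    linarith

end Pool.Agent.Lib.MP_b2bfca_co.K3U
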