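import Mathlib

/-!
# The inequality at a vertex of a triple

PROOF. Write `s = √(1-g^2) > 0`, `d = (δ' - g δ)/s`, `d' = (δ - g δ')/s`, `R^2 = r^2+ρ^2`,
`u = √(R^2+x) ≥ R`. Algebra: `δ^2 + d^2 = δ'^2 + d'^2 = R^2` (both are
`(δ^2+δ'^2-2gδδ')/s^2`), `g R^2 = δ δ' - d d'`, `d + d' = (δ+δ')(1-g)/s > 0`.
`d^2 = R^2 - δ^2 ≤ ρ^2` as `δ ≥ r`, so `|d| ≤ ρ`; same for `d'`.
STEP 1: `(ρ^2+x)/ρ * (d/(u(u+δ)) + d'/(u(u+δ'))) ≥ (d+d') ρ/(2R^2)`.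
 `δ ≤ R ≤ u`, so `u(u+δ) ≤ 2u^2 = 2(R^2+x)` and `(ρ^2+x)/(2(R^2+x)) ≥ ρ^2/(2R^2)`; this gives the
 claim if `d, d' ≥ 0`. If `d' < 0` (so `d > 0`, `|d'| ≤ d`, hence `δ' ≥ δ`):
 `d'/(u+δ') ≥ d'/(u+δ)`, so the left side is `≥ (ρ^2+x)/ρ * (d+d')/(u(u+δ))`, and again
 `d + d' ≥ 0`. The case `d < 0` is symmetric. (Not both negative.)
STEP 2: `(d+d') ρ/(2R^2) ≥ (1-g)/2`, i.e. `ρ(d+d') ≥ R^2 - δδ' + dd'`, i.e.
 `r^2 + (ρ-d)(ρ-d') ≤ δδ'`. `δ^2 = r^2 + (ρ-d)(ρ+d)`, `δ'^2 = r^2 + (ρ-d')(ρ+d')`. Square: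
 `(δδ')^2 = r^4 + r^2[(ρ^2-d^2)+(ρ^2-d'^2)] + (ρ^2-d^2)(ρ^2-d'^2)` and
 `(r^2+(ρ-d)(ρ-d'))^2 = r^4 + 2r^2(ρ-d)(ρ-d') + ((ρ-d)(ρ-d'))^2`. Difference:
 `r^2[(ρ^2-d^2)+(ρ^2-d'^2) - 2(ρ-d)(ρ-d')] + (ρ-d)(ρ-d')[(ρ+d)(ρ+d')-(ρ-d)(ρ-d')]`; the last
 bracket is `2ρ(d+d') ≥ 0`; the first bracket is `2ρ(d+d') - (d+d')^2 = (d+d')(2ρ-d-d') ≥ 0`.
-/

set_option autoImplicit false

namespace Pool.Agent.Lib.MP_b2bfca_co.K3U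

theorem LocV_step2 {r ρ δ δ' d d' : ℝ} (hr : 0 < r) (hρ : 0 < ρ)
    (hδ : r ≤ δ) (hδ' : r ≤ δ') (h1 : δ ^ 2 + d ^ 2 = r ^ 2 + ρ ^ 2)
    (h2 : δ' ^ 2 + d' ^ 2 = r ^ 2 + ρ ^ 2) (hd : |d| ≤ ρ) (hd' : |d'| ≤ ρ) (hs : 0 ≤ d + d') :
    r ^ 2 + (ρ - d) * (ρ - d') ≤ δ * δ' := by
  obtain ⟨hd1, hd2⟩ := abs_le.1 hd
  obtain ⟨hd3, hd4⟩ := abs_le.1 hd'
  have hpos : 0 ≤ δ * δ' := mul_nonneg (by linarith) (by linarith)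
  have hA : 0 ≤ (ρ - d) * (ρ - d') := mul_nonneg (by linarith) (by linarith)
  have hsq : (r ^ 2 + (ρ - d) * (ρ - d')) ^ 2 ≤ (δ * δ') ^ 2 := by
    have e1 : δ ^ 2 = r ^ 2 + (ρ ^ 2 - d ^ 2) := by linarith
    have e2 : δ' ^ 2 = r ^ 2 + (ρ ^ 2 - d' ^ 2) := by linarith
    have e3 : (δ * δ') ^ 2 = (r ^ 2 + (ρ ^ 2 - d ^ 2)) * (r ^ 2 + (ρ ^ 2 - d' ^ 2)) := by
      rw [mul_pow, e1, e2]
    have e4 : (δ * δ') ^ 2 - (r ^ 2 + (ρ - d) * (ρ - d')) ^ 2 =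
        r ^ 2 * ((d + d') * (2 * ρ - d - d')) +
          ((ρ - d) * (ρ - d')) * (2 * ρ * (d + d')) := by
      rw [e3]; ring
    have e5 : 0 ≤ r ^ 2 * ((d + d') * (2 * ρ - d - d')) :=
      mul_nonneg (sq_nonneg r) (mul_nonneg hs (by linarith))
    have e6 : 0 ≤ ((ρ - d) * (ρ - d')) * (2 * ρ * (d + d')) :=
      mul_nonneg hA (mul_nonneg (by linarith) hs)
    linarith
  exact (pow_le_pow_iff_left₀ (by positivity) hpos two_ne_zero).1 hsq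

theorem LocV_le {d u δ : ℝ} (hd : 0 ≤ d) (hδ : 0 < δ) (hu : δ ≤ u) :
    d / (2 * u ^ 2) ≤ d / (u * (u + δ)) := by
  have hu0 : 0 < u := by linarith
  apply div_le_div_of_nonneg_left hd (by positivity)
  nlinarith

theorem LocV_neg {d' u δ δ' : ℝ} (hd : d' ≤ 0) (hδ : 0 < δ) (hu : 0 < u) (h : δ ≤ δ') :
    d' / (u * (u + δ)) ≤ d' / (u * (u + δ')) := by
  have h1 : (-d') / (u * (u + δ')) ≤ (-d') / (u * (u + δ)) := by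
    apply div_le_div_of_nonneg_left (by linarith) (by positivity)
    nlinarith
  rw [neg_div, neg_div] at h1
  linarith

theorem LocV_neg2 {r ρ δ δ' d d' u : ℝ} (hr : 0 < r) (hδ : r ≤ δ) (hδ' : r ≤ δ')
    (h1 : δ ^ 2 + d ^ 2 = r ^ 2 + ρ ^ 2)
    (h2 : δ' ^ 2 + d' ^ 2 = r ^ 2 + ρ ^ 2) (hs : 0 ≤ d + d')
    (hu : δ ≤ u) (hd' : d' < 0) :
    (d + d') / (2 * u ^ 2) ≤ d / (u * (u + δ)) + d' / (u * (u + δ')) := by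
  have hδδ : δ ≤ δ' := by
    have h3 : δ ^ 2 ≤ δ' ^ 2 := by nlinarith
    exact (pow_le_pow_iff_left₀ (by linarith) (by linarith) two_ne_zero).1 h3
  have h4 := LocV_neg (d' := d') (u := u) (δ := δ) (δ' := δ') hd'.le (by linarith) (by linarith) hδδ
  have h5 := LocV_le (d := d + d') (u := u) (δ := δ) hs (by linarith) hu
  have h6 : (d + d') / (u * (u + δ)) = d / (u * (u + δ)) + d' / (u * (u + δ)) := add_div _ _ _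
  linarith

theorem LocV_step1 {r ρ δ δ' d d' u : ℝ} (hr : 0 < r) (hδ : r ≤ δ) (hδ' : r ≤ δ')
    (h1 : δ ^ 2 + d ^ 2 = r ^ 2 + ρ ^ 2)
    (h2 : δ' ^ 2 + d' ^ 2 = r ^ 2 + ρ ^ 2) (hs : 0 ≤ d + d')
    (hu : δ ≤ u) (hu' : δ' ≤ u) :
    (d + d') / (2 * u ^ 2) ≤ d / (u * (u + δ)) + d' / (u * (u + δ')) := by
  rcases lt_or_ge d' 0 with hd' | hd'
  · exact LocV_neg2 hr hδ hδ' h1 h2 hs hu hd'
  · rcases lt_or_ge d 0 with hd | hd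
    · have := LocV_neg2 (d := d') (d' := d) hr hδ' hδ h2 h1 (by linarith) hu' hd
      rw [add_comm d d', add_comm (d / (u * (u + δ)))]
      exact this
    · have h5 := LocV_le (d := d) (u := u) (δ := δ) hd (by linarith) hu
      have h6 := LocV_le (d := d') (u := u) (δ := δ') hd' (by linarith) hu'
      have h7 : (d + d') / (2 * u ^ 2) = d / (2 * u ^ 2) + d' / (2 * u ^ 2) := add_div _ _ _
      linarith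

theorem LocV_core {r ρ δ δ' g x s d d' u : ℝ} (hr : 0 < r) (hρ : 0 < ρ) (hg : g ^ 2 < 1)
    (hδ : r ≤ δ) (hδ' : r ≤ δ') (hx : 0 ≤ x) (hs : 0 < s) (hs2 : s ^ 2 = 1 - g ^ 2)
    (hd : s * d = δ' - g * δ) (hd' : s * d' = δ - g * δ')
    (hR : δ ^ 2 + d ^ 2 = r ^ 2 + ρ ^ 2) (hu : 0 < u) (hu2 : u ^ 2 = r ^ 2 + ρ ^ 2 + x) :
    (1 - g) / 2 ≤ (ρ ^ 2 + x) / ρ * (d / (u * (u + δ)) + d' / (u * (u + δ'))) := by
  have hg1 : g < 1 := by nlinarith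
  have hg2 : -1 < g := by nlinarith
  have hs2' : 0 < s ^ 2 := by positivity
  have hR' : δ' ^ 2 + d' ^ 2 = r ^ 2 + ρ ^ 2 := by
    have h1 : s ^ 2 * (δ' ^ 2 + d' ^ 2) = s ^ 2 * (δ ^ 2 + d ^ 2) := by
      have e1 : s ^ 2 * (δ' ^ 2 + d' ^ 2) = s ^ 2 * δ' ^ 2 + (s * d') ^ 2 := by ring
      have e2 : s ^ 2 * (δ ^ 2 + d ^ 2) = s ^ 2 * δ ^ 2 + (s * d) ^ 2 := by ring
      rw [e1, e2, hd, hd', hs2]; ring
    rw [← hR]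
    exact mul_left_cancel₀ hs2'.ne' h1
  have hgR : g * (r ^ 2 + ρ ^ 2) = δ * δ' - d * d' := by
    have h1 : s ^ 2 * (g * (r ^ 2 + ρ ^ 2)) = s ^ 2 * (δ * δ' - d * d') := by
      rw [← hR]
      have e1 : s ^ 2 * (g * (δ ^ 2 + d ^ 2)) = g * (s ^ 2 * δ ^ 2 + (s * d) ^ 2) := by ring
      have e2 : s ^ 2 * (δ * δ' - d * d') = s ^ 2 * (δ * δ') - (s * d) * (s * d') := by ring
      rw [e1, e2, hd, hd', hs2]; ring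
    exact mul_left_cancel₀ hs2'.ne' h1
  have hsum : 0 ≤ d + d' := by
    have h1 : s * (d + d') = (δ + δ') * (1 - g) := by
      rw [mul_add, hd, hd']; ring
    have h2 : 0 < s * (d + d') := by
      rw [h1]; exact mul_pos (by linarith) (by linarith)
    exact (pos_of_mul_pos_right h2 hs.le).le
  have hdρ : |d| ≤ ρ := by
    apply abs_le_of_sq_le_sq' _ hρ.le |> fun h => abs_le.2 h
    nlinarith
  have hdρ' : |d'| ≤ ρ := by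
    apply abs_le_of_sq_le_sq' _ hρ.le |> fun h => abs_le.2 h
    nlinarith
  have huδ : δ ≤ u := by
    have h3 : δ ^ 2 ≤ u ^ 2 := by nlinarith [sq_nonneg d]
    exact (pow_le_pow_iff_left₀ (by linarith) (by linarith) two_ne_zero).1 h3
  have huδ' : δ' ≤ u := by
    have h3 : δ' ^ 2 ≤ u ^ 2 := by nlinarith [sq_nonneg d']
    exact (pow_le_pow_iff_left₀ (by linarith) (by linarith) two_ne_zero).1 h3
  have st2 := LocV_step2 hr hρ hδ hδ' hR hR' hdρ hdρ' hsum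
  have st1 := LocV_step1 hr hδ hδ' hR hR' hsum huδ huδ'
  have k1 : (1 - g) * (r ^ 2 + ρ ^ 2) ≤ ρ * (d + d') := by nlinarith
  have hc : 0 ≤ (ρ ^ 2 + x) / ρ := by positivity
  refine le_trans ?_ (mul_le_mul_of_nonneg_left st1 hc)
  rw [div_mul_div_comm, div_le_div_iff₀ (by norm_num) (by positivity), hu2]
  have k2 : (1 - g) * (ρ * (r ^ 2 + ρ ^ 2 + x)) ≤ (ρ ^ 2 + x) * (d + d') := by
    have hRpos : 0 < r ^ 2 + ρ ^ 2 := by positivity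
    have k3 : (r ^ 2 + ρ ^ 2) * ((1 - g) * (ρ * (r ^ 2 + ρ ^ 2 + x))) ≤
        (r ^ 2 + ρ ^ 2) * ((ρ ^ 2 + x) * (d + d')) := by
      have k4 : ((1 - g) * (r ^ 2 + ρ ^ 2)) * (ρ * (r ^ 2 + ρ ^ 2 + x)) ≤
          (ρ * (d + d')) * (ρ * (r ^ 2 + ρ ^ 2 + x)) :=
        mul_le_mul_of_nonneg_right k1 (by positivity)
      have k5 : (ρ ^ 2 * (r ^ 2 + ρ ^ 2 + x)) * (d + d') ≤
          ((r ^ 2 + ρ ^ 2) * (ρ ^ 2 + x)) * (d + d') := by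
        apply mul_le_mul_of_nonneg_right _ hsum
        nlinarith [mul_nonneg hx (sq_nonneg r)]
      nlinarith
    exact le_of_mul_le_mul_left k3 hRpos
  nlinarith

theorem vertex_ineq {r ρ δ δ' g x : ℝ} (hr : 0 < r) (hρ : 0 < ρ) (hg : g ^ 2 < 1)
    (hδ : r ≤ δ) (hδ' : r ≤ δ') (hx : 0 ≤ x)
    (hR : δ ^ 2 + ((δ' - g * δ) / Real.sqrt (1 - g ^ 2)) ^ 2 = r ^ 2 + ρ ^ 2) :
    (1 - g) / 2 ≤ (ρ ^ 2 + x) / ρ *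
      (((δ' - g * δ) / Real.sqrt (1 - g ^ 2)) /
          (Real.sqrt (r ^ 2 + ρ ^ 2 + x) * (Real.sqrt (r ^ 2 + ρ ^ 2 + x) + δ)) +
        ((δ - g * δ') / Real.sqrt (1 - g ^ 2)) /
          (Real.sqrt (r ^ 2 + ρ ^ 2 + x) * (Real.sqrt (r ^ 2 + ρ ^ 2 + x) + δ'))) := by
  have hs : 0 < Real.sqrt (1 - g ^ 2) := Real.sqrt_pos.2 (by linarith)
  have hs2 : Real.sqrt (1 - g ^ 2) ^ 2 = 1 - g ^ 2 := Real.sq_sqrt (by linarith)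
  have hu : 0 < Real.sqrt (r ^ 2 + ρ ^ 2 + x) := Real.sqrt_pos.2 (by positivity)
  have hu2 : Real.sqrt (r ^ 2 + ρ ^ 2 + x) ^ 2 = r ^ 2 + ρ ^ 2 + x :=
    Real.sq_sqrt (by positivity)
  exact LocV_core hr hρ hg hδ hδ' hx hs hs2 (mul_div_cancel₀ _ hs.ne')
    (mul_div_cancel₀ _ hs.ne') hR hu hu2

end Pool.Agent.Lib.MP_b2bfca_co.K3U
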