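import Pool.Agent.Lib.MP_b2bfca_co.K3U.Haus
import Pool.Agent.Lib.MP_b2bfca_co.K3U.Frame
import Pool.Agent.Lib.MP_b2bfca_co.K3U.GeoB

/-!
# Null sets

PROOF of `null_EX`. By `Gen.g2` (with `pw i = pw j = pw k = pw l` on `SS i j k ∩ SS i j l`) the set
`SS i j k ∩ SS i j l` has at most one point `y`. If empty then `EX = ∅`. Otherwise `EX` is contained in
`{c i + v | v ∈ span {tp - c i, y - tp}}`, a translate of a subspace of dimension at most
two, hence of measure zero (`Measure.addHaar_submodule`, `Measure.addHaar_affineSubspace`,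
`finrank_span_le_card`).
PROOF of `null_PL`. The condition is `inner (x - c i) v = 0` with
`v = de i j • ev i l - de i l • ev i j`. `v ≠ 0`: if `v = 0`, taking norms `de i j = de i l`, so
`ev i l = ev i j`, hence `sn i j l = 0` (`cs = 1`), and `tp i j = tp i l` satisfies
`pw i = pw j` and `pw i = pw l` (`pw_tp`), contradicting `Gen.g1`. The set is a translate of the
hyperplane `v^⊥`, a proper subspace, null.
-/

set_option autoImplicit false

namespace Pool.Agent.Lib.MP_b2bfca_co.K3U

open MeasureTheory

variable {ι : Type} (c : ι → E3) (w : ι → ℝ)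

theorem NullT_sub (p : E3) (S : Submodule ℝ E3) (hS : S ≠ ⊤) (X : Set E3)
    (hX : ∀ x ∈ X, x - p ∈ S) : volume X = 0 := by
  have h1 : volume ((fun x : E3 => x + (-p)) ⁻¹' (S : Set E3)) = 0 := by
    rw [measure_preimage_add_right]
    exact Measure.addHaar_submodule _ S hS
  refine measure_mono_null ?_ h1
  intro x hx
  rw [Set.mem_preimage, ← sub_eq_add_neg]
  exact hX x hx

theorem null_EX (hg : Gen c w) {i j k l : ι} (hk : Dist3 i j k) (hl : Dist3 i j l)
    (hkl : k ≠ l) : volume (EX c w i j k l) = 0 := by
  rcases Set.eq_empty_or_nonempty (SS c w i j k ∩ SS c w i j l) with h0 | ⟨y0, hy0⟩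
  · have h1 : EX c w i j k l = ∅ := by
      rw [Set.eq_empty_iff_forall_notMem]
      rintro x ⟨τ, _, s, _, _, y, hy, _⟩
      rw [h0] at hy
      exact hy
    rw [h1]
    exact measure_empty
  · have huniq : ∀ y ∈ SS c w i j k ∩ SS c w i j l, y = y0 := by
      intro y hy
      exact hg.g2 i j k l hk hl.2.1.symm hl.2.2.symm hkl.symm y y0
        ⟨hy.1.1, hy.1.2.1, hy.2.2.1⟩ ⟨hy0.1.1, hy0.1.2.1, hy0.2.2.1⟩
    refine NullT_sub (c i) (Submodule.span ℝ {tp c w i j - c i, y0 - tp c w i j}) ?_ _ ?_
    · intro htop
      have h1 : Module.finrank ℝ (Submodule.span ℝ ({tp c w i j - c i, y0 - tp c w i j} :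
          Set E3)) ≤ 2 := by
        classical
        have h2 := finrank_span_le_card (R := ℝ) ({tp c w i j - c i, y0 - tp c w i j} : Set E3)
        refine h2.trans ?_
        have h3 : ({tp c w i j - c i, y0 - tp c w i j} : Set E3).toFinset =
            ({tp c w i j - c i, y0 - tp c w i j} : Finset E3) := by
          ext z
          simp
        rw [h3]
        exact Finset.card_le_two
      rw [htop, finrank_top, finrank_euclideanSpace_fin] at h1
      norm_num at h1
    · rintro x ⟨τ, _, s, _, _, y, hy, rfl⟩
      rw [huniq y hy, add_sub_cancel_left]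
      refine Submodule.smul_mem _ _ (Submodule.add_mem _ ?_ (Submodule.smul_mem _ _ ?_))
      · exact Submodule.subset_span (by simp)
      · exact Submodule.subset_span (by simp)

theorem null_PL (hc : Function.Injective c) (hg : Gen c w) {i j l : ι} (h3 : Dist3 i j l)
    (hj : 0 < de c w i j) (hl : 0 < de c w i l) :
    volume {x : E3 | de c w i j * inner ℝ (x - c i) (ev c i l) =
      de c w i l * inner ℝ (x - c i) (ev c i j)} = 0 := by
  have hcij : c i ≠ c j := fun h => h3.1 (hc h)
  have hcil : c i ≠ c l := fun h => h3.2.1 (hc h)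
  have hv : de c w i j • ev c i l - de c w i l • ev c i j ≠ 0 := by
    intro h0
    rw [sub_eq_zero] at h0
    have h1 : de c w i j = de c w i l := by
      have := congrArg norm h0
      rwa [norm_smul, norm_smul, norm_ev c hcil, norm_ev c hcij, mul_one, mul_one,
        Real.norm_eq_abs, Real.norm_eq_abs, abs_of_pos hj, abs_of_pos hl] at this
    have h2 : ev c i l = ev c i j := by
      rw [← h1] at h0
      exact smul_right_injective E3 hj.ne' h0
    have hs : sn c i j l = 0 := by
      rw [sn, cs, h2, real_inner_self_eq_norm_sq, norm_ev c hcij]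
      norm_num
    refine hg.g1 i j l h3 hs (tp c w i j) ⟨pw_tp c w hcij, ?_⟩
    have h4 : tp c w i j = tp c w i l := by
      rw [tp, tp, h1, h2]
    rw [h4]
    exact pw_tp c w hcil
  refine NullT_sub (c i) (Submodule.span ℝ {de c w i j • ev c i l - de c w i l • ev c i j})ᗮ
    ?_ _ ?_
  · intro htop
    rw [Submodule.orthogonal_eq_top_iff, Submodule.span_singleton_eq_bot] at htop
    exact hv htop
  · intro x hx
    rw [Submodule.mem_orthogonal_singleton_iff_inner_left, inner_sub_right,
      real_inner_smul_right, real_inner_smul_right, sub_eq_zero]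
    exact hx

end Pool.Agent.Lib.MP_b2bfca_co.K3U
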