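import Pool.Agent.Lib.MP_b2bfca_co.K3U.LocI
import Pool.Agent.Lib.MP_b2bfca_co.K3U.GeoB

/-!
# Continuity of the densities in the parameters

PROOF. `de c w a b` and `dd c w a b c'` are continuous functions of `w` (affine). General lemma:
if `G : ℝ × ℝ → ℝ → ℝ` is jointly continuous near `p0` (for each `h`, `p ↦ G p h` continuous at
`p0`) and `|G p h| ≤ C/(1+h^2)` for `p` near `p0`, then `∫ |G p h - G p0 h| dh → 0` as `p → p0`
(`tendsto_integral_filter_of_dominated_convergence`, bound `2C/(1+h^2)`).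
Apply it to `fa` at `(δ0, d0)` with `δ0 > 0` (for `δ ≥ δ0/2`, `|d| ≤ |d0|+1`:
`|fa δ d h| ≤ |d|/(δ^2+h^2) ≤ C/(1+h^2)`) and to `fb` at `d0 > 0` (`d ≥ d0/2`). -/

set_option autoImplicit false

namespace Pool.Agent.Lib.MP_b2bfca_co.K3U

open MeasureTheory Filter Topology

theorem continuous_de {ι : Type} (c : ι → E3) (i j : ι) : Continuous fun w => de c w i j := by
  unfold de
  exact (((continuous_const.add (continuous_apply i)).sub (continuous_apply j)).div_const _)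

theorem continuous_dd {ι : Type} (c : ι → E3) (i j k : ι) :
    Continuous fun w => dd c w i j k := by
  unfold dd
  exact ((continuous_de c i k).sub (continuous_const.mul (continuous_de c i j))).div_const _

theorem pertA_gen {α : Type} [TopologicalSpace α] [FirstCountableTopology α] {G : α → ℝ → ℝ}
    {p0 : α} {C : ℝ} (hm : ∀ p, Measurable (G p)) (hc : ∀ h, ContinuousAt (fun p => G p h) p0)
    (hb : ∀ᶠ p in 𝓝 p0, ∀ h, |G p h| ≤ C * (1 + h ^ 2)⁻¹) {ε : ℝ} (hε : 0 < ε) :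
    ∀ᶠ p in 𝓝 p0, ∫ h, |G p h - G p0 h| ≤ ε := by
  have h0 : ∀ h, |G p0 h| ≤ C * (1 + h ^ 2)⁻¹ := hb.self_of_nhds
  have ht : Tendsto (fun p => ∫ h, |G p h - G p0 h|) (𝓝 p0) (𝓝 (∫ _h : ℝ, (0 : ℝ))) := by
    refine tendsto_integral_filter_of_dominated_convergence
      (fun h => 2 * C * (1 + h ^ 2)⁻¹) ?_ ?_ ?_ ?_
    · refine Eventually.of_forall fun p => ?_
      exact ((hm p).sub (hm p0)).abs.aestronglyMeasurable
    · filter_upwards [hb] with p hp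
      refine Eventually.of_forall fun h => ?_
      rw [Real.norm_eq_abs, abs_abs]
      calc |G p h - G p0 h| ≤ |G p h| + |G p0 h| := abs_sub _ _
        _ ≤ C * (1 + h ^ 2)⁻¹ + C * (1 + h ^ 2)⁻¹ := add_le_add (hp h) (h0 h)
        _ = 2 * C * (1 + h ^ 2)⁻¹ := by ring
    · exact integrable_inv_one_add_sq.const_mul _
    · refine Eventually.of_forall fun h => ?_
      have h1 : Tendsto (fun p => |G p h - G p0 h|) (𝓝 p0) (𝓝 |G p0 h - G p0 h|) :=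
        ((hc h).tendsto.sub tendsto_const_nhds).abs
      simpa using h1
  rw [integral_zero] at ht
  exact (ht.eventually (ge_mem_nhds hε)).mono fun p hp => hp

theorem pertA_min {a h : ℝ} : min 1 (a ^ 2) * (1 + h ^ 2) ≤ a ^ 2 + h ^ 2 := by
  have h1 : min 1 (a ^ 2) ≤ 1 := min_le_left _ _
  have h2 : min 1 (a ^ 2) ≤ a ^ 2 := min_le_right _ _
  have h3 : 0 ≤ h ^ 2 := sq_nonneg h
  nlinarith [mul_le_mul_of_nonneg_right h1 h3]

theorem pert_fa {δ0 : ℝ} (hδ : 0 < δ0) (d0 : ℝ) {ε : ℝ} (hε : 0 < ε) :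
    ∀ᶠ p : ℝ × ℝ in 𝓝 (δ0, d0), 0 < p.1 ∧ ∫ h, |fa p.1 p.2 h - fa δ0 d0 h| ≤ ε := by
  have hpos : ∀ᶠ p : ℝ × ℝ in 𝓝 (δ0, d0), δ0 / 2 < p.1 :=
    (continuous_fst.tendsto (δ0, d0)).eventually (lt_mem_nhds (by simpa using by linarith))
  have hd : ∀ᶠ p : ℝ × ℝ in 𝓝 (δ0, d0), |p.2| < |d0| + 1 :=
    ((continuous_snd.tendsto (δ0, d0)).abs).eventually (gt_mem_nhds (by simp))
  have hgen := pertA_gen (G := fun p : ℝ × ℝ => fa p.1 p.2) (p0 := (δ0, d0))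
    (C := (|d0| + 1) * (min 1 ((δ0 / 2) ^ 2))⁻¹) ?_ ?_ ?_ hε
  · filter_upwards [hpos, hgen] with p h1 h2
    exact ⟨by linarith, h2⟩
  · intro p
    unfold fa
    fun_prop
  · intro h
    unfold fa
    have hs : 0 < Real.sqrt (δ0 ^ 2 + d0 ^ 2 + h ^ 2) := Real.sqrt_pos.2 (by positivity)
    have h2 : Real.sqrt (δ0 ^ 2 + d0 ^ 2 + h ^ 2) *
        (Real.sqrt (δ0 ^ 2 + d0 ^ 2 + h ^ 2) + δ0) ≠ 0 := by positivity
    exact ContinuousAt.div (by fun_prop) (by fun_prop) h2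
  · filter_upwards [hpos, hd] with p h1 h2
    intro h
    have hp1 : 0 < p.1 := by linarith
    have hm0 : 0 < min 1 ((δ0 / 2) ^ 2) := lt_min one_pos (by positivity)
    have hA : 0 < p.1 ^ 2 + p.2 ^ 2 + h ^ 2 := by positivity
    have hs : 0 < Real.sqrt (p.1 ^ 2 + p.2 ^ 2 + h ^ 2) := Real.sqrt_pos.2 hA
    have hden : min 1 ((δ0 / 2) ^ 2) * (1 + h ^ 2) ≤ Real.sqrt (p.1 ^ 2 + p.2 ^ 2 + h ^ 2) *
        (Real.sqrt (p.1 ^ 2 + p.2 ^ 2 + h ^ 2) + p.1) := by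
      have e1 : Real.sqrt (p.1 ^ 2 + p.2 ^ 2 + h ^ 2) * Real.sqrt (p.1 ^ 2 + p.2 ^ 2 + h ^ 2) =
        p.1 ^ 2 + p.2 ^ 2 + h ^ 2 := Real.mul_self_sqrt hA.le
      have e2 : 0 ≤ Real.sqrt (p.1 ^ 2 + p.2 ^ 2 + h ^ 2) * p.1 := by positivity
      have e3 : (δ0 / 2) ^ 2 ≤ p.1 ^ 2 := pow_le_pow_left₀ (by positivity) h1.le 2
      have e4 := pertA_min (a := δ0 / 2) (h := h)
      rw [mul_add (Real.sqrt (p.1 ^ 2 + p.2 ^ 2 + h ^ 2)), e1]
      linarith [sq_nonneg p.2]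
    change |fa p.1 p.2 h| ≤ _
    unfold fa
    rw [abs_div, abs_of_nonneg (show (0 : ℝ) ≤ Real.sqrt (p.1 ^ 2 + p.2 ^ 2 + h ^ 2) *
        (Real.sqrt (p.1 ^ 2 + p.2 ^ 2 + h ^ 2) + p.1) by positivity)]
    calc |p.2| / (Real.sqrt (p.1 ^ 2 + p.2 ^ 2 + h ^ 2) *
        (Real.sqrt (p.1 ^ 2 + p.2 ^ 2 + h ^ 2) + p.1))
        ≤ (|d0| + 1) / (min 1 ((δ0 / 2) ^ 2) * (1 + h ^ 2)) :=
          div_le_div₀ (by positivity) h2.le (by positivity) hden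
      _ = (|d0| + 1) * (min 1 ((δ0 / 2) ^ 2))⁻¹ * (1 + h ^ 2)⁻¹ := by
          rw [div_eq_mul_inv, mul_inv, mul_assoc]

theorem pert_fb {d0 : ℝ} (hd : 0 < d0) {ε : ℝ} (hε : 0 < ε) :
    ∀ᶠ d : ℝ in 𝓝 d0, 0 < d ∧ ∫ h, |fb d h - fb d0 h| ≤ ε := by
  have hpos : ∀ᶠ d : ℝ in 𝓝 d0, d0 / 2 < d := lt_mem_nhds (by linarith)
  have hlt : ∀ᶠ d : ℝ in 𝓝 d0, d < d0 + 1 := gt_mem_nhds (by linarith)
  have hgen := pertA_gen (G := fun d : ℝ => fb d) (p0 := d0)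
    (C := (d0 + 1) * (min 1 ((d0 / 2) ^ 2))⁻¹) ?_ ?_ ?_ hε
  · filter_upwards [hpos, hgen] with d h1 h2
    exact ⟨by linarith, h2⟩
  · intro d
    unfold fb
    fun_prop
  · intro h
    unfold fb
    have h2 : d0 ^ 2 + h ^ 2 ≠ 0 := by positivity
    exact ContinuousAt.div (by fun_prop) (by fun_prop) h2
  · filter_upwards [hpos, hlt] with d h1 h2
    intro h
    have hd1 : 0 < d := by linarith
    have hm0 : 0 < min 1 ((d0 / 2) ^ 2) := lt_min one_pos (by positivity)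
    have hden : min 1 ((d0 / 2) ^ 2) * (1 + h ^ 2) ≤ d ^ 2 + h ^ 2 := by
      have e3 : (d0 / 2) ^ 2 ≤ d ^ 2 := pow_le_pow_left₀ (by positivity) h1.le 2
      have e4 := pertA_min (a := d0 / 2) (h := h)
      linarith
    change |fb d h| ≤ _
    unfold fb
    rw [abs_of_nonneg (by positivity)]
    calc d / (d ^ 2 + h ^ 2) ≤ (d0 + 1) / (min 1 ((d0 / 2) ^ 2) * (1 + h ^ 2)) :=
          div_le_div₀ (by positivity) h2.le (by positivity) hden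
      _ = (d0 + 1) * (min 1 ((d0 / 2) ^ 2))⁻¹ * (1 + h ^ 2)⁻¹ := by
          rw [div_eq_mul_inv, mul_inv, mul_assoc]

end Pool.Agent.Lib.MP_b2bfca_co.K3U
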