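import Pool.Agent.Lib.MP_b2bfca_co.K3U.PlDefs

/-!
# Planarity: first lemmas

PROOFS.
* `cone_neg`: the sum of the nonpositive numbers `inner (U l) Y` is `≤ 0`; if it is `0` all are `0`, so
  `Y` is orthogonal to four independent vectors (`h4`, choose an injective `v`), `Y = 0`.
* `indep3`: three distinct elements can be completed to four (`h4`).
* `exists_ZGen`: finitely many subspaces of dimension at most three do not cover `ℝ^4`
  (`Subspace.biUnion_ne_univ_of_top_notMem` / `Submodule.iUnion_ssubset_of_forall_ne_top_of_card_lt`).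
* `coef`: the three independent vectors `U l`, `l ∈ s`, span the orthogonal complement of `Y`
  (dimension three, `Y ≠ 0`), which contains `Z + (inner Z Y) • V0` as `inner V0 Y = -1`. So `a`
  exists. `a l ≠ 0`: otherwise `Z` is in the span of the two other `U m` and `V0`. If
  `Z + f V0 = ∑ a' m U m` is another expansion, pairing with `Y` gives `f = inner Z Y`, then `a = a'` on
  `s` by independence. For `-Z` negate.
* `ps_xor` from `coef`.
-/

set_option autoImplicit false
set_option linter.unusedSectionVars false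

namespace Pool.Agent.Lib.MP_b2bfca_co.K3U

variable {τ : Type} [Fintype τ] [DecidableEq τ] (U : τ → R4) (Z : R4)

/-- Four tight constraints force `Y = 0`. -/
theorem eq_zero_of_four (hG : Gp4 U) {v : Fin 4 → τ} (hv : Function.Injective v) {Y : R4}
    (h : ∀ a, inner ℝ (U (v a)) Y = 0) : Y = 0 := by
  have h1 := hG v hv
  have h2 : Fintype.card (Fin 4) = Module.finrank ℝ R4 := by simp
  refine InnerProductSpace.ext_inner_left_basis
    (basisOfLinearIndependentOfCardEqFinrank h1 h2) fun i => ?_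
  rw [inner_zero_right, coe_basisOfLinearIndependentOfCardEqFinrank]
  exact h i

theorem eq_zero_of_orth (hG : Gp4 U) (h4 : 4 ≤ Fintype.card τ) {Y : R4}
    (h : ∀ l, inner ℝ (U l) Y = 0) : Y = 0 := by
  have h1 : Fintype.card (Fin 4) ≤ Fintype.card τ := by simpa using h4
  obtain ⟨v⟩ := Function.Embedding.nonempty_of_card_le h1
  exact eq_zero_of_four U hG v.injective fun a => h _

theorem cone_neg (hG : Gp4 U) (h4 : 4 ≤ Fintype.card τ) {Y : R4} (hY : Y ≠ 0)
    (h : ∀ l, inner ℝ (U l) Y ≤ 0) : inner ℝ (V0 U) Y < 0 := by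
  have h1 : inner ℝ (V0 U) Y = ∑ l, inner ℝ (U l) Y := by
    rw [V0, sum_inner]
  rw [h1]
  rcases (Finset.sum_nonpos fun l _ => h l).lt_or_eq with h2 | h2
  · exact h2
  · exfalso
    have h3 := (Finset.sum_eq_zero_iff_of_nonpos fun l _ => h l).mp h2
    exact hY (eq_zero_of_orth U hG h4 fun l => h3 l (Finset.mem_univ l))

theorem indep3 (hG : Gp4 U) (h4 : 4 ≤ Fintype.card τ) {v : Fin 3 → τ}
    (hv : Function.Injective v) : LinearIndependent ℝ (fun a => U (v a)) := by
  have h1 : ∃ l, l ∉ Set.range v := by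
    by_contra h
    push Not at h
    have h2 := Fintype.card_le_of_surjective v fun l => h l
    rw [Fintype.card_fin] at h2
    omega
  obtain ⟨l, hl⟩ := h1
  have h2 : Function.Injective (Fin.cons l v : Fin 4 → τ) := Fin.cons_injective_iff.mpr ⟨hl, hv⟩
  have h3 := (hG _ h2).comp Fin.succ (Fin.succ_injective 3)
  have h5 : (fun a => U (v a)) =
      (fun a : Fin 4 => U ((Fin.cons l v : Fin 4 → τ) a)) ∘ Fin.succ := by
    funext a
    simp
  rw [h5]
  exact h3

/-- A proper subspace has an element of the orthogonal complement on the side of `Z`. -/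
theorem pla_W (S : Submodule ℝ R4) {Z : R4} (hZ : Z ∉ S) :
    ∃ W : R4, (∀ X ∈ S, inner ℝ X W = 0) ∧ 0 < inner ℝ Z W := by
  have h1 := S.sub_starProjection_mem_orthogonal Z
  refine ⟨Z - S.starProjection Z, fun X hX => ?_, ?_⟩
  · exact (Submodule.mem_orthogonal _ _).mp h1 X hX
  · have h2 : inner ℝ (S.starProjection Z) (Z - S.starProjection Z) = 0 :=
      (Submodule.mem_orthogonal _ _).mp h1 _ (Submodule.starProjection_apply_mem S Z)
    have h3 : inner ℝ Z (Z - S.starProjection Z) =
        inner ℝ (Z - S.starProjection Z) (Z - S.starProjection Z) := by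
      rw [inner_sub_left (Z) (S.starProjection Z) (Z - S.starProjection Z), h2, sub_zero]
    rw [h3]
    have h4 : Z - S.starProjection Z ≠ 0 := by
      intro h
      apply hZ
      rw [sub_eq_zero] at h
      rw [h]
      exact Submodule.starProjection_apply_mem S Z
    exact real_inner_self_pos.mpr h4

theorem exists_ZGen : ∃ Z : R4, ZGen U Z := by
  have h1 : ∀ p : τ × τ, Submodule.span ℝ ({U p.1, U p.2, V0 U} : Set R4) ≠ ⊤ := by
    intro p h
    have h2 : Module.finrank ℝ (Submodule.span ℝ ({U p.1, U p.2, V0 U} : Set R4)) = 4 := by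
      rw [h, finrank_top]
      simp
    have h3 : Module.finrank ℝ (Submodule.span ℝ
        ((({U p.1, U p.2, V0 U} : Finset R4) : Set R4))) ≤
        ({U p.1, U p.2, V0 U} : Finset R4).card := finrank_span_finset_le_card _
    have h4 : ({U p.1, U p.2, V0 U} : Finset R4).card ≤ 3 := Finset.card_le_three
    have h5 : ((({U p.1, U p.2, V0 U} : Finset R4) : Set R4)) = {U p.1, U p.2, V0 U} := by
      simp
    rw [h5, h2] at h3
    omega
  obtain ⟨Z, hZ⟩ := Submodule.exists_forall_notMem_of_forall_ne_top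
    (fun i : τ × τ => Submodule.span ℝ ({U i.1, U i.2, V0 U} : Set R4)) h1
  exact ⟨Z, fun j k h => hZ (j, k) h⟩

theorem ZGen_neg (hZ : ZGen U Z) : ZGen U (-Z) := by
  intro j k h
  exact hZ j k ((Submodule.neg_mem_iff _).mp h)

/-- Three of the vectors are independent on a finite set. -/
theorem pla_indepOn (hG : Gp4 U) (h4 : 4 ≤ Fintype.card τ) {s : Finset τ} (hs : s.card = 3) :
    LinearIndependent ℝ (fun m : s => U m) := by
  have e : Fin 3 ≃ s := (s.equivFinOfCardEq hs).symm
  have h1 : Function.Injective fun a : Fin 3 => (e a : τ) :=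
    Subtype.val_injective.comp e.injective
  have h2 := (indep3 U hG h4 h1).comp e.symm e.symm.injective
  have h3 : (fun a : Fin 3 => U (e a : τ)) ∘ e.symm = fun m : s => U m := by
    funext m
    simp
  rw [h3] at h2
  exact h2

/-- Expansion of the vectors orthogonal to `Y`. -/
theorem pla_expand (hG : Gp4 U) (h4 : 4 ≤ Fintype.card τ) {s : Finset τ} (hs : s.card = 3)
    {Y : R4} (hY : Y ≠ 0) (h0 : ∀ l ∈ s, inner ℝ (U l) Y = 0) {X : R4}
    (hX : inner ℝ X Y = 0) : ∃ a : τ → ℝ, X = ∑ m ∈ s, a m • U m := by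
  have hli := pla_indepOn U hG h4 hs
  have h1 : Module.finrank ℝ (Submodule.span ℝ (Set.range fun m : s => U m)) = 3 := by
    rw [finrank_span_eq_card hli, Fintype.card_coe, hs]
  have : Fact (Module.finrank ℝ R4 = 3 + 1) := ⟨by simp⟩
  have h2 : Module.finrank ℝ ((Submodule.span ℝ ({Y} : Set R4))ᗮ : Submodule ℝ R4) = 3 :=
    Submodule.finrank_orthogonal_span_singleton hY
  have h3 : Submodule.span ℝ (Set.range fun m : s => U m) ≤
      (Submodule.span ℝ ({Y} : Set R4))ᗮ := by
    rw [Submodule.span_le]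
    rintro _ ⟨m, rfl⟩
    rw [SetLike.mem_coe, Submodule.mem_orthogonal_singleton_iff_inner_left]
    exact h0 m m.2
  have h5 := Submodule.eq_of_le_of_finrank_eq h3 (h1.trans h2.symm)
  have h6 : X ∈ Submodule.span ℝ (Set.range fun m : s => U m) := by
    rw [h5, Submodule.mem_orthogonal_singleton_iff_inner_left]
    exact hX
  obtain ⟨c, hc⟩ := (Submodule.mem_span_range_iff_exists_fun ℝ).mp h6
  refine ⟨fun m => if h : m ∈ s then c ⟨m, h⟩ else 0, ?_⟩
  rw [← hc, ← Finset.sum_coe_sort s]
  apply Finset.sum_congr rfl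
  intro m _
  simp only [m.2, dite_true, Subtype.coe_eta]

/-- Uniqueness of the expansion. -/
theorem pla_unique (hG : Gp4 U) (h4 : 4 ≤ Fintype.card τ) {s : Finset τ} (hs : s.card = 3)
    {a a' : τ → ℝ} (h : ∑ m ∈ s, a m • U m = ∑ m ∈ s, a' m • U m) : ∀ l ∈ s, a l = a' l := by
  have hli := pla_indepOn U hG h4 hs
  rw [Fintype.linearIndependent_iff] at hli
  have h1 : ∑ m : s, (a m - a' m) • U m = 0 := by
    rw [Finset.sum_coe_sort s fun m => (a m - a' m) • U m]
    simp_rw [sub_smul]
    rw [Finset.sum_sub_distrib, h, sub_self]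
  intro l hl
  have h2 := hli (fun m : s => a m - a' m) h1 ⟨l, hl⟩
  linarith

theorem coef (hG : Gp4 U) (h4 : 4 ≤ Fintype.card τ) (hZ : ZGen U Z) {s : Finset τ}
    (hs : s.card = 3) {Y : R4} (hY : inner ℝ (V0 U) Y = -1)
    (h0 : ∀ l ∈ s, inner ℝ (U l) Y = 0) :
    ∃ a : τ → ℝ, Z + (inner ℝ Z Y : ℝ) • V0 U = ∑ m ∈ s, a m • U m ∧ (∀ l ∈ s, a l ≠ 0) ∧
      (∀ l ∈ s, (Ps U Z s l ↔ 0 < a l)) ∧ ∀ l ∈ s, (Ps U (-Z) s l ↔ a l < 0) := by
  have hY0 : Y ≠ 0 := by
    rintro rfl
    rw [inner_zero_right] at hY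
    norm_num at hY
  have hX : inner ℝ (Z + (inner ℝ Z Y : ℝ) • V0 U) Y = 0 := by
    rw [inner_add_left, real_inner_smul_left, hY]
    ring
  obtain ⟨a, ha⟩ := pla_expand U hG h4 hs hY0 h0 hX
  have hpair : ∀ b : τ → ℝ, inner ℝ (∑ m ∈ s, b m • U m) Y = 0 := by
    intro b
    rw [sum_inner]
    apply Finset.sum_eq_zero
    intro m hm
    rw [real_inner_smul_left, h0 m hm, mul_zero]
  refine ⟨a, ha, ?_, ?_, ?_⟩
  · intro l hl hl0
    have h1 : (s.erase l).card = 2 := by
      rw [Finset.card_erase_of_mem hl, hs]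
    obtain ⟨j, k, hjk, h2⟩ := Finset.card_eq_two.mp h1
    have h3 : Z = a j • U j + a k • U k - (inner ℝ Z Y : ℝ) • V0 U := by
      rw [eq_sub_iff_add_eq, ha, ← Finset.add_sum_erase s _ hl, hl0, zero_smul, zero_add, h2,
        Finset.sum_pair hjk]
    apply hZ j k
    rw [h3]
    refine Submodule.sub_mem _ (Submodule.add_mem _ ?_ ?_) ?_
    · exact Submodule.smul_mem _ _ (Submodule.subset_span (by simp))
    · exact Submodule.smul_mem _ _ (Submodule.subset_span (by simp))
    · exact Submodule.smul_mem _ _ (Submodule.subset_span (by simp))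
  · intro l hl
    constructor
    · rintro ⟨f, b, h1, h2⟩
      have h3 : inner ℝ (Z + f • V0 U) Y = 0 := by
        rw [h1]
        exact hpair b
      rw [inner_add_left, real_inner_smul_left, hY] at h3
      have h5 : f = inner ℝ Z Y := by linarith
      rw [h5, ha] at h1
      rw [pla_unique U hG h4 hs h1 l hl]
      exact h2
    · intro h
      exact ⟨_, a, ha, h⟩
  · intro l hl
    constructor
    · rintro ⟨f, b, h1, h2⟩
      have h3 : inner ℝ (-Z + f • V0 U) Y = 0 := by
        rw [h1]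
        exact hpair b
      rw [inner_add_left, inner_neg_left, real_inner_smul_left, hY] at h3
      have h5 : f = - inner ℝ Z Y := by linarith
      have h6 : ∑ m ∈ s, a m • U m = ∑ m ∈ s, (fun m => - b m) m • U m := by
        rw [← ha]
        simp_rw [neg_smul]
        rw [Finset.sum_neg_distrib, ← h1, h5]
        simp [add_comm]
      have h7 := pla_unique U hG h4 hs h6 l hl
      have h8 : a l = - b l := h7
      linarith
    · intro h
      refine ⟨- inner ℝ Z Y, fun m => - a m, ?_, by simpa using h⟩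
      have h8 : ∑ m ∈ s, (fun m => - a m) m • U m = - ∑ m ∈ s, a m • U m := by
        rw [← Finset.sum_neg_distrib]
        apply Finset.sum_congr rfl
        intro m _
        exact neg_smul _ _
      rw [h8, ← ha, neg_smul]
      abel

theorem ps_xor (hG : Gp4 U) (h4 : 4 ≤ Fintype.card τ) (hZ : ZGen U Z) {s : Finset τ}
    (hs : IsVx U s) {l : τ} (hl : l ∈ s) : Ps U Z s l ↔ ¬ Ps U (-Z) s l := by
  obtain ⟨hs3, Y, hY, h0, -⟩ := hs
  obtain ⟨a, -, h1, h2, h3⟩ := coef U Z hG h4 hZ hs3 hY h0
  rw [h2 l hl, h3 l hl, not_lt]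
  exact ⟨le_of_lt, fun h => lt_of_le_of_ne h (h1 l hl).symm⟩

end Pool.Agent.Lib.MP_b2bfca_co.K3U
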