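import Mathlib

/-!
# Planarity: the counting argument

PROOF. For `s ∈ Vx` let `p s` be the number of `l ∈ s` with `sg s l`; `p s ∈ {0,1,2,3}`.
* `Ed.card ≤ ∑ s ∈ Vx, p s`: the map `p ↦ (insert l p, l)` is injective (`p = s.erase l`) into the
  pairs `(s, l)`, `l ∈ s`, `sg s l`.
* `∑ s ∈ Vx, ((if p s = 2 then 1 else 0) + (if p s = 3 then 3 else 0)) ≤ card τ`: this is the number of
  pairs `(s, j)`, `j ∈ s`, with `sg s l` for all `l ∈ s`, `l ≠ j`; by `hFp` the map to `j` is injective.
* the same with `p s = 1`, `p s = 0` for the negation (`hFn`).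
* `p = [p=1] + 2[p=2] + 3[p=3] = ([p=1] + 3[p=0]) + 2([p=2] + 3[p=3]) - 3[p=0] - 3[p=3]`; sum,
  and use that some `p s = 3` and some `p s = 0`.
-/

set_option autoImplicit false

namespace Pool.Agent.Lib.MP_b2bfca_co.K3U

private theorem plc_inj {τ : Type} [Fintype τ] [DecidableEq τ] (Vx : Finset (Finset τ))
    (h3 : ∀ s ∈ Vx, s.card = 3) (q : Finset τ → τ → Prop) [∀ s l, Decidable (q s l)]
    (hF : ∀ j, ∀ s ∈ Vx, ∀ s' ∈ Vx, j ∈ s → j ∈ s' → (∀ l ∈ s, l ≠ j → q s l) →
      (∀ l ∈ s', l ≠ j → q s' l) → s = s') :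
    ∑ s ∈ Vx, ((if (s.filter (q s)).card = 2 then 1 else 0) +
      (if (s.filter (q s)).card = 3 then 3 else 0)) ≤ Fintype.card τ := by
  -- pairs `(s, j)`
  set A : Finset (Σ _ : Finset τ, τ) :=
    Vx.sigma (fun s => s.filter (fun j => ∀ l ∈ s, l ≠ j → q s l)) with hA
  have hAc : A.card ≤ Fintype.card τ := by
    rw [← Finset.card_univ]
    apply Finset.card_le_card_of_injOn (fun x => x.2) (fun x _ => Finset.mem_univ _)
    rintro ⟨s, j⟩ hx ⟨s', j'⟩ hy hxy
    simp only at hxy
    subst hxy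
    rw [hA] at hx hy
    simp only [Finset.coe_sigma, Set.mem_sigma_iff, Finset.mem_coe, Finset.mem_filter] at hx hy
    have := hF j s hx.1 s' hy.1 hx.2.1 hy.2.1 hx.2.2 hy.2.2
    subst this
    rfl
  refine le_trans ?_ hAc
  rw [hA, Finset.card_sigma]
  apply Finset.sum_le_sum
  intro s hs
  have hs3 := h3 s hs
  by_cases c3 : (s.filter (q s)).card = 3
  · have hall : s.filter (q s) = s := by
      apply Finset.eq_of_subset_of_card_le (Finset.filter_subset _ _)
      rw [c3, hs3]
    have hq : ∀ l ∈ s, q s l := fun l hl => by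
      rw [← hall, Finset.mem_filter] at hl
      exact hl.2
    have : s.filter (fun j => ∀ l ∈ s, l ≠ j → q s l) = s := by
      rw [Finset.filter_eq_self]
      intro j _ l hl _
      exact hq l hl
    rw [this, hs3, c3]
    simp
  · by_cases c2 : (s.filter (q s)).card = 2
    · have hne : (s \ s.filter (q s)).card = 1 := by
        rw [Finset.card_sdiff_of_subset (Finset.filter_subset _ _), hs3, c2]
      obtain ⟨j, hj⟩ := Finset.card_eq_one.1 hne
      have hjs : j ∈ s.filter (fun j => ∀ l ∈ s, l ≠ j → q s l) := by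
        have hj1 : j ∈ s \ s.filter (q s) := by rw [hj]; exact Finset.mem_singleton_self j
        rw [Finset.mem_filter]
        refine ⟨(Finset.mem_sdiff.1 hj1).1, fun l hl hlj => ?_⟩
        by_contra hq
        have : l ∈ s \ s.filter (q s) := by
          rw [Finset.mem_sdiff, Finset.mem_filter]
          exact ⟨hl, fun h => hq h.2⟩
        rw [hj, Finset.mem_singleton] at this
        exact hlj this
      have : 1 ≤ (s.filter (fun j => ∀ l ∈ s, l ≠ j → q s l)).card :=
        Finset.card_pos.2 ⟨j, hjs⟩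
      rw [c2]
      simpa using this
    · rw [if_neg c2, if_neg c3]
      exact Nat.zero_le _

theorem count_abs {τ : Type} [Fintype τ] [DecidableEq τ] (Vx : Finset (Finset τ))
    (h3 : ∀ s ∈ Vx, s.card = 3) (sg : Finset τ → τ → Prop) (Ed : Finset (Finset τ))
    (hE : ∀ p ∈ Ed, ∃ l, l ∉ p ∧ insert l p ∈ Vx ∧ sg (insert l p) l)
    (hFp : ∀ j, ∀ s ∈ Vx, ∀ s' ∈ Vx, j ∈ s → j ∈ s' → (∀ l ∈ s, l ≠ j → sg s l) →
      (∀ l ∈ s', l ≠ j → sg s' l) → s = s')
    (hFn : ∀ j, ∀ s ∈ Vx, ∀ s' ∈ Vx, j ∈ s → j ∈ s' → (∀ l ∈ s, l ≠ j → ¬ sg s l) →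
      (∀ l ∈ s', l ≠ j → ¬ sg s' l) → s = s')
    (hGp : ∃ s ∈ Vx, ∀ l ∈ s, sg s l) (hGn : ∃ s ∈ Vx, ∀ l ∈ s, ¬ sg s l) :
    Ed.card + 6 ≤ 3 * Fintype.card τ := by
  classical
  set p : Finset τ → ℕ := fun s => (s.filter (sg s)).card with hp
  set m : Finset τ → ℕ := fun s => (s.filter (fun l => ¬ sg s l)).card with hm
  have hpm : ∀ s ∈ Vx, p s + m s = 3 := by
    intro s hs
    rw [← h3 s hs]
    exact Finset.card_filter_add_card_filter_not _
  have h1 := plc_inj Vx h3 sg hFp
  have h2 := plc_inj Vx h3 (fun s l => ¬ sg s l) hFn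
  -- edges
  have hEd : Ed.card ≤ ∑ s ∈ Vx, p s := by
    have hne : Nonempty τ := by
      obtain ⟨s, hs, -⟩ := hGp
      obtain ⟨x, -⟩ := Finset.card_pos.1 (show 0 < s.card by rw [h3 s hs]; norm_num)
      exact ⟨x⟩
    choose! f hf using hE
    set B : Finset (Σ _ : Finset τ, τ) := Vx.sigma (fun s => s.filter (sg s)) with hB
    have hBc : B.card = ∑ s ∈ Vx, p s := by
      rw [hB, Finset.card_sigma]
    rw [← hBc]
    apply Finset.card_le_card_of_injOn (fun e => (⟨insert (f e) e, f e⟩ : Σ _ : Finset τ, τ))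
    · intro e he
      have he' := hf e he
      rw [hB]
      simp only [Finset.coe_sigma, Set.mem_sigma_iff, Finset.mem_coe, Finset.mem_filter]
      exact ⟨he'.2.1, Finset.mem_insert_self _ _, he'.2.2⟩
    · intro e he e' he' hee
      simp only [Sigma.mk.injEq] at hee
      obtain ⟨e1, e2⟩ := hee
      have e3 : f e = f e' := eq_of_heq e2
      have k1 : (insert (f e) e).erase (f e) = e := Finset.erase_insert (hf e he).1
      have k2 : (insert (f e') e').erase (f e') = e' := Finset.erase_insert (hf e' he').1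
      rw [← k1, ← k2, e1, e3]
  -- special vertices
  have hsum : ∀ s ∈ Vx, p s + (if p s = 0 then 3 else 0) + (if p s = 3 then 3 else 0) =
      2 * ((if p s = 2 then 1 else 0) + (if p s = 3 then 3 else 0)) +
      ((if m s = 2 then 1 else 0) + (if m s = 3 then 3 else 0)) := by
    intro s hs
    have h := hpm s hs
    have hc : p s = 0 ∨ p s = 1 ∨ p s = 2 ∨ p s = 3 := by omega
    rcases hc with hc | hc | hc | hc
    · have : m s = 3 := by omega
      rw [hc, this]
      norm_num
    · have : m s = 2 := by omega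
      rw [hc, this]
      norm_num
    · have : m s = 1 := by omega
      rw [hc, this]
      norm_num
    · have : m s = 0 := by omega
      rw [hc, this]
      norm_num
  have htot := Finset.sum_congr rfl hsum
  rw [Finset.sum_add_distrib, Finset.sum_add_distrib, Finset.sum_add_distrib,
    ← Finset.mul_sum] at htot
  have hz0 : 3 ≤ ∑ s ∈ Vx, (if p s = 0 then 3 else 0) := by
    obtain ⟨s, hs, hsg⟩ := hGn
    have : p s = 0 := by
      rw [hp]
      simp only [Finset.card_eq_zero]
      rw [Finset.filter_eq_empty_iff]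
      exact fun {l} hl => hsg l hl
    calc 3 = (if p s = 0 then 3 else 0) := by rw [if_pos this]
      _ ≤ _ := Finset.single_le_sum (f := fun s => if p s = 0 then 3 else 0)
        (fun _ _ => Nat.zero_le _) hs
  have hz3 : 3 ≤ ∑ s ∈ Vx, (if p s = 3 then 3 else 0) := by
    obtain ⟨s, hs, hsg⟩ := hGp
    have : p s = 3 := by
      rw [hp]
      simp only
      rw [Finset.filter_true_of_mem hsg, h3 s hs]
    calc 3 = (if p s = 3 then 3 else 0) := by rw [if_pos this]
      _ ≤ _ := Finset.single_le_sum (f := fun s => if p s = 3 then 3 else 0)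
        (fun _ _ => Nat.zero_le _) hs
  have h1' : ∑ s ∈ Vx, ((if p s = 2 then 1 else 0) + (if p s = 3 then 3 else 0)) ≤
      Fintype.card τ := h1
  have h2' : ∑ s ∈ Vx, ((if m s = 2 then 1 else 0) + (if m s = 3 then 3 else 0)) ≤
      Fintype.card τ := h2
  omega

end Pool.Agent.Lib.MP_b2bfca_co.K3U
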