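import Mathlib

/-!
# Planarity of the links: definitions

Homogeneous form in `ℝ^4` of a polyhedron in `ℝ^3`.
-/

set_option autoImplicit false

namespace Pool.Agent.Lib.MP_b2bfca_co.K3U

noncomputable section

/-- Euclidean space of dimension four. -/
abbrev R4 := EuclideanSpace ℝ (Fin 4)

variable {τ : Type}

/-- The pair `j, k` is an edge. -/
def PEdge (U : τ → R4) (j k : τ) : Prop :=
  j ≠ k ∧ LinearIndependent ℝ ![U j, U k] ∧
    ∃ Y : R4, inner ℝ (U j) Y = 0 ∧ inner ℝ (U k) Y = 0 ∧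
      ∀ l, l ≠ j → l ≠ k → inner ℝ (U l) Y < 0

/-- Any four are independent. -/
def Gp4 (U : τ → R4) : Prop :=
  ∀ v : Fin 4 → τ, Function.Injective v → LinearIndependent ℝ (fun a => U (v a))

variable [Fintype τ]

/-- The sum. -/
def V0 (U : τ → R4) : R4 := ∑ l, U l

/-- The three-element set `s` is a vertex. -/
def IsVx (U : τ → R4) (s : Finset τ) : Prop :=
  s.card = 3 ∧ ∃ Y : R4, inner ℝ (V0 U) Y = -1 ∧ (∀ l ∈ s, inner ℝ (U l) Y = 0) ∧
    ∀ l ∉ s, inner ℝ (U l) Y < 0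

/-- The coefficient of `l` in the expansion of `Z` at the vertex `s` is positive. -/
def Ps (U : τ → R4) (Z : R4) (s : Finset τ) (l : τ) : Prop :=
  ∃ (f : ℝ) (a : τ → ℝ), Z + f • V0 U = ∑ m ∈ s, a m • U m ∧ 0 < a l

/-- Generic objective. -/
def ZGen (U : τ → R4) (Z : R4) : Prop := ∀ j k, Z ∉ Submodule.span ℝ {U j, U k, V0 U}

end

end Pool.Agent.Lib.MP_b2bfca_co.K3U
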