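import Pool.Agent.Lib.MP_b2bfca_co.K3U.PlA

/-!
# Planarity: a facet has at most one top vertex

PROOF. Let `Y, Y'` be the points of `s, s'`, `a` the coefficients at `s` (`coef`). Pair
`Z + (inner Z Y) V0 = ∑_{m ∈ s} a m U m` with `Y'`: `inner Z Y' - inner Z Y =
∑_{m ∈ s, m ≠ j} a m inner (U m) Y' ≤ 0` (`a m > 0`, `inner (U m) Y' ≤ 0`, and
`inner (U j) Y' = 0`). Symmetric: `inner Z Y - inner Z Y' ≤ 0`. So the sum is `0`, every term is `0`,
`inner (U m) Y' = 0` for all `m ∈ s`, so `m ∈ s'` (off `s'` it is negative): `s ⊆ s'`, equal by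
cardinality.
-/

set_option autoImplicit false
set_option linter.unusedSectionVars false

namespace Pool.Agent.Lib.MP_b2bfca_co.K3U

variable {τ : Type} [Fintype τ] [DecidableEq τ] (U : τ → R4) (Z : R4)

/-- One half of the comparison. -/
theorem plfacet_le (hG : Gp4 U) (h4 : 4 ≤ Fintype.card τ) (hZ : ZGen U Z) {s : Finset τ}
    (hs3 : s.card = 3) {Y Y' : R4} (hY : inner ℝ (V0 U) Y = -1)
    (h0 : ∀ l ∈ s, inner ℝ (U l) Y = 0) (hY' : inner ℝ (V0 U) Y' = -1)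
    (hle : ∀ l, inner ℝ (U l) Y' ≤ 0) {j : τ} (hj0 : inner ℝ (U j) Y' = 0)
    (h : ∀ l ∈ s, l ≠ j → Ps U Z s l) :
    inner ℝ Z Y' ≤ inner ℝ Z Y ∧
      (inner ℝ Z Y' = inner ℝ Z Y → ∀ m ∈ s, inner ℝ (U m) Y' = 0) := by
  obtain ⟨a, ha, -, hps, -⟩ := coef U Z hG h4 hZ hs3 hY h0
  have h1 : inner ℝ (Z + (inner ℝ Z Y : ℝ) • V0 U) Y' =
      inner ℝ (∑ m ∈ s, a m • U m) Y' := by rw [ha]
  rw [inner_add_left, real_inner_smul_left, hY', sum_inner] at h1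
  have h2 : ∀ m ∈ s, inner ℝ (a m • U m) Y' ≤ (0 : ℝ) := by
    intro m hm
    rw [real_inner_smul_left]
    by_cases hmj : m = j
    · rw [hmj, hj0, mul_zero]
    · have h3 := (hps m hm).mp (h m hm hmj)
      exact mul_nonpos_of_nonneg_of_nonpos h3.le (hle m)
  have h3 := Finset.sum_nonpos h2
  refine ⟨by linarith, fun h5 m hm => ?_⟩
  have h6 : ∑ m ∈ s, inner ℝ (a m • U m) Y' = (0 : ℝ) := by
    rw [← h1, h5]
    ring
  have h7 := (Finset.sum_eq_zero_iff_of_nonpos h2).mp h6 m hm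
  by_cases hmj : m = j
  · rw [hmj, hj0]
  · have h8 := (hps m hm).mp (h m hm hmj)
    rw [real_inner_smul_left] at h7
    rcases mul_eq_zero.mp h7 with h9 | h9
    · exact absurd h9 h8.ne'
    · exact h9

theorem facet_unique (hG : Gp4 U) (h4 : 4 ≤ Fintype.card τ) (hZ : ZGen U Z) {s s' : Finset τ}
    (hs : IsVx U s) (hs' : IsVx U s') {j : τ} (hj : j ∈ s) (hj' : j ∈ s')
    (h : ∀ l ∈ s, l ≠ j → Ps U Z s l) (h' : ∀ l ∈ s', l ≠ j → Ps U Z s' l) : s = s' := by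
  obtain ⟨hs3, Y, hY, h0, hn⟩ := hs
  obtain ⟨hs3', Y', hY', h0', hn'⟩ := hs'
  have hle : ∀ l, inner ℝ (U l) Y ≤ 0 := by
    intro l
    by_cases hl : l ∈ s
    · exact (h0 l hl).le
    · exact (hn l hl).le
  have hle' : ∀ l, inner ℝ (U l) Y' ≤ 0 := by
    intro l
    by_cases hl : l ∈ s'
    · exact (h0' l hl).le
    · exact (hn' l hl).le
  obtain ⟨h1, h2⟩ := plfacet_le U Z hG h4 hZ hs3 hY h0 hY' hle' (h0' j hj') h
  obtain ⟨h3, -⟩ := plfacet_le U Z hG h4 hZ hs3' hY' h0' hY hle (h0 j hj) h'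
  have h5 := h2 (le_antisymm h1 h3)
  apply Finset.eq_of_subset_of_card_le
  · intro m hm
    by_contra hm'
    exact absurd (h5 m hm) (hn' m hm').ne
  · rw [hs3, hs3']

end Pool.Agent.Lib.MP_b2bfca_co.K3U
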