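import Pool.Agent.Lib.MP_b2bfca_co.K3U.PlTop

/-!
# Planarity: a vertex with all coefficients positive

PROOF. The set of `s` with `IsVx U s` is finite and nonempty (`top`). Choose for each a point
`Y_s` and let `s` have maximal `inner Z Y_s`. Suppose some `l ∈ s` is not `Ps`; by `coef` `a l < 0`.
Let `{j, k} = s \ {l}`. Take `W` with `inner (U j) W = inner (U k) W = inner V0 W = 0`, `inner Z W > 0`
(as in `top`); then `inner Z W = a l * inner (U l) W`, so `inner (U l) W < 0`. For small
`ε > 0` the point `Y1 = Y_s + ε W` has `inner (U l) Y1 < 0` and the others off `s` still negative,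
so `PEdge U j k` (`indep3` for the independence) and `inner Z Y1 > inner Z Y_s`. Let
`s' = {j,k,l'}` be its top (`top`), `Y' = Y_{s'}`, coefficients `a'`, `a' l' > 0`. Pair the expansion at
`s'` with `Y1`: `inner Z Y1 - inner Z Y' = a' l' * inner (U l') Y1 ≤ 0`. So
`inner Z Y' ≥ inner Z Y1 > inner Z Y_s`, contradiction. (The point of a vertex is unique,
or choose it by `Classical.choose` once.)
-/

set_option autoImplicit false
set_option linter.unusedSectionVars false

namespace Pool.Agent.Lib.MP_b2bfca_co.K3U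

variable {τ : Type} [Fintype τ] [DecidableEq τ] (U : τ → R4) (Z : R4)

theorem glob (hG : Gp4 U) (h4 : 4 ≤ Fintype.card τ) (hZ : ZGen U Z) {j k : τ}
    (he : PEdge U j k) : ∃ s, IsVx U s ∧ ∀ l ∈ s, Ps U Z s l := by
  classical
  have hch : ∀ s : Finset τ, ∃ Y : R4, IsVx U s → inner ℝ (V0 U) Y = -1 ∧
      (∀ l ∈ s, inner ℝ (U l) Y = 0) ∧ ∀ l ∉ s, inner ℝ (U l) Y < 0 := by
    intro s
    by_cases h : IsVx U s
    · obtain ⟨-, Y, hY⟩ := h
      exact ⟨Y, fun _ => hY⟩
    · exact ⟨0, fun h' => absurd h' h⟩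
  choose y hy using hch
  obtain ⟨l1, -, -, hv1, -⟩ := top U Z hG h4 hZ he
  obtain ⟨s, hsA, hmax⟩ := Finset.exists_max_image
    (Finset.univ.filter fun s : Finset τ => IsVx U s) (fun s => inner ℝ Z (y s))
    ⟨_, Finset.mem_filter.mpr ⟨Finset.mem_univ _, hv1⟩⟩
  have hs : IsVx U s := (Finset.mem_filter.mp hsA).2
  refine ⟨s, hs, fun l hl => ?_⟩
  by_contra hcon
  obtain ⟨hVs, h0s, hns⟩ := hy s hs
  have hs3 := hs.1
  obtain ⟨a, ha, hane, hps, -⟩ := coef U Z hG h4 hZ hs3 hVs h0s
  have hal : a l < 0 := by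
    rw [hps l hl, not_lt] at hcon
    exact lt_of_le_of_ne hcon (hane l hl)
  have h1 : (s.erase l).card = 2 := by
    rw [Finset.card_erase_of_mem hl, hs3]
  obtain ⟨j', k', hjk, h2⟩ := Finset.card_eq_two.mp h1
  have hj's : j' ∈ s.erase l := by rw [h2]; simp
  have hk's : k' ∈ s.erase l := by rw [h2]; simp
  rw [Finset.mem_erase] at hj's hk's
  obtain ⟨W, hW, hZW⟩ := pla_W _ (hZ j' k')
  have hjW : inner ℝ (U j') W = 0 := hW _ (Submodule.subset_span (by simp))
  have hkW : inner ℝ (U k') W = 0 := hW _ (Submodule.subset_span (by simp))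
  have hVW : inner ℝ (V0 U) W = 0 := hW _ (Submodule.subset_span (by simp))
  have hlW : inner ℝ (U l) W < 0 := by
    have h3 : inner ℝ (Z + (inner ℝ Z (y s) : ℝ) • V0 U) W =
        inner ℝ (∑ m ∈ s, a m • U m) W := by rw [ha]
    rw [← Finset.add_sum_erase s _ hl, h2, Finset.sum_pair hjk, inner_add_left,
      real_inner_smul_left, hVW, mul_zero, add_zero, inner_add_left, inner_add_left,
      real_inner_smul_left, real_inner_smul_left, real_inner_smul_left, hjW, hkW, mul_zero,
      mul_zero, add_zero, add_zero] at h3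
    rw [h3] at hZW
    by_contra hc
    rw [not_lt] at hc
    have := mul_nonpos_of_nonpos_of_nonneg hal.le hc
    linarith
  have hev : ∀ᶠ ε in nhdsWithin (0 : ℝ) (Set.Ioi 0), ∀ m, m ∉ s →
      inner ℝ (U m) (y s) + ε * inner ℝ (U m) W < 0 := by
    rw [Filter.eventually_all]
    intro m
    by_cases hm : m ∈ s
    · exact Filter.Eventually.of_forall fun ε h => absurd hm h
    · have hc : Continuous fun ε : ℝ => inner ℝ (U m) (y s) + ε * inner ℝ (U m) W := by
        fun_prop
      have h3 : (fun ε : ℝ => inner ℝ (U m) (y s) + ε * inner ℝ (U m) W) 0 < 0 := by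
        simpa using hns m hm
      have h5 := hc.continuousAt.eventually_lt continuousAt_const h3
      exact (h5.filter_mono nhdsWithin_le_nhds).mono fun ε h _ => h
  obtain ⟨ε, hε, hε0⟩ := (hev.and self_mem_nhdsWithin).exists
  have hin : ∀ X : R4, inner ℝ X (y s + ε • W) = inner ℝ X (y s) + ε * inner ℝ X W := by
    intro X
    rw [inner_add_right, real_inner_smul_right]
  have hneg : ∀ m, m ≠ j' → m ≠ k' → inner ℝ (U m) (y s + ε • W) < 0 := by
    intro m h3 h5
    rw [hin]
    by_cases hml : m = l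
    · rw [hml, h0s l hl, zero_add]
      exact mul_neg_of_pos_of_neg hε0 hlW
    · have hms : m ∉ s := by
        intro h6
        have h7 : m ∈ s.erase l := Finset.mem_erase.mpr ⟨hml, h6⟩
        rw [h2, Finset.mem_insert, Finset.mem_singleton] at h7
        rcases h7 with h7 | h7
        · exact h3 h7
        · exact h5 h7
      exact hε m hms
  have hli : LinearIndependent ℝ ![U j', U k'] := by
    have hinj : Function.Injective (![j', k', l] : Fin 3 → τ) := by
      intro x y hxy
      have e1 := hj's.1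
      have e2 := hk's.1
      fin_cases x <;> fin_cases y <;> simp_all
    have h3 := (indep3 U hG h4 hinj).comp (![0, 1] : Fin 2 → Fin 3) (by
      intro x y hxy
      fin_cases x <;> fin_cases y <;> simp_all)
    have h5 : (fun x : Fin 3 => U ((![j', k', l] : Fin 3 → τ) x)) ∘ (![0, 1] : Fin 2 → Fin 3) =
        ![U j', U k'] := by
      funext x
      fin_cases x <;> rfl
    rw [h5] at h3
    exact h3
  have hedge : PEdge U j' k' := by
    refine ⟨hjk, hli, y s + ε • W, ?_, ?_, hneg⟩
    · rw [hin, h0s j' hj's.2, hjW]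
      ring
    · rw [hin, h0s k' hk's.2, hkW]
      ring
  obtain ⟨l', hl'j, hl'k, hv', hps'⟩ := top U Z hG h4 hZ hedge
  obtain ⟨hVs', h0s', -⟩ := hy _ hv'
  obtain ⟨a', ha', -, hpa', -⟩ := coef U Z hG h4 hZ hv'.1 hVs' h0s'
  have hal' : 0 < a' l' := (hpa' l' (by simp)).mp hps'
  have h3 : inner ℝ (Z + (inner ℝ Z (y {j', k', l'}) : ℝ) • V0 U) (y s + ε • W) =
      inner ℝ (∑ m ∈ ({j', k', l'} : Finset τ), a' m • U m) (y s + ε • W) := by rw [ha']
  have hjY : inner ℝ (U j') (y s + ε • W) = 0 := by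
    rw [hin, h0s j' hj's.2, hjW]
    ring
  have hkY : inner ℝ (U k') (y s + ε • W) = 0 := by
    rw [hin, h0s k' hk's.2, hkW]
    ring
  have hVY : inner ℝ (V0 U) (y s + ε • W) = -1 := by
    rw [hin, hVs, hVW]
    ring
  rw [inner_add_left, real_inner_smul_left, hVY, sum_inner,
    Finset.sum_insert (by simp [hjk, hl'j.symm]), Finset.sum_pair hl'k.symm,
    real_inner_smul_left, real_inner_smul_left, real_inner_smul_left, hjY, hkY, mul_zero,
    mul_zero, zero_add, zero_add] at h3
  have h5 := mul_neg_of_pos_of_neg hal' (hneg l' hl'j hl'k)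
  have h6 : inner ℝ Z (y s + ε • W) = inner ℝ Z (y s) + ε * inner ℝ Z W := hin Z
  have h7 := mul_pos hε0 hZW
  have h8 := hmax _ (Finset.mem_filter.mpr ⟨Finset.mem_univ _, hv'⟩)
  linarith

end Pool.Agent.Lib.MP_b2bfca_co.K3U
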