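import Pool.Agent.Lib.MP_b2bfca_co.K3U.PlDefs

/-!
# Planarity: perturbation to general position

PROOF. Let `x : τ → ℝ` be injective (`Fintype.equivFin`), `M l = (1, x l, (x l)^2, (x l)^3)`,
`U_ε l = U0 l + ε • M l`. We show: eventually for `ε → 0+` (filter `𝓝[>] 0`) everything holds.
* For an injective `v : Fin 4 → τ`: `det (rows U_ε (v a)) = det (A + ε B)`, `B` the Vandermonde matrix,
  `det B ≠ 0` (`Matrix.det_vandermonde_ne_zero_iff`). It is a polynomial in `ε` with nonzero leading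
  coefficient (`det (A + ε B) = det B * det (B⁻¹ A + ε 1)`, a characteristic polynomial of `-B⁻¹A` at
  `ε`), so it has finitely many zeros. Nonzero determinant gives linear independence.
* For an edge `j, k` of `U0` with witness `Y`: let `G(ε)` be the `2 × 2` Gram matrix of
  `U_ε j, U_ε k`, `det G(0) > 0` by independence, so `det G(ε) ≠ 0` near `0` (continuity), which
  gives independence of `U_ε j, U_ε k`. Solve `G(ε) (α, β) = - (inner (U_ε j) Y, inner (U_ε k) Y)` by
  Cramer; `α, β → 0`. `Y_ε = Y + α U_ε j + β U_ε k` is orthogonal to both, and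
  `inner (U_ε l) Y_ε → inner (U0 l) Y < 0` for the other `l`.
Finitely many conditions (`Filter.eventually_all`), `𝓝[>] 0` is nontrivial.
-/

set_option autoImplicit false

namespace Pool.Agent.Lib.MP_b2bfca_co.K3U

open Filter Topology Polynomial

theorem PlPert_det (A B : Matrix (Fin 4) (Fin 4) ℝ) (hB : B.det ≠ 0) :
    ∀ᶠ ε : ℝ in 𝓝[>] 0, (A + ε • B).det ≠ 0 := by
  set Q : ℝ[X] := Matrix.det ((X : ℝ[X]) • B.map C + A.map C) with hQ
  have hQ0 : Q ≠ 0 := by
    intro h0
    have h1 := Polynomial.coeff_det_X_add_C_card B A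
    rw [← hQ, h0, Polynomial.coeff_zero] at h1
    exact hB h1.symm
  have heval : ∀ ε : ℝ, Q.eval ε = (A + ε • B).det := by
    intro ε
    have h1 := RingHom.map_det (Polynomial.evalRingHom ε) ((X : ℝ[X]) • B.map C + A.map C)
    rw [Polynomial.coe_evalRingHom] at h1
    rw [hQ, h1]
    congr 1
    ext i j
    simp [add_comm]
    ring
  have hfin : ((Q.roots.toFinset : Set ℝ) \ {0}).Finite :=
    (Finset.finite_toSet _).subset Set.sdiff_subset
  have h2 : ∀ᶠ ε : ℝ in 𝓝 0, ε ∉ ((Q.roots.toFinset : Set ℝ) \ {0}) :=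
    hfin.isClosed.isOpen_compl.mem_nhds (fun h => h.2 rfl)
  filter_upwards [mem_nhdsWithin_of_mem_nhds h2, self_mem_nhdsWithin] with ε h3 h4 h5
  refine h3 ⟨?_, ne_of_gt h4⟩
  rw [Finset.mem_coe, Multiset.mem_toFinset, Polynomial.mem_roots hQ0, Polynomial.IsRoot.def,
    heval ε]
  exact h5

theorem PlPert_indep (u : Fin 4 → R4)
    (h : (Matrix.of fun a i => u a i).det ≠ 0) : LinearIndependent ℝ u := by
  have h1 : LinearIndependent ℝ (Matrix.of fun a i => u a i).row :=
    Matrix.linearIndependent_rows_of_det_ne_zero h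
  refine LinearIndependent.of_comp (WithLp.linearEquiv 2 ℝ (Fin 4 → ℝ)).toLinearMap ?_
  exact h1

theorem PlPert_gram {p q : R4} (h : LinearIndependent ℝ ![p, q]) :
    inner ℝ p p * inner ℝ q q - inner ℝ p q * inner ℝ p q ≠ 0 := by
  rw [LinearIndependent.pair_iff] at h
  intro h0
  have hw : inner ℝ (inner ℝ q q • p + (-(inner ℝ p q)) • q)
      (inner ℝ q q • p + (-(inner ℝ p q)) • q) = (0 : ℝ) := by
    have hc : (inner ℝ q p : ℝ) = inner ℝ p q := real_inner_comm _ _
    simp only [inner_add_left, inner_add_right, inner_smul_left, inner_smul_right, hc,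
      RCLike.conj_to_real]
    linear_combination (inner ℝ q q : ℝ) * h0
  rw [inner_self_eq_zero] at hw
  obtain ⟨h1, h2⟩ := h _ _ hw
  have hq : q = 0 := inner_self_eq_zero.1 h1
  have h3 := (h 0 1 (by rw [hq]; simp)).2
  exact one_ne_zero h3

theorem PlPert_edge {τ : Type} [Fintype τ] (U0 M : τ → R4) (j k : τ) (h : PEdge U0 j k) :
    ∀ᶠ ε : ℝ in 𝓝[>] 0, PEdge (fun l => U0 l + ε • M l) j k := by
  obtain ⟨hjk, hind, Y, hj, hk, hl⟩ := h
  set W : ℝ → τ → R4 := fun ε l => U0 l + ε • M l with hW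
  have hWc : ∀ l, Continuous fun ε => W ε l := fun l =>
    continuous_const.add (continuous_id.smul continuous_const)
  have hW0 : ∀ l, W 0 l = U0 l := fun l => by simp [hW]
  set D : ℝ → ℝ := fun ε => inner ℝ (W ε j) (W ε j) * inner ℝ (W ε k) (W ε k) -
    inner ℝ (W ε j) (W ε k) * inner ℝ (W ε j) (W ε k) with hD
  have hDc : Continuous D :=
    (((hWc j).inner (hWc j)).mul ((hWc k).inner (hWc k))).sub
      (((hWc j).inner (hWc k)).mul ((hWc j).inner (hWc k)))
  have hD0 : D 0 ≠ 0 := by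
    simp only [hD, hW0]
    exact PlPert_gram hind
  set α : ℝ → ℝ := fun ε => (inner ℝ (W ε k) Y * inner ℝ (W ε j) (W ε k) -
    inner ℝ (W ε j) Y * inner ℝ (W ε k) (W ε k)) / D ε with hα
  set β : ℝ → ℝ := fun ε => (inner ℝ (W ε j) Y * inner ℝ (W ε j) (W ε k) -
    inner ℝ (W ε k) Y * inner ℝ (W ε j) (W ε j)) / D ε with hβ
  have hYc : ∀ l, Continuous fun ε => (inner ℝ (W ε l) Y : ℝ) := fun l =>
    (hWc l).inner continuous_const
  have hαc : Tendsto α (𝓝 0) (𝓝 0) := by
    have h1 : Tendsto α (𝓝 0) (𝓝 (α 0)) :=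
      ((((hYc k).mul ((hWc j).inner (hWc k))).sub
        ((hYc j).mul ((hWc k).inner (hWc k)))).tendsto 0).div (hDc.tendsto 0) hD0
    have h2 : α 0 = 0 := by simp only [hα, hW0, hj, hk]; simp
    rwa [h2] at h1
  have hβc : Tendsto β (𝓝 0) (𝓝 0) := by
    have h1 : Tendsto β (𝓝 0) (𝓝 (β 0)) :=
      ((((hYc j).mul ((hWc j).inner (hWc k))).sub
        ((hYc k).mul ((hWc j).inner (hWc j)))).tendsto 0).div (hDc.tendsto 0) hD0
    have h2 : β 0 = 0 := by simp only [hβ, hW0, hj, hk]; simp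
    rwa [h2] at h1
  have e1 : ∀ᶠ ε in 𝓝 (0 : ℝ), D ε ≠ 0 := (hDc.tendsto 0).eventually_ne hD0
  have e2 : ∀ᶠ ε in 𝓝 (0 : ℝ), LinearIndependent ℝ ![W ε j, W ε k] := by
    have hc : Tendsto (fun ε => (![W ε j, W ε k] : Fin 2 → R4)) (𝓝 0)
        (𝓝 ![U0 j, U0 k]) := by
      rw [tendsto_pi_nhds]
      intro i
      fin_cases i
      · have := (hWc j).tendsto 0
        rw [hW0] at this
        exact this
      · have := (hWc k).tendsto 0
        rw [hW0] at this
        exact this
    exact hc.eventually hind.eventually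
  have e3 : ∀ᶠ ε in 𝓝 (0 : ℝ), ∀ l, l ≠ j → l ≠ k →
      inner ℝ (W ε l) (Y + α ε • W ε j + β ε • W ε k) < (0 : ℝ) := by
    rw [eventually_all]
    intro l
    by_cases h1 : l = j
    · exact Eventually.of_forall fun _ h => absurd h1 h
    by_cases h2 : l = k
    · exact Eventually.of_forall fun _ _ h => absurd h2 h
    have h3 : Tendsto (fun ε => (inner ℝ (W ε l) (Y + α ε • W ε j + β ε • W ε k) : ℝ)) (𝓝 0)
        (𝓝 (inner ℝ (W 0 l) (Y + (0 : ℝ) • W 0 j + (0 : ℝ) • W 0 k))) :=
      ((hWc l).tendsto 0).inner ((tendsto_const_nhds.add (hαc.smul ((hWc j).tendsto 0))).add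
        (hβc.smul ((hWc k).tendsto 0)))
    rw [hW0, zero_smul, zero_smul, add_zero, add_zero] at h3
    filter_upwards [h3.eventually_lt_const (hl l h1 h2)] with ε h4 _ _
    exact h4
  have e4 : ∀ᶠ ε in 𝓝 (0 : ℝ), PEdge (W ε) j k := by
    filter_upwards [e1, e2, e3] with ε hDε hi hneg
    have hc : (inner ℝ (W ε k) (W ε j) : ℝ) = inner ℝ (W ε j) (W ε k) := real_inner_comm _ _
    refine ⟨hjk, hi, Y + α ε • W ε j + β ε • W ε k, ?_, ?_, hneg⟩
    · rw [inner_add_right, inner_add_right, inner_smul_right, inner_smul_right]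
      simp only [hα, hβ]
      field_simp
      simp only [hD]
      ring
    · rw [inner_add_right, inner_add_right, inner_smul_right, inner_smul_right, hc]
      simp only [hα, hβ]
      field_simp
      simp only [hD]
      ring
  exact mem_nhdsWithin_of_mem_nhds e4

theorem pert4 {τ : Type} [Fintype τ] (U0 : τ → R4) :
    ∃ U : τ → R4, Gp4 U ∧ ∀ j k, PEdge U0 j k → PEdge U j k := by
  classical
  set x : τ → ℝ := fun l => ((Fintype.equivFin τ l : ℕ) : ℝ) with hx
  have hxi : Function.Injective x := by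
    intro a b hab
    have hab' : ((Fintype.equivFin τ a : ℕ) : ℝ) = ((Fintype.equivFin τ b : ℕ) : ℝ) := hab
    have h1 : (Fintype.equivFin τ a : ℕ) = (Fintype.equivFin τ b : ℕ) := by
      exact_mod_cast hab'
    exact (Fintype.equivFin τ).injective (Fin.ext h1)
  set M : τ → R4 := fun l => WithLp.toLp 2 (fun i : Fin 4 => x l ^ (i : ℕ)) with hM
  have h1 : ∀ᶠ ε : ℝ in 𝓝[>] 0, ∀ v : Fin 4 → τ, Function.Injective v →
      LinearIndependent ℝ (fun a => U0 (v a) + ε • M (v a)) := by
    rw [eventually_all]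
    intro v
    by_cases hv : Function.Injective v
    · have hB : (Matrix.vandermonde (fun a => x (v a))).det ≠ 0 :=
        Matrix.det_vandermonde_ne_zero_iff.2 (hxi.comp hv)
      filter_upwards [PlPert_det (Matrix.of fun a i => U0 (v a) i) _ hB] with ε hε _
      refine PlPert_indep _ ?_
      have he : (Matrix.of fun a i => (U0 (v a) + ε • M (v a)) i) =
          (Matrix.of fun a i => U0 (v a) i) + ε • Matrix.vandermonde (fun a => x (v a)) := by
        ext a i
        simp [hM, Matrix.vandermonde_apply]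
      rw [he]
      exact hε
    · exact Eventually.of_forall fun _ h => absurd h hv
  have h2 : ∀ᶠ ε : ℝ in 𝓝[>] 0, ∀ j k, PEdge U0 j k → PEdge (fun l => U0 l + ε • M l) j k := by
    rw [eventually_all]
    intro j
    rw [eventually_all]
    intro k
    by_cases h : PEdge U0 j k
    · filter_upwards [PlPert_edge U0 M j k h] with ε hε _
      exact hε
    · exact Eventually.of_forall fun _ h' => absurd h' h
  obtain ⟨ε, hε1, hε2⟩ := (h1.and h2).exists
  exact ⟨fun l => U0 l + ε • M l, hε1, hε2⟩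

end Pool.Agent.Lib.MP_b2bfca_co.K3U
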