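import Pool.Agent.Lib.MP_b2bfca_co.K3U.Defs
import Pool.Agent.Lib.MP_b2bfca_co.K3U.PlGlob
import Pool.Agent.Lib.MP_b2bfca_co.K3U.PlFacet
import Pool.Agent.Lib.MP_b2bfca_co.K3U.PlCount
import Pool.Agent.Lib.MP_b2bfca_co.K3U.PlPert

/-!
# Planarity: at most `3 F - 6` edges

PROOF of `planar_R4`. `card τ = 3`: `P` is contained in the six ordered pairs of distinct elements.
`card τ ≥ 4`: if `P` is empty, clear. Otherwise replace `U` by `pert4`, take `Z` from `exists_ZGen`, and
apply `count_abs` with `Vx` = all `s` with `IsVx U s`, `sg s l = Ps U Z s l`, `Ed` = image of `P` under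
`p ↦ {p.1, p.2}`: `hE` is `top`, `hFp` is `facet_unique`, `hGp` is `glob`; `hFn`, `hGn` are
`facet_unique`, `glob` for `-Z` (`ZGen_neg`) by `ps_xor`. `P.card ≤ 2 * Ed.card`.
PROOF of `planar_bound`. `U l = (u l 0, u l 1, u l 2, b l)`, `Y = (y 0, y 1, y 2, -1)`:
`inner (U l) Y = inner (u l) y - b l`. Independence of `u p.1, u p.2` gives independence of `U`.
-/

set_option autoImplicit false
set_option linter.unusedSectionVars false

namespace Pool.Agent.Lib.MP_b2bfca_co.K3U

variable {τ : Type} [Fintype τ] [DecidableEq τ]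

/-- The general position case. -/
theorem plmain_gen (U : τ → R4) (h4 : 4 ≤ Fintype.card τ) (hG : Gp4 U) (P : Finset (τ × τ))
    (hP : ∀ p ∈ P, PEdge U p.1 p.2) : P.card + 12 ≤ 6 * Fintype.card τ := by
  classical
  rcases P.eq_empty_or_nonempty with rfl | ⟨p0, hp0⟩
  · rw [Finset.card_empty]
    omega
  obtain ⟨Z, hZ⟩ := exists_ZGen U
  have hZ' := ZGen_neg U Z hZ
  set Vx : Finset (Finset τ) := Finset.univ.filter fun s => IsVx U s with hVx
  have hmem : ∀ s, s ∈ Vx ↔ IsVx U s := by
    intro s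
    rw [hVx, Finset.mem_filter]
    exact ⟨fun h => h.2, fun h => ⟨Finset.mem_univ _, h⟩⟩
  set Ed : Finset (Finset τ) := P.image fun p => ({p.1, p.2} : Finset τ) with hEd
  have h1 : Ed.card + 6 ≤ 3 * Fintype.card τ := by
    refine count_abs Vx (fun s hs => ((hmem s).mp hs).1) (fun s l => Ps U Z s l) Ed ?_ ?_ ?_ ?_ ?_
    · intro e he
      rw [hEd, Finset.mem_image] at he
      obtain ⟨p, hp, rfl⟩ := he
      obtain ⟨l, hl1, hl2, hl3, hl4⟩ := top U Z hG h4 hZ (hP p hp)
      have h2 : insert l ({p.1, p.2} : Finset τ) = {p.1, p.2, l} := by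
        ext x
        simp only [Finset.mem_insert, Finset.mem_singleton]
        tauto
      refine ⟨l, ?_, ?_, ?_⟩
      · rw [Finset.mem_insert, Finset.mem_singleton, not_or]
        exact ⟨hl1, hl2⟩
      · rw [h2]
        exact (hmem _).mpr hl3
      · rw [h2]
        exact hl4
    · intro j s hs s' hs' hj hj' h h'
      exact facet_unique U Z hG h4 hZ ((hmem s).mp hs) ((hmem s').mp hs') hj hj' h h'
    · intro j s hs s' hs' hj hj' h h'
      refine facet_unique U (-Z) hG h4 hZ' ((hmem s).mp hs) ((hmem s').mp hs') hj hj' ?_ ?_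
      · intro l hl hlj
        by_contra hc
        exact h l hl hlj ((ps_xor U Z hG h4 hZ ((hmem s).mp hs) hl).mpr hc)
      · intro l hl hlj
        by_contra hc
        exact h' l hl hlj ((ps_xor U Z hG h4 hZ ((hmem s').mp hs') hl).mpr hc)
    · obtain ⟨s, hs, h⟩ := glob U Z hG h4 hZ (hP p0 hp0)
      exact ⟨s, (hmem s).mpr hs, h⟩
    · obtain ⟨s, hs, h⟩ := glob U (-Z) hG h4 hZ' (hP p0 hp0)
      refine ⟨s, (hmem s).mpr hs, fun l hl hc => ?_⟩
      exact (ps_xor U Z hG h4 hZ hs hl).mp hc (h l hl)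
  have h2 : P.card ≤ 2 * Ed.card := by
    rw [hEd]
    have h3 : P.card ≤ 2 * (P.image fun p => ({p.1, p.2} : Finset τ)).card := by
      refine Finset.card_le_mul_card_image P 2 fun e he => ?_
      rw [Finset.mem_image] at he
      obtain ⟨p, hp, rfl⟩ := he
      have h5 : (P.filter fun q => ({q.1, q.2} : Finset τ) = {p.1, p.2}) ⊆
          {(p.1, p.2), (p.2, p.1)} := by
        intro q hq
        rw [Finset.mem_filter] at hq
        obtain ⟨hq1, hq2⟩ := hq
        have hne := (hP q hq1).1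
        have h6 : q.1 ∈ ({p.1, p.2} : Finset τ) := by rw [← hq2]; simp
        have h7 : q.2 ∈ ({p.1, p.2} : Finset τ) := by rw [← hq2]; simp
        rw [Finset.mem_insert, Finset.mem_singleton] at h6 h7 ⊢
        rcases h6 with h6 | h6 <;> rcases h7 with h7 | h7
        · exact absurd (h6.trans h7.symm) hne
        · left; exact Prod.ext h6 h7
        · right; exact Prod.ext h6 h7
        · exact absurd (h6.trans h7.symm) hne
      exact (Finset.card_le_card h5).trans Finset.card_le_two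
    omega
  omega

theorem planar_R4 (U : τ → R4) (h3 : 3 ≤ Fintype.card τ) (P : Finset (τ × τ))
    (hP : ∀ p ∈ P, PEdge U p.1 p.2) : P.card + 12 ≤ 6 * Fintype.card τ := by
  rcases h3.eq_or_lt with h | h
  · have h1 : P ⊆ (Finset.univ : Finset τ).offDiag := by
      intro p hp
      rw [Finset.mem_offDiag]
      exact ⟨Finset.mem_univ _, Finset.mem_univ _, (hP p hp).1⟩
    have h2 := Finset.card_le_card h1
    rw [Finset.offDiag_card, Finset.card_univ, ← h] at h2
    omega
  · obtain ⟨U', hG, hU'⟩ := pert4 U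
    exact plmain_gen U' h hG P fun p hp => hU' _ _ (hP p hp)

/-- The vector with the right hand side. -/
theorem planar_bound (u : τ → E3) (b : τ → ℝ) (h3 : 3 ≤ Fintype.card τ) (P : Finset (τ × τ))
    (hP : ∀ p ∈ P, p.1 ≠ p.2 ∧ LinearIndependent ℝ ![u p.1, u p.2] ∧
      ∃ y : E3, inner ℝ (u p.1) y = b p.1 ∧ inner ℝ (u p.2) y = b p.2 ∧
        ∀ l, l ≠ p.1 → l ≠ p.2 → inner ℝ (u l) y < b l) :
    P.card + 12 ≤ 6 * Fintype.card τ := by
  set U : τ → R4 := fun l => WithLp.toLp 2 ![u l 0, u l 1, u l 2, b l] with hU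
  have hin : ∀ l, ∀ y : E3, inner ℝ (U l) (WithLp.toLp 2 ![y 0, y 1, y 2, -1] : R4) =
      inner ℝ (u l) y - b l := by
    intro l y
    rw [hU, PiLp.inner_apply, PiLp.inner_apply, Fin.sum_univ_four, Fin.sum_univ_three]
    simp
    ring
  refine planar_R4 U h3 P fun p hp => ?_
  obtain ⟨h1, h2, y, hy1, hy2, hy3⟩ := hP p hp
  refine ⟨h1, ?_, WithLp.toLp 2 ![y 0, y 1, y 2, -1], ?_, ?_, ?_⟩
  · rw [LinearIndependent.pair_iff] at h2 ⊢
    intro α β h
    apply h2
    ext i
    have h5 : ∀ k : Fin 4, α * (U p.1) k + β * (U p.2) k = 0 := by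
      intro k
      have := congrArg (fun v : R4 => v k) h
      simpa using this
    have e0 := h5 0
    have e1 := h5 1
    have e2 := h5 2
    simp only [hU] at e0 e1 e2
    fin_cases i
    · simpa using e0
    · simpa using e1
    · simpa using e2
  · rw [hin, hy1, sub_self]
  · rw [hin, hy2, sub_self]
  · intro l hl1 hl2
    rw [hin]
    have := hy3 l hl1 hl2
    linarith

end Pool.Agent.Lib.MP_b2bfca_co.K3U
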