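import Pool.Agent.Lib.MP_b2bfca_co.K3U.PlA

/-!
# Planarity: every edge has a top vertex

PROOF of `top`. Let `Y1` be a witness of the edge. `Y1 ≠ 0` (some `l` other than `j, k` exists),
`inner V0 Y1 < 0` (`cone_neg`), scale so that `inner V0 Y1 = -1`. Let `S = span {U j, U k, V0}` and
`W = Z - proj_S Z`; `W ≠ 0` as `Z ∉ S`, `W` is orthogonal to `U j, U k, V0` and
`inner Z W = ‖W‖^2 > 0`. `∑ l, inner (U l) W = inner V0 W = 0`, not all are `0`
(`eq_zero_of_orth`), so some `inner (U l) W > 0`. Among these `l` (never `j, k`) let `l` minimise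
`t_l = - inner (U l) Y1 / inner (U l) W > 0` (`Finset.exists_min_image`), `Y = Y1 + t_l W`. Then
`inner V0 Y = -1`, `U j, U k, U l` are tight, all others `≤ 0`, and `< 0`: a further tight one would
give `Y = 0` (`eq_zero_of_four`). So `IsVx {j,k,l}`. With `a` of `coef`,
`inner Z W = a l * inner (U l) W` (pair the expansion with `W`), so `a l > 0`.
-/

set_option autoImplicit false
set_option linter.unusedSectionVars false

namespace Pool.Agent.Lib.MP_b2bfca_co.K3U

variable {τ : Type} [Fintype τ] [DecidableEq τ] (U : τ → R4) (Z : R4)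

omit [Fintype τ] in
/-- Injective lists of four elements. -/
theorem pltop_inj {j k l m : τ} (h1 : j ≠ k) (h2 : j ≠ l) (h3 : k ≠ l) (h4 : m ≠ j) (h5 : m ≠ k)
    (h6 : m ≠ l) : Function.Injective (![j, k, l, m] : Fin 4 → τ) := by
  intro x y hxy
  fin_cases x <;> fin_cases y <;> simp_all

theorem top (hG : Gp4 U) (h4 : 4 ≤ Fintype.card τ) (hZ : ZGen U Z) {j k : τ}
    (he : PEdge U j k) :
    ∃ l, l ≠ j ∧ l ≠ k ∧ IsVx U {j, k, l} ∧ Ps U Z {j, k, l} l := by
  obtain ⟨hjk, -, Y1, hj, hk, hneg⟩ := he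
  have hle : ∀ l, inner ℝ (U l) Y1 ≤ 0 := by
    intro l
    by_cases h1 : l = j
    · rw [h1, hj]
    by_cases h2 : l = k
    · rw [h2, hk]
    exact (hneg l h1 h2).le
  have hex : ∃ l, l ≠ j ∧ l ≠ k := by
    by_contra h
    push Not at h
    have h1 : (Finset.univ : Finset τ) ⊆ {j, k} := by
      intro l _
      rw [Finset.mem_insert, Finset.mem_singleton]
      by_cases h2 : l = j
      · exact Or.inl h2
      · exact Or.inr (h l h2)
    have h2 := Finset.card_le_card h1
    rw [Finset.card_univ, Finset.card_pair hjk] at h2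
    omega
  have hY1 : Y1 ≠ 0 := by
    rintro rfl
    obtain ⟨l, h1, h2⟩ := hex
    have h3 := hneg l h1 h2
    rw [inner_zero_right] at h3
    exact lt_irrefl _ h3
  have hV := cone_neg U hG h4 hY1 hle
  obtain ⟨Y2, hV2, hj2, hk2, hneg2⟩ : ∃ Y2 : R4, inner ℝ (V0 U) Y2 = -1 ∧ inner ℝ (U j) Y2 = 0 ∧
      inner ℝ (U k) Y2 = 0 ∧ ∀ l, l ≠ j → l ≠ k → inner ℝ (U l) Y2 < 0 := by
    refine ⟨(-(inner ℝ (V0 U) Y1 : ℝ)⁻¹) • Y1, ?_, ?_, ?_, ?_⟩
    · rw [real_inner_smul_right, neg_mul, inv_mul_cancel₀ hV.ne]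
    · rw [real_inner_smul_right, hj, mul_zero]
    · rw [real_inner_smul_right, hk, mul_zero]
    · intro l h1 h2
      rw [real_inner_smul_right]
      have h3 : 0 < -(inner ℝ (V0 U) Y1 : ℝ)⁻¹ := by
        have := inv_lt_zero.mpr hV
        linarith
      exact mul_neg_of_pos_of_neg h3 (hneg l h1 h2)
  have hle2 : ∀ l, inner ℝ (U l) Y2 ≤ 0 := by
    intro l
    by_cases h1 : l = j
    · rw [h1, hj2]
    by_cases h2 : l = k
    · rw [h2, hk2]
    exact (hneg2 l h1 h2).le
  obtain ⟨W, hW, hZW⟩ := pla_W _ (hZ j k)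
  have hjW : inner ℝ (U j) W = 0 := hW _ (Submodule.subset_span (by simp))
  have hkW : inner ℝ (U k) W = 0 := hW _ (Submodule.subset_span (by simp))
  have hVW : inner ℝ (V0 U) W = 0 := hW _ (Submodule.subset_span (by simp))
  have hpos : ∃ l, 0 < inner ℝ (U l) W := by
    by_contra h
    push Not at h
    have h1 : ∑ l, inner ℝ (U l) W = (0 : ℝ) := by
      rw [← hVW, V0, sum_inner]
    have h2 := (Finset.sum_eq_zero_iff_of_nonpos fun l _ => h l).mp h1
    have h3 := eq_zero_of_orth U hG h4 fun l => h2 l (Finset.mem_univ l)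
    rw [h3, inner_zero_right] at hZW
    exact lt_irrefl _ hZW
  obtain ⟨l0, hl0⟩ := hpos
  obtain ⟨l, hlA, hmin⟩ := Finset.exists_min_image
    (Finset.univ.filter fun l => 0 < inner ℝ (U l) W)
    (fun l => - inner ℝ (U l) Y2 / inner ℝ (U l) W)
    ⟨l0, Finset.mem_filter.mpr ⟨Finset.mem_univ _, hl0⟩⟩
  have hlW : 0 < inner ℝ (U l) W := (Finset.mem_filter.mp hlA).2
  have hlj : l ≠ j := by
    rintro rfl
    rw [hjW] at hlW
    exact lt_irrefl _ hlW
  have hlk : l ≠ k := by
    rintro rfl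
    rw [hkW] at hlW
    exact lt_irrefl _ hlW
  have hlY := hneg2 l hlj hlk
  set t : ℝ := - inner ℝ (U l) Y2 / inner ℝ (U l) W with ht
  have ht0 : 0 < t := div_pos (by linarith) hlW
  have hin : ∀ X : R4, inner ℝ X (Y2 + t • W) = inner ℝ X Y2 + t * inner ℝ X W := by
    intro X
    rw [inner_add_right, real_inner_smul_right]
  have hVY : inner ℝ (V0 U) (Y2 + t • W) = -1 := by
    rw [hin, hV2, hVW]
    ring
  have hjY : inner ℝ (U j) (Y2 + t • W) = 0 := by
    rw [hin, hj2, hjW]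
    ring
  have hkY : inner ℝ (U k) (Y2 + t • W) = 0 := by
    rw [hin, hk2, hkW]
    ring
  have hlY0 : inner ℝ (U l) (Y2 + t • W) = 0 := by
    rw [hin, ht, div_mul_cancel₀ _ hlW.ne']
    ring
  have hY0 : Y2 + t • W ≠ 0 := by
    intro h
    rw [h, inner_zero_right] at hVY
    norm_num at hVY
  have hall : ∀ m, inner ℝ (U m) (Y2 + t • W) ≤ 0 := by
    intro m
    rw [hin]
    rcases le_or_gt (inner ℝ (U m) W) 0 with h | h
    · have h1 := mul_nonpos_of_nonneg_of_nonpos ht0.le h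
      have h2 := hle2 m
      linarith
    · have h1 := hmin m (Finset.mem_filter.mpr ⟨Finset.mem_univ _, h⟩)
      have h2 : t * inner ℝ (U m) W ≤ - inner ℝ (U m) Y2 := by
        rw [← le_div_iff₀ h]
        exact h1
      linarith
  have hs3 : ({j, k, l} : Finset τ).card = 3 :=
    Finset.card_eq_three.mpr ⟨j, k, l, hjk, hlj.symm, hlk.symm, rfl⟩
  have h0 : ∀ m ∈ ({j, k, l} : Finset τ), inner ℝ (U m) (Y2 + t • W) = 0 := by
    intro m hm
    rw [Finset.mem_insert, Finset.mem_insert, Finset.mem_singleton] at hm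
    rcases hm with rfl | rfl | rfl
    · exact hjY
    · exact hkY
    · exact hlY0
  refine ⟨l, hlj, hlk, ⟨hs3, Y2 + t • W, hVY, h0, ?_⟩, ?_⟩
  · intro m hm
    rw [Finset.mem_insert, Finset.mem_insert, Finset.mem_singleton, not_or, not_or] at hm
    rcases (hall m).lt_or_eq with h | h
    · exact h
    · exfalso
      apply hY0
      refine eq_zero_of_four U hG
        (pltop_inj hjk hlj.symm hlk.symm hm.1 hm.2.1 hm.2.2) fun x => ?_
      fin_cases x
      · exact hjY
      · exact hkY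
      · exact hlY0
      · exact h
  · obtain ⟨a, ha, -, hps, -⟩ := coef U Z hG h4 hZ hs3 hVY h0
    rw [hps l (by simp)]
    have h1 : inner ℝ (Z + (inner ℝ Z (Y2 + t • W) : ℝ) • V0 U) W =
        inner ℝ (∑ m ∈ ({j, k, l} : Finset τ), a m • U m) W := by rw [ha]
    rw [inner_add_left, real_inner_smul_left, hVW, mul_zero, add_zero, sum_inner,
      Finset.sum_insert (by simp [hjk, hlj.symm]), Finset.sum_pair hlk.symm,
      real_inner_smul_left, real_inner_smul_left, real_inner_smul_left, hjW, hkW, mul_zero,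
      mul_zero, zero_add, zero_add] at h1
    rw [h1] at hZW
    exact (pos_iff_pos_of_mul_pos hZW).mpr hlW

end Pool.Agent.Lib.MP_b2bfca_co.K3U
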