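import Pool.Agent.Lib.MP_b2bfca_co.K3U.GeoB

/-!
# The wedges around a tangent point cover the space

PROOF. Let `t = tp i j`, `e = ev i j`, `v` the component of `x - t` orthogonal to `e`, `v ≠ 0` by
`hx`. The points `y_r = t + r v` lie in the radical plane. `φ_l(r) = pw l y_r - pw i y_r` is
affine in `r` (`pw_diff_affine`), `φ_i = φ_j = 0` and `φ_l(0) > 0` for `l ≠ i, j`. As the cell is
bounded, some `y_r`, `r > 0`, is not in the cell, so some `φ_l` has negative slope. Let `R > 0` be
the smallest zero of the `φ_l` with negative slope, attained by `k`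
(`Finset.exists_min_image`). Then all `φ_l(R) ≥ 0`, so `y_R ∈ SS i j k`, and
`x = t + a e + v = t + a e + (1/R)(y_R - t)`. `sn i j k ≠ 0`: otherwise `φ_k` is constant
(`pw_diff_collinear`).
-/

set_option autoImplicit false

namespace Pool.Agent.Lib.MP_b2bfca_co.K3U

variable {ι : Type} [Fintype ι] (c : ι → E3) (w : ι → ℝ)

theorem cover_W (hc : Function.Injective c) {i j : ι} (hij : i ≠ j)
    (hpos : ∀ k, k ≠ i → k ≠ j → pw c w i (tp c w i j) < pw c w k (tp c w i j))
    (hb : Bornology.IsBounded (cell c w i)) {x : E3}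
    (hx : x - tp c w i j ∉ Submodule.span ℝ {ev c i j}) :
    ∃ k, Dist3 i j k ∧ sn c i j k ≠ 0 ∧ x ∈ WW c w i j k := by
  classical
  have hcij : c i ≠ c j := fun h => hij (hc h)
  set t : E3 := tp c w i j with ht
  set e : E3 := ev c i j with he
  have he1 : ‖e‖ = 1 := norm_ev c hcij
  set a : ℝ := inner ℝ (x - t) e with ha
  set v : E3 := x - t - a • e with hv
  have hv0 : v ≠ 0 := by
    intro h0
    apply hx
    rw [Submodule.mem_span_singleton]
    exact ⟨a, (sub_eq_zero.1 h0).symm⟩
  have hve : inner ℝ v e = 0 := by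
    rw [hv, inner_sub_left, real_inner_smul_left, real_inner_self_eq_norm_sq, he1, ← ha]
    ring
  -- the points of the ray
  have hplane : ∀ r : ℝ, inner ℝ (t + r • v - c i) e = de c w i j := by
    intro r
    have h1 : t + r • v - c i = (t - c i) + r • v := by abel
    rw [h1, inner_add_left, real_inner_smul_left, hve, mul_zero, add_zero]
    exact inner_tp c w hcij
  have hpij : ∀ r : ℝ, pw c w i (t + r • v) = pw c w j (t + r • v) := fun r =>
    (pw_eq_iff c w hcij _).2 (hplane r)
  set A : ι → ℝ := fun l => pw c w l t - pw c w i t with hA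
  set B : ι → ℝ := fun l => (pw c w l (t + v) - pw c w i (t + v)) - A l with hB
  have hφ : ∀ (l : ι) (r : ℝ), pw c w l (t + r • v) - pw c w i (t + r • v) = A l + r * B l := by
    intro l r
    have h1 := pw_diff_affine c w i l t (t + v) r
    rw [add_sub_cancel_left] at h1
    rw [h1, hB, hA]
    ring
  have hA0 : ∀ l, 0 ≤ A l := by
    intro l
    by_cases h1 : l = i
    · rw [hA, h1]; simp
    by_cases h2 : l = j
    · have := hpij 0
      rw [zero_smul, add_zero] at this
      rw [hA, h2]
      simp only
      linarith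
    · have := hpos l h1 h2
      simp only [hA]
      linarith
  have hBi : B i = 0 := by simp [hB, hA]
  have hBj : B j = 0 := by
    have h0 := hpij 0
    have h1 := hpij 1
    rw [zero_smul, add_zero] at h0
    rw [one_smul] at h1
    simp only [hB, hA]
    linarith
  -- some point of the ray is outside the cell
  obtain ⟨M, hM⟩ := hb.exists_norm_le
  obtain ⟨r0, hr0, hr0c⟩ : ∃ r : ℝ, 0 < r ∧ t + r • v ∉ cell c w i := by
    refine ⟨(|M| + ‖t‖ + 1) / ‖v‖, by positivity, fun hmem => ?_⟩
    have h1 := hM _ hmem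
    have h2 : ‖((|M| + ‖t‖ + 1) / ‖v‖) • v‖ = |M| + ‖t‖ + 1 := by
      rw [norm_smul, Real.norm_eq_abs, abs_of_pos (by positivity)]
      field_simp
    have h3 : ‖((|M| + ‖t‖ + 1) / ‖v‖) • v‖ ≤ ‖t + ((|M| + ‖t‖ + 1) / ‖v‖) • v‖ + ‖t‖ := by
      have := norm_sub_le (t + ((|M| + ‖t‖ + 1) / ‖v‖) • v) t
      rwa [add_sub_cancel_left] at this
    have h4 := le_abs_self M
    linarith
  have hneg : ∃ l, B l < 0 := by
    by_contra hcon
    push Not at hcon
    apply hr0c
    intro l
    have h1 := hφ l r0
    have h2 := mul_nonneg hr0.le (hcon l)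
    linarith [hA0 l]
  obtain ⟨l0, hl0⟩ := hneg
  obtain ⟨k, hk, hkmin⟩ := Finset.exists_min_image (Finset.univ.filter fun l => B l < 0)
    (fun l => A l / (-B l)) ⟨l0, by simp [hl0]⟩
  rw [Finset.mem_filter] at hk
  have hBk : B k < 0 := hk.2
  have hki : k ≠ i := by
    rintro rfl
    linarith
  have hkj : k ≠ j := by
    rintro rfl
    linarith
  have hAk : 0 < A k := by
    have := hpos k hki hkj
    simp only [hA]
    linarith
  set R : ℝ := A k / (-B k) with hR
  have hRpos : 0 < R := div_pos hAk (by linarith)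
  have hRk : A k + R * B k = 0 := by
    have h1 : R * (-B k) = A k := div_mul_cancel₀ _ (by linarith)
    linarith
  have hcell : t + R • v ∈ cell c w i := by
    intro l
    have h1 := hφ l R
    by_cases h2 : B l < 0
    · have h3 := hkmin l (by simp [h2])
      have h4 : R * (-B l) ≤ A l := by
        rw [← le_div_iff₀ (by linarith)]
        exact h3
      linarith
    · push Not at h2
      have h3 := mul_nonneg hRpos.le h2
      linarith [hA0 l]
  have hik : pw c w i (t + R • v) = pw c w k (t + R • v) := by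
    have := hφ k R
    linarith
  refine ⟨k, ⟨hij, hki.symm, hkj.symm⟩, ?_, ?_⟩
  · intro hs
    have h1 := pw_diff_collinear c w (i := i) (j := j) (k := k) hcij
      (fun h => hki (hc h).symm) hs (hplane R) (hplane 0)
    rw [hik, sub_self, zero_smul, add_zero] at h1
    have : A k = 0 := h1.symm
    linarith
  · refine ⟨a, 1 / R, by positivity, t + R • v, ⟨hpij R, hik, hcell⟩, ?_⟩
    rw [add_sub_cancel_left, smul_smul, one_div_mul_cancel hRpos.ne', one_smul, hv]
    abel

end Pool.Agent.Lib.MP_b2bfca_co.K3U
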