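import Pool.Agent.Lib.MP_b2bfca_co.K3U.Defs

/-!
# Volume of the cone over a triangle

PROOF. Write `z^2 = d^2 + h^2`, `u = √(δ^2+z^2)`. Tonelli (`lintegral_prod`, or the volume of a
measurable subset of a product, `Measure.prod_apply`). For fixed `X > 0` and `Y` with
`δ Y / (d X) ∈ (0,1)` substitute `Z = (Y/d) h` (scaling of the line, Jacobian `|Y/d|`), then
`Y = (d/δ) X s`, `s ∈ (0,1)` (Jacobian `|d| X / δ`): the volume is
`∫_{X>0} ∫_{s∈(0,1)} ∫_{h∈J} (|d| X^2 s/δ^2) 1[X^2 (δ^2 + s^2 z^2) < δ^2]`.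
Exchange the order; `∫ X^2 dX` over `0 < X < δ/√(δ^2+s^2z^2)` is `(1/3) δ^3 (δ^2+s^2z^2)^(-3/2)`;
`∫_0^1 s (δ^2+s^2z^2)^(-3/2) ds = (1/z^2)(1/δ - 1/u)`
(antiderivative `- (1/z^2) (δ^2+s^2z^2)^(-1/2)`). So the volume is
`(|d|/3) ∫_J (1/z^2)(1 - δ/u) dh`, and `(1/z^2)(1-δ/u) = 1/(u(u+δ))` as `z^2 = (u-δ)(u+δ)`.
Alternatively use the change of variables theorem `lintegral_abs_det_fderiv_eq_addHaar_image`
for the injective map `(X,s,h) ↦ (X, (d/δ)Xs, (1/δ)Xsh)`, determinant `|d| X^2 s/δ^2`.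
Both sides are finite (the left side is at most the volume of a box; the integrand on the right is
bounded by `|d|/(d^2+h^2)`, integrable).
-/

set_option autoImplicit false

namespace Pool.Agent.Lib.MP_b2bfca_co.K3U

open MeasureTheory

/-- Scaling of the line. -/
theorem VolT_scale {a : ℝ} (ha : a ≠ 0) (f : ℝ → ENNReal) :
    ∫⁻ z, f z = ENNReal.ofReal |a| * ∫⁻ h, f (a * h) := by
  have h1 : ∫⁻ z, f z = ∫⁻ z, f z ∂(ENNReal.ofReal |a| • Measure.map (a * ·) volume) := by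
    rw [Real.smul_map_volume_mul_left ha]
  rw [h1, lintegral_smul_measure]
  congr 1
  exact (Homeomorph.mulLeft₀ a ha).toMeasurableEquiv.measurableEmbedding.lintegral_map f

/-- The region. -/
def VolT_S (δ d : ℝ) (J : Set ℝ) : Set (ℝ × ℝ × ℝ) :=
  {p : ℝ × ℝ × ℝ | 0 < p.1 ∧ 0 < δ * p.2.1 / (d * p.1) ∧ δ * p.2.1 / (d * p.1) < 1 ∧
      d * p.2.2 / p.2.1 ∈ J ∧ p.1 ^ 2 + p.2.1 ^ 2 + p.2.2 ^ 2 < 1}

theorem VolT_meas (δ d : ℝ) {J : Set ℝ} (hJ : MeasurableSet J) :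
    MeasurableSet (VolT_S δ d J) := by
  unfold VolT_S
  have e : {p : ℝ × ℝ × ℝ | 0 < p.1 ∧ 0 < δ * p.2.1 / (d * p.1) ∧ δ * p.2.1 / (d * p.1) < 1 ∧
      d * p.2.2 / p.2.1 ∈ J ∧ p.1 ^ 2 + p.2.1 ^ 2 + p.2.2 ^ 2 < 1} =
      {p : ℝ × ℝ × ℝ | 0 < p.1} ∩ ({p : ℝ × ℝ × ℝ | 0 < δ * p.2.1 / (d * p.1)} ∩
      ({p : ℝ × ℝ × ℝ | δ * p.2.1 / (d * p.1) < 1} ∩
      ((fun p : ℝ × ℝ × ℝ => d * p.2.2 / p.2.1) ⁻¹' J ∩
      {p : ℝ × ℝ × ℝ | p.1 ^ 2 + p.2.1 ^ 2 + p.2.2 ^ 2 < 1}))) := by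
    ext p; simp only [Set.mem_ofPred_eq, Set.mem_inter_iff, Set.mem_preimage]
  rw [e]
  have m1 : Measurable (fun p : ℝ × ℝ × ℝ => δ * p.2.1 / (d * p.1)) := by fun_prop
  have m2 : Measurable (fun p : ℝ × ℝ × ℝ => d * p.2.2 / p.2.1) := by fun_prop
  have m3 : Measurable (fun p : ℝ × ℝ × ℝ => p.1 ^ 2 + p.2.1 ^ 2 + p.2.2 ^ 2) := by fun_prop
  refine (measurableSet_lt measurable_const measurable_fst).inter ?_
  refine (measurableSet_lt measurable_const m1).inter ?_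
  refine (measurableSet_lt m1 measurable_const).inter ?_
  exact (m2 hJ).inter (measurableSet_lt m3 measurable_const)

/-- The region in the coordinates `(X, s, h)`. -/
def VolT_R (δ d : ℝ) (J : Set ℝ) : Set (ℝ × ℝ × ℝ) :=
  {p : ℝ × ℝ × ℝ | 0 < p.1 ∧ 0 < p.2.1 ∧ p.2.1 < 1 ∧ p.2.2 ∈ J ∧
    p.1 ^ 2 * (δ ^ 2 + p.2.1 ^ 2 * (d ^ 2 + p.2.2 ^ 2)) < δ ^ 2}

theorem VolT_measR (δ d : ℝ) {J : Set ℝ} (hJ : MeasurableSet J) :
    MeasurableSet (VolT_R δ d J) := by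
  unfold VolT_R
  have e : {p : ℝ × ℝ × ℝ | 0 < p.1 ∧ 0 < p.2.1 ∧ p.2.1 < 1 ∧ p.2.2 ∈ J ∧
    p.1 ^ 2 * (δ ^ 2 + p.2.1 ^ 2 * (d ^ 2 + p.2.2 ^ 2)) < δ ^ 2} =
      {p : ℝ × ℝ × ℝ | 0 < p.1} ∩ ({p : ℝ × ℝ × ℝ | 0 < p.2.1} ∩
      ({p : ℝ × ℝ × ℝ | p.2.1 < 1} ∩
      ((fun p : ℝ × ℝ × ℝ => p.2.2) ⁻¹' J ∩
      {p : ℝ × ℝ × ℝ | p.1 ^ 2 * (δ ^ 2 + p.2.1 ^ 2 * (d ^ 2 + p.2.2 ^ 2)) < δ ^ 2}))) := by
    ext p; simp only [Set.mem_ofPred_eq, Set.mem_inter_iff, Set.mem_preimage]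
  rw [e]
  have m1 : Measurable (fun p : ℝ × ℝ × ℝ => p.2.1) := by fun_prop
  have m2 : Measurable (fun p : ℝ × ℝ × ℝ => p.2.2) := by fun_prop
  have m3 : Measurable (fun p : ℝ × ℝ × ℝ =>
    p.1 ^ 2 * (δ ^ 2 + p.2.1 ^ 2 * (d ^ 2 + p.2.2 ^ 2))) := by fun_prop
  refine (measurableSet_lt measurable_const measurable_fst).inter ?_
  refine (measurableSet_lt measurable_const m1).inter ?_
  refine (measurableSet_lt m1 measurable_const).inter ?_
  exact (m2 hJ).inter (measurableSet_lt m3 measurable_const)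

/-- The integrand in the coordinates `(X, s, h)`. -/
noncomputable def VolT_G (δ d : ℝ) (J : Set ℝ) (p : ℝ × ℝ × ℝ) : ENNReal :=
  (VolT_R δ d J).indicator (fun p => ENNReal.ofReal (|d| * p.1 ^ 2 * p.2.1 / δ ^ 2)) p

theorem VolT_measG (δ d : ℝ) {J : Set ℝ} (hJ : MeasurableSet J) :
    Measurable (VolT_G δ d J) := by
  unfold VolT_G
  refine Measurable.indicator ?_ (VolT_measR δ d hJ)
  exact ENNReal.measurable_ofReal.comp (by fun_prop)

/-- Membership after substitution. -/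
theorem VolT_sub {δ d : ℝ} (hδ : 0 < δ) (hd : d ≠ 0) (J : Set ℝ) {X s h : ℝ} (hX : 0 < X)
    (hs : 0 < s) :
    (X, (d / δ * X) * s, (X * s / δ) * h) ∈ VolT_S δ d J ↔ (X, s, h) ∈ VolT_R δ d J := by
  unfold VolT_S VolT_R
  simp only [Set.mem_ofPred_eq]
  have e1 : δ * (d / δ * X * s) / (d * X) = s := by field_simp
  have e2 : d * (X * s / δ * h) / (d / δ * X * s) = h := by field_simp
  rw [e1, e2]
  have e3 : X ^ 2 + (d / δ * X * s) ^ 2 + (X * s / δ * h) ^ 2 < 1 ↔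
      X ^ 2 * (δ ^ 2 + s ^ 2 * (d ^ 2 + h ^ 2)) < δ ^ 2 := by
    have : X ^ 2 + (d / δ * X * s) ^ 2 + (X * s / δ * h) ^ 2 =
        (X ^ 2 * (δ ^ 2 + s ^ 2 * (d ^ 2 + h ^ 2))) / δ ^ 2 := by
      field_simp
      ring
    rw [this, div_lt_one (by positivity)]
  rw [e3]

/-- The substitution for fixed `X`. -/
theorem VolT_inner {δ d : ℝ} (hδ : 0 < δ) (hd : d ≠ 0) (J : Set ℝ) (X : ℝ) :
    ∫⁻ Y, ∫⁻ Z, (VolT_S δ d J).indicator 1 (X, Y, Z) = ∫⁻ s, ∫⁻ h, VolT_G δ d J (X, s, h) := by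
  rcases le_or_gt X 0 with hX | hX
  · have h1 : ∀ Y Z, (VolT_S δ d J).indicator (1 : ℝ × ℝ × ℝ → ENNReal) (X, Y, Z) = 0 := by
      intro Y Z
      refine Set.indicator_of_notMem ?_ _
      rintro ⟨h, -⟩
      exact absurd h (not_lt.2 hX)
    have h2 : ∀ s h, VolT_G δ d J (X, s, h) = 0 := by
      intro Y Z
      refine Set.indicator_of_notMem ?_ _
      rintro ⟨h, -⟩
      exact absurd h (not_lt.2 hX)
    simp [h1, h2]
  · have ha : d / δ * X ≠ 0 := by positivity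
    rw [VolT_scale ha, ← lintegral_const_mul' _ _ ENNReal.ofReal_ne_top]
    refine lintegral_congr fun s => ?_
    rcases le_or_gt s 0 with hs | hs
    · have h1 : ∀ Z, (VolT_S δ d J).indicator (1 : ℝ × ℝ × ℝ → ENNReal) (X, d / δ * X * s, Z) = 0 := by
        intro Z
        refine Set.indicator_of_notMem ?_ _
        rintro ⟨-, h, -⟩
        have e1 : δ * (d / δ * X * s) / (d * X) = s := by field_simp
        simp only at h
        rw [e1] at h
        exact absurd h (not_lt.2 hs)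
      have h2 : ∀ h, VolT_G δ d J (X, s, h) = 0 := by
        intro Z
        refine Set.indicator_of_notMem ?_ _
        rintro ⟨-, h, -⟩
        exact absurd h (not_lt.2 hs)
      simp [h1, h2]
    · have hb : X * s / δ ≠ 0 := by positivity
      rw [VolT_scale hb, ← lintegral_const_mul' _ _ ENNReal.ofReal_ne_top,
        ← lintegral_const_mul' _ _ ENNReal.ofReal_ne_top]
      refine lintegral_congr fun h => ?_
      unfold VolT_G
      by_cases hm : (X, s, h) ∈ VolT_R δ d J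
      · rw [Set.indicator_of_mem hm, Set.indicator_of_mem ((VolT_sub hδ hd J hX hs).2 hm)]
        simp only [Pi.one_apply, mul_one]
        rw [← ENNReal.ofReal_mul (abs_nonneg _), abs_of_pos (show 0 < X * s / δ by positivity),
          abs_mul, abs_div, abs_of_pos hX, abs_of_pos hδ]
        congr 1
        field_simp
      · rw [Set.indicator_of_notMem hm,
          Set.indicator_of_notMem (fun h' => hm ((VolT_sub hδ hd J hX hs).1 h'))]
        simp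

/-- Exchange of the order of integration. -/
theorem VolT_swap (δ d : ℝ) {J : Set ℝ} (hJ : MeasurableSet J) :
    ∫⁻ X, ∫⁻ s, ∫⁻ h, VolT_G δ d J (X, s, h) = ∫⁻ h, ∫⁻ s, ∫⁻ X, VolT_G δ d J (X, s, h) := by
  have hG := VolT_measG δ d hJ
  have s1 : ∀ X, ∫⁻ s, ∫⁻ h, VolT_G δ d J (X, s, h) = ∫⁻ h, ∫⁻ s, VolT_G δ d J (X, s, h) := by
    intro X
    refine lintegral_lintegral_swap ?_
    refine Measurable.aemeasurable ?_
    exact hG.comp (by fun_prop : Measurable (fun p : ℝ × ℝ => ((X, p.1, p.2) : ℝ × ℝ × ℝ)))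
  have s3 : ∀ h, ∫⁻ X, ∫⁻ s, VolT_G δ d J (X, s, h) = ∫⁻ s, ∫⁻ X, VolT_G δ d J (X, s, h) := by
    intro h
    refine lintegral_lintegral_swap ?_
    refine Measurable.aemeasurable ?_
    exact hG.comp (by fun_prop : Measurable (fun p : ℝ × ℝ => ((p.1, p.2, h) : ℝ × ℝ × ℝ)))
  simp_rw [s1]
  rw [lintegral_lintegral_swap]
  · simp_rw [s3]
  · refine Measurable.aemeasurable ?_
    have : Measurable (fun q : (ℝ × ℝ) × ℝ => VolT_G δ d J (q.1.1, q.2, q.1.2)) :=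
      hG.comp (by fun_prop : Measurable (fun q : (ℝ × ℝ) × ℝ => ((q.1.1, q.2, q.1.2) : ℝ × ℝ × ℝ)))
    exact this.lintegral_prod_right'

/-- The integral over `X`. -/
theorem VolT_intX {δ d : ℝ} (hδ : 0 < δ) {J : Set ℝ} {s h : ℝ} (hs : 0 < s)
    (hs1 : s < 1) (hh : h ∈ J) :
    ∫⁻ X, VolT_G δ d J (X, s, h) =
      ENNReal.ofReal (|d| * δ / 3 * (s / Real.sqrt (δ ^ 2 + s ^ 2 * (d ^ 2 + h ^ 2)) ^ 3)) := by
  set q : ℝ := Real.sqrt (δ ^ 2 + s ^ 2 * (d ^ 2 + h ^ 2)) with hq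
  have hq0 : 0 < δ ^ 2 + s ^ 2 * (d ^ 2 + h ^ 2) := by positivity
  have hqp : 0 < q := Real.sqrt_pos.2 hq0
  have hq2 : q ^ 2 = δ ^ 2 + s ^ 2 * (d ^ 2 + h ^ 2) := Real.sq_sqrt hq0.le
  have e1 : ∀ X, VolT_G δ d J (X, s, h) =
      (Set.Ioo 0 (δ / q)).indicator (fun X => ENNReal.ofReal (|d| * X ^ 2 * s / δ ^ 2)) X := by
    intro X
    unfold VolT_G
    by_cases hX : X ∈ Set.Ioo 0 (δ / q)
    · have hm : (X, s, h) ∈ VolT_R δ d J := by
        refine ⟨hX.1, hs, hs1, hh, ?_⟩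
        simp only
        rw [← hq2]
        have h2 : X * q < δ := by
          have := hX.2
          rwa [lt_div_iff₀ hqp] at this
        have h3 : 0 ≤ X * q := by
          have := hX.1
          positivity
        nlinarith
      rw [Set.indicator_of_mem hX, Set.indicator_of_mem hm]
    · have hm : (X, s, h) ∉ VolT_R δ d J := by
        rintro ⟨h0, -, -, -, h4⟩
        apply hX
        refine ⟨h0, ?_⟩
        simp only at h4 h0
        rw [← hq2] at h4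
        rw [lt_div_iff₀ hqp]
        have : (X * q) ^ 2 < δ ^ 2 := by nlinarith
        exact lt_of_pow_lt_pow_left₀ 2 hδ.le this
      rw [Set.indicator_of_notMem hX, Set.indicator_of_notMem hm]
  simp_rw [e1]
  rw [lintegral_indicator measurableSet_Ioo]
  rw [← ofReal_integral_eq_lintegral_ofReal]
  · congr 1
    rw [← integral_Ioc_eq_integral_Ioo, ← intervalIntegral.integral_of_le (by positivity)]
    have e2 : ∀ X : ℝ, |d| * X ^ 2 * s / δ ^ 2 = (|d| * s / δ ^ 2) * X ^ 2 := by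
      intro X; ring
    simp_rw [e2]
    rw [intervalIntegral.integral_const_mul, integral_pow, div_pow]
    field_simp
    norm_num
    ring
  · refine (Continuous.integrableOn_Icc ?_).mono_set Set.Ioo_subset_Icc_self
    fun_prop
  · refine Filter.Eventually.of_forall fun X => ?_
    simp only [Pi.zero_apply]
    positivity

/-- The integral over `s`. -/
theorem VolT_ints {δ d : ℝ} (hδ : 0 < δ) (hd : d ≠ 0) (h : ℝ) :
    ∫⁻ s in Set.Ioo (0 : ℝ) 1,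
      ENNReal.ofReal (|d| * δ / 3 * (s / Real.sqrt (δ ^ 2 + s ^ 2 * (d ^ 2 + h ^ 2)) ^ 3)) =
      ENNReal.ofReal (1 / 3 * (|d| / (Real.sqrt (δ ^ 2 + d ^ 2 + h ^ 2) *
        (Real.sqrt (δ ^ 2 + d ^ 2 + h ^ 2) + δ)))) := by
  have hd2 : 0 < d ^ 2 := by positivity
  have hz : 0 < d ^ 2 + h ^ 2 := by positivity
  have hq0 : ∀ s : ℝ, 0 < δ ^ 2 + s ^ 2 * (d ^ 2 + h ^ 2) := fun s => by positivity
  have hqp : ∀ s : ℝ, 0 < Real.sqrt (δ ^ 2 + s ^ 2 * (d ^ 2 + h ^ 2)) :=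
    fun s => Real.sqrt_pos.2 (hq0 s)
  have hcont : Continuous (fun s : ℝ => |d| * δ / 3 *
      (s / Real.sqrt (δ ^ 2 + s ^ 2 * (d ^ 2 + h ^ 2)) ^ 3)) := by
    refine Continuous.mul continuous_const (Continuous.div continuous_id ?_ ?_)
    · fun_prop
    · intro s
      have := hqp s
      positivity
  rw [← ofReal_integral_eq_lintegral_ofReal]
  · congr 1
    rw [← integral_Ioc_eq_integral_Ioo, ← intervalIntegral.integral_of_le zero_le_one]
    have hder : ∀ s ∈ Set.uIcc (0 : ℝ) 1, HasDerivAt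
        (fun s => -(|d| * δ / 3 / (d ^ 2 + h ^ 2)) *
          (Real.sqrt (δ ^ 2 + s ^ 2 * (d ^ 2 + h ^ 2)))⁻¹)
        (|d| * δ / 3 * (s / Real.sqrt (δ ^ 2 + s ^ 2 * (d ^ 2 + h ^ 2)) ^ 3)) s := by
      intro s _
      have h1 : HasDerivAt (fun s : ℝ => δ ^ 2 + s ^ 2 * (d ^ 2 + h ^ 2))
          (2 * s * (d ^ 2 + h ^ 2)) s := by
        have := ((hasDerivAt_pow 2 s).mul_const (d ^ 2 + h ^ 2)).const_add (δ ^ 2)
        simpa using this
      have h2 := (h1.sqrt (hq0 s).ne').inv (hqp s).ne'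
      have h3 := h2.const_mul (-(|d| * δ / 3 / (d ^ 2 + h ^ 2)))
      refine h3.congr_deriv ?_
      have := hqp s
      field_simp
    rw [intervalIntegral.integral_eq_sub_of_hasDerivAt hder (hcont.intervalIntegrable _ _)]
    have hu2 : Real.sqrt (δ ^ 2 + d ^ 2 + h ^ 2) ^ 2 = δ ^ 2 + d ^ 2 + h ^ 2 :=
      Real.sq_sqrt (by positivity)
    have hup : 0 < Real.sqrt (δ ^ 2 + d ^ 2 + h ^ 2) := Real.sqrt_pos.2 (by positivity)
    have e0 : Real.sqrt (δ ^ 2 + (0 : ℝ) ^ 2 * (d ^ 2 + h ^ 2)) = δ := by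
      rw [show δ ^ 2 + (0 : ℝ) ^ 2 * (d ^ 2 + h ^ 2) = δ ^ 2 by ring, Real.sqrt_sq hδ.le]
    have e1 : Real.sqrt (δ ^ 2 + (1 : ℝ) ^ 2 * (d ^ 2 + h ^ 2)) =
        Real.sqrt (δ ^ 2 + d ^ 2 + h ^ 2) := by
      congr 1; ring
    rw [e0, e1]
    set u := Real.sqrt (δ ^ 2 + d ^ 2 + h ^ 2) with hu
    field_simp
    nlinarith
  · exact hcont.integrableOn_Icc.mono_set Set.Ioo_subset_Icc_self
  · refine (ae_restrict_iff' measurableSet_Ioo).2 (Filter.Eventually.of_forall fun s hs => ?_)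
    simp only [Pi.zero_apply]
    have := hqp s
    have := hs.1
    positivity

theorem vol_T {δ d : ℝ} (hδ : 0 < δ) (hd : d ≠ 0) {J : Set ℝ} (hJ : MeasurableSet J) :
    (volume {p : ℝ × ℝ × ℝ | 0 < p.1 ∧ 0 < δ * p.2.1 / (d * p.1) ∧ δ * p.2.1 / (d * p.1) < 1 ∧
      d * p.2.2 / p.2.1 ∈ J ∧ p.1 ^ 2 + p.2.1 ^ 2 + p.2.2 ^ 2 < 1}).toReal =
      (1 / 3) * ∫ h in J, |d| / (Real.sqrt (δ ^ 2 + d ^ 2 + h ^ 2) *
        (Real.sqrt (δ ^ 2 + d ^ 2 + h ^ 2) + δ)) := by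
  have hS := VolT_meas δ d hJ
  have hvol : volume (VolT_S δ d J) = ∫⁻ h in J, ENNReal.ofReal
      (1 / 3 * (|d| / (Real.sqrt (δ ^ 2 + d ^ 2 + h ^ 2) *
        (Real.sqrt (δ ^ 2 + d ^ 2 + h ^ 2) + δ)))) := by
    rw [← lintegral_indicator_one hS, Measure.volume_eq_prod, lintegral_prod _
      ((measurable_one.indicator hS).aemeasurable)]
    have h1 : ∀ X, ∫⁻ p : ℝ × ℝ, (VolT_S δ d J).indicator 1 (X, p) =
        ∫⁻ s, ∫⁻ h, VolT_G δ d J (X, s, h) := by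
      intro X
      rw [← VolT_inner hδ hd J X, Measure.volume_eq_prod, lintegral_prod]
      refine Measurable.aemeasurable ?_
      exact (measurable_one.indicator hS).comp
        (by fun_prop : Measurable (fun p : ℝ × ℝ => ((X, p) : ℝ × ℝ × ℝ)))
    simp_rw [h1]
    rw [VolT_swap δ d hJ, ← lintegral_indicator hJ]
    refine lintegral_congr fun h => ?_
    by_cases hh : h ∈ J
    · rw [Set.indicator_of_mem hh, ← VolT_ints hδ hd h, ← lintegral_indicator measurableSet_Ioo]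
      refine lintegral_congr fun s => ?_
      by_cases hs : s ∈ Set.Ioo (0 : ℝ) 1
      · rw [Set.indicator_of_mem hs, VolT_intX hδ hs.1 hs.2 hh]
      · rw [Set.indicator_of_notMem hs]
        have h2 : ∀ X, VolT_G δ d J (X, s, h) = 0 := by
          intro X
          refine Set.indicator_of_notMem ?_ _
          rintro ⟨-, h1, h2, -⟩
          exact hs ⟨h1, h2⟩
        simp [h2]
    · rw [Set.indicator_of_notMem hh]
      have h2 : ∀ s X, VolT_G δ d J (X, s, h) = 0 := by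
        intro s X
        refine Set.indicator_of_notMem ?_ _
        rintro ⟨-, -, -, h3, -⟩
        exact hh h3
      simp [h2]
  have hfin := hvol
  change (volume (VolT_S δ d J)).toReal = _
  rw [hvol, ← integral_const_mul, integral_eq_lintegral_of_nonneg_ae]
  · refine Filter.Eventually.of_forall fun h => ?_
    simp only [Pi.zero_apply]
    positivity
  · refine Measurable.aestronglyMeasurable ?_
    fun_prop

end Pool.Agent.Lib.MP_b2bfca_co.K3U
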