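import Pool.Agent.Lib.MP_b2bfca_co.K3U.Haus
import Pool.Agent.Lib.MP_b2bfca_co.K3U.Frame
import Pool.Agent.Lib.MP_b2bfca_co.K3U.VolT
import Pool.Agent.Lib.MP_b2bfca_co.K3U.GeoB

/-!
# `AA` is three times the signed volume of the cone region

PROOF of `TT_coord`. Let `e = ev i j`, `m = mv i j k`, `n` a third unit vector
(`exists_third`), frame at `p = c i`. By `axis_iff`, `SS i j k = {tp + d m + h n : h ∈ J}` with
`J = {h | tp + d m + h n ∈ SS}` (closed: `SS` is closed as all `pw` are continuous; so `J` is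
measurable). The point `c i + τ ((tp - c i) + s (y - tp))` with `y = tp + d m + h n` has
coordinates `(τ δ, τ s d, τ s h)`, `δ = de i j > 0`. Conversely from `(X, Y, Z)`: `τ = X/δ`,
`s = δ Y/(d X)`, `h = d Z/Y`. So `TT` is the preimage of the set of `vol_T` (without the ball)
under the coordinate map, and the ball is `X^2+Y^2+Z^2 < 1` by `frame_norm`.
`measurableSet_TT`: preimage of a measurable set under a measurable map.
`AA_eq`: if `sn = 0` or `dd = 0` then `dd = 0` (division by zero) and both sides vanish (`Real.sign 0 = 0`).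
Otherwise `AA = ∫_J d/(u(u+δ))` by `integral_line` and `dist_axis` (`‖y - c i‖ = √(δ^2+d^2+h^2)`), and
`d = sign d * |d|`; the volume is given by `vol_T` and `MeasurePreserving.measure_preimage`
(`frame_mp`).
-/

set_option autoImplicit false

namespace Pool.Agent.Lib.MP_b2bfca_co.K3U

open MeasureTheory

variable {ι : Type} (c : ι → E3) (w : ι → ℝ)

private theorem VolTT_continuous_pw (i : ι) : Continuous (pw c w i) := by
  unfold pw
  fun_prop

theorem isClosed_SS (i j k : ι) : IsClosed (SS c w i j k) := by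
  have h1 := isClosed_eq (VolTT_continuous_pw c w i) (VolTT_continuous_pw c w j)
  have h2 := isClosed_eq (VolTT_continuous_pw c w i) (VolTT_continuous_pw c w k)
  have h3 : IsClosed (cell c w i) := by
    unfold cell
    rw [Set.ofPred_forall]
    exact isClosed_iInter fun l =>
      isClosed_le (VolTT_continuous_pw c w i) (VolTT_continuous_pw c w l)
  exact h1.inter (h2.inter h3)

private theorem VolTT_frame {e m n : E3} (h : Orthonormal ℝ ![e, m, n]) (a b t : ℝ) :
    inner ℝ (a • e + b • m + t • n) e = a ∧ inner ℝ (a • e + b • m + t • n) m = b ∧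
      inner ℝ (a • e + b • m + t • n) n = t := by
  have he : ‖e‖ = 1 := h.1 0
  have hm : ‖m‖ = 1 := h.1 1
  have hn : ‖n‖ = 1 := h.1 2
  have hem : inner ℝ e m = 0 := h.2 (show (0 : Fin 3) ≠ 1 by decide)
  have hen : inner ℝ e n = 0 := h.2 (show (0 : Fin 3) ≠ 2 by decide)
  have hme : inner ℝ m e = 0 := h.2 (show (1 : Fin 3) ≠ 0 by decide)
  have hmn : inner ℝ m n = 0 := h.2 (show (1 : Fin 3) ≠ 2 by decide)
  have hne : inner ℝ n e = 0 := h.2 (show (2 : Fin 3) ≠ 0 by decide)
  have hnm : inner ℝ n m = 0 := h.2 (show (2 : Fin 3) ≠ 1 by decide)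
  simp only [inner_add_left, real_inner_smul_left, real_inner_self_eq_norm_sq, he, hm, hn, hem,
    hen, hme, hmn, hne, hnm]
  refine ⟨by ring, by ring, by ring⟩

private theorem VolTT_mem (hc : Function.Injective c) {i j k : ι} (h3 : Dist3 i j k)
    (hde : 0 < de c w i j) (hs : sn c i j k ≠ 0) (hd : dd c w i j k ≠ 0) {n : E3}
    (hn : Orthonormal ℝ ![ev c i j, mv c i j k, n]) (x : E3) :
    x ∈ TT c w i j k ↔ 0 < inner ℝ (x - c i) (ev c i j) ∧
      0 < de c w i j * inner ℝ (x - c i) (mv c i j k) /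
        (dd c w i j k * inner ℝ (x - c i) (ev c i j)) ∧
      de c w i j * inner ℝ (x - c i) (mv c i j k) /
        (dd c w i j k * inner ℝ (x - c i) (ev c i j)) < 1 ∧
      tp c w i j + dd c w i j k • mv c i j k + (dd c w i j k * inner ℝ (x - c i) n /
        inner ℝ (x - c i) (mv c i j k)) • n ∈ SS c w i j k := by
  have hj : c i ≠ c j := fun h => h3.1 (hc h)
  have hk : c i ≠ c k := fun h => h3.2.1 (hc h)
  constructor
  · rintro ⟨τ, hτ, s, hs0, hs1, y, hy, rfl⟩
    obtain ⟨h, rfl⟩ := (axis_iff c w hj hk hs hn y).1 ⟨hy.1, hy.2.1⟩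
    have h1 : c i + τ • ((tp c w i j - c i) + s • (tp c w i j + dd c w i j k • mv c i j k +
        h • n - tp c w i j)) - c i = (τ * de c w i j) • ev c i j +
        (τ * s * dd c w i j k) • mv c i j k + (τ * s * h) • n := by
      rw [tp]
      module
    obtain ⟨h2, h4, h5⟩ := VolTT_frame hn (τ * de c w i j) (τ * s * dd c w i j k) (τ * s * h)
    rw [h1, h2, h4, h5]
    have h6 : de c w i j * (τ * s * dd c w i j k) / (dd c w i j k * (τ * de c w i j)) = s := by
      field_simp
    have h7 : dd c w i j k * (τ * s * h) / (τ * s * dd c w i j k) = h := by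
      field_simp
    rw [h6, h7]
    exact ⟨mul_pos hτ hde, hs0, hs1, hy⟩
  · rintro ⟨h1, h2, h4, h5⟩
    have hx := frame_expand (c i) _ _ _ hn x
    set X := inner ℝ (x - c i) (ev c i j) with hX
    set Y := inner ℝ (x - c i) (mv c i j k) with hY
    set Z := inner ℝ (x - c i) n with hZ
    have hY0 : Y ≠ 0 := by
      intro h0
      rw [h0, mul_zero, zero_div] at h2
      exact lt_irrefl _ h2
    refine ⟨X / de c w i j, div_pos h1 hde, de c w i j * Y / (dd c w i j k * X), h2, h4, _, h5, ?_⟩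
    rw [hx]
    have h6 : tp c w i j - c i = de c w i j • ev c i j := by
      rw [tp]
      module
    have h7 : tp c w i j + dd c w i j k • mv c i j k + (dd c w i j k * Z / Y) • n -
        tp c w i j = dd c w i j k • mv c i j k + (dd c w i j k * Z / Y) • n := by
      module
    rw [h6, h7, smul_add, smul_smul, smul_smul, smul_add, smul_smul, smul_smul]
    have h8 : X / de c w i j * de c w i j = X := div_mul_cancel₀ _ hde.ne'
    have h9 : X / de c w i j * (de c w i j * Y / (dd c w i j k * X) * dd c w i j k) = Y := by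
      field_simp
    have h10 : X / de c w i j * (de c w i j * Y / (dd c w i j k * X) *
        (dd c w i j k * Z / Y)) = Z := by
      field_simp
    rw [← mul_assoc] at h9 h10
    rw [h8, h9, h10, add_assoc, add_assoc]

private theorem VolTT_measurable (δ d : ℝ) {J : Set ℝ} (hJ : MeasurableSet J) :
    MeasurableSet {p : ℝ × ℝ × ℝ | 0 < p.1 ∧ 0 < δ * p.2.1 / (d * p.1) ∧
      δ * p.2.1 / (d * p.1) < 1 ∧ d * p.2.2 / p.2.1 ∈ J} := by
  have h1 : Measurable fun p : ℝ × ℝ × ℝ => δ * p.2.1 / (d * p.1) := by fun_prop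
  have h2 : Measurable fun p : ℝ × ℝ × ℝ => d * p.2.2 / p.2.1 := by fun_prop
  exact (measurableSet_lt measurable_const measurable_fst).inter
    ((measurableSet_lt measurable_const h1).inter
      ((measurableSet_lt h1 measurable_const).inter (h2 hJ)))

private theorem VolTT_J {i j k : ι} (n : E3) : MeasurableSet
    {h : ℝ | tp c w i j + dd c w i j k • mv c i j k + h • n ∈ SS c w i j k} := by
  have h1 : Continuous fun h : ℝ => tp c w i j + dd c w i j k • mv c i j k + h • n := by
    fun_prop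
  exact ((isClosed_SS c w i j k).preimage h1).measurableSet

theorem measurableSet_TT (hc : Function.Injective c) {i j k : ι} (h3 : Dist3 i j k)
    (hde : 0 < de c w i j) (hs : sn c i j k ≠ 0) (hd : dd c w i j k ≠ 0) :
    MeasurableSet (TT c w i j k) := by
  have hj : c i ≠ c j := fun h => h3.1 (hc h)
  have hk : c i ≠ c k := fun h => h3.2.1 (hc h)
  obtain ⟨n, hn⟩ := exists_third (ev c i j) (mv c i j k) (norm_ev c hj) (norm_mv c hj hk hs)
    (inner_ev_mv c hj)
  have h1 := (frame_mp (c i) _ _ _ hn).measurable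
    (VolTT_measurable (de c w i j) (dd c w i j k) (VolTT_J c w (i := i) (j := j) (k := k) n))
  have h2 : TT c w i j k = (fun x : E3 => ((inner ℝ (x - c i) (ev c i j),
      inner ℝ (x - c i) (mv c i j k), inner ℝ (x - c i) n) : ℝ × ℝ × ℝ)) ⁻¹'
      {p : ℝ × ℝ × ℝ | 0 < p.1 ∧ 0 < de c w i j * p.2.1 / (dd c w i j k * p.1) ∧
        de c w i j * p.2.1 / (dd c w i j k * p.1) < 1 ∧
        dd c w i j k * p.2.2 / p.2.1 ∈
          {h : ℝ | tp c w i j + dd c w i j k • mv c i j k + h • n ∈ SS c w i j k}} :=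
    Set.ext fun x => VolTT_mem c w hc h3 hde hs hd hn x
  rw [h2]
  exact h1

theorem AA_eq (hc : Function.Injective c) {i j k : ι} (h3 : Dist3 i j k)
    (hde : 0 < de c w i j) :
    AA c w i j k = 3 * (Real.sign (dd c w i j k) *
      (volume (TT c w i j k ∩ Metric.ball (c i) 1)).toReal) := by
  rw [AA, if_pos h3]
  by_cases hd : dd c w i j k = 0
  · rw [hd, Real.sign_zero]
    simp
  have hs : sn c i j k ≠ 0 := by
    intro h
    apply hd
    rw [dd, h, div_zero]
  have hj : c i ≠ c j := fun h => h3.1 (hc h)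
  have hk : c i ≠ c k := fun h => h3.2.1 (hc h)
  obtain ⟨n, hn⟩ := exists_third (ev c i j) (mv c i j k) (norm_ev c hj) (norm_mv c hj hk hs)
    (inner_ev_mv c hj)
  have hn1 : ‖n‖ = 1 := hn.1 2
  rw [integral_line (tp c w i j + dd c w i j k • mv c i j k) n hn1 (SS c w i j k)
    (fun y hy => (axis_iff c w hj hk hs hn y).1 ⟨hy.1, hy.2.1⟩)]
  have hJ := VolTT_J c w (i := i) (j := j) (k := k) n
  have hmp := frame_mp (c i) _ _ _ hn
  have h1 : TT c w i j k ∩ Metric.ball (c i) 1 =
      (fun x : E3 => ((inner ℝ (x - c i) (ev c i j), inner ℝ (x - c i) (mv c i j k),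
        inner ℝ (x - c i) n) : ℝ × ℝ × ℝ)) ⁻¹'
      {p : ℝ × ℝ × ℝ | 0 < p.1 ∧ 0 < de c w i j * p.2.1 / (dd c w i j k * p.1) ∧
        de c w i j * p.2.1 / (dd c w i j k * p.1) < 1 ∧
        dd c w i j k * p.2.2 / p.2.1 ∈
          {h : ℝ | tp c w i j + dd c w i j k • mv c i j k + h • n ∈ SS c w i j k} ∧
        p.1 ^ 2 + p.2.1 ^ 2 + p.2.2 ^ 2 < 1} := by
    ext x
    have h2 := VolTT_mem c w hc h3 hde hs hd hn x
    have h4 : x ∈ Metric.ball (c i) 1 ↔ inner ℝ (x - c i) (ev c i j) ^ 2 +
        inner ℝ (x - c i) (mv c i j k) ^ 2 + inner ℝ (x - c i) n ^ 2 < 1 := by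
      rw [← frame_norm (c i) _ _ _ hn x, Metric.mem_ball, dist_eq_norm, sq_lt_one_iff₀
        (norm_nonneg _)]
    rw [Set.mem_inter_iff, h2, h4]
    simp only [Set.mem_preimage, Set.mem_ofPred_eq]
    tauto
  have hme : MeasurableSet {p : ℝ × ℝ × ℝ | 0 < p.1 ∧
        0 < de c w i j * p.2.1 / (dd c w i j k * p.1) ∧
        de c w i j * p.2.1 / (dd c w i j k * p.1) < 1 ∧
        dd c w i j k * p.2.2 / p.2.1 ∈
          {h : ℝ | tp c w i j + dd c w i j k • mv c i j k + h • n ∈ SS c w i j k} ∧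
        p.1 ^ 2 + p.2.1 ^ 2 + p.2.2 ^ 2 < 1} := by
    have h5 := VolTT_measurable (de c w i j) (dd c w i j k) hJ
    have h6 : MeasurableSet {p : ℝ × ℝ × ℝ | p.1 ^ 2 + p.2.1 ^ 2 + p.2.2 ^ 2 < 1} :=
      measurableSet_lt (by fun_prop) measurable_const
    convert h5.inter h6 using 1
    ext p
    simp only [Set.mem_inter_iff, Set.mem_ofPred_eq]
    tauto
  rw [h1, hmp.measure_preimage hme.nullMeasurableSet, vol_T hde hd hJ]
  have hsg : Real.sign (dd c w i j k) * |dd c w i j k| = dd c w i j k := by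
    rcases lt_or_gt_of_ne hd with h | h
    · rw [Real.sign_of_neg h, abs_of_neg h]
      ring
    · rw [Real.sign_of_pos h, abs_of_pos h]
      ring
  rw [show ∀ a b : ℝ, 3 * (a * (1 / 3 * b)) = a * b from fun a b => by ring,
    ← integral_const_mul]
  refine setIntegral_congr_fun hJ fun h _ => ?_
  have h7 : ‖tp c w i j + dd c w i j k • mv c i j k + h • n - c i‖ =
      Real.sqrt (de c w i j ^ 2 + dd c w i j k ^ 2 + h ^ 2) := by
    rw [← (dist_axis c w hn h).1, Real.sqrt_sq (norm_nonneg _)]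
  simp only [h7]
  rw [← mul_div_assoc, hsg]

end Pool.Agent.Lib.MP_b2bfca_co.K3U
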