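import Pool.Agent.Lib.MP_b2bfca_co.K3U.AeT
import Pool.Agent.Lib.MP_b2bfca_co.K3U.VolTT

/-!
# The angle sum at a ball

PROOF. Integrate `ae_T` over `ball (c i) 1` (finite measure). For each `j, k` with `Dist3 i j k`:
`∫ x in ball, TI i j k x = sign (dd) * (volume (TT ∩ ball)).toReal = AA i j k / 3` (`AA_eq`;
if `dd = 0` both are `0`; otherwise `sn ≠ 0` since `dd` is a quotient by `sn`, and `TT` is
measurable). If not `Dist3`, both are `0`. The volume of the ball is `4π/3`
(`EuclideanSpace.volume_ball_fin_three`).
-/

set_option autoImplicit false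

namespace Pool.Agent.Lib.MP_b2bfca_co.K3U

open MeasureTheory

variable {ι : Type} [Fintype ι] (c : ι → E3) (w : ι → ℝ)

omit [Fintype ι] in
theorem SumA_term (hc : Function.Injective c) (i : ι)
    (hde : ∀ j, j ≠ i → 0 < de c w i j) (j k : ι) :
    IntegrableOn (TI c w i j k) (Metric.ball (c i) 1) volume ∧
      ∫ x in Metric.ball (c i) 1, TI c w i j k x = AA c w i j k / 3 := by
  by_cases h3 : Dist3 i j k
  · have hde' : 0 < de c w i j := hde j (Ne.symm h3.1)
    have hA := AA_eq c w hc h3 hde'
    by_cases hd : dd c w i j k = 0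
    · have hT : TI c w i j k = fun _ => 0 := by
        funext x
        simp [TI, h3, hd]
      rw [hT, hA, hd]
      simp
    · have hs : sn c i j k ≠ 0 := by
        intro h0
        apply hd
        simp [dd, h0]
      have hm := measurableSet_TT c w hc h3 hde' hs hd
      have hT : TI c w i j k = fun x => Real.sign (dd c w i j k) *
          Set.indicator (TT c w i j k) (1 : E3 → ℝ) x := by
        funext x
        simp [TI, h3]
      have hfin : volume (Metric.ball (c i) 1) ≠ ⊤ := measure_ball_lt_top.ne
      have hI : IntegrableOn (Set.indicator (TT c w i j k) (1 : E3 → ℝ))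
          (Metric.ball (c i) 1) volume := by
        have h1 : IntegrableOn (1 : E3 → ℝ) (Metric.ball (c i) 1) volume :=
          integrableOn_const hfin
        exact h1.indicator hm
      refine ⟨?_, ?_⟩
      · rw [hT]
        exact hI.const_mul _
      · rw [hT, integral_const_mul, setIntegral_indicator hm, hA]
        have h1 : ∫ x in Metric.ball (c i) 1 ∩ TT c w i j k, (1 : E3 → ℝ) x =
            (volume (TT c w i j k ∩ Metric.ball (c i) 1)).toReal := by
          rw [Set.inter_comm]
          simp [Measure.real]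
        rw [h1]
        ring
  · have hT : TI c w i j k = fun _ => 0 := by
      funext x
      simp [TI, h3]
    have hA : AA c w i j k = 0 := by simp [AA, h3]
    rw [hT, hA]
    simp

theorem sum_AA_le (hc : Function.Injective c) (hg : Gen c w) (i : ι)
    (hde : ∀ j, j ≠ i → 0 < de c w i j) :
    ∑ j, ∑ k, AA c w i j k ≤ 4 * Real.pi := by
  have hfin : volume (Metric.ball (c i) 1) ≠ ⊤ := measure_ball_lt_top.ne
  have h1 : ∀ j k, IntegrableOn (TI c w i j k) (Metric.ball (c i) 1) volume :=
    fun j k => (SumA_term c w hc i hde j k).1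
  have h2 : ∫ x in Metric.ball (c i) 1, ∑ j, ∑ k, TI c w i j k x =
      ∑ j, ∑ k, AA c w i j k / 3 := by
    rw [integral_finsetSum _ (fun j _ => integrable_finsetSum _ (fun k _ => h1 j k))]
    refine Finset.sum_congr rfl fun j _ => ?_
    rw [integral_finsetSum _ (fun k _ => h1 j k)]
    exact Finset.sum_congr rfl fun k _ => (SumA_term c w hc i hde j k).2
  have h3 : ∫ x in Metric.ball (c i) 1, ∑ j, ∑ k, TI c w i j k x ≤
      ∫ x in Metric.ball (c i) 1, (1 : ℝ) := by
    refine integral_mono_ae ?_ ?_ ?_
    · exact integrable_finsetSum _ (fun j _ => integrable_finsetSum _ (fun k _ => h1 j k))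
    · exact integrableOn_const hfin
    · exact ae_restrict_of_ae (ae_T c w hc hg i hde)
  have h4 : ∫ x in Metric.ball (c i) 1, (1 : ℝ) = 4 * Real.pi / 3 := by
    rw [setIntegral_const, Measure.real, EuclideanSpace.volume_ball_fin_three]
    rw [ENNReal.ofReal_one, one_pow, one_mul, ENNReal.toReal_ofReal (by positivity)]
    simp only [smul_eq_mul]
    ring
  have h5 : ∑ j, ∑ k, AA c w i j k / 3 = (∑ j, ∑ k, AA c w i j k) / 3 := by
    rw [Finset.sum_div]
    refine Finset.sum_congr rfl fun j _ => ?_
    rw [Finset.sum_div]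
  rw [h2, h4, h5] at h3
  linarith

end Pool.Agent.Lib.MP_b2bfca_co.K3U
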